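import Pool.Agent.Lib.MP_39893a_lc.ORD.Spec2
import Pool.Agent.Lib.MP_39893a_lc.AGL.REP

section
/-!
# MP_39893a_lc, ORD, module AGC: the code of the transducer of a grammar
-/
set_option autoImplicit false

namespace Pool.Agent.Lib.MP_39893a_lc.ORD

open AGL

namespace AGCM

variable {A B : List ℕ}

theorem call0_code : (Rhs.call 0 0 0 Fin.elim0).code = [(2, 0, 0, 0)] := by
  simp [Rhs.code]

theorem sbC_append (q : ℕ) (f : ℕ → ℕ → List Tok) (par : ℕ → List Tok) (v w : List Tok) :
    sbC q f par (v ++ w) = sbC q f par v ++ sbC q f par w := by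
  simp [sbC]

theorem sbC_flatten (q : ℕ) (f : ℕ → ℕ → List Tok) (par : ℕ → List Tok) (l : List (List Tok)) :
    sbC q f par l.flatten = (l.map (sbC q f par)).flatten := by
  induction l with
  | nil => rfl
  | cons w l ih => rw [List.flatten_cons, sbC_append, ih]; rfl

theorem range_flatMap_ofFn {q : ℕ} (g : Fin q → List Tok) (f : ℕ → List Tok)
    (h : ∀ b : Fin q, f b = g b) : (List.range q).flatMap f = (List.ofFn g).flatten := by
  rw [List.flatMap_def]
  congr 1
  apply List.ext_getElem?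
  intro n
  rw [List.getElem?_map, List.getElem?_ofFn]
  by_cases hn : n < q
  · rw [List.getElem?_range hn, dif_pos hn]
    simp [← h ⟨n, hn⟩]
  · rw [List.getElem?_eq_none (by simpa using hn), dif_neg hn]
    rfl

theorem sb_code {p q : ℕ} (B : List ℕ) (r : ℕ) (f : ℕ → Fin q → Rhs) (par : Fin q → Rhs)
    (fC : ℕ → ℕ → List Tok) (parC : ℕ → List Tok)
    (hf : ∀ i, i < r → ∀ b : Fin q, fC i b = (f i b).code)
    (hpar : ∀ b : Fin q, parC b = (par b).code) :
    ∀ t : ATm p q, t.WF B r → (sb f par t).code = sbC q fC parC (codeT t)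
  | .syn a i, h => by
      have h1 := range_flatMap_ofFn (fun b => (f i b).code) (fC i) (hf i h)
      simp only [sb, Rhs.code, codeT, sbC, List.flatMap_cons, List.flatMap_nil, if_true,
        List.append_nil]
      rw [← h1]
  | .inh b, _ => by
      simp [sb, codeT, sbC, hpar b]
  | .out g n c, h => by
      simp only [sb, Rhs.code, codeT]
      rw [sbC_append, sbC_flatten]
      congr 1
      · congr 1
        rw [List.map_ofFn]
        congr 1
        funext i
        exact sb_code B r f par fC parC hf hpar (c i) (h.2 i)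

theorem sb_code' {p q : ℕ} (f : ℕ → Fin q → Rhs) (par : Fin q → Rhs)
    (fC : ℕ → ℕ → List Tok) (parC : ℕ → List Tok)
    (hf : ∀ i, ∀ b : Fin q, fC i b = (f i b).code)
    (hpar : ∀ b : Fin q, parC b = (par b).code) :
    ∀ t : ATm p q, (sb f par t).code = sbC q fC parC (codeT t)
  | .syn a i => by
      have h1 := range_flatMap_ofFn (fun b => (f i b).code) (fC i) (hf i)
      simp only [sb, Rhs.code, codeT, sbC, List.flatMap_cons, List.flatMap_nil, if_true,
        List.append_nil]
      rw [← h1]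
  | .inh b => by
      simp [sb, codeT, sbC, hpar b]
  | .out g n c => by
      simp only [sb, Rhs.code, codeT]
      rw [sbC_append, sbC_flatten]
      congr 1
      · congr 1
        rw [List.map_ofFn]
        congr 1
        funext i
        exact sb_code' f par fC parC hf hpar (c i)

/-- The table of the codes of the inherited rules. -/
def tabC (G : AG A B) (σ : ℕ) : List (List (List Tok)) :=
  (List.range (A.getD σ 0)).map fun i => List.ofFn fun b => codeT (G.inh σ i b)

theorem inh_code (G : AG A B) (σ r : ℕ) (hσ : A[σ]? = some r) (par : Fin G.q → Rhs)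
    (parC : List (List Tok)) (hpar : ∀ b : Fin G.q, parC.getD b [] = (par b).code) :
    ∀ (n i : ℕ), i < r → ∀ b : Fin G.q,
      ((inhC G.q (tabC G σ) parC n).getD i []).getD b [(2, 0, 0, 0)]
        = (inhR G σ par n i b).code := by
  have hr : A.getD σ 0 = r := by
    rw [List.getD_eq_getElem?_getD, hσ]
    rfl
  intro n
  induction n with
  | zero =>
    intro i hi b
    simp only [inhC, inhR, call0_code, tabC, List.getD_eq_getElem?_getD, List.getElem?_map]
    rw [hσ, Option.getD_some, List.getElem?_range hi]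
    simp
  | succ n ih =>
    intro i hi b
    simp only [inhC, inhR]
    rw [sb_code B r (inhR G σ par n) par
      (fun i b => ((inhC G.q (tabC G σ) parC n).getD i []).getD b [(2, 0, 0, 0)])
      (fun b => parC.getD b []) ih hpar _ (G.wf_inh σ r i b hσ hi)]
    have ht : (tabC G σ)[i]? = some (List.ofFn fun b => codeT (G.inh σ i b)) := by
      rw [tabC, List.getElem?_map, hr, List.getElem?_range hi]
      rfl
    simp [List.getD_eq_getElem?_getD, ht]

end AGCM

open AGCM in
theorem specAGC : SpecAGC := by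
  intro hW A B G hG
  unfold DMTT.code trC
  refine Prod.ext rfl ?_
  have hlen : (trG hW G hG).params.length = 1 + G.p := by
    simp [trG]
    omega
  simp only [hlen]
  refine List.map_congr_left fun q hq => ?_
  refine List.map_congr_left fun σ hσ => ?_
  have hσ' := List.mem_range.1 hσ
  have hq' := List.mem_range.1 hq
  obtain ⟨r, hr⟩ : ∃ r, A[σ]? = some r := ⟨A[σ], List.getElem?_eq_getElem hσ'⟩
  have hrD : A.getD σ 0 = r := by
    rw [List.getD_eq_getElem?_getD, hr]
    rfl
  have htab : (codeAG G).2.2.1.getD σ [] = tabC G σ := by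
    simp only [codeAG, List.getD_eq_getElem?_getD, List.getElem?_map]
    rw [List.getElem?_range hσ']
    simp [tabC]
  have hsyn : ∀ a : Fin G.p, ((codeAG G).2.1.getD σ []).getD a [] = codeT (G.syn σ a) := by
    intro a
    simp only [codeAG, List.getD_eq_getElem?_getD, List.getElem?_map]
    rw [List.getElem?_range hσ']
    simp
  have key : ∀ (par : Fin G.q → Rhs) (parC : List (List Tok)),
      (∀ b : Fin G.q, parC.getD b [] = (par b).code) → ∀ a : Fin G.p,
      (synR G σ par a).code = sbC G.q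
        (fun i b => ((inhC G.q (tabC G σ) parC (A.getD σ 0)).getD i []).getD b [(2, 0, 0, 0)])
        (fun b => parC.getD b []) (codeT (G.syn σ a)) := by
    intro par parC hpar a
    exact sb_code B r _ par _ _ (inh_code G σ r hr par parC hpar _) hpar _ (G.wf_syn σ r a hr)
  show (ruleR G q σ).map Rhs.code = _
  unfold ruleR
  by_cases h0 : q = 0
  · subst h0
    simp only [if_true, Option.map_some]
    rw [key (rootR G) ((codeAG G).2.2.2.map fun w =>
      sbC G.q (fun _ _ => [(2, 0, 0, 0)]) (fun _ => [(2, 0, 0, 0)]) w) ?_ G.a0, htab]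
    · have h1 := hsyn G.a0
      simp only [codeAG] at h1 ⊢
      rw [h1]
    · intro b
      rw [rootR, sb_code' _ _ (fun _ _ => [(2, 0, 0, 0)]) (fun _ => [(2, 0, 0, 0)])
        (fun _ _ => call0_code.symm) (fun _ => call0_code.symm)]
      simp [codeAG, List.getD_eq_getElem?_getD]
  · have h1 : q - 1 < G.p := by omega
    rw [if_neg h0, dif_pos h1]
    simp only [Option.map_some, if_neg h0]
    rw [key (fun b => .param b) ((List.range G.q).map fun b => [(0, b, 0, 0)]) ?_ ⟨q - 1, h1⟩, htab]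
    · have h2 := hsyn ⟨q - 1, h1⟩
      simp only [codeAG] at h2 ⊢
      rw [h2]
    · intro b
      simp [Rhs.code, List.getD_eq_getElem?_getD]

end Pool.Agent.Lib.MP_39893a_lc.ORD
end

section
/-!
# Module AGE: the transducer of a one-visit grammar computes its attributes
-/
set_option autoImplicit false

namespace Pool.Agent.Lib.MP_39893a_lc.ORD.AGEM

open AGL AGL.AGSM

variable {A B : List ℕ} (G : AG A B)

/-- Values at output symbols. -/
theorem eval_out (ρ : ℕ → Option Tree) (F : ℕ → ℕ → (ℕ → Option Tree) → Option Tree) (f r : ℕ)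
    (c : Fin r → Rhs) (t : Fin r → Tree) (h : ∀ i, (c i).eval ρ F = some (t i)) :
    (Rhs.out f r c).eval ρ F = some (.node f r t) := by
  rw [Rhs.eval]
  have h1 : ∀ i, ((c i).eval ρ F).isSome := fun i => by rw [h i]; rfl
  rw [dif_pos h1]
  congr 2
  funext i
  simp [h i]

/-- Values of a right-hand side whose children are good. -/
theorem sb_good (s : Tree) (w : List ℕ) (f : ℕ → Fin G.q → Rhs) (par : Fin G.q → Rhs)
    (ρ : ℕ → Option Tree) (F : ℕ → ℕ → (ℕ → Option Tree) → Option Tree) (good : ℕ → Prop)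
    (hpar : ∀ b, ∃ t, (par b).eval ρ F = some t ∧ G.Ev s w (.inh b) t)
    (hf : ∀ j, good j → ∀ b, ∃ t, (f j b).eval ρ F = some t ∧ G.Ev s (w ++ [j]) (.inh b) t)
    (hF : ∀ j, good j → ∀ (a : Fin G.p) (ρ' : ℕ → Option Tree),
      (∀ b : Fin G.q, ∃ t, ρ' b = some t ∧ G.Ev s (w ++ [j]) (.inh b) t) →
      ∃ t, F j (1 + a) ρ' = some t ∧ G.Ev s w (.syn a j) t)
    (τ : ATm G.p G.q) (hτ : Ok good τ) :
    ∃ t, (sb f par τ).eval ρ F = some t ∧ G.Ev s w τ t := by
  induction τ with
  | syn a j =>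
    simp only [sb, Rhs.eval]
    refine hF j hτ a _ fun b => ?_
    rw [dif_pos b.2]
    exact hf j hτ b
  | inh b => exact hpar b
  | out g r c ih =>
    choose t ht using fun i => ih i (hτ i)
    exact ⟨.node g r t, eval_out ρ F g r _ t fun i => (ht i).1,
      AG.Ev.out w g r c t fun i => (ht i).2⟩

/-- Values of terms without attributes. -/
theorem ground_good (s : Tree) (w : List ℕ) (f : ℕ → Fin G.q → Rhs) (par : Fin G.q → Rhs)
    (ρ : ℕ → Option Tree) (F : ℕ → ℕ → (ℕ → Option Tree) → Option Tree)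
    (τ : ATm G.p G.q) (h1 : NoSyn τ) (h2 : τ.NoInh) :
    ∃ t, (sb f par τ).eval ρ F = some t ∧ G.Ev s w τ t := by
  induction τ with
  | syn a j => exact h1.elim
  | inh b => exact h2.elim
  | out g r c ih =>
    choose t ht using fun i => ih i (h1 i) (h2 i)
    exact ⟨.node g r t, eval_out ρ F g r _ t fun i => (ht i).1,
      AG.Ev.out w g r c t fun i => (ht i).2⟩

theorem ok_and {p q : ℕ} (good good' : ℕ → Prop) (τ : ATm p q) (h : Ok good τ) (h' : Ok good' τ) :
    Ok (fun j => good j ∧ good' j) τ := by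
  induction τ with
  | syn a i => exact ⟨h, h'⟩
  | inh b => trivial
  | out f n c ih => exact fun i => ih i (h i) (h' i)

theorem ok_below {p q : ℕ} (o : ℕ → ℕ) (k : ℕ) (τ : ATm p q) (h : SynBelow o k τ) :
    Ok (fun j => o j < k) τ := by
  induction τ with
  | syn a i => exact h
  | inh b => trivial
  | out f n c ih => exact fun i => ih i (h i)

/-- The number of the smaller children. -/
def cnt (o : ℕ → ℕ) (r i : ℕ) : ℕ := ((Finset.range r).filter fun j => o j < o i).card

theorem cnt_lt (o : ℕ → ℕ) (r i : ℕ) (h : i < r) : cnt o r i < r := by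
  have h1 : (Finset.range r).filter (fun j => o j < o i) ⊂ Finset.range r := by
    refine ⟨Finset.filter_subset _ _, fun h2 => ?_⟩
    have h3 := h2 (Finset.mem_range.2 h)
    simp at h3
  have h2 := Finset.card_lt_card h1
  rwa [Finset.card_range] at h2

theorem cnt_lt_cnt (o : ℕ → ℕ) (r i j : ℕ) (hj : j < r) (h : o j < o i) :
    cnt o r j < cnt o r i := by
  apply Finset.card_lt_card
  refine ⟨fun l hl => ?_, fun h2 => ?_⟩
  · rw [Finset.mem_filter] at hl ⊢
    exact ⟨hl.1, hl.2.trans h⟩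
  · have h3 := h2 (Finset.mem_filter.2 ⟨Finset.mem_range.2 hj, h⟩)
    rw [Finset.mem_filter] at h3
    exact lt_irrefl _ h3.2

/-- Values of the unrolled inherited attributes of the children. -/
theorem inh_good (s : Tree) (w : List ℕ) (σ r : ℕ) (c : Fin r → Tree) (hA : A[σ]? = some r)
    (hn : nd s w = some (.node σ r c)) (o : ℕ → ℕ) (hv : VisitAt G σ o) (par : Fin G.q → Rhs)
    (ρ : ℕ → Option Tree) (F : ℕ → ℕ → (ℕ → Option Tree) → Option Tree)
    (hpar : ∀ b, ∃ t, (par b).eval ρ F = some t ∧ G.Ev s w (.inh b) t)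
    (hF : ∀ j, j < r → ∀ (a : Fin G.p) (ρ' : ℕ → Option Tree),
      (∀ b : Fin G.q, ∃ t, ρ' b = some t ∧ G.Ev s (w ++ [j]) (.inh b) t) →
      ∃ t, F j (1 + a) ρ' = some t ∧ G.Ev s w (.syn a j) t) (n : ℕ) :
    ∀ i, i < r → cnt o r i < n → ∀ b, ∃ t, (inhR G σ par n i b).eval ρ F = some t ∧
      G.Ev s (w ++ [i]) (.inh b) t := by
  induction n with
  | zero => intro i _ h; exact absurd h (Nat.not_lt_zero _)
  | succ n ih =>
    intro i hi hc b
    have h1 : Ok (fun j => j < r ∧ o j < o i) (G.inh σ i b) :=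
      ok_and _ _ _ (ok_wf B r _ (G.wf_inh σ r i b hA hi)) (ok_below o _ _ (hv r i b hA hi))
    obtain ⟨t, ht1, ht2⟩ := sb_good G s w (inhR G σ par n) par ρ F _ hpar
      (fun j hj b' => ih j hj.1 (by have := cnt_lt_cnt o r i j hj.1 hj.2; omega) b')
      (fun j hj => hF j hj.1) (G.inh σ i b) h1
    exact ⟨t, ht1, AG.Ev.inh w i b σ r c t hn hi ht2⟩

/-- Values of the rules at a node. -/
theorem syn_good (s : Tree) (w : List ℕ) (σ r : ℕ) (c : Fin r → Tree) (hA : A[σ]? = some r)
    (hn : nd s w = some (.node σ r c)) (o : ℕ → ℕ) (hv : VisitAt G σ o) (par : Fin G.q → Rhs)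
    (ρ : ℕ → Option Tree) (F : ℕ → ℕ → (ℕ → Option Tree) → Option Tree)
    (hpar : ∀ b, ∃ t, (par b).eval ρ F = some t ∧ G.Ev s w (.inh b) t)
    (hF : ∀ j, j < r → ∀ (a : Fin G.p) (ρ' : ℕ → Option Tree),
      (∀ b : Fin G.q, ∃ t, ρ' b = some t ∧ G.Ev s (w ++ [j]) (.inh b) t) →
      ∃ t, F j (1 + a) ρ' = some t ∧ G.Ev s w (.syn a j) t) (a : Fin G.p) :
    ∃ t, (synR G σ par a).eval ρ F = some t ∧ G.Ev s w (G.syn σ a) t := by
  have h1 : A.getD σ 0 = r := by rw [List.getD_eq_getElem?_getD, hA]; rfl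
  refine sb_good G s w _ par ρ F (fun j => j < r) hpar (fun j hj b => ?_) hF _
    (ok_wf B r _ (G.wf_syn σ r a hA))
  rw [h1]
  exact inh_good G s w σ r c hA hn o hv par ρ F hpar hF r j hj (cnt_lt o r j hj) b

theorem ruleR_succ (a : Fin G.p) (σ : ℕ) :
    ruleR G (1 + a) σ = some (synR G σ (fun b => .param b) a) := by
  have h1 : 1 + (a : ℕ) ≠ 0 := by omega
  have h2 : 1 + (a : ℕ) - 1 < G.p := by have := a.2; omega
  rw [ruleR, if_neg h1, dif_pos h2]
  congr 2
  apply Fin.ext
  show 1 + (a : ℕ) - 1 = a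
  omega

/-- Values of the states at the nodes. -/
theorem run_good (hW : SpecAGW) (hG : ConstRoot G)
    (hv : ∀ σ < A.length, ∃ ρ : ℕ → ℕ, Function.Injective ρ ∧ VisitAt G σ ρ) (s : Tree)
    (hs : Ranked A s) (v : Tree) : ∀ (u : List ℕ) (i : ℕ), nd s (u ++ [i]) = some v →
    ∀ (a : Fin G.p) (ρ : ℕ → Option Tree),
    (∀ b : Fin G.q, ∃ t, ρ b = some t ∧ G.Ev s (u ++ [i]) (.inh b) t) →
    ∃ t, (trG hW G hG).run v (1 + a) ρ = some t ∧ G.Ev s u (.syn a i) t := by
  induction v with
  | node σ r c ih =>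
    intro u i hn a ρ hρ
    have hA : A[σ]? = some r := (ranked_nd A s _ _ hs hn).1
    have hσ : σ < A.length := by
      by_contra h
      rw [List.getElem?_eq_none (by omega)] at hA
      exact absurd hA (by simp)
    obtain ⟨o, -, ho⟩ := hv σ hσ
    obtain ⟨t, ht1, ht2⟩ := syn_good G s (u ++ [i]) σ r c hA hn o ho (fun b => .param b) ρ
      (fun j q' ρ' => if h : j < r then (trG hW G hG).run (c ⟨j, h⟩) q' ρ' else none) hρ
      (fun j hj a' ρ' hρ' => by
        rw [dif_pos hj]
        exact ih ⟨j, hj⟩ (u ++ [i]) j (nd_append s (u ++ [i]) j σ r c hn hj) a' ρ' hρ') a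
    refine ⟨t, ?_, AG.Ev.syn u a i σ r c t hn ht2⟩
    rw [DMTT.run]
    have h1 : (trG hW G hG).rule (1 + a) σ = some (synR G σ (fun b => .param b) a) :=
      ruleR_succ G a σ
    rw [h1]
    exact ht1

/-- The value at the root. -/
theorem tau_good (hW : SpecAGW) (hG : ConstRoot G)
    (hv : ∀ σ < A.length, ∃ ρ : ℕ → ℕ, Function.Injective ρ ∧ VisitAt G σ ρ) (s : Tree)
    (hs : Ranked A s) : ∃ t, (trG hW G hG).tau s = some t ∧ G.Val s t := by
  cases s with
  | node σ r c =>
    have hn : nd (.node σ r c) ([] ++ [0]) = some (.node σ r c) := by simp [nd, sub]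
    have hA : A[σ]? = some r := hs.1
    have hσ : σ < A.length := by
      by_contra h
      rw [List.getElem?_eq_none (by omega)] at hA
      exact absurd hA (by simp)
    obtain ⟨o, -, ho⟩ := hv σ hσ
    obtain ⟨t, ht1, ht2⟩ := syn_good G (.node σ r c) ([] ++ [0]) σ r c hA hn o ho (rootR G)
      (fun _ => none)
      (fun j q' ρ' => if h : j < r then (trG hW G hG).run (c ⟨j, h⟩) q' ρ' else none)
      (fun b => by
        obtain ⟨t, ht1, ht2⟩ := ground_good G (.node σ r c) []
          (fun _ _ => .call 0 0 0 Fin.elim0) (fun _ => .call 0 0 0 Fin.elim0) (fun _ => none)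
          (fun j q' ρ' => if h : j < r then (trG hW G hG).run (c ⟨j, h⟩) q' ρ' else none)
          (G.root b) (hG b) (G.wf_root b).2
        exact ⟨t, ht1, AG.Ev.root b t ht2⟩)
      (fun j hj a' ρ' hρ' => by
        rw [dif_pos hj]
        exact run_good G hW hG hv (.node σ r c) hs (c ⟨j, hj⟩) ([] ++ [0]) j
          (nd_append _ ([] ++ [0]) j σ r c hn hj) a' ρ' hρ') G.a0
    refine ⟨t, ?_, AG.Ev.syn [] G.a0 0 σ r c t hn ht2⟩
    rw [DMTT.tau, DMTT.run]
    have h1 : (trG hW G hG).rule 0 σ = some (synR G σ (rootR G) G.a0) := by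
      show ruleR G 0 σ = _
      rw [ruleR, if_pos rfl]
    rw [h1]
    exact ht1

end Pool.Agent.Lib.MP_39893a_lc.ORD.AGEM

namespace Pool.Agent.Lib.MP_39893a_lc.ORD.AGEM

open AGL AGL.AGSM

theorem specAGE : SpecAGE := by
  intro hW A B G hG hv s hs t
  obtain ⟨t', h1, h2⟩ := tau_good G hW hG hv s hs
  constructor
  · intro h
    rw [h1] at h
    injection h with h
    rw [← h]
    exact h2
  · intro h
    rw [functional G s _ _ _ h t' h2]
    exact h1

end Pool.Agent.Lib.MP_39893a_lc.ORD.AGEM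
end

section
/-!
# MP_39893a_lc, ORD, module AGO: the transducer of a one-visit grammar is ordered
-/
set_option autoImplicit false

namespace Pool.Agent.Lib.MP_39893a_lc.ORD

open AGL

namespace AGOM

variable {A B : List ℕ}

theorem below_mono (ρ : ℕ → ℕ) {k k' : ℕ} (hk : k ≤ k') : ∀ ζ : Rhs, ζ.Below ρ k → ζ.Below ρ k'
  | .param _, _ => trivial
  | .out _ _ c, h => fun i => below_mono ρ hk (c i) (h i)
  | .call _ _ _ c, h => ⟨h.1.trans_le hk, fun l => below_mono ρ hk (c l) (h.2 l)⟩

theorem sb_good {p q : ℕ} (B : List ℕ) (r : ℕ) (ρ : ℕ → ℕ) (k : ℕ)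
    (f : ℕ → Fin q → Rhs) (par : Fin q → Rhs)
    (hf : ∀ i, i < r → ρ i < k → ∀ b, (f i b).Ordered ρ ∧ (f i b).Below ρ (ρ i))
    (hpar : ∀ b, (par b).Ordered ρ ∧ ∀ k, (par b).Below ρ k) :
    ∀ t : ATm p q, t.WF B r → SynBelow ρ k t → (sb f par t).Ordered ρ ∧ (sb f par t).Below ρ k
  | .syn _ i, h, h' => ⟨fun l => ⟨(hf i h h' l).2, (hf i h h' l).1⟩,
      ⟨h', fun l => below_mono ρ (le_of_lt h') _ (hf i h h' l).2⟩⟩
  | .inh b, _, _ => ⟨(hpar b).1, (hpar b).2 k⟩
  | .out _ _ c, h, h' =>
      ⟨fun i => (sb_good B r ρ k f par hf hpar (c i) (h.2 i) (h' i)).1,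
        fun i => (sb_good B r ρ k f par hf hpar (c i) (h.2 i) (h' i)).2⟩

theorem const_good {p q : ℕ} (ρ : ℕ → ℕ) (f : ℕ → Fin q → Rhs) (par : Fin q → Rhs) :
    ∀ t : ATm p q, t.NoInh → NoSyn t → (sb f par t).Ordered ρ ∧ ∀ k, (sb f par t).Below ρ k
  | .syn _ _, _, h => h.elim
  | .inh _, h, _ => h.elim
  | .out _ _ c, h1, h2 => ⟨fun i => (const_good ρ f par (c i) (h1 i) (h2 i)).1,
      fun k i => (const_good ρ f par (c i) (h1 i) (h2 i)).2 k⟩

theorem inhR_good (G : AG A B) (σ r : ℕ) (hσ : A[σ]? = some r) (ρ : ℕ → ℕ)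
    (hV : VisitAt G σ ρ) (par : Fin G.q → Rhs)
    (hpar : ∀ b, (par b).Ordered ρ ∧ ∀ k, (par b).Below ρ k) :
    ∀ (n i : ℕ), i < r → ((Finset.range r).filter fun j => ρ j < ρ i).card < n →
      ∀ b, (inhR G σ par n i b).Ordered ρ ∧ (inhR G σ par n i b).Below ρ (ρ i)
  | 0, _, _, h, _ => absurd h (Nat.not_lt_zero _)
  | n + 1, i, hi, h, b => by
      refine sb_good B r ρ (ρ i) _ par (fun j hj hji => inhR_good G σ r hσ ρ hV par hpar n j hj ?_)
        hpar _ (G.wf_inh σ r i b hσ hi) (hV r i b hσ hi)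
      have hss : ((Finset.range r).filter fun l => ρ l < ρ j) ⊂
          ((Finset.range r).filter fun l => ρ l < ρ i) := by
        refine (Finset.ssubset_iff_of_subset ?_).2 ⟨j, ?_, ?_⟩
        · intro l hl
          rw [Finset.mem_filter] at hl ⊢
          exact ⟨hl.1, hl.2.trans hji⟩
        · rw [Finset.mem_filter, Finset.mem_range]
          exact ⟨hj, hji⟩
        · rw [Finset.mem_filter]
          exact fun h => lt_irrefl _ h.2
      have := Finset.card_lt_card hss
      omega

theorem synBelow_top {p q : ℕ} (B : List ℕ) (r : ℕ) (ρ : ℕ → ℕ) (k : ℕ)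
    (hk : ∀ i, i < r → ρ i < k) : ∀ t : ATm p q, t.WF B r → SynBelow ρ k t
  | .syn _ i, h => hk i h
  | .inh _, _ => trivial
  | .out _ _ c, h => fun i => synBelow_top B r ρ k hk (c i) (h.2 i)

theorem synR_good (G : AG A B) (σ r : ℕ) (hσ : A[σ]? = some r) (ρ : ℕ → ℕ)
    (hV : VisitAt G σ ρ) (par : Fin G.q → Rhs)
    (hpar : ∀ b, (par b).Ordered ρ ∧ ∀ k, (par b).Below ρ k) (a : Fin G.p) :
    (synR G σ par a).Ordered ρ := by
  have hr : A.getD σ 0 = r := by
    rw [List.getD_eq_getElem?_getD, hσ]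
    rfl
  have hk : ∀ i, i < r → ρ i < (Finset.range r).sup (fun i => ρ i) + 1 := fun i hi =>
    Nat.lt_succ_of_le (Finset.le_sup (f := fun i => ρ i) (Finset.mem_range.2 hi))
  refine (sb_good B r ρ _ _ par (fun j hj _ => inhR_good G σ r hσ ρ hV par hpar _ j hj ?_)
    hpar _ (G.wf_syn σ r a hσ) (synBelow_top B r ρ _ hk _ (G.wf_syn σ r a hσ))).1
  rw [hr]
  have hss : ((Finset.range r).filter fun l => ρ l < ρ j) ⊂ Finset.range r := by
    refine (Finset.ssubset_iff_of_subset (Finset.filter_subset _ _)).2 ⟨j, Finset.mem_range.2 hj, ?_⟩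
    rw [Finset.mem_filter]
    exact fun h => lt_irrefl _ h.2
  have := Finset.card_lt_card hss
  rwa [Finset.card_range] at this

end AGOM

open AGOM in
theorem specAGO : SpecAGO := by
  intro hW A B G hG a ρ ha hρ hV q m r ζ hm hr hζ
  have hζ' : ruleR G q a = some ζ := hζ
  unfold ruleR at hζ'
  split at hζ'
  · cases hζ'
    exact synR_good G a r hr ρ hV _ (fun b => const_good ρ _ _ _ (G.wf_root b).2 (hG b)) _
  · split at hζ'
    · cases hζ'
      have hpar : ∀ b : Fin G.q, (Rhs.param b).Ordered ρ ∧ ∀ k, (Rhs.param b).Below ρ k :=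
        fun b => ⟨trivial, fun _ => trivial⟩
      exact synR_good G a r hr ρ hV (fun b => Rhs.param b) hpar _
    · cases hζ'

end Pool.Agent.Lib.MP_39893a_lc.ORD
end

section
/-!
# The code of the transducer of a grammar is primitive recursive (hive ORD, module AGP)
-/
set_option autoImplicit false

namespace Pool.Agent.Lib.MP_39893a_lc.ORD.AGPM

variable {γ : Type} [Primcodable γ]

theorem psbC {q : γ → ℕ} {f : γ → ℕ → ℕ → List Tok} {par : γ → ℕ → List Tok}
    {w : γ → List Tok} (hq : Primrec q) (hf : Primrec fun p : γ × ℕ × ℕ => f p.1 p.2.1 p.2.2)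
    (hp : Primrec fun p : γ × ℕ => par p.1 p.2) (hw : Primrec w) :
    Primrec fun g => sbC (q g) (f g) (par g) (w g) := by
  unfold sbC
  refine Primrec.list_flatMap hw ?_
  have h1 : Primrec fun x : γ × Tok => x.2.1 := Primrec.fst.comp Primrec.snd
  have h2 : Primrec fun x : γ × Tok => x.2.2.1 :=
    Primrec.fst.comp (Primrec.snd.comp Primrec.snd)
  have h3 : Primrec fun x : γ × Tok => x.2.2.2.1 :=
    Primrec.fst.comp (Primrec.snd.comp (Primrec.snd.comp Primrec.snd))
  refine Primrec.ite (Primrec.eq.comp h1 (Primrec.const 2)) ?_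
    (Primrec.ite (Primrec.eq.comp h1 (Primrec.const 0)) ?_ ?_)
  · refine Primrec.list_append.comp ?_ (Primrec.list_cons.comp ?_ (Primrec.const []))
    · refine Primrec.list_flatMap (Primrec.list_range.comp (hq.comp Primrec.fst)) ?_
      exact hf.comp ((Primrec.fst.comp Primrec.fst).pair
        ((h3.comp Primrec.fst).pair Primrec.snd))
    · exact (Primrec.const 2).pair ((Primrec.nat_add.comp (Primrec.const 1) h2).pair
        (h3.pair (hq.comp Primrec.fst)))
  · exact hp.comp (Primrec.fst.pair h2)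
  · exact Primrec.list_cons.comp Primrec.snd (Primrec.const [])

theorem pinhC {q : γ → ℕ} {tab : γ → List (List (List Tok))} {par : γ → List (List Tok)}
    {n : γ → ℕ} (hq : Primrec q) (ht : Primrec tab) (hp : Primrec par) (hn : Primrec n) :
    Primrec fun g => inhC (q g) (tab g) (par g) (n g) := by
  have hstep : Primrec₂ fun (g : γ) (p : ℕ × List (List (List Tok))) =>
      (tab g).map fun row => row.map fun w =>
        sbC (q g) (fun i b => (p.2.getD i []).getD b [(2, 0, 0, 0)])
          (fun b => (par g).getD b []) w := by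
    refine Primrec.list_map (ht.comp Primrec.fst) ?_
    refine Primrec.list_map Primrec.snd ?_
    refine psbC (hq.comp (Primrec.fst.comp (Primrec.fst.comp Primrec.fst))) ?_ ?_ Primrec.snd
    · refine (Primrec.list_getD _).comp ((Primrec.list_getD _).comp ?_ ?_) ?_
      · exact Primrec.snd.comp (Primrec.snd.comp (Primrec.fst.comp
          (Primrec.fst.comp Primrec.fst)))
      · exact Primrec.fst.comp Primrec.snd
      · exact Primrec.snd.comp Primrec.snd
    · refine (Primrec.list_getD _).comp (hp.comp ?_) Primrec.snd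
      exact Primrec.fst.comp (Primrec.fst.comp (Primrec.fst.comp Primrec.fst))
  have hbase : Primrec fun g : γ => (tab g).map fun row => row.map fun _ : List Tok =>
      ([(2, 0, 0, 0)] : List Tok) := by
    refine Primrec.list_map ht ?_
    exact Primrec.list_map Primrec.snd (Primrec.const _)
  refine (Primrec.nat_rec' hn hbase hstep).of_eq fun g => ?_
  induction n g with
  | zero => rfl
  | succ m ih =>
    simp only at ih ⊢
    rw [ih]
    rfl

theorem prepl {n a : γ → ℕ} (hn : Primrec n) (ha : Primrec a) :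
    Primrec fun g => List.replicate (n g) (a g) := by
  have h : Primrec₂ fun (g : γ) (_ : ℕ) => a g := ha.comp Primrec.fst
  exact (Primrec.list_map (Primrec.list_range.comp hn) h).of_eq fun g => by
    simp [List.map_const']

theorem specAGP : SpecAGP := by
  show Primrec trC
  unfold trC
  have hp : Primrec fun x : List ℕ × CodeAG => x.2.1.1 :=
    Primrec.fst.comp (Primrec.fst.comp Primrec.snd)
  have hq : Primrec fun x : List ℕ × CodeAG => x.2.1.2.1 :=
    Primrec.fst.comp (Primrec.snd.comp (Primrec.fst.comp Primrec.snd))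
  have ha : Primrec fun x : List ℕ × CodeAG => x.2.1.2.2 :=
    Primrec.snd.comp (Primrec.snd.comp (Primrec.fst.comp Primrec.snd))
  have hs : Primrec fun x : List ℕ × CodeAG => x.2.2.1 :=
    Primrec.fst.comp (Primrec.snd.comp Primrec.snd)
  have hi : Primrec fun x : List ℕ × CodeAG => x.2.2.2.1 :=
    Primrec.fst.comp (Primrec.snd.comp (Primrec.snd.comp Primrec.snd))
  have hr : Primrec fun x : List ℕ × CodeAG => x.2.2.2.2 :=
    Primrec.snd.comp (Primrec.snd.comp (Primrec.snd.comp Primrec.snd))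
  refine Primrec.pair (Primrec.list_cons.comp (Primrec.const 0) (prepl hp hq)) ?_
  refine Primrec.list_map (Primrec.list_range.comp
    (Primrec.nat_add.comp (Primrec.const 1) hp)) ?_
  refine Primrec.list_map (Primrec.list_range.comp (Primrec.list_length.comp
    (Primrec.fst.comp Primrec.fst))) ?_
  have ex : Primrec fun g : ((List ℕ × CodeAG) × ℕ) × ℕ => g.1.1 :=
    Primrec.fst.comp Primrec.fst
  have eq : Primrec fun g : ((List ℕ × CodeAG) × ℕ) × ℕ => g.1.2 :=
    Primrec.snd.comp Primrec.fst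
  have eσ : Primrec fun g : ((List ℕ × CodeAG) × ℕ) × ℕ => g.2 := Primrec.snd
  have hpar : Primrec fun g : ((List ℕ × CodeAG) × ℕ) × ℕ =>
      (if g.1.2 = 0 then g.1.1.2.2.2.2.map fun w =>
          sbC g.1.1.2.1.2.1 (fun _ _ => [(2, 0, 0, 0)]) (fun _ => [(2, 0, 0, 0)]) w
        else (List.range g.1.1.2.1.2.1).map fun b => [(0, b, 0, 0)] : List (List Tok)) := by
    refine Primrec.ite (Primrec.eq.comp eq (Primrec.const 0)) ?_ ?_
    · refine Primrec.list_map (hr.comp ex) ?_
      exact psbC (hq.comp (ex.comp Primrec.fst)) (Primrec.const _) (Primrec.const _)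
        Primrec.snd
    · refine Primrec.list_map (Primrec.list_range.comp (hq.comp ex)) ?_
      exact Primrec.list_cons.comp ((Primrec.const 0).pair (Primrec.snd.pair
        (Primrec.const (0, 0)))) (Primrec.const [])
  have hinh := pinhC (hq.comp ex) ((Primrec.list_getD []).comp (hi.comp ex) eσ) hpar
    ((Primrec.list_getD 0).comp (Primrec.fst.comp ex) eσ)
  refine Primrec.option_some.comp ?_
  refine psbC (hq.comp ex) ?_ ?_ ?_
  · exact (Primrec.list_getD _).comp ((Primrec.list_getD _).comp (hinh.comp Primrec.fst)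
      (Primrec.fst.comp Primrec.snd)) (Primrec.snd.comp Primrec.snd)
  · exact (Primrec.list_getD _).comp (hpar.comp Primrec.fst) Primrec.snd
  · refine (Primrec.list_getD _).comp ((Primrec.list_getD _).comp (hs.comp ex) eσ) ?_
    exact Primrec.ite (Primrec.eq.comp eq (Primrec.const 0)) (ha.comp ex)
      (Primrec.nat_sub.comp eq (Primrec.const 1))

end Pool.Agent.Lib.MP_39893a_lc.ORD.AGPM
end

section
/-!
# MP_39893a_lc, ORD, module AGW: the transducer of a grammar is well formed
-/
set_option autoImplicit false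

namespace Pool.Agent.Lib.MP_39893a_lc.ORD

open AGL

namespace AGWM

variable {A B : List ℕ}

theorem sb_wf {p q : ℕ} (B Q : List ℕ) (m r : ℕ) (hQ : ∀ a : Fin p, Q[1 + (a : ℕ)]? = some q)
    (f : ℕ → Fin q → Rhs) (par : Fin q → Rhs) (hf : ∀ i, i < r → ∀ b, (f i b).WF B Q m r)
    (hpar : ∀ b, (par b).WF B Q m r) : ∀ t : ATm p q, t.WF B r → (sb f par t).WF B Q m r
  | .syn a i, h => ⟨hQ a, h, fun l => hf i h l⟩
  | .inh b, _ => hpar b
  | .out _ _ c, h => ⟨h.1, fun i => sb_wf B Q m r hQ f par hf hpar (c i) (h.2 i)⟩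

theorem const_wf {p q : ℕ} (B Q : List ℕ) (m r : ℕ) (f : ℕ → Fin q → Rhs) (par : Fin q → Rhs) :
    ∀ t : ATm p q, t.WF B 1 → t.NoInh → NoSyn t → (sb f par t).WF B Q m r
  | .syn _ _, _, _, h => h.elim
  | .inh _, _, h, _ => h.elim
  | .out _ _ c, h, h1, h2 => ⟨h.1, fun i => const_wf B Q m r f par (c i) (h.2 i) (h1 i) (h2 i)⟩

theorem inhR_wf (G : AG A B) (Q : List ℕ) (m σ r : ℕ) (hσ : A[σ]? = some r)
    (hQ0 : Q[0]? = some 0) (hQ : ∀ a : Fin G.p, Q[1 + (a : ℕ)]? = some G.q)
    (par : Fin G.q → Rhs) (hpar : ∀ b, (par b).WF B Q m r) :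
    ∀ (n i : ℕ), i < r → ∀ b, (inhR G σ par n i b).WF B Q m r
  | 0, _, hi, _ => ⟨hQ0, by omega, fun l => l.elim0⟩
  | n + 1, i, hi, b => sb_wf B Q m r hQ _ par (inhR_wf G Q m σ r hσ hQ0 hQ par hpar n) hpar _
      (G.wf_inh σ r i b hσ hi)

end AGWM

open AGWM in
theorem specAGW : SpecAGW := by
  intro A B G hG q m a r ζ hm ha hζ
  have hQ : ∀ x : Fin G.p, (0 :: List.replicate G.p G.q)[1 + (x : ℕ)]? = some G.q := by
    intro x
    rw [Nat.add_comm, List.getElem?_cons_succ, List.getElem?_replicate]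
    simp [x.2]
  have hQ0 : (0 :: List.replicate G.p G.q)[0]? = some 0 := rfl
  unfold ruleR at hζ
  split at hζ
  · next h0 =>
    subst h0
    cases hζ
    exact sb_wf B _ m r hQ _ _
      (inhR_wf G _ m a r ha hQ0 hQ _ (fun b => const_wf B _ m r _ _ _ (G.wf_root b).1
        (G.wf_root b).2 (hG b)) _)
      (fun b => const_wf B _ m r _ _ _ (G.wf_root b).1 (G.wf_root b).2 (hG b)) _
      (G.wf_syn a r G.a0 ha)
  · next h0 =>
    split at hζ
    · next h1 =>
      cases hζ
      have hmq : m = G.q := by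
        obtain ⟨q', rfl⟩ : ∃ q', q = q' + 1 := ⟨q - 1, by omega⟩
        rw [List.getElem?_cons_succ, List.getElem?_replicate] at hm
        split at hm
        · exact (Option.some.inj hm).symm
        · cases hm
      subst hmq
      have hpar : ∀ b : Fin G.q, (Rhs.param b).WF B (0 :: List.replicate G.p G.q) G.q r :=
        fun b => b.2
      exact sb_wf B _ _ r hQ _ (fun b => Rhs.param b) (inhR_wf G _ _ a r ha hQ0 hQ _ hpar _) hpar _
        (G.wf_syn a r _ ha)
    · cases hζ

end Pool.Agent.Lib.MP_39893a_lc.ORD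
end
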