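import Pool.Agent.Lib.MP_39893a_lc.Defs

/-!
# Ordered macro tree transducers (MP_39893a_lc, hive ORD)
-/

set_option autoImplicit false

namespace Pool.Agent.Lib.MP_39893a_lc

/-- Every call is on a subtree whose rank `ρ i` is less than `k`. -/
def Rhs.Below (ρ : ℕ → ℕ) (k : ℕ) : Rhs → Prop
  | .param _ => True
  | .out _ _ c => ∀ i, (c i).Below ρ k
  | .call _ i _ c => ρ i < k ∧ ∀ l, (c l).Below ρ k

/-- Calls in the arguments of a call on the `i`-th subtree are on subtrees which are smaller in
the order given by `ρ`. -/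
def Rhs.Ordered (ρ : ℕ → ℕ) : Rhs → Prop
  | .param _ => True
  | .out _ _ c => ∀ i, (c i).Ordered ρ
  | .call _ i _ c => ∀ l, (c l).Below ρ (ρ i) ∧ (c l).Ordered ρ

/-- The rules of `M` for the symbol `a` are ordered with respect to `ρ`. -/
def DMTT.OrderedAt {A B : List ℕ} (M : DMTT A B) (a : ℕ) (ρ : ℕ → ℕ) : Prop :=
  ∀ (q m r : ℕ) (ζ : Rhs), M.params[q]? = some m → A[a]? = some r → M.rule q a = some ζ →
    ζ.Ordered ρ

/-- For every input symbol there is a linear order of the subtrees such that in the rules of both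
transducers the calls in the arguments of a call on the `i`-th subtree are on smaller subtrees. -/
def CoOrdered {A B : List ℕ} (M₁ M₂ : DMTT A B) : Prop :=
  ∀ a < A.length, ∃ ρ : ℕ → ℕ, Function.Injective ρ ∧ M₁.OrderedAt a ρ ∧ M₂.OrderedAt a ρ

end Pool.Agent.Lib.MP_39893a_lc
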