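import Pool.Agent.Lib.MP_39893a_lc.Sound
import Pool.Agent.Lib.MP_39893a_lc.ORD.Order

/-!
# Ordered macro tree transducers: definitions (MP_39893a_lc, hive ORD)

Paper proof: /team-store/MP_39893a_ORD_h53.md.
-/

set_option autoImplicit false

namespace Pool.Agent.Lib.MP_39893a_lc

namespace ORD

/-! ## The monoid -/

/-- `Aⁿ v` for `A = [[2, 1], [1, 1]]`. -/
def twist : ℕ → ℤ × ℤ → ℤ × ℤ
  | 0, v => v
  | n + 1, v => (2 * (twist n v).1 + (twist n v).2, (twist n v).1 + (twist n v).2)

/-- The monoid `ℤ² ⋊ ℕ` with the product `(v, n) (w, m) = (v + Aⁿ w, n + m)`. -/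
def Mo : Type := ℤ × ℤ × ℕ

instance : DecidableEq Mo := inferInstanceAs (DecidableEq (ℤ × ℤ × ℕ))

/-- The product of `Mo`. -/
def Mo.mul (x y : Mo) : Mo :=
  (x.1 + (twist x.2.2 (y.1, y.2.1)).1, x.2.1 + (twist x.2.2 (y.1, y.2.1)).2, x.2.2 + y.2.2)

theorem twist_add (n : ℕ) (v w : ℤ × ℤ) : twist n (v + w) = twist n v + twist n w := by
  induction n with
  | zero => rfl
  | succ n ih =>
    rw [twist, twist, twist, ih]
    ext <;> simp <;> ring

theorem twist_twist (m n : ℕ) (v : ℤ × ℤ) : twist m (twist n v) = twist (m + n) v := by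
  induction m with
  | zero => rw [Nat.zero_add] <;> rfl
  | succ m ih => rw [twist, ih, Nat.succ_add, twist]

theorem twist_zero (n : ℕ) : twist n (0, 0) = (0, 0) := by
  induction n with
  | zero => rfl
  | succ n ih => rw [twist, ih]; simp

instance : Monoid Mo where
  mul := Mo.mul
  one := (0, 0, 0)
  mul_assoc x y z := by
    show Mo.mul (Mo.mul x y) z = Mo.mul x (Mo.mul y z)
    obtain ⟨a, b, n⟩ := x
    obtain ⟨c, d, m⟩ := y
    obtain ⟨e, f, l⟩ := z
    have h := twist_add n (c, d) (twist m (e, f))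
    rw [twist_twist] at h
    have h1 := congrArg Prod.fst h
    have h2 := congrArg Prod.snd h
    simp only [Mo.mul, Prod.fst_add, Prod.snd_add] at h1 h2 ⊢
    refine Prod.ext ?_ (Prod.ext ?_ ?_)
    · simp only
      have e1 : twist n (c + (twist m (e, f)).1, d + (twist m (e, f)).2)
        = twist n ((c, d) + twist m (e, f)) := rfl
      rw [e1, h1]
      ring
    · simp only
      have e1 : twist n (c + (twist m (e, f)).1, d + (twist m (e, f)).2)
        = twist n ((c, d) + twist m (e, f)) := rfl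
      rw [e1, h2]
      ring
    · simp only
      omega
  one_mul x := by
    show Mo.mul (0, 0, 0) x = x
    obtain ⟨a, b, n⟩ := x
    simp [Mo.mul, twist] <;> rfl
  mul_one x := by
    show Mo.mul x (0, 0, 0) = x
    obtain ⟨a, b, n⟩ := x
    simp [Mo.mul, twist_zero] <;> rfl

/-- The free letters `uʲ v`, `u = (0, 0, 1)`, `v = (1, 0, 1)`. -/
def letter (j : ℕ) : Mo := ((twist j (1, 0)).1, (twist j (1, 0)).2, j + 1)

/-- The coefficient ring. -/
abbrev D : Type := MonoidAlgebra ℤ Mo

/-! ## Formal noncommutative polynomials -/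

/-- Variables: number of the child, position in its coefficient vector. -/
abbrev Var : Type := ℕ × ℕ

/-- Words `g₀ x₁ g₁ x₂ ... gₙ` with variables `xᵢ` and `gᵢ` in `Mo`: the list of the pairs
`(gᵢ, xᵢ₊₁)`, and `gₙ`. -/
def Wd : Type := List (Mo × Var) × Mo

instance : DecidableEq Wd := inferInstanceAs (DecidableEq (List (Mo × Var) × Mo))

/-- Product of words. -/
def Wd.mul (u v : Wd) : Wd :=
  match v.1 with
  | [] => (u.1, u.2 * v.2)
  | p :: l => (u.1 ++ (u.2 * p.1, p.2) :: l, v.2)

instance : Monoid Wd where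
  mul := Wd.mul
  one := ([], 1)
  mul_assoc x y z := by
    show Wd.mul (Wd.mul x y) z = Wd.mul x (Wd.mul y z)
    obtain ⟨l, g⟩ := x
    obtain ⟨m, h⟩ := y
    obtain ⟨n, k⟩ := z
    cases m with
    | nil =>
      cases n with
      | nil => simp [Wd.mul, mul_assoc] <;> rfl
      | cons q n => simp [Wd.mul, mul_assoc] <;> rfl
    | cons p m =>
      cases n with
      | nil => simp [Wd.mul] <;> rfl
      | cons q n => simp [Wd.mul] <;> rfl
  one_mul x := by
    show Wd.mul ([], 1) x = x
    obtain ⟨l, g⟩ := x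
    cases l with
    | nil => simp [Wd.mul] <;> rfl
    | cons p l => simp [Wd.mul] <;> rfl
  mul_one x := by
    show Wd.mul x ([], 1) = x
    obtain ⟨l, g⟩ := x
    simp [Wd.mul] <;> rfl

/-- The ring of formal polynomials. -/
abbrev FR : Type := MonoidAlgebra ℤ Wd

/-- Value of a word, for a monoid homomorphism `φ` and values `ξ` of the variables. -/
def evW {R : Type} [Ring R] (φ : Mo →* R) (ξ : Var → R) : Wd →* R where
  toFun w := (w.1.map fun p => φ p.1 * ξ p.2).prod * φ w.2
  map_one' := by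
    show (List.map _ ([] : List (Mo × Var))).prod * φ 1 = 1
    simp
  map_mul' u v := by
    obtain ⟨l, g⟩ := u
    obtain ⟨m, h⟩ := v
    show (List.map _ (Wd.mul (l, g) (m, h)).1).prod * φ (Wd.mul (l, g) (m, h)).2 = _
    cases m with
    | nil => simp [Wd.mul, mul_assoc]
    | cons p m => simp [Wd.mul, mul_assoc]

/-- Value of a formal polynomial. -/
noncomputable def ev {R : Type} [Ring R] (φ : Mo →* R) (ξ : Var → R) : FR →+* R :=
  (MonoidAlgebra.lift ℤ R Wd (evW φ ξ) : FR →ₐ[ℤ] R).toRingHom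

/-- The inclusion of `Mo` in `D`. -/
noncomputable def toD : Mo →* D := MonoidAlgebra.of ℤ Mo

/-- Constant words. -/
def cw : Mo →* Wd where
  toFun g := ([], g)
  map_one' := rfl
  map_mul' _ _ := rfl

/-- The inclusion of `Mo` in `FR`. -/
noncomputable def toF : Mo →* FR := (MonoidAlgebra.of ℤ Wd).comp cw

/-- The inclusion of `D` in `FR`. -/
noncomputable def DtoF : D →+* FR := (MonoidAlgebra.lift ℤ FR Mo toF : D →ₐ[ℤ] FR).toRingHom

/-- A variable. -/
noncomputable def xv (v : Var) : FR := MonoidAlgebra.of ℤ Wd ([(1, v)], 1)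

/-- Positions of the definedness bits (dimension 1). -/
def isBit (t : ℕ) : Prop := t / 2 % 2 = 1

instance (t : ℕ) : Decidable (isBit t) := inferInstanceAs (Decidable (_ = _))

/-- The variables of the word are at positions `< N` which are not bits, and belong to children
`< r` whose ranks are `< k` and strictly decreasing. -/
def Wd.Decr (N r : ℕ) (ρ : ℕ → ℕ) (k : ℕ) (w : Wd) : Prop :=
  (w.1.map fun p => ρ p.2.1).Pairwise (· > ·) ∧
    ∀ p ∈ w.1, p.2.1 < r ∧ ρ p.2.1 < k ∧ p.2.2 < N ∧ ¬ isBit p.2.2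

/-- Formal sums of decreasing words. -/
def Dec (N r : ℕ) (ρ : ℕ → ℕ) (k : ℕ) (p : FR) : Prop := ∀ w ∈ p.coeff.support, w.Decr N r ρ k

/-- Formal sums of words with at most one variable, of the child `i`. -/
def Lin (N i : ℕ) (p : FR) : Prop :=
  ∀ w ∈ p.coeff.support, w.1.length ≤ 1 ∧ ∀ q ∈ w.1, q.2.1 = i ∧ q.2.2 < N ∧ ¬ isBit q.2.2

/-! ## Derivations -/

/-- Polynomials derivable from the hypotheses `H`: two-sided linear combinations, and the Ore
rule. -/
inductive Der (H : Set FR) : FR → Prop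
  | hyp (p : FR) : p ∈ H → Der H p
  | comb (n : ℕ) (u p v : Fin n → FR) : (∀ i, Der H (p i)) → Der H (∑ i, u i * p i * v i)
  | ore (m n : ℕ) (Fb Hb : Fin m → FR) (Fc Hc : Fin n → FR) (δ κ : D)
      (γ γ' : Fin m → Fin n → FR) : δ ≠ 0 → κ ≠ 0 →
      (∀ b c, DtoF δ * γ' b c = γ b c * DtoF κ) →
      (∀ c, Der H (Fc c * DtoF κ - ∑ b, Fb b * γ' b c)) →
      (∀ b, Der H (DtoF δ * Hb b + ∑ c, γ b c * Hc c)) →
      Der H (∑ b, Fb b * Hb b + ∑ c, Fc c * Hc c)

/-! ## Operations -/

/-- The operations of a ring. -/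
def nops (S : Type) [Ring S] : Ops S :=
  ⟨fun n => (n : S), (· + ·), (· * ·), fun a => -a⟩

/-- Coded polynomials: a list of positive and a list of negative words. -/
abbrev CP : Type := List Wd × List Wd

/-- All products. -/
def mulL (l m : List Wd) : List Wd := l.flatMap fun u => m.map fun v => u * v

/-- Operations on coded polynomials. -/
def cops : Ops CP :=
  ⟨fun n => (List.replicate n 1, []), fun p q => (p.1 ++ q.1, p.2 ++ q.2),
    fun p q => (mulL p.1 q.1 ++ mulL p.2 q.2, mulL p.1 q.2 ++ mulL p.2 q.1),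
    fun p => (p.2, p.1)⟩

/-- The polynomial. -/
noncomputable def CP.val (p : CP) : FR :=
  (p.1.map fun w => MonoidAlgebra.of ℤ Wd w).sum - (p.2.map fun w => MonoidAlgebra.of ℤ Wd w).sum

/-- Test for zero. -/
def CP.isZero (p : CP) : Prop := ∀ w ∈ p.1 ++ p.2, p.1.count w = p.2.count w

instance (p : CP) : Decidable p.isZero := inferInstanceAs (Decidable (∀ w ∈ _, _))

/-- A coded constant. -/
def emC (g : Mo) : CP := ([([], g)], [])

/-- A coded variable. -/
def varC (v : Var) : CP := ([([(1, v)], 1)], [])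

/-! ## Linear forms -/

/-- Coded two-sided linear forms: lists of terms `(sign, g, t, h)`, standing for `± g h` if `t = 0`,
and for `± g x h`, `x` the entry number `t - 1` of the vector, otherwise (sign `0` is `+`). -/
abbrev LF : Type := List (ℕ × Mo × ℕ × Mo)

/-- The value of a term. -/
def tmLF {α : Type} (o : Ops α) (em : Mo → α) (x : List α) (q : ℕ × Mo × ℕ × Mo) : α :=
  if q.1 = 0 then
    o.mul (o.mul (em q.2.1) (if q.2.2.1 = 0 then o.nat 1 else x.getD (q.2.2.1 - 1) (o.nat 0)))
      (em q.2.2.2)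
  else o.neg (o.mul (o.mul (em q.2.1)
    (if q.2.2.1 = 0 then o.nat 1 else x.getD (q.2.2.1 - 1) (o.nat 0))) (em q.2.2.2))

/-- The value of a linear form. -/
def apLF {α : Type} (o : Ops α) (em : Mo → α) (x : List α) (T : LF) : α :=
  T.foldr (fun q s => o.add (tmLF o em x q) s) (o.nat 0)

/-! ## The coefficient vectors -/

/-- Coefficients of the interpretation: the constant of the symbol `b` is `b + 1`, the
coefficient of its `i`-th child is the letter number `⟨b, i⟩`. -/
def VL {α : Type} (o : Ops α) (em : Mo → α) (P nB : ℕ) : List α :=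
  (List.range (nB * fs P 1)).map fun t =>
    if t % fs P 1 % 4 = 0 then
      (if t % fs P 1 / 4 = 0 then o.nat (t / fs P 1 + 1)
        else em (letter (Nat.pair (t / fs P 1) (t % fs P 1 / 4 - 1))))
    else o.nat 0

/-- The coefficient vector of a tree, over `D`. -/
noncomputable def vD (s : Sys) (t : Tree) : List D :=
  (nops D).vecT s.P 1 s.n1 s.T (VL (nops D) toD s.P s.nB) t

/-- Length of the vectors. -/
def NN (s : Sys) : ℕ := s.T.length * fs s.P 1

/-- The statement that is decided. -/
def RawD (s : Sys) : Prop :=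
  ∀ t, Ranked s.A t → ∀ e < 2, (nops D).target s.P 1 s.n1 (vD s t) e = 0

/-- The symbolic vector of the child `i` with bits `β`. -/
def blk (N i : ℕ) (β : List ℕ) : List CP :=
  (List.range N).map fun t => if isBit t then cops.nat (β.getD t 0) else varC (i, t)

/-- The coefficient vector of a tree with root symbol `a` over symbolic vectors. -/
def vS (s : Sys) (a : ℕ) (βs : List (List ℕ)) : List CP :=
  cops.vecS s.P 1 s.n1 s.T a (VL cops emC s.P s.nB)
    ((List.range (s.rk a)).map fun i => blk (NN s) i (βs.getD i []))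

/-! ## Certificates -/

/-- A line of a derivation: polynomial, kind, data of a combination `(u, reference, v)`, data of the
Ore rule `(Fb, Hb, Fc, Hc)`, `(δ, κ)`, `(γ, γ')` (row-major, rows `b`), references for the `c` and
for the `b`. -/
abbrev Line : Type :=
  CP × ℕ × List (CP × ℕ × CP) × (List CP × List CP × List CP × List CP) × (CP × CP) ×
    (List CP × List CP) × (List ℕ × List ℕ)

namespace Line

variable (l : Line)

def p : CP := l.1
def kind : ℕ := l.2.1
def cb : List (CP × ℕ × CP) := l.2.2.1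
def Fb (b : ℕ) : CP := l.2.2.2.1.1.getD b (cops.nat 0)
def m : ℕ := l.2.2.2.1.1.length
def Hb (b : ℕ) : CP := l.2.2.2.1.2.1.getD b (cops.nat 0)
def Fc (c : ℕ) : CP := l.2.2.2.1.2.2.1.getD c (cops.nat 0)
def n : ℕ := l.2.2.2.1.2.2.1.length
def Hc (c : ℕ) : CP := l.2.2.2.1.2.2.2.getD c (cops.nat 0)
def δ : CP := l.2.2.2.2.1.1
def κ : CP := l.2.2.2.2.1.2
def γ (b c : ℕ) : CP := l.2.2.2.2.2.1.1.getD (b * l.n + c) (cops.nat 0)
def γ' (b c : ℕ) : CP := l.2.2.2.2.2.1.2.getD (b * l.n + c) (cops.nat 0)
def rc (c : ℕ) : ℕ := l.2.2.2.2.2.2.1.getD c 0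
def rb (b : ℕ) : ℕ := l.2.2.2.2.2.2.2.getD b 0

end Line

/-- Constant polynomials. -/
def CP.const (p : CP) : Prop := ∀ w ∈ p.1 ++ p.2, w.1 = []

/-- Difference. -/
def csub (p q : CP) : CP := cops.add p (cops.neg q)

/-- The line is correct, `av` is the list of the available polynomials. -/
def Line.Ok (av : List CP) (l : Line) : Prop :=
  if l.kind = 0 then
    (∀ q ∈ l.cb, q.2.1 < av.length) ∧
    (csub l.p (l.cb.foldr (fun q s =>
      cops.add (cops.mul (cops.mul q.1 (av.getD q.2.1 (cops.nat 0))) q.2.2) s)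
        (cops.nat 0))).isZero
  else
    l.δ.const ∧ ¬ l.δ.isZero ∧ l.κ.const ∧ ¬ l.κ.isZero ∧
    (∀ b < l.m, ∀ c < l.n, (csub (cops.mul l.δ (l.γ' b c)) (cops.mul (l.γ b c) l.κ)).isZero) ∧
    (∀ c < l.n, l.rc c < av.length ∧
      (csub (csub (cops.mul (l.Fc c) l.κ) (cops.sum (fun b => cops.mul (l.Fb b) (l.γ' b c)) l.m))
        (av.getD (l.rc c) (cops.nat 0))).isZero) ∧
    (∀ b < l.m, l.rb b < av.length ∧
      (csub (cops.add (cops.mul l.δ (l.Hb b)) (cops.sum (fun c => cops.mul (l.γ b c) (l.Hc c)) l.n))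
        (av.getD (l.rb b) (cops.nat 0))).isZero) ∧
    (csub l.p (cops.add (cops.sum (fun b => cops.mul (l.Fb b) (l.Hb b)) l.m)
      (cops.sum (fun c => cops.mul (l.Fc c) (l.Hc c)) l.n))).isZero

/-- The polynomial `p` is proved by the lines `L` (the last line is the first element of the list)
from the hypotheses `hy`. -/
def Prf (hy : List CP) (p : CP) (L : List Line) : Prop :=
  0 < L.length ∧
  (∀ i < L.length, ∀ l ∈ (L.drop i).head?, l.Ok (hy ++ (L.drop (i + 1)).map Line.p)) ∧
  ∀ l ∈ L.head?, (csub p l.p).isZero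

/-- A certificate: the classes (bits and linear forms), the classes of the results, the
derivations for the rules, and the derivations for the targets. -/
abbrev CertD : Type :=
  List (List ℕ × List LF) × List ℕ × List (List Line) × List (List Line)

namespace CertD

variable (c : CertD)

/-- Number of classes. -/
def K : ℕ := c.1.length
/-- Bits of a class. -/
def bits (κ : ℕ) : List ℕ := (c.1.getD κ ([], [])).1
/-- Linear forms of a class. -/
def forms (κ : ℕ) : List LF := (c.1.getD κ ([], [])).2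
/-- The class of the result, for the symbol `a` and the tuple of classes `z`. -/
def tgt (a z : ℕ) : ℕ := c.2.1.getD (Nat.pair a z) 0
/-- Derivations for the rules. -/
def prf (a z l : ℕ) : List Line := c.2.2.1.getD (Nat.pair a (Nat.pair z l)) []
/-- Derivations for the targets. -/
def fin (κ : ℕ) : List Line := c.2.2.2.getD κ []

end CertD

/-- The hypotheses for the child `i` with bits `β` and forms `Ts`. -/
def hyp1 (N i : ℕ) (β : List ℕ) (Ts : List LF) : List CP :=
  Ts.map fun T => apLF cops emC (blk N i β) T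

/-- The hypotheses for the tuple of classes `z` (the class of the child `i` is the digit `i` of
`z` in base `K`). -/
def hyps (s : Sys) (c : CertD) (a z : ℕ) : List CP :=
  (List.range (s.rk a)).flatMap fun i =>
    hyp1 (NN s) i (c.bits (dig c.K z i)) (c.forms (dig c.K z i))

/-- The symbolic result for the tuple of classes `z`. -/
def res (s : Sys) (c : CertD) (a z : ℕ) : List CP :=
  vS s a ((List.range (s.rk a)).map fun i => c.bits (dig c.K z i))

/-- The certificate is accepted. -/
def ChkD (s : Sys) (c : CertD) : Prop :=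
  (∀ a < s.A.length, ∀ z < c.K ^ s.rk a,
    c.tgt a z < c.K ∧
    (∀ t < NN s, isBit t →
      (csub ((res s c a z).getD t (cops.nat 0)) (cops.nat ((c.bits (c.tgt a z)).getD t 0))).isZero) ∧
    ∀ l < (c.forms (c.tgt a z)).length,
      Prf (hyps s c a z) (apLF cops emC (res s c a z) ((c.forms (c.tgt a z)).getD l []))
        (c.prf a z l)) ∧
  ∀ κ < c.K,
    (cops.target s.P 1 s.n1 (blk (NN s) 0 (c.bits κ)) 1).isZero ∧
    Prf (hyp1 (NN s) 0 (c.bits κ) (c.forms κ))
      (cops.target s.P 1 s.n1 (blk (NN s) 0 (c.bits κ)) 0) (c.fin κ)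

/-! ## Search for a counterexample -/

/-- One step of the evaluation of a tree given by its postfix code. -/
def sstepD (s : Sys) (st : ℕ × List (List CP)) (a : ℕ) : ℕ × List (List CP) :=
  (if a < s.A.length ∧ s.rk a ≤ st.2.length then st.1 else 1,
    cops.vecS s.P 1 s.n1 s.T a (VL cops emC s.P s.nB) (st.2.take (s.rk a)).reverse
      :: st.2.drop (s.rk a))

/-- Evaluation of a postfix code. -/
def srunD (s : Sys) (w : List ℕ) : ℕ × List (List CP) := w.foldl (sstepD s) (0, [])

/-- `(w, e)` is a counterexample. -/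
def SrchD (s : Sys) (k : List ℕ × ℕ) : Prop :=
  k.2 < 2 ∧ (srunD s k.1).1 = 0 ∧ 0 < (srunD s k.1).2.length ∧
  ¬ (cops.target s.P 1 s.n1 ((srunD s k.1).2.getD 0 []) k.2).isZero

end ORD

end Pool.Agent.Lib.MP_39893a_lc
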