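import Pool.Agent.Lib.MP_39893a_lc.ORD.Spec
import Pool.Agent.Lib.MP_39893a_lc.Sound

section
/-!
# The bits of the coefficient vectors (MP_39893a_lc, hive ORD, module BITZ)
-/
set_option autoImplicit false

namespace Pool.Agent.Lib.MP_39893a_lc.ORD.BITZM

/-- Closure properties of a relation between two sets of numbers. -/
structure Cl {α β : Type} (o : Ops α) (o' : Ops β) (S : α → β → Prop) : Prop where
  z : S (o.nat 0) (o'.nat 0)
  u : S (o.nat 1) (o'.nat 1)
  m : ∀ a b a' b', S a a' → S b b' → S (o.mul a b) (o'.mul a' b')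
  c : ∀ a a', S a a' → S (o.co a) (o'.co a')

/-- The lists are related at the bit positions. -/
def BR {α β : Type} (o : Ops α) (o' : Ops β) (S : α → β → Prop) (F : List α) (F' : List β) :
    Prop :=
  ∀ t, isBit t → S (F.getD t (o.nat 0)) (F'.getD t (o'.nat 0))

theorem headD_getD {γ : Type} (l : List γ) (a : γ) : l.headD a = l.getD 0 a := by
  cases l <;> rfl

theorem isBit_add_four (t m : ℕ) : isBit (t + 4 * m) ↔ isBit t := by
  unfold isBit; omega

theorem fs_four (P : ℕ) : fs P 1 = 4 * (P + 1) := by unfold fs; ring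

theorem isBit_mod (t P : ℕ) : isBit (t % fs P 1) ↔ isBit t := by
  rw [fs_four]
  have h := Nat.mod_add_div t (4 * (P + 1))
  conv_rhs => rw [← h]
  rw [Nat.mul_assoc, isBit_add_four]

variable {α β : Type} {o : Ops α} {o' : Ops β} {S : α → β → Prop}

theorem Cl.prod (h : Cl o o' S) (f : ℕ → α) (f' : ℕ → β) (hf : ∀ i, S (f i) (f' i)) (n : ℕ) :
    S (o.prod f n) (o'.prod f' n) := by
  induction n with
  | zero => exact h.u
  | succ n ih => exact h.m _ _ _ _ ih (hf n)

theorem BR.nil (h : Cl o o' S) : BR o o' S [] [] := fun _ _ => h.z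

theorem BR.drop {F : List α} {F' : List β} (hF : BR o o' S F F') (k P : ℕ) :
    BR o o' S (F.drop (k * fs P 1)) (F'.drop (k * fs P 1)) := by
  intro t ht
  have e : k * fs P 1 + t = t + 4 * (k * (P + 1)) := by rw [fs_four]; ring
  have h := hF (k * fs P 1 + t) (by rw [e, isBit_add_four]; exact ht)
  rw [List.getD_eq_getElem?_getD, List.getD_eq_getElem?_getD] at h ⊢
  rwa [List.getElem?_drop, List.getElem?_drop]

theorem BR.gF {F : List α} {F' : List β} (hF : BR o o' S F F') (j : ℕ) :
    S (o.gF 1 F j 1 0) (o'.gF 1 F' j 1 0) := by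
  unfold Ops.gF
  apply hF
  unfold isBit
  omega

theorem BR.mkF (h : Cl o o' S) (P : ℕ) (f : ℕ → ℕ → ℕ → α) (f' : ℕ → ℕ → ℕ → β)
    (hf : ∀ j y, S (f j 1 y) (f' j 1 y)) : BR o o' S (mkF P 1 f) (mkF P 1 f') := by
  intro t ht
  unfold Pool.Agent.Lib.MP_39893a_lc.mkF
  rw [List.getD_eq_getElem?_getD, List.getD_eq_getElem?_getD, List.getElem?_map,
    List.getElem?_map]
  by_cases hlt : t < fs P 1
  · rw [List.getElem?_range hlt]
    simp only [Option.map_some, Option.getD_some]
    have e : t / (1 + 1) % (1 + 1) = 1 := ht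
    rw [e]
    exact hf _ _
  · rw [List.getElem?_eq_none (by rw [List.length_range]; omega)]
    exact h.z

/-- Related stacks. -/
abbrev SR (o : Ops α) (o' : Ops β) (S : α → β → Prop) : List (List α) → List (List β) → Prop :=
  List.Forall₂ (BR o o' S)

theorem SR.getD (h : Cl o o' S) {st : List (List α)} {st' : List (List β)}
    (hs : SR o o' S st st') (i : ℕ) : BR o o' S (st.getD i []) (st'.getD i []) := by
  induction hs generalizing i with
  | nil => exact BR.nil h
  | cons h1 _ ih =>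
    cases i with
    | zero => exact h1
    | succ i => exact ih i

theorem SR.drop {st : List (List α)} {st' : List (List β)}
    (hs : SR o o' S st st') (n : ℕ) : SR o o' S (st.drop n) (st'.drop n) :=
  List.forall₂_drop n hs

theorem SR.takeRev {st : List (List α)} {st' : List (List β)}
    (hs : SR o o' S st st') (n : ℕ) : SR o o' S (st.take n).reverse (st'.take n).reverse :=
  List.rel_reverse (List.forall₂_take n hs)

theorem BR.appE (h : Cl o o' S) (P : ℕ) {F : List α} {F' : List β} (hF : BR o o' S F F')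
    {st : List (List α)} {st' : List (List β)} (hs : SR o o' S st st') (j y : ℕ) :
    S (o.appE P 1 F st j 1 y) (o'.appE P 1 F' st' j 1 y) := by
  unfold Ops.appE
  rw [if_pos rfl, if_pos rfl]
  split
  · refine h.m _ _ _ _ (hF.gF 0) (h.prod _ _ (fun i => ?_) P)
    exact h.c _ _ (h.m _ _ _ _ (hF.gF _) (h.c _ _ ((hs.getD h i).gF 0)))
  · refine h.c _ _ (h.prod _ _ (fun i => ?_) P)
    exact h.c _ _ (h.m _ _ _ _ (hF.gF _) ((hs.getD h i).gF j))

theorem BR.parE (h : Cl o o' S) (p j y : ℕ) : S (o.parE 1 p j 1 y) (o'.parE 1 p j 1 y) := by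
  unfold Ops.parE
  rw [if_pos rfl, if_pos rfl]
  split
  · exact h.u
  · exact h.z

theorem BR.symE (h : Cl o o' S) (P : ℕ) (V : List α) (V' : List β) (b r j y : ℕ) :
    S (o.symE P 1 V b r j 1 y) (o'.symE P 1 V' b r j 1 y) := by
  unfold Ops.symE
  split
  · rw [if_pos rfl, if_pos rfl]; exact h.u
  · exact h.z

theorem SR.step (h : Cl o o' S) (P off : ℕ) (V : List α) (V' : List β) (bl : List (List α))
    (bl' : List (List β)) (hb : ∀ i, BR o o' S (bl.getD i []) (bl'.getD i []))
    {st : List (List α)} {st' : List (List β)} (hs : SR o o' S st st') (tk : Tok) :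
    SR o o' S (o.step P 1 off V bl st tk) (o'.step P 1 off V' bl' st' tk) := by
  unfold Ops.step
  split
  · exact List.Forall₂.cons (BR.mkF h P _ _ fun j y => BR.parE h _ j y) hs
  · split
    · refine List.Forall₂.cons (BR.mkF h P _ _ fun j y => ?_) (hs.drop _)
      exact BR.appE h P (BR.mkF h P _ _ fun j y => BR.symE h P V V' _ _ j y) (hs.takeRev _) j y
    · refine List.Forall₂.cons (BR.mkF h P _ _ fun j y => ?_) (hs.drop _)
      exact BR.appE h P ((hb _).drop _ P) (hs.takeRev _) j y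

theorem SR.foldl (h : Cl o o' S) (P off : ℕ) (V : List α) (V' : List β) (bl : List (List α))
    (bl' : List (List β)) (hb : ∀ i, BR o o' S (bl.getD i []) (bl'.getD i []))
    (l : List Tok) : ∀ {st : List (List α)} {st' : List (List β)}, SR o o' S st st' →
    SR o o' S (l.foldl (o.step P 1 off V bl) st) (l.foldl (o'.step P 1 off V' bl') st') := by
  induction l with
  | nil => intro st st' hs; exact hs
  | cons t l ih =>
    intro st st' hs
    rw [List.foldl_cons, List.foldl_cons]
    exact ih (hs.step h P off V V' bl bl' hb t)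

theorem BR.vecS (h : Cl o o' S) (P n1 a : ℕ) (T : List (List (Option (List Tok)))) (V : List α)
    (V' : List β) (bl : List (List α)) (bl' : List (List β))
    (hb : ∀ i, BR o o' S (bl.getD i []) (bl'.getD i [])) :
    BR o o' S (o.vecS P 1 n1 T a V bl) (o'.vecS P 1 n1 T a V' bl') := by
  intro t ht
  unfold Ops.vecS
  rw [List.getD_eq_getElem?_getD, List.getD_eq_getElem?_getD, List.getElem?_map,
    List.getElem?_map]
  by_cases hlt : t < T.length * fs P 1
  · rw [List.getElem?_range hlt]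
    simp only [Option.map_some, Option.getD_some]
    have hs : SR o o' S [] [] := List.Forall₂.nil
    have h2 := SR.foldl h P (if t / fs P 1 < n1 then 0 else n1) V V' bl bl' hb
      (((T.getD (t / fs P 1) []).getD a none).getD []) hs
    have h3 := h2.getD h 0 (t % fs P 1) ((isBit_mod t P).mpr ht)
    unfold Ops.rhsV
    rw [headD_getD, headD_getD]
    exact h3
  · rw [List.getElem?_eq_none (by rw [List.length_range]; omega)]
    exact h.z

theorem specBITZ : SpecBITZ := by
  refine ⟨?_, ?_⟩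
  · intro R _ P n1 a T V bl bz hb _ t ht
    have h : Cl (nops R) (nops ℤ) (fun x y => x = ((y : ℤ) : R)) := by
      refine ⟨?_, ?_, ?_, ?_⟩
      · show ((0 : ℕ) : R) = (((0 : ℕ) : ℤ) : R)
        simp
      · show ((1 : ℕ) : R) = (((1 : ℕ) : ℤ) : R)
        simp
      · intro a b a' b' h1 h2
        show a * b = ((a' * b' : ℤ) : R)
        rw [h1, h2, Int.cast_mul]
      · intro a a' h1
        show ((1 : ℕ) : R) + -a = (((((1 : ℕ) : ℤ) + -a' : ℤ)) : R)
        rw [h1]
        push_cast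
        rfl
    have h5 := BR.vecS h P n1 a T V [] bl bz (fun i t ht => by
      have := hb i t ht
      show (bl.getD i []).getD t ((0 : ℕ) : R) = (((bz.getD i []).getD t ((0 : ℕ) : ℤ) : ℤ) : R)
      rwa [Nat.cast_zero, Nat.cast_zero]) t ht
    have e1 : (nops R).nat 0 = (0 : R) := Nat.cast_zero
    have e2 : (nops ℤ).nat 0 = (0 : ℤ) := Nat.cast_zero
    rwa [e1, e2] at h5
  · intro P n1 a T bz hb t ht
    have h : Cl (nops ℤ) (nops ℤ) (fun x _ => x = 0 ∨ x = 1) := by
      refine ⟨Or.inl ?_, Or.inr ?_, ?_, ?_⟩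
      · rfl
      · rfl
      · intro a b a' b' h1 h2
        show a * b = 0 ∨ a * b = 1
        rcases h1 with h1 | h1 <;> rcases h2 with h2 | h2 <;> simp [h1, h2]
      · intro a a' h1
        show ((1 : ℕ) : ℤ) + -a = 0 ∨ ((1 : ℕ) : ℤ) + -a = 1
        rcases h1 with h1 | h1 <;> simp [h1]
    have e2 : (nops ℤ).nat 0 = (0 : ℤ) := Nat.cast_zero
    have h5 := BR.vecS h P n1 a T [] [] bz bz (fun i t ht => by
      have := hb i t ht
      show (bz.getD i []).getD t ((nops ℤ).nat 0) = 0 ∨ (bz.getD i []).getD t ((nops ℤ).nat 0) = 1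
      rwa [e2]) t ht
    rwa [e2] at h5

end Pool.Agent.Lib.MP_39893a_lc.ORD.BITZM
end

section
/-!
# LFH (MP_39893a_lc, hive ORD): linear forms commute with homomorphisms of operations
-/
set_option autoImplicit false

namespace Pool.Agent.Lib.MP_39893a_lc.ORD.LFHM

variable {α β : Type} {o : Ops α} {o' : Ops β} {f : α → β} {em : Mo → α} {em' : Mo → β}

theorem getD0 (h : Ops.Hom o o' f) (l : List α) (n : ℕ) :
    f (l.getD n (o.nat 0)) = (l.map f).getD n (o'.nat 0) := by
  rw [map_getD f, h.nat]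

theorem entry (h : Ops.Hom o o' f) (x : List α) (t : ℕ) :
    f (if t = 0 then o.nat 1 else x.getD (t - 1) (o.nat 0))
      = if t = 0 then o'.nat 1 else (x.map f).getD (t - 1) (o'.nat 0) := by
  split
  · exact h.nat 1
  · exact getD0 h x _

theorem tm (h : Ops.Hom o o' f) (hem : ∀ g, f (em g) = em' g) (x : List α)
    (q : ℕ × Mo × ℕ × Mo) : f (tmLF o em x q) = tmLF o' em' (x.map f) q := by
  unfold tmLF
  by_cases hq : q.1 = 0
  · rw [if_pos hq, if_pos hq, h.mul, h.mul, hem, hem, entry h]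
  · rw [if_neg hq, if_neg hq, h.neg, h.mul, h.mul, hem, hem, entry h]

theorem specLFH : SpecLFH := by
  intro α β o o' f em em' h hem x T
  induction T with
  | nil => exact h.nat 0
  | cons q T ih =>
    show f (o.add (tmLF o em x q) (apLF o em x T))
      = o'.add (tmLF o' em' (x.map f) q) (apLF o' em' (x.map f) T)
    rw [h.add, ih, tm h hem]

/-- The coefficients of the interpretation commute with homomorphisms of operations. -/
theorem map_VL (h : Ops.Hom o o' f) (hem : ∀ g, f (em g) = em' g) (P nB : ℕ) :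
    (VL o em P nB).map f = VL o' em' P nB := by
  unfold VL
  rw [List.map_map]
  refine List.map_congr_left fun t _ => ?_
  rw [Function.comp_apply]
  split
  · split
    · exact h.nat _
    · exact hem _
  · exact h.nat 0

/-- Composition. -/
theorem comp {γ : Type} {o'' : Ops γ} {g : β → γ} (h : Ops.Hom o o' f) (h' : Ops.Hom o' o'' g) :
    Ops.Hom o o'' (fun a => g (f a)) :=
  ⟨fun n => by rw [h.nat, h'.nat], fun a b => by rw [h.add, h'.add],
    fun a b => by rw [h.mul, h'.mul], fun a => by rw [h.neg, h'.neg]⟩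

/-- Ring homomorphisms. -/
theorem ofRing {R S : Type} [Ring R] [Ring S] (f : R →+* S) : Ops.Hom (nops R) (nops S) f :=
  ⟨fun n => map_natCast f n, fun a b => map_add f a b, fun a b => map_mul f a b,
    fun a => map_neg f a⟩

end Pool.Agent.Lib.MP_39893a_lc.ORD.LFHM
end

section
/-!
# BLK (MP_39893a_lc, hive ORD): evaluation of the symbolic vectors
-/
set_option autoImplicit false

namespace Pool.Agent.Lib.MP_39893a_lc.ORD.BLKM

theorem specBLK (hV : SpecVAL) (hE : SpecEVL) : SpecBLK := by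
  obtain ⟨hv, -, -, hem, hvar, -, -, -⟩ := hV
  obtain ⟨he, -, -, -, hh⟩ := hE
  have h1 : ∀ (N i : ℕ) (β : List ℕ) (x : List D) (ξ : Var → D), x.length = N →
      (∀ t < N, isBit t → x.getD t 0 = ((β.getD t 0 : ℕ) : D)) →
      (∀ t < N, ¬ isBit t → ξ (i, t) = x.getD t 0) →
      ((blk N i β).map fun p => ev toD ξ p.val) = x := by
    intro N i β x ξ hx hb hc
    have hhom : Ops.Hom cops (nops D) (fun p => ev toD ξ p.val) := LFHM.comp hv (hh D toD ξ)
    unfold blk
    rw [List.map_map]
    apply List.ext_getElem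
    · rw [List.length_map, List.length_range, hx]
    · intro t h1 h2
      have ht : t < N := by rw [← hx]; exact h2
      rw [List.getElem_map, List.getElem_range, Function.comp_apply]
      have hxt : x.getD t 0 = x[t] := by
        rw [List.getD_eq_getElem?_getD, List.getElem?_eq_getElem h2]
        rfl
      rw [← hxt]
      by_cases hbit : isBit t
      · rw [if_pos hbit, hb t ht hbit]
        exact hhom.nat _
      · rw [if_neg hbit, ← hc t ht hbit, hvar]
        exact (he D toD ξ).2.1 _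
  refine ⟨h1, ?_⟩
  intro s a βs xs ξ hxs hlen hb hc
  have hhom : Ops.Hom cops (nops D) (fun p => ev toD ξ p.val) := LFHM.comp hv (hh D toD ξ)
  unfold vS
  rw [hhom.vecS, LFHM.map_VL hhom (em' := fun g => toD g)
    (fun g => by rw [hem]; exact (he D toD ξ).1 g)]
  congr 1
  rw [List.map_map]
  apply List.ext_getElem
  · rw [List.length_map, List.length_range, hxs]
  · intro i h3 h4
    have hi : i < s.rk a := by rw [← hxs]; exact h4
    rw [List.getElem_map, List.getElem_range, Function.comp_apply]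
    have hxi : xs.getD i [] = xs[i] := by
      rw [List.getD_eq_getElem?_getD, List.getElem?_eq_getElem h4]
      rfl
    rw [← hxi]
    exact h1 (NN s) i (βs.getD i []) (xs.getD i []) ξ (hlen i hi) (hb i hi) (hc i hi)

end Pool.Agent.Lib.MP_39893a_lc.ORD.BLKM
end

section
/-!
# Module CCMP: completeness of certificates (MP_39893a_lc, hive ORD)
-/
set_option autoImplicit false

namespace Pool.Agent.Lib.MP_39893a_lc.ORD.CCMPM

open Finset

/-! ### Supports -/

/-- All words of the polynomial satisfy `Q`. -/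
def SP (Q : Wd → Prop) (p : FR) : Prop := ∀ w ∈ p.coeff.support, Q w

theorem SP_zero {Q : Wd → Prop} : SP Q 0 := by
  intro w hw
  simp at hw

theorem SP_add {Q : Wd → Prop} {p q : FR} (hp : SP Q p) (hq : SP Q q) : SP Q (p + q) := by
  intro w hw
  classical
  rw [MonoidAlgebra.coeff_add] at hw
  rcases Finset.mem_union.1 (Finsupp.support_add hw) with h | h
  · exact hp w h
  · exact hq w h

theorem SP_neg {Q : Wd → Prop} {p : FR} (hp : SP Q p) : SP Q (-p) := by
  intro w hw
  have e : (-p).coeff = -p.coeff := rfl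
  rw [e, Finsupp.support_neg] at hw
  exact hp w hw

theorem SP_one {Q : Wd → Prop} (h : Q 1) : SP Q (1 : FR) := by
  intro w hw
  have := MonoidAlgebra.support_coeff_one_subset hw
  rw [Finset.mem_one] at this
  rw [this]
  exact h

theorem SP_nat {Q : Wd → Prop} (h : Q 1) (n : ℕ) : SP Q (n : FR) := by
  induction n with
  | zero => rw [Nat.cast_zero]; exact SP_zero
  | succ n ih => rw [Nat.cast_succ]; exact SP_add ih (SP_one h)

theorem SP_int {Q : Wd → Prop} (h : Q 1) (n : ℤ) : SP Q (n : FR) := by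
  cases n with
  | ofNat n => rw [Int.ofNat_eq_natCast, Int.cast_natCast]; exact SP_nat h n
  | negSucc n => rw [Int.cast_negSucc]; exact SP_neg (SP_nat h _)

theorem SP_mulL {Q : Wd → Prop} (g : Mo) (h : ∀ w, Q w → Q (cw g * w)) {p : FR} (hp : SP Q p) :
    SP Q (toF g * p) := by
  intro w hw
  classical
  have := MonoidAlgebra.support_coeff_single_mul_subset p (1 : ℤ) (cw g) hw
  obtain ⟨v, hv, rfl⟩ := Finset.mem_image.1 this
  exact h v (hp v hv)

theorem SP_mulR {Q : Wd → Prop} (g : Mo) (h : ∀ w, Q w → Q (w * cw g)) {p : FR} (hp : SP Q p) :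
    SP Q (p * toF g) := by
  intro w hw
  classical
  have := MonoidAlgebra.support_coeff_mul_single_subset p (1 : ℤ) (cw g) hw
  obtain ⟨v, hv, rfl⟩ := Finset.mem_image.1 this
  exact h v (hp v hv)

theorem SP_natmul {Q : Wd → Prop} (n : ℕ) {p : FR} (hp : SP Q p) : SP Q ((n : FR) * p) := by
  induction n with
  | zero => rw [Nat.cast_zero, zero_mul]; exact SP_zero
  | succ n ih => rw [Nat.cast_succ, add_mul, one_mul]; exact SP_add ih hp

theorem SP_intmul {Q : Wd → Prop} (n : ℤ) {p : FR} (hp : SP Q p) : SP Q ((n : FR) * p) := by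
  cases n with
  | ofNat n => rw [Int.ofNat_eq_natCast, Int.cast_natCast]; exact SP_natmul n hp
  | negSucc n => rw [Int.cast_negSucc, neg_mul]; exact SP_neg (SP_natmul _ hp)

theorem Decr_one (N r : ℕ) (ρ : ℕ → ℕ) (k : ℕ) : Wd.Decr N r ρ k 1 :=
  ⟨List.Pairwise.nil, fun p hp => by cases hp⟩

theorem Decr_mono {N r : ℕ} {ρ : ℕ → ℕ} {k k' : ℕ} (h : k ≤ k') {w : Wd}
    (hw : w.Decr N r ρ k) : w.Decr N r ρ k' :=
  ⟨hw.1, fun p hp => ⟨(hw.2 p hp).1, (hw.2 p hp).2.1.trans_le h, (hw.2 p hp).2.2⟩⟩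

theorem Decr_mulL {N r : ℕ} {ρ : ℕ → ℕ} {k : ℕ} (g : Mo) (w : Wd) (hw : w.Decr N r ρ k) :
    (cw g * w).Decr N r ρ k := by
  obtain ⟨l, h⟩ := w
  cases l with
  | nil => exact ⟨List.Pairwise.nil, fun p hp => by cases hp⟩
  | cons q l =>
    refine ⟨hw.1, fun p hp => ?_⟩
    rcases List.mem_cons.1 hp with rfl | hp
    · exact hw.2 q List.mem_cons_self
    · exact hw.2 p (List.mem_cons_of_mem _ hp)

theorem Decr_mulR {N r : ℕ} {ρ : ℕ → ℕ} {k : ℕ} (g : Mo) (w : Wd) (hw : w.Decr N r ρ k) :
    (w * cw g).Decr N r ρ k := hw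

/-! ### Derivations -/

theorem Der_zero (H : Set FR) : Der H 0 := by
  have := Der.comb (H := H) 0 Fin.elim0 Fin.elim0 Fin.elim0 (fun i => i.elim0)
  simpa using this

theorem Der_add {H : Set FR} {p q : FR} (hp : Der H p) (hq : Der H q) : Der H (p + q) := by
  have := Der.comb (H := H) 2 ![1, 1] ![p, q] ![1, 1] (by
    intro i
    fin_cases i
    · exact hp
    · exact hq)
  simpa [Fin.sum_univ_two] using this

theorem Der_mul {H : Set FR} (u v : FR) {p : FR} (hp : Der H p) : Der H (u * p * v) := by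
  have := Der.comb (H := H) 1 (fun _ => u) (fun _ => p) (fun _ => v) (fun _ => hp)
  simpa using this

theorem Der_sum {H : Set FR} (l : List FR) (h : ∀ p ∈ l, Der H p) : Der H l.sum := by
  induction l with
  | nil => exact Der_zero H
  | cons p l ih =>
    rw [List.sum_cons]
    exact Der_add (h p List.mem_cons_self) (ih fun q hq => h q (List.mem_cons_of_mem _ hq))

/-! ### Tables and the assembly of a certificate -/

theorem exists_list {α : Type} (d : α) (f : ℕ → α) (M : ℕ) :
    ∃ l : List α, ∀ n < M, l.getD n d = f n :=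
  ⟨(List.range M).map f, fun n hn => by
    rw [List.getD_eq_getElem?_getD, List.getElem?_map, List.getElem?_range hn]; rfl⟩

theorem assemble (s : Sys) (C : List (List ℕ × List LF))
    (h1 : ∀ a < s.A.length, ∀ z < C.length ^ s.rk a, ∃ κ < C.length,
      (∀ t < NN s, isBit t → (csub ((res s (C, [], [], []) a z).getD t (cops.nat 0))
        (cops.nat ((CertD.bits (C, [], [], []) κ).getD t 0))).isZero) ∧
      ∀ l < (CertD.forms (C, [], [], []) κ).length, ∃ L, Prf (hyps s (C, [], [], []) a z)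
        (apLF cops emC (res s (C, [], [], []) a z)
          ((CertD.forms (C, [], [], []) κ).getD l [])) L)
    (h2 : ∀ κ < C.length,
      (cops.target s.P 1 s.n1 (blk (NN s) 0 (CertD.bits (C, [], [], []) κ)) 1).isZero ∧
      ∃ L, Prf (hyp1 (NN s) 0 (CertD.bits (C, [], [], []) κ) (CertD.forms (C, [], [], []) κ))
        (cops.target s.P 1 s.n1 (blk (NN s) 0 (CertD.bits (C, [], [], []) κ)) 0) L) :
    ∃ c : CertD, ChkD s c := by
  classical
  -- bounds
  obtain ⟨Z, hZ⟩ : ∃ Z, ∀ a < s.A.length, ∀ z < C.length ^ s.rk a, z < Z :=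
    ⟨∑ a ∈ range s.A.length, C.length ^ s.rk a, fun a ha z hz => hz.trans_le
      (Finset.single_le_sum (f := fun a => C.length ^ s.rk a) (fun _ _ => Nat.zero_le _)
        (Finset.mem_range.2 ha))⟩
  obtain ⟨F, hF⟩ : ∃ F, ∀ κ < C.length, (CertD.forms (C, [], [], []) κ).length ≤ F :=
    ⟨∑ κ ∈ range C.length, (CertD.forms (C, [], [], []) κ).length, fun κ hκ =>
      (Finset.single_le_sum (f := fun κ => (CertD.forms (C, [], [], []) κ).length)
        (fun _ _ => Nat.zero_le _) (Finset.mem_range.2 hκ))⟩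
  -- classes of the results
  choose! kf hk1 hk2 hk3 using h1
  obtain ⟨tg, htg⟩ := exists_list 0 (fun n => kf n.unpair.1 n.unpair.2)
    (Nat.pair s.A.length Z)
  have htg' : ∀ a < s.A.length, ∀ z < C.length ^ s.rk a, tg.getD (Nat.pair a z) 0 = kf a z := by
    intro a ha z hz
    rw [htg _ ((Nat.pair_lt_pair_right a (hZ a ha z hz)).trans (Nat.pair_lt_pair_left Z ha))]
    simp
  -- derivations
  choose! pf hpf using hk3
  obtain ⟨pl, hpl⟩ := exists_list ([] : List Line)
    (fun n => pf n.unpair.1 n.unpair.2.unpair.1 n.unpair.2.unpair.2)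
    (Nat.pair s.A.length (Nat.pair Z F))
  have hpl' : ∀ a < s.A.length, ∀ z < C.length ^ s.rk a,
      ∀ l < (CertD.forms (C, [], [], []) (kf a z)).length,
      pl.getD (Nat.pair a (Nat.pair z l)) [] = pf a z l := by
    intro a ha z hz l hl
    have hlF : l < F := hl.trans_le (hF _ (hk1 a ha z hz))
    rw [hpl _ ((Nat.pair_lt_pair_right a ((Nat.pair_lt_pair_right z hlF).trans
      (Nat.pair_lt_pair_left F (hZ a ha z hz)))).trans (Nat.pair_lt_pair_left _ ha))]
    simp
  -- targets
  have h2' : ∀ κ < C.length, ∃ L, Prf (hyp1 (NN s) 0 (CertD.bits (C, [], [], []) κ)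
      (CertD.forms (C, [], [], []) κ))
      (cops.target s.P 1 s.n1 (blk (NN s) 0 (CertD.bits (C, [], [], []) κ)) 0) L :=
    fun κ hκ => (h2 κ hκ).2
  choose! ff hff using h2'
  obtain ⟨fl, hfl⟩ := exists_list ([] : List Line) ff C.length
  refine ⟨(C, tg, pl, fl), ?_, ?_⟩
  · intro a ha z hz
    have hz' : z < C.length ^ s.rk a := hz
    have e1 : CertD.tgt (C, tg, pl, fl) a z = kf a z := htg' a ha z hz'
    rw [e1]
    refine ⟨hk1 a ha z hz', fun t ht hb => hk2 a ha z hz' t ht hb, fun l hl => ?_⟩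
    have e2 : CertD.prf (C, tg, pl, fl) a z l = pf a z l := hpl' a ha z hz' l hl
    rw [e2]
    exact hpf a ha z hz' l hl
  · intro κ hκ
    refine ⟨(h2 κ hκ).1, ?_⟩
    have e3 : CertD.fin (C, tg, pl, fl) κ = ff κ := hfl κ hκ
    rw [e3]
    exact hff κ hκ

/-! ### Bits of trees -/

theorem length_vecS {α : Type} (o : Ops α) (P d n1 : ℕ) (T : List (List (Option (List Tok))))
    (a : ℕ) (V : List α) (bl : List (List α)) :
    (o.vecS P d n1 T a V bl).length = T.length * fs P d := by
  simp [Ops.vecS]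

theorem length_vecT {α : Type} (o : Ops α) (P d n1 : ℕ) (T : List (List (Option (List Tok))))
    (V : List α) (t : Tree) : (o.vecT P d n1 T V t).length = T.length * fs P d := by
  cases t with
  | node a r c => rw [Ops.vecT, length_vecS]

theorem length_vD (s : Sys) (t : Tree) : (vD s t).length = NN s := length_vecT _ _ _ _ _ _ _

/-- The vector over `ℤ`, without coefficients. -/
def zD (s : Sys) (t : Tree) : List ℤ := (nops ℤ).vecT s.P 1 s.n1 s.T [] t

theorem length_zD (s : Sys) (t : Tree) : (zD s t).length = NN s := length_vecT _ _ _ _ _ _ _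

theorem getD_ofFn_lt {α : Type} {r : ℕ} (f : Fin r → α) (d : α) {i : ℕ} (h : i < r) :
    (List.ofFn f).getD i d = f ⟨i, h⟩ := by
  rw [List.getD_eq_getElem?_getD, List.getElem?_ofFn, dif_pos h, Option.getD_some]

theorem getD_ofFn_ge {α : Type} {r : ℕ} (f : Fin r → α) (d : α) {i : ℕ} (h : ¬ i < r) :
    (List.ofFn f).getD i d = d := by
  rw [List.getD_eq_getElem?_getD, List.getElem?_ofFn, dif_neg h, Option.getD_none]

theorem getD_range_map {α : Type} (f : ℕ → α) (d : α) {n i : ℕ} (h : i < n) :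
    ((List.range n).map f).getD i d = f i := by
  rw [List.getD_eq_getElem?_getD, List.getElem?_map, List.getElem?_range h]
  rfl

theorem getD_range_map_ge {α : Type} (f : ℕ → α) (d : α) {n i : ℕ} (h : ¬ i < n) :
    ((List.range n).map f).getD i d = d := by
  rw [List.getD_eq_getElem?_getD, List.getElem?_eq_none (by simp; omega), Option.getD_none]

theorem zD_bit (hB : SpecBITZ) (s : Sys) (t : Tree) :
    ∀ u, isBit u → (zD s t).getD u 0 = 0 ∨ (zD s t).getD u 0 = 1 := by
  induction t with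
  | node a r c ih =>
    refine hB.2 s.P s.n1 a s.T (List.ofFn fun i => zD s (c i)) ?_
    intro i t ht
    by_cases h : i < r
    · rw [getD_ofFn_lt _ _ h]
      exact ih _ t ht
    · rw [getD_ofFn_ge _ _ h]
      left
      rfl

/-- Bits of a tree. -/
def bitsOf (s : Sys) (t : Tree) : List ℕ :=
  (List.range (NN s)).map fun u => if isBit u then ((zD s t).getD u 0).toNat else 0

theorem length_bitsOf (s : Sys) (t : Tree) : (bitsOf s t).length = NN s := by
  simp [bitsOf]

theorem bitsOf_eq (hB : SpecBITZ) (s : Sys) (t : Tree) (u : ℕ) (hu : isBit u) :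
    (((bitsOf s t).getD u 0 : ℕ) : ℤ) = (zD s t).getD u 0 := by
  by_cases h : u < NN s
  · rw [bitsOf, getD_range_map _ _ h, if_pos hu]
    rcases zD_bit hB s t u hu with h0 | h0 <;> rw [h0] <;> rfl
  · rw [bitsOf, getD_range_map_ge _ _ h, List.getD_eq_default _ _ (by rw [length_zD]; omega)]
    rfl

/-- The bits of the result are determined by the bits of the arguments. -/
theorem vecS_bits (hB : SpecBITZ) (s : Sys) {R : Type} [Ring R] (a r : ℕ) (c : Fin r → Tree)
    (V : List R) (bl : List (List R)) (hl : bl.length = r)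
    (hbl : ∀ (i : ℕ) (hi : i < r) (u : ℕ), isBit u →
      (bl.getD i []).getD u 0 = (((bitsOf s (c ⟨i, hi⟩)).getD u 0 : ℕ) : R)) (u : ℕ)
    (hu : isBit u) :
    ((nops R).vecS s.P 1 s.n1 s.T a V bl).getD u 0
      = (((bitsOf s (.node a r c)).getD u 0 : ℕ) : R) := by
  have h1 := hB.1 R s.P s.n1 a s.T V bl (List.ofFn fun i => zD s (c i)) (by
    intro i t ht
    by_cases h : i < r
    · rw [hbl i h t ht, getD_ofFn_lt _ _ h, ← bitsOf_eq hB s _ t ht, Int.cast_natCast]
    · rw [getD_ofFn_ge _ _ h, List.getD_eq_default bl _ (by omega)]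
      simp) (by rw [hl, List.length_ofFn]) u hu
  rw [h1]
  have h2 := bitsOf_eq hB s (.node a r c) u hu
  have h3 : zD s (.node a r c)
      = (nops ℤ).vecS s.P 1 s.n1 s.T a [] (List.ofFn fun i => zD s (c i)) := rfl
  rw [← h3, ← h2, Int.cast_natCast]

theorem vD_bit (hB : SpecBITZ) (s : Sys) (t : Tree) :
    ∀ u, isBit u → (vD s t).getD u 0 = (((bitsOf s t).getD u 0 : ℕ) : D) := by
  induction t with
  | node a r c ih =>
    intro u hu
    have h3 : vD s (.node a r c) = (nops D).vecS s.P 1 s.n1 s.T a (VL (nops D) toD s.P s.nB)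
        (List.ofFn fun i => vD s (c i)) := rfl
    rw [h3]
    refine vecS_bits hB s a r c _ _ (by rw [List.length_ofFn]) ?_ u hu
    intro i hi u hu
    rw [getD_ofFn_lt _ _ hi]
    exact ih _ u hu

/-- Extensionality for bit vectors. -/
theorem bitsOf_ext (s : Sys) (t t' : Tree)
    (h : ∀ u, isBit u → (bitsOf s t).getD u 0 = (bitsOf s t').getD u 0) :
    bitsOf s t = bitsOf s t' := by
  unfold bitsOf
  refine List.map_congr_left fun u hu => ?_
  have hu' : u < NN s := List.mem_range.1 hu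
  by_cases hb : isBit u
  · have := h u hb
    rw [bitsOf, bitsOf, getD_range_map _ _ hu', getD_range_map _ _ hu'] at this
    exact this
  · rw [if_neg hb, if_neg hb]

/-- Equal bits of the children, equal bits. -/
theorem bitsOf_congr (hB : SpecBITZ) (s : Sys) (a r : ℕ) (c c' : Fin r → Tree)
    (h : ∀ i, bitsOf s (c i) = bitsOf s (c' i)) :
    bitsOf s (.node a r c) = bitsOf s (.node a r c') := by
  refine bitsOf_ext s _ _ fun u hu => ?_
  have h1 := vecS_bits hB s (R := ℤ) a r c [] (List.ofFn fun i => zD s (c i))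
    (by rw [List.length_ofFn]) (fun i hi u hu => by
      rw [getD_ofFn_lt _ _ hi, bitsOf_eq hB s _ u hu]) u hu
  have h2 := vecS_bits hB s (R := ℤ) a r c' [] (List.ofFn fun i => zD s (c i))
    (by rw [List.length_ofFn]) (fun i hi u hu => by
      rw [getD_ofFn_lt _ _ hi, ← h, bitsOf_eq hB s _ u hu]) u hu
  have h3 := h1.symm.trans h2
  exact_mod_cast h3

/-! ### Classes -/

/-- Vectors of the trees with given bits. -/
def XS (s : Sys) (β : List ℕ) : Set (List D) :=
  {x | ∃ t, Ranked s.A t ∧ bitsOf s t = β ∧ x = vD s t}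

theorem cl_finite (hB : SpecBITZ) (s : Sys) :
    {β | ∃ t, Ranked s.A t ∧ bitsOf s t = β}.Finite := by
  refine (Set.finite_range (fun f : Fin (NN s) → Fin 2 => List.ofFn fun i => (f i : ℕ))).subset
    ?_
  rintro _ ⟨t, -, rfl⟩
  have hlt : ∀ u, (bitsOf s t).getD u 0 < 2 := by
    intro u
    by_cases hN : u < NN s
    · by_cases hu : isBit u
      · have h1 := bitsOf_eq hB s t u hu
        rcases zD_bit hB s t u hu with h0 | h0 <;> rw [h0] at h1 <;> omega
      · rw [bitsOf, getD_range_map _ _ hN, if_neg hu]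
        omega
    · rw [bitsOf, getD_range_map_ge _ _ hN]
      omega
  refine ⟨fun i => ⟨(bitsOf s t).getD i 0, hlt i⟩, ?_⟩
  refine List.ext_getElem (by rw [List.length_ofFn, length_bitsOf]) fun i h1 h2 => ?_
  simp only [List.getElem_ofFn]
  rw [List.getD_eq_getElem _ _ h2]

/-! ### Symbolic vectors -/

theorem length_blk (N i : ℕ) (β : List ℕ) : ((blk N i β).map CP.val).length = N := by
  simp [blk]

theorem blk_bit (hV : SpecVAL) {N i : ℕ} {β : List ℕ} (hβ : β.length = N) {u : ℕ}
    (hu : isBit u) : ((blk N i β).map CP.val).getD u 0 = ((β.getD u 0 : ℕ) : FR) := by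
  by_cases h : u < N
  · rw [blk, List.map_map, getD_range_map _ _ h, Function.comp_apply, if_pos hu]
    exact hV.1.nat _
  · rw [List.getD_eq_default _ _ (by rw [length_blk]; omega),
      List.getD_eq_default _ _ (by omega), Nat.cast_zero]

theorem blk_var (hV : SpecVAL) {N i : ℕ} {β : List ℕ} {u : ℕ} (h : u < N) (hu : ¬ isBit u) :
    ((blk N i β).map CP.val).getD u 0 = xv (i, u) := by
  rw [blk, List.map_map, getD_range_map _ _ h, Function.comp_apply, if_neg hu]
  exact hV.2.2.2.2.1 _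

theorem val_getD (hV : SpecVAL) (x : List CP) (u : ℕ) :
    (x.getD u (cops.nat 0)).val = (x.map CP.val).getD u 0 := by
  rw [map_getD CP.val, hV.1.nat]
  congr 1
  exact Nat.cast_zero

theorem csub_isZero (hV : SpecVAL) {p q : CP} (h : p.val = q.val) : (csub p q).isZero := by
  rw [hV.2.1, csub, hV.1.add, hV.1.neg, h]
  exact add_neg_cancel _

/-- Polynomials in `Lin` that vanish on a class are derivable. -/
theorem lin_der (hVAL : SpecVAL) (hEVL : SpecEVL) (hLINF : SpecLINF) (hLFH : SpecLFH)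
    {N i : ℕ} {β : List ℕ} {X : Set (List D)} (hX : ∀ x ∈ X, x.length = N) {Ts : List LF}
    (hTs : ∀ T : LF, (∀ x ∈ X, apLF (nops D) toD x T = 0) →
        ∃ l : List (ℕ × Mo × LF × Mo), (∀ q ∈ l, q.2.2.1 ∈ Ts) ∧
          ∀ (R : Type) [Ring R] (φ : Mo →* R) (y : List R), y.length = N →
            apLF (nops R) φ y T = (l.map fun q =>
              (if q.1 = 0 then (1 : R) else -1) *
                (φ q.2.1 * apLF (nops R) φ y q.2.2.1 * φ q.2.2.2)).sum)
    {H : Set FR} (hH : ∀ T ∈ Ts, (apLF cops emC (blk N i β) T).val ∈ H) (p : FR)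
    (hp : Lin N i p) (hv : ∀ x ∈ X, ev toD (fun v => x.getD v.2 0) p = 0) : Der H p := by
  obtain ⟨T, hT⟩ := hLINF N i p hp
  obtain ⟨l, hl, hsum⟩ := hTs T (fun x hx => by
    rw [hT D toD x (fun v => x.getD v.2 0) (hX x hx) (fun t _ _ => rfl)]
    exact hv x hx)
  have hy : ((blk N i β).map CP.val).length = N := length_blk N i β
  have h1 : p = apLF (nops FR) toF ((blk N i β).map CP.val) T := by
    rw [hT FR toF _ xv hy (fun t ht hb => (blk_var hVAL ht hb).symm)]
    exact (hEVL.2.2.1 p).symm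
  rw [h1, hsum FR toF _ hy]
  refine Der_sum _ fun q hq => ?_
  obtain ⟨r, hr, rfl⟩ := List.mem_map.1 hq
  have h2 : Der H (apLF (nops FR) toF ((blk N i β).map CP.val) r.2.2.1) := by
    rw [← hLFH CP FR cops (nops FR) CP.val emC toF hVAL.1 hVAL.2.2.2.1]
    exact Der.hyp _ (hH _ (hl r hr))
  have h3 := Der_mul ((if r.1 = 0 then (1 : FR) else -1) * toF r.2.1) (toF r.2.2.2) h2
  have e : (if r.1 = 0 then (1 : FR) else -1) *
      (toF r.2.1 * apLF (nops FR) toF ((blk N i β).map CP.val) r.2.2.1 * toF r.2.2.2)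
      = (if r.1 = 0 then (1 : FR) else -1) * toF r.2.1 *
        apLF (nops FR) toF ((blk N i β).map CP.val) r.2.2.1 * toF r.2.2.2 := by
    simp only [mul_assoc]
  rw [e]
  exact h3

/-- Linear forms of vectors with words satisfying `Q`. -/
theorem SP_apLF {Q : Wd → Prop} (h1 : Q 1) (hL : ∀ g w, Q w → Q (cw g * w))
    (hR : ∀ g w, Q w → Q (w * cw g)) (x : List FR) (hx : ∀ u, SP Q (x.getD u 0)) (T : LF) :
    SP Q (apLF (nops FR) toF x T) := by
  have hn : ∀ n : ℕ, SP Q ((nops FR).nat n) := fun n => SP_nat h1 n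
  have ht : ∀ q : ℕ × Mo × ℕ × Mo, SP Q (tmLF (nops FR) toF x q) := by
    intro q
    have h2 : SP Q ((nops FR).mul ((nops FR).mul (toF q.2.1)
        (if q.2.2.1 = 0 then (nops FR).nat 1 else x.getD (q.2.2.1 - 1) ((nops FR).nat 0)))
        (toF q.2.2.2)) := by
      refine SP_mulR _ (hR _) (SP_mulL _ (hL _) ?_)
      split
      · exact hn 1
      · have e : (nops FR).nat 0 = (0 : FR) := Nat.cast_zero
        rw [e]
        exact hx _
    unfold tmLF
    split
    · exact h2
    · exact SP_neg h2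
  induction T with
  | nil => exact hn 0
  | cons q T ih => exact SP_add (ht q) ih

/-! ### The bits of the targets -/

theorem isBit_four (m j : ℕ) (hm : m % 4 = 0) : isBit (m + (4 * j + 2)) := by
  unfold isBit
  omega

theorem not_isBit_four (m : ℕ) (hm : m % 4 = 0) : ¬ isBit m := by
  unfold isBit
  omega

theorem gF_bit {α : Type} (o : Ops α) (F : List α) (m j : ℕ) :
    o.gF 1 (F.drop m) j 1 0 = F.getD (m + (4 * j + 2)) (o.nat 0) := by
  rw [Ops.gF, List.getD_eq_getElem?_getD, List.getD_eq_getElem?_getD, List.getElem?_drop]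
  congr 2
  ring

/-- `nbres` of a vector whose bits are integers. -/
theorem nbres_bits {R : Type} [Ring R] (P m : ℕ) (hm : m % 4 = 0) (x : List R) (b : List ℤ)
    (h : ∀ u, isBit u → x.getD u 0 = ((b.getD u 0 : ℤ) : R)) :
    (nops R).nbres P 1 (x.drop m) = (((nops ℤ).nbres P 1 (b.drop m) : ℤ) : R) := by
  have hom : Ops.Hom (nops ℤ) (nops R) (fun n : ℤ => (n : R)) :=
    ⟨fun n => Int.cast_natCast n, fun a b => Int.cast_add a b, fun a b => Int.cast_mul a b,
      fun a => Int.cast_neg a⟩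
  have hg : ∀ j, (nops R).gF 1 (x.drop m) j 1 0
      = (((nops ℤ).gF 1 (b.drop m) j 1 0 : ℤ) : R) := by
    intro j
    have e0 : (nops R).nat 0 = (0 : R) := Nat.cast_zero
    have e1 : (nops ℤ).nat 0 = (0 : ℤ) := rfl
    rw [gF_bit, gF_bit, e0, e1]
    exact h _ (isBit_four m j hm)
  unfold Ops.nbres
  rw [hg 0]
  have e2 : (fun j => (nops R).co ((nops R).gF 1 (x.drop m) (j + 1) 1 0))
      = fun j => (((nops ℤ).co ((nops ℤ).gF 1 (b.drop m) (j + 1) 1 0) : ℤ) : R) := by
    funext j
    rw [hg (j + 1)]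
    exact (hom.co _).symm
  rw [e2, ← hom.prod]
  exact (hom.mul _ _).symm

theorem int_inj {n : ℤ} (h : (n : D) = 0) : n = 0 := by
  have h1 := congrArg (MonoidAlgebra.lift ℤ ℤ Mo (1 : Mo →* ℤ)) h
  rw [map_intCast, map_zero] at h1
  exact_mod_cast h1

theorem SP_xv {Q : Wd → Prop} (v : Var) (h : Q ([(1, v)], 1)) : SP Q (xv v) := by
  intro w hw
  have e : (xv v).coeff = Finsupp.single ([(1, v)], 1) (1 : ℤ) := rfl
  rw [e] at hw
  have h1 : w = (([(1, v)], 1) : Wd) :=
    Finset.mem_singleton.1 (Finsupp.support_single_subset hw)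
  rw [h1]
  exact h

/-! ### Results -/

theorem vS_val (hV : SpecVAL) (s : Sys) (a : ℕ) (βs : List (List ℕ)) :
    (vS s a βs).map CP.val = (nops FR).vecS s.P 1 s.n1 s.T a
      ((VL cops emC s.P s.nB).map CP.val)
      (((List.range (s.rk a)).map fun i => blk (NN s) i (βs.getD i [])).map
        (List.map CP.val)) :=
  hV.1.vecS _ _ _ _ _ _ _

theorem vS_bit (hV : SpecVAL) (hB : SpecBITZ) (s : Sys) (a : ℕ) (βs : List (List ℕ))
    (tr : Fin (s.rk a) → Tree) (h : ∀ i : Fin (s.rk a), βs.getD i [] = bitsOf s (tr i)) (u : ℕ)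
    (hu : isBit u) : ((vS s a βs).map CP.val).getD u 0
      = (((bitsOf s (.node a (s.rk a) tr)).getD u 0 : ℕ) : FR) := by
  rw [vS_val hV]
  refine vecS_bits hB s a (s.rk a) tr _ _ (by simp) ?_ u hu
  intro i hi u hu
  rw [List.map_map, getD_range_map _ _ hi, Function.comp_apply, h ⟨i, hi⟩]
  exact blk_bit hV (length_bitsOf s _) hu

theorem main (hENC : SpecENC) (hDERK : SpecDERK) (hNOEF : SpecNOEF) (hLINF : SpecLINF)
    (hLFH : SpecLFH) (hBLK : SpecBLK) (hVAL : SpecVAL) (hEVL : SpecEVL) (hB : SpecBITZ)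
    (s : Sys)
    (hOrd : ∀ a < s.A.length, ∃ ρ : ℕ → ℕ, Function.Injective ρ ∧
      ∀ βs : List (List ℕ), ∀ t < NN s, ¬ isBit t →
        ∃ k, Dec (NN s) (s.rk a) ρ k (((vS s a βs).getD t (cops.nat 0)).val))
    (hR : RawD s) : ∃ c : CertD, ChkD s c := by
  classical
  obtain ⟨L, hL⟩ : ∃ L : List (List ℕ), ∀ β, β ∈ L ↔ ∃ t, Ranked s.A t ∧ bitsOf s t = β :=
    ⟨(cl_finite hB s).toFinset.toList, fun β => by simp⟩
  have hX : ∀ β, ∀ x ∈ XS s β, x.length = NN s := by
    rintro β x ⟨t, -, -, rfl⟩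
    exact length_vD s t
  choose Ts hTs1 hTs2 using fun β => hNOEF (NN s) (XS s β) (hX β)
  obtain ⟨C, hC⟩ : ∃ C : List (List ℕ × List LF), C = L.map fun β => (β, Ts β) := ⟨_, rfl⟩
  have hClen : C.length = L.length := by rw [hC, List.length_map]
  have hget : ∀ κ (hκ : κ < L.length), C.getD κ ([], []) = (L[κ], Ts L[κ]) := by
    intro κ hκ
    rw [hC, List.getD_eq_getElem?_getD, List.getElem?_map, List.getElem?_eq_getElem hκ]
    rfl
  have hbits : ∀ κ (hκ : κ < L.length), CertD.bits (C, [], [], []) κ = L[κ] := by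
    intro κ hκ
    show (C.getD κ ([], [])).1 = _
    rw [hget κ hκ]
  have hforms : ∀ κ (hκ : κ < L.length), CertD.forms (C, [], [], []) κ = Ts L[κ] := by
    intro κ hκ
    show (C.getD κ ([], [])).2 = _
    rw [hget κ hκ]
  refine assemble s C ?_ ?_
  · intro a ha z hz
    rw [hClen] at hz
    have hdig : ∀ i, i < s.rk a → dig C.length z i < L.length := by
      intro i hi
      rw [hClen]
      have hK : 0 < L.length := by
        rcases Nat.eq_zero_or_pos L.length with h0 | h0
        · rw [h0, zero_pow (by omega)] at hz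
          omega
        · exact h0
      exact Nat.mod_lt _ hK
    obtain ⟨βs, hβs⟩ : ∃ βs : List (List ℕ), βs = (List.range (s.rk a)).map fun i =>
      CertD.bits (C, [], [], []) (dig C.length z i) := ⟨_, rfl⟩
    have hβi : ∀ i (hi : i < s.rk a), βs.getD i [] = L[dig C.length z i]'(hdig i hi) := by
      intro i hi
      rw [hβs, getD_range_map _ _ hi, hbits _ (hdig i hi)]
    have hres : res s (C, [], [], []) a z = vS s a βs := by
      rw [hβs]
      rfl
    have htr : ∀ i : Fin (s.rk a), ∃ t, Ranked s.A t ∧ bitsOf s t = βs.getD i [] := by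
      intro i
      rw [hβi i i.2]
      exact (hL _).1 (List.getElem_mem _)
    choose tr htr1 htr2 using htr
    have hrank : ∀ c : Fin (s.rk a) → Tree, (∀ i, Ranked s.A (c i)) →
        Ranked s.A (.node a (s.rk a) c) := by
      intro c hc
      refine ⟨?_, hc⟩
      show s.A[a]? = some (s.A.getD a 0)
      rw [List.getElem?_eq_getElem ha, List.getD_eq_getElem _ _ ha]
    obtain ⟨κ, hκ, hκ'⟩ := List.mem_iff_getElem.1 ((hL _).2 ⟨_, hrank tr htr1, rfl⟩)
    have hbit : ∀ u, isBit u → ((vS s a βs).map CP.val).getD u 0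
        = ((L[κ].getD u 0 : ℕ) : FR) := by
      intro u hu
      rw [hκ']
      exact vS_bit hVAL hB s a βs tr (fun i => (htr2 i).symm) u hu
    refine ⟨κ, by rw [hClen]; exact hκ, ?_, ?_⟩
    · intro t _ hb
      refine csub_isZero hVAL ?_
      rw [hbits κ hκ, hres, val_getD hVAL, hbit t hb, hVAL.1.nat]
      rfl
    · intro l hl
      rw [hforms κ hκ] at hl ⊢
      have hT : (Ts L[κ]).getD l [] ∈ Ts L[κ] := by
        rw [List.getD_eq_getElem _ _ hl]
        exact List.getElem_mem _
      obtain ⟨T, hTe⟩ : ∃ T, T = (Ts L[κ]).getD l [] := ⟨_, rfl⟩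
      rw [← hTe] at hT ⊢
      refine hENC.2 _ _ ?_
      rw [hres, hLFH CP FR cops (nops FR) CP.val emC toF hVAL.1 hVAL.2.2.2.1]
      obtain ⟨ρ, hρ, hk⟩ := hOrd a ha
      have hk := hk βs
      choose! kk hkk using hk
      have hdec : Dec (NN s) (s.rk a) ρ (∑ t ∈ range (NN s), kk t)
          (apLF (nops FR) toF ((vS s a βs).map CP.val) T) := by
        refine SP_apLF (Decr_one _ _ _ _) (fun g w => Decr_mulL g w)
          (fun g w => Decr_mulR g w) _ (fun u => ?_) T
        by_cases hu : u < NN s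
        · by_cases hb : isBit u
          · rw [hbit u hb]
            exact SP_nat (Decr_one _ _ _ _) _
          · rw [← val_getD hVAL]
            intro w hw
            exact Decr_mono (Finset.single_le_sum (f := kk) (fun _ _ => Nat.zero_le _)
              (Finset.mem_range.2 hu)) (hkk u hu hb w hw)
        · rw [List.getD_eq_default _ _ (by
            rw [List.length_map, vS, length_vecS]
            exact Nat.not_lt.1 hu)]
          exact SP_zero
      refine hDERK (NN s) (s.rk a) ρ (fun i => XS s (βs.getD i [])) _ hρ ?_ _ _ hdec ?_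
      · intro i hi p hp hv
        refine lin_der (β := βs.getD i []) hVAL hEVL hLINF hLFH (hX _)
          (hTs2 (βs.getD i [])) ?_ p hp hv
        intro T' hT'
        refine ⟨apLF cops emC (blk (NN s) i (βs.getD i [])) T', ?_, rfl⟩
        refine List.mem_flatMap.2 ⟨i, List.mem_range.2 hi, List.mem_map.2 ⟨T', ?_, ?_⟩⟩
        · have e : CertD.forms (C, [], [], []) (dig (CertD.K (C, [], [], [])) z i)
              = Ts (βs.getD i []) := by
            rw [hβi i hi]
            exact hforms _ (hdig i hi)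
          rw [e]
          exact hT'
        · have e : CertD.bits (C, [], [], []) (dig (CertD.K (C, [], [], [])) z i)
              = βs.getD i [] := by
            rw [hβi i hi]
            exact hbits _ (hdig i hi)
          rw [e]
      · intro ξ hξ
        have hξ' : ∀ i : Fin (s.rk a), ∃ t, Ranked s.A t ∧ bitsOf s t = βs.getD i [] ∧
            ∀ u, ξ (i, u) = (vD s t).getD u 0 := by
          intro i
          obtain ⟨x, ⟨t, ht1, ht2, rfl⟩, hx⟩ := hξ i i.2
          exact ⟨t, ht1, ht2, hx⟩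
        choose tt ht1 ht2 ht3 using hξ'
        have hb' : bitsOf s (.node a (s.rk a) tt) = L[κ] := by
          rw [hκ']
          exact bitsOf_congr hB s a (s.rk a) tt tr fun i => (ht2 i).trans (htr2 i).symm
        have h0 := hTs1 L[κ] T hT _ ⟨_, hrank tt ht1, hb', rfl⟩
        have hblk := hBLK.2 s a βs (List.ofFn fun i => vD s (tt i)) ξ (List.length_ofFn)
          (fun i hi => by rw [getD_ofFn_lt _ _ hi]; exact length_vD s _)
          (fun i hi t _ hb => by
            rw [getD_ofFn_lt _ _ hi, vD_bit hB s _ t hb, ht2 ⟨i, hi⟩])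
          (fun i hi t _ _ => by rw [getD_ofFn_lt _ _ hi]; exact ht3 ⟨i, hi⟩ t)
        have h1 := hLFH FR D (nops FR) (nops D) (ev toD ξ) toF toD (hEVL.2.2.2.2 D toD ξ)
          (fun g => (hEVL.1 D toD ξ).1 g) ((vS s a βs).map CP.val) T
        rw [h1, List.map_map]
        have h2 : (vS s a βs).map (⇑(ev toD ξ) ∘ CP.val)
            = vD s (.node a (s.rk a) tt) := hblk
        rw [h2]
        exact h0
  · intro κ hκ
    rw [hClen] at hκ
    rw [hbits κ hκ, hforms κ hκ]
    obtain ⟨t0, ht0, hbt⟩ := (hL L[κ]).1 (List.getElem_mem _)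
    obtain ⟨β, hβ⟩ : ∃ β, β = L[κ] := ⟨_, rfl⟩
    rw [← hβ] at hbt ⊢
    have hlen : β.length = NN s := by rw [← hbt, length_bitsOf]
    have hm : s.n1 * fs s.P 1 % 4 = 0 := by
      unfold fs
      have : s.n1 * ((s.P + 1) * (1 + 1) * (1 + 1)) = 4 * (s.n1 * (s.P + 1)) := by ring
      rw [this]
      exact Nat.mul_mod_right 4 _
    have hbF : ∀ u, isBit u → ((blk (NN s) 0 β).map CP.val).getD u 0
        = (((zD s t0).getD u 0 : ℤ) : FR) := by
      intro u hu
      rw [blk_bit hVAL hlen hu, ← bitsOf_eq hB s t0 u hu, hbt, Int.cast_natCast]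
    have hbD : ∀ u, isBit u → (vD s t0).getD u 0 = (((zD s t0).getD u 0 : ℤ) : D) := by
      intro u hu
      rw [vD_bit hB s t0 u hu, ← bitsOf_eq hB s t0 u hu, Int.cast_natCast]
    refine ⟨?_, ?_⟩
    · rw [hVAL.2.1, hVAL.1.target]
      have hD := hR t0 ht0 1 (by omega)
      unfold Ops.target at hD ⊢
      rw [if_pos rfl] at hD ⊢
      have f1 := nbres_bits s.P 0 rfl _ _ hbF
      have f2 := nbres_bits s.P _ hm _ _ hbF
      have d1 := nbres_bits s.P 0 rfl _ _ hbD
      have d2 := nbres_bits s.P _ hm _ _ hbD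
      rw [List.drop_zero, List.drop_zero] at f1 d1
      rw [f1, f2]
      rw [d1, d2] at hD
      have h1 : (((nops ℤ).nbres s.P 1 (zD s t0) -
          (nops ℤ).nbres s.P 1 ((zD s t0).drop (s.n1 * fs s.P 1)) : ℤ) : D) = 0 := by
        rw [Int.cast_sub, sub_eq_add_neg]
        exact hD
      have h2 := int_inj h1
      have h3 : (((nops ℤ).nbres s.P 1 (zD s t0) -
          (nops ℤ).nbres s.P 1 ((zD s t0).drop (s.n1 * fs s.P 1)) : ℤ) : FR) = 0 := by
        rw [h2, Int.cast_zero]
      rw [Int.cast_sub, sub_eq_add_neg] at h3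
      exact h3
    · refine hENC.2 _ _ ?_
      refine lin_der (i := 0) (β := β) hVAL hEVL hLINF hLFH (hX β) (hTs2 β) ?_ _ ?_ ?_
      · intro T' hT'
        exact ⟨apLF cops emC (blk (NN s) 0 β) T', List.mem_map.2 ⟨T', hT', rfl⟩, rfl⟩
      · rw [hVAL.1.target]
        have f1 := nbres_bits s.P 0 rfl _ _ hbF
        rw [List.drop_zero, List.drop_zero] at f1
        have hent : ∀ u, ¬ isBit u → SP (fun w => w.1.length ≤ 1 ∧
            ∀ q ∈ w.1, q.2.1 = 0 ∧ q.2.2 < NN s ∧ ¬ isBit q.2.2)
            (((blk (NN s) 0 β).map CP.val).getD u 0) := by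
          intro u hu
          by_cases h : u < NN s
          · rw [blk_var hVAL h hu]
            refine SP_xv _ ⟨le_rfl, fun q hq => ?_⟩
            rw [List.mem_singleton.1 hq]
            exact ⟨rfl, h, hu⟩
          · rw [List.getD_eq_default _ _ (by rw [length_blk]; omega)]
            exact SP_zero
        have e0 : (nops FR).nat 0 = (0 : FR) := Nat.cast_zero
        have g1 : (nops FR).gF 1 ((blk (NN s) 0 β).map CP.val) 0 0 0
            = ((blk (NN s) 0 β).map CP.val).getD 0 0 := by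
          rw [Ops.gF, e0]
        have g2 : (nops FR).gF 1 (((blk (NN s) 0 β).map CP.val).drop (s.n1 * fs s.P 1)) 0 0 0
            = ((blk (NN s) 0 β).map CP.val).getD (s.n1 * fs s.P 1) 0 := by
          rw [Ops.gF, e0, List.getD_eq_getElem?_getD, List.getD_eq_getElem?_getD,
            List.getElem?_drop]
          rfl
        unfold Ops.target
        rw [if_neg (by omega), f1, g1, g2]
        exact SP_intmul _ (SP_add (hent 0 (not_isBit_four 0 rfl))
          (SP_neg (hent _ (not_isBit_four _ hm))))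
      · rintro x ⟨t', ht', hbt', rfl⟩
        rw [hVAL.1.target, (hEVL.2.2.2.2 D toD _).target, List.map_map]
        have hblk := hBLK.1 (NN s) 0 β (vD s t') (fun v => (vD s t').getD v.2 0)
          (length_vD s t') (fun t _ hb => by rw [vD_bit hB s t' t hb, hbt'])
          (fun t _ _ => rfl)
        have h2 : (blk (NN s) 0 β).map
            (⇑(ev toD fun v => (vD s t').getD v.2 0) ∘ CP.val) = vD s t' := hblk
        rw [h2]
        exact hR t' ht' 0 (by omega)

/-- Module CCMP. -/
theorem specCCMP (hENC : SpecENC) (hDERK : SpecDERK) (hNOEF : SpecNOEF) (hLINF : SpecLINF)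
    (hLFH : SpecLFH) (hBLK : SpecBLK) (hVAL : SpecVAL) (hEVL : SpecEVL) (hB : SpecBITZ)
    (hORDV : SpecORDV) : SpecCCMP := by
  intro A B M₁ M₂ hO hR
  refine main hENC hDERK hNOEF hLINF hLFH hBLK hVAL hEVL hB _ ?_ hR
  intro a ha
  obtain ⟨ρ, hρ, h1, h2⟩ := hO a ha
  exact ⟨ρ, hρ, fun βs t ht hb => hORDV A B M₁ M₂ a ρ βs ha h1 h2 t ht hb⟩

end Pool.Agent.Lib.MP_39893a_lc.ORD.CCMPM
end

section
/-!
# Module CSND: accepted certificates are correct (MP_39893a_lc, hive ORD)
-/
set_option autoImplicit false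

namespace Pool.Agent.Lib.MP_39893a_lc.ORD

namespace CSNDM

/-! ### Digits -/

theorem dig_ofDigits (K : ℕ) : ∀ (r : ℕ) (κ : ℕ → ℕ), (∀ i < r, κ i < K) →
    (∑ i ∈ Finset.range r, κ i * K ^ i < K ^ r ∨ (r = 0 ∧ K = 0)) ∧
      ∀ i < r, dig K (∑ i ∈ Finset.range r, κ i * K ^ i) i = κ i := by
  intro r
  induction r with
  | zero =>
    intro κ _
    refine ⟨Or.inl (by simp), fun i hi => absurd hi (Nat.not_lt_zero i)⟩
  | succ r ih =>
    intro κ h
    have hK : 0 < K := lt_of_le_of_lt (Nat.zero_le _) (h 0 (Nat.succ_pos r))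
    obtain ⟨h1, h2⟩ := ih (fun i => κ (i + 1)) (fun i hi => h (i + 1) (Nat.succ_lt_succ hi))
    have h1' : ∑ i ∈ Finset.range r, κ (i + 1) * K ^ i < K ^ r := by
      rcases h1 with h1 | h1
      · exact h1
      · exact absurd h1.2 hK.ne'
    have e : ∑ i ∈ Finset.range (r + 1), κ i * K ^ i
        = K * (∑ i ∈ Finset.range r, κ (i + 1) * K ^ i) + κ 0 := by
      rw [Finset.sum_range_succ', pow_zero, mul_one, Finset.mul_sum]
      congr 1
      refine Finset.sum_congr rfl fun i _ => ?_
      rw [pow_succ]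
      ring
    have h0 : κ 0 < K := h 0 (Nat.succ_pos r)
    refine ⟨Or.inl ?_, ?_⟩
    · rw [e, pow_succ]
      have h3 : ∑ i ∈ Finset.range r, κ (i + 1) * K ^ i + 1 ≤ K ^ r := h1'
      have h4 := Nat.mul_le_mul_left K h3
      rw [Nat.mul_add, mul_one] at h4
      rw [mul_comm (K ^ r) K]
      omega
    · intro i hi
      rw [e]
      cases i with
      | zero =>
        rw [dig, pow_zero, Nat.div_one, Nat.mul_add_mod, Nat.mod_eq_of_lt h0]
      | succ i =>
        have h5 := h2 i (Nat.lt_of_succ_lt_succ hi)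
        rw [dig] at h5 ⊢
        rw [pow_succ, mul_comm (K ^ i) K, ← Nat.div_div_eq_div_mul, Nat.mul_add_div hK,
          Nat.div_eq_of_lt h0, Nat.add_zero]
        exact h5

/-! ### Homomorphisms -/

/-- Value at `ξ` of a coded polynomial. -/
noncomputable def vl (ξ : Var → D) (p : CP) : D := ev toD ξ p.val

theorem vl_hom (hV : SpecVAL) (ξ : Var → D) : Ops.Hom cops (nops D) (vl ξ) := by
  have h := hV.1
  refine ⟨fun n => ?_, fun a b => ?_, fun a b => ?_, fun a => ?_⟩
  · show ev toD ξ (cops.nat n).val = (n : D)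
    rw [h.nat]
    exact map_natCast (ev toD ξ) n
  · show ev toD ξ (cops.add a b).val = ev toD ξ a.val + ev toD ξ b.val
    rw [h.add]
    exact map_add (ev toD ξ) _ _
  · show ev toD ξ (cops.mul a b).val = ev toD ξ a.val * ev toD ξ b.val
    rw [h.mul]
    exact map_mul (ev toD ξ) _ _
  · show ev toD ξ (cops.neg a).val = -ev toD ξ a.val
    rw [h.neg]
    exact map_neg (ev toD ξ) _

theorem ev_toF (ξ : Var → D) (g : Mo) : ev toD ξ (toF g) = toD g := by
  have h1 : ev toD ξ (toF g) = evW toD ξ (cw g) := by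
    show (MonoidAlgebra.lift ℤ D Wd (evW toD ξ)) (MonoidAlgebra.of ℤ Wd (cw g)) = _
    rw [MonoidAlgebra.lift_of]
  rw [h1]
  show (List.map _ ([] : List (Mo × Var))).prod * toD g = toD g
  simp

theorem vl_emC (hV : SpecVAL) (ξ : Var → D) (g : Mo) : vl ξ (emC g) = toD g := by
  rw [vl, hV.2.2.2.1, ev_toF]

theorem vl_apLF (hV : SpecVAL) (hL : SpecLFH) (ξ : Var → D) (x : List CP) (T : LF) :
    vl ξ (apLF cops emC x T) = apLF (nops D) toD (x.map (vl ξ)) T :=
  hL CP D cops (nops D) (vl ξ) emC toD (vl_hom hV ξ) (vl_emC hV ξ) x T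

theorem vl_zero (hV : SpecVAL) (ξ : Var → D) (p : CP) (h : p.isZero) : vl ξ p = 0 := by
  rw [vl, (hV.2.1 p).1 h, map_zero]

theorem vl_csub (hV : SpecVAL) (ξ : Var → D) (p q : CP) (h : (csub p q).isZero) :
    vl ξ p = vl ξ q := by
  have h1 := vl_zero hV ξ _ h
  rw [csub, (vl_hom hV ξ).add, (vl_hom hV ξ).neg] at h1
  have h2 : vl ξ p + -vl ξ q = 0 := h1
  exact add_neg_eq_zero.1 h2

theorem vl_prf (hE : SpecENC) (hD : SpecDERS) (ξ : Var → D) (hy : List CP)
    (p : CP) (L : List Line) (h : Prf hy p L) (h0 : ∀ q ∈ hy, vl ξ q = 0) : vl ξ p = 0 := by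
  refine hD _ _ (hE.1 hy p L h) ξ ?_
  rintro f ⟨q, hq, rfl⟩
  exact h0 q hq

theorem vl_target (hV : SpecVAL) (ξ : Var → D) (P n1 : ℕ) (x : List CP) (e : ℕ) :
    vl ξ (cops.target P 1 n1 x e) = (nops D).target P 1 n1 (x.map (vl ξ)) e :=
  (vl_hom hV ξ).target P 1 n1 x e

theorem mem_forms {l : List LF} {T : LF} (h : T ∈ l) : ∃ i < l.length, l.getD i [] = T := by
  obtain ⟨i, hi, rfl⟩ := List.getElem_of_mem h
  refine ⟨i, hi, ?_⟩
  rw [List.getD_eq_getElem?_getD, List.getElem?_eq_getElem hi]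
  rfl

/-! ### Classes of trees -/

/-- The tree belongs to the class `κ`. -/
def Cls (s : Sys) (c : CertD) (t : Tree) (κ : ℕ) : Prop :=
  κ < c.K ∧ (∀ u < NN s, isBit u → (vD s t).getD u 0 = (((c.bits κ).getD u 0 : ℕ) : D)) ∧
    ∀ T ∈ c.forms κ, apLF (nops D) toD (vD s t) T = 0

theorem vD_length (s : Sys) (t : Tree) : (vD s t).length = NN s := vecT_length _ _ _ _ _ _ _

theorem exists_cls (hV : SpecVAL) (hE : SpecENC) (hD : SpecDERS) (hB : SpecBLK) (hL : SpecLFH)
    (s : Sys) (c : CertD) (h : ChkD s c) (t : Tree) : Ranked s.A t → ∃ κ, Cls s c t κ := by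
  induction t with
  | node a r f ih =>
    intro ht
    obtain ⟨ha, hr, hc⟩ := ranked_rk ht
    choose κ₀ hκ₀ using fun i => ih i (hc i)
    -- the tuple of the classes
    let κ : ℕ → ℕ := fun i => if hi : i < r then κ₀ ⟨i, hi⟩ else 0
    have hκ : ∀ i (hi : i < r), Cls s c (f ⟨i, hi⟩) (κ i) := by
      intro i hi
      have e : κ i = κ₀ ⟨i, hi⟩ := dif_pos hi
      rw [e]
      exact hκ₀ ⟨i, hi⟩
    obtain ⟨hz1, hz2⟩ := dig_ofDigits c.K r κ (fun i hi => (hκ i hi).1)
    set z := ∑ i ∈ Finset.range r, κ i * c.K ^ i with hz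
    have hzlt : z < c.K ^ s.rk a := by
      rw [hr]
      rcases hz1 with h1 | h1
      · exact h1
      · rw [hz, h1.1]
        simp
    obtain ⟨h1, h2, h3⟩ := h.1 a ha z hzlt
    -- the vectors of the subtrees
    let xs : List (List D) := List.ofFn fun i => vD s (f i)
    have hxl : xs.length = s.rk a := by
      rw [hr]
      exact List.length_ofFn
    have hx : ∀ i (hi : i < r), xs.getD i [] = vD s (f ⟨i, hi⟩) := by
      intro i hi
      rw [List.getD_eq_getElem?_getD, List.getElem?_ofFn, dif_pos hi]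
      rfl
    let ξ : Var → D := fun v => (xs.getD v.1 []).getD v.2 0
    let βs : List (List ℕ) := (List.range (s.rk a)).map fun i => c.bits (dig c.K z i)
    have hβ : ∀ i (hi : i < r), βs.getD i [] = c.bits (κ i) := by
      intro i hi
      rw [List.getD_eq_getElem?_getD, List.getElem?_map,
        List.getElem?_range (by rw [hr]; exact hi)]
      show c.bits (dig c.K z i) = _
      rw [hz2 i hi]
    have hres : (res s c a z).map (vl ξ) = vD s (.node a r f) := by
      have h4 := hB.2 s a βs xs ξ hxl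
        (fun i hi => by
          rw [hr] at hi
          rw [hx i hi]
          exact vD_length s _)
        (fun i hi u hu hb => by
          rw [hr] at hi
          rw [hx i hi, hβ i hi]
          exact (hκ i hi).2.1 u hu hb)
        (fun i hi u hu hb => rfl)
      exact h4
    have hhyp : ∀ q ∈ hyps s c a z, vl ξ q = 0 := by
      intro q hq
      rw [hyps, List.mem_flatMap] at hq
      obtain ⟨i, hi, hq⟩ := hq
      rw [List.mem_range, hr] at hi
      rw [hz2 i hi, hyp1, List.mem_map] at hq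
      obtain ⟨T, hT, rfl⟩ := hq
      rw [vl_apLF hV hL]
      have h5 := hB.1 (NN s) i (c.bits (κ i)) (vD s (f ⟨i, hi⟩)) ξ (vD_length s _)
        (fun u hu hb => (hκ i hi).2.1 u hu hb)
        (fun u hu hb => by
          show (xs.getD i []).getD u 0 = _
          rw [hx i hi])
      have h6 : (blk (NN s) i (c.bits (κ i))).map (vl ξ) = vD s (f ⟨i, hi⟩) := h5
      rw [h6]
      exact (hκ i hi).2.2 T hT
    refine ⟨c.tgt a z, h1, ?_, ?_⟩
    · intro u hu hb
      have h7 := vl_csub hV ξ _ _ (h2 u hu hb)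
      rw [(vl_hom hV ξ).nat] at h7
      rw [map_getD (vl ξ), (vl_hom hV ξ).nat, hres] at h7
      have h8 : (nops D).nat 0 = (0 : D) := Nat.cast_zero
      rw [h8] at h7
      exact h7
    · intro T hT
      obtain ⟨l, hl, hlT⟩ := mem_forms hT
      have h9 := vl_prf hE hD ξ _ _ _ (h3 l hl) hhyp
      rw [vl_apLF hV hL, hres, hlT] at h9
      exact h9

theorem specCSND (hV : SpecVAL) (hE : SpecENC) (hD : SpecDERS) (hB : SpecBLK) (hL : SpecLFH) :
    SpecCSND := by
  intro s c h t ht e he
  obtain ⟨κ, hκ, hb, hf⟩ := exists_cls hV hE hD hB hL s c h t ht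
  obtain ⟨h1, h2⟩ := h.2 κ hκ
  let ξ : Var → D := fun v => (vD s t).getD v.2 0
  have hblk : (blk (NN s) 0 (c.bits κ)).map (vl ξ) = vD s t :=
    hB.1 (NN s) 0 (c.bits κ) (vD s t) ξ (vD_length s t) hb (fun u hu _ => rfl)
  have he' : e = 0 ∨ e = 1 := by omega
  rcases he' with rfl | rfl
  · have h3 := vl_prf hE hD ξ _ _ _ h2 (by
      intro q hq
      rw [hyp1, List.mem_map] at hq
      obtain ⟨T, hT, rfl⟩ := hq
      rw [vl_apLF hV hL, hblk]
      exact hf T hT)
    rw [vl_target hV, hblk] at h3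
    exact h3
  · have h3 := vl_zero hV ξ _ h1
    rw [vl_target hV, hblk] at h3
    exact h3

end CSNDM

end Pool.Agent.Lib.MP_39893a_lc.ORD
end

section
/-!
# Hive ORD (MP_39893a_lc), module DERK: completeness of derivations

Paper proof: /team-store/MP_39893a_ORD_h53.md.
-/
set_option autoImplicit false

namespace Pool.Agent.Lib.MP_39893a_lc.ORD

namespace DERKM

/-! ### Supports -/

/-- All words of `p` satisfy `W`. -/
def Sp (W : Wd → Prop) (p : FR) : Prop := ∀ w ∈ p.coeff.support, W w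

lemma sp_zero (W : Wd → Prop) : Sp W 0 := by
  intro w hw
  simp at hw

lemma sp_add {W : Wd → Prop} {p q : FR} (hp : Sp W p) (hq : Sp W q) : Sp W (p + q) := by
  classical
  intro w hw
  rw [MonoidAlgebra.coeff_add] at hw
  rcases Finset.mem_union.mp (Finsupp.support_add hw) with h | h
  · exact hp w h
  · exact hq w h

lemma sp_neg {W : Wd → Prop} {p : FR} (hp : Sp W p) : Sp W (-p) := by
  intro w hw
  apply hp w
  rw [Finsupp.mem_support_iff] at hw ⊢
  intro h
  apply hw
  rw [MonoidAlgebra.coeff_neg, Finsupp.neg_apply, h, neg_zero]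

lemma sp_sub {W : Wd → Prop} {p q : FR} (hp : Sp W p) (hq : Sp W q) : Sp W (p - q) := by
  rw [sub_eq_add_neg]
  exact sp_add hp (sp_neg hq)

lemma sp_sum {W : Wd → Prop} {ι : Type} (s : Finset ι) (f : ι → FR) (h : ∀ i ∈ s, Sp W (f i)) :
    Sp W (∑ i ∈ s, f i) := by
  classical
  induction s using Finset.induction_on with
  | empty => simpa using sp_zero W
  | insert a s ha ih =>
    rw [Finset.sum_insert ha]
    exact sp_add (h a (Finset.mem_insert_self a s))
      (ih fun i hi => h i (Finset.mem_insert_of_mem hi))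

lemma sp_mul {W₁ W₂ W : Wd → Prop} {p q : FR} (hp : Sp W₁ p) (hq : Sp W₂ q)
    (h : ∀ u v, W₁ u → W₂ v → W (u * v)) : Sp W (p * q) := by
  classical
  intro w hw
  obtain ⟨u, hu, v, hv, rfl⟩ := Finset.mem_mul.mp (MonoidAlgebra.support_coeff_mul_subset p q hw)
  exact h u v (hp u hu) (hq v hv)

lemma sp_single {W : Wd → Prop} (w : Wd) (c : ℤ) (h : W w) : Sp W (MonoidAlgebra.single w c) := by
  intro v hv
  rw [MonoidAlgebra.coeff_single] at hv
  have := Finsupp.support_single_subset hv
  rw [Finset.mem_singleton] at this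
  rw [this]
  exact h

lemma DtoF_single (g : Mo) (c : ℤ) :
    DtoF (MonoidAlgebra.single g c) = MonoidAlgebra.single (([], g) : Wd) c := by
  unfold DtoF
  rw [AlgHom.toRingHom_eq_coe, RingHom.coe_coe, MonoidAlgebra.lift_single]
  show c • (MonoidAlgebra.of ℤ Wd (cw g)) = _
  rw [MonoidAlgebra.of_apply, MonoidAlgebra.smul_single, smul_eq_mul, mul_one]
  rfl

lemma sp_DtoF (x : D) : Sp (fun w => w.1 = []) (DtoF x) := by
  induction x using MonoidAlgebra.induction_linear with
  | zero => rw [map_zero]; exact sp_zero _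
  | add x y hx hy => rw [map_add]; exact sp_add hx hy
  | single g c => rw [DtoF_single]; exact sp_single _ _ rfl

/-! ### Splitting off the variables of the child `i` -/

/-- The first letter of `w` if it belongs to the child `i`. -/
def hd (i : ℕ) (w : Wd) : Wd :=
  match w.1 with
  | [] => ([], 1)
  | p :: _ => if p.2.1 = i then ([p], 1) else ([], 1)

/-- The rest of the word. -/
def tl (i : ℕ) (w : Wd) : Wd :=
  match w.1 with
  | [] => w
  | p :: l => if p.2.1 = i then (l, w.2) else w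

lemma hd_mul_tl (i : ℕ) (w : Wd) : hd i w * tl i w = w := by
  obtain ⟨l, g⟩ := w
  cases l with
  | nil => exact one_mul _
  | cons p l =>
    by_cases h : p.2.1 = i
    · have h1 : hd i (p :: l, g) = ([p], 1) := by simp [hd, h]
      have h2 : tl i (p :: l, g) = (l, g) := by simp [tl, h]
      rw [h1, h2]
      show Wd.mul ([p], 1) (l, g) = (p :: l, g)
      cases l with
      | nil => simp [Wd.mul]
      | cons q l => simp [Wd.mul]
    · have h1 : hd i (p :: l, g) = ([], 1) := by simp [hd, h]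
      have h2 : tl i (p :: l, g) = (p :: l, g) := by simp [tl, h]
      rw [h1, h2]
      exact one_mul _

/-- Words of linear polynomials. -/
def LinW (N i : ℕ) (w : Wd) : Prop :=
  w.1.length ≤ 1 ∧ ∀ q ∈ w.1, q.2.1 = i ∧ q.2.2 < N ∧ ¬ isBit q.2.2

lemma linW_hd (N r : ℕ) (ρ : ℕ → ℕ) (k i : ℕ) (w : Wd) (h : w.Decr N r ρ k) :
    LinW N i (hd i w) := by
  obtain ⟨l, g⟩ := w
  cases l with
  | nil => exact ⟨by simp [hd], by simp [hd]⟩
  | cons p l =>
    have hp := h.2 p (List.mem_cons_self)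
    by_cases hi : p.2.1 = i
    · have h1 : hd i (p :: l, g) = ([p], 1) := by simp [hd, hi]
      rw [h1]
      refine ⟨by simp, fun q hq => ?_⟩
      have : q = p := by simpa using hq
      subst this
      exact ⟨hi, hp.2.2.1, hp.2.2.2⟩
    · have h1 : hd i (p :: l, g) = ([], 1) := by simp [hd, hi]
      rw [h1]
      exact ⟨by simp, by simp⟩

lemma linW_mul (N i : ℕ) (u v : Wd) (hu : LinW N i u) (hv : v.1 = []) : LinW N i (u * v) := by
  obtain ⟨l, g⟩ := u
  obtain ⟨m, h⟩ := v
  simp only at hv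
  subst hv
  exact hu

lemma decr_tl (N r : ℕ) (ρ : ℕ → ℕ) (k i : ℕ) (hρ : Function.Injective ρ) (hi : ρ i = k) (w : Wd)
    (h : w.Decr N r ρ (k + 1)) : (tl i w).Decr N r ρ k := by
  obtain ⟨l, g⟩ := w
  cases l with
  | nil =>
    refine ⟨by simp [tl], ?_⟩
    simp [tl]
  | cons p l =>
    have hp := h.2 p (List.mem_cons_self)
    have hpw : (∀ a ∈ l, ρ a.2.1 < ρ p.2.1) ∧
        (l.map fun q : Mo × Var => ρ q.2.1).Pairwise (· > ·) := by
      have h1 : ((p :: l).map fun q : Mo × Var => ρ q.2.1).Pairwise (· > ·) := h.1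
      rw [List.map_cons, List.pairwise_cons] at h1
      exact ⟨fun a ha => h1.1 _ (List.mem_map_of_mem ha), h1.2⟩
    by_cases hpi : p.2.1 = i
    · have h2 : tl i (p :: l, g) = (l, g) := by simp [tl, hpi]
      rw [h2]
      refine ⟨hpw.2, fun q hq => ?_⟩
      have hq1 := h.2 q (List.mem_cons_of_mem _ hq)
      refine ⟨hq1.1, ?_, hq1.2.2.1, hq1.2.2.2⟩
      have := hpw.1 q hq
      rw [hpi, hi] at this
      exact this
    · have h2 : tl i (p :: l, g) = (p :: l, g) := by simp [tl, hpi]
      rw [h2]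
      have hlt : ρ p.2.1 < k := by
        have h3 : ρ p.2.1 < k + 1 := hp.2.1
        have h4 : ρ p.2.1 ≠ k := fun h5 => hpi (hρ (h5.trans hi.symm))
        omega
      refine ⟨h.1, fun q hq => ?_⟩
      have hq1 := h.2 q hq
      refine ⟨hq1.1, ?_, hq1.2.2.1, hq1.2.2.2⟩
      rcases List.mem_cons.mp hq with rfl | hq2
      · exact hlt
      · exact (hpw.1 q hq2).trans hlt

lemma decr_mul (N r : ℕ) (ρ : ℕ → ℕ) (k : ℕ) (u v : Wd) (hu : u.1 = []) (hv : v.Decr N r ρ k) :
    (u * v).Decr N r ρ k := by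
  obtain ⟨l, g⟩ := u
  obtain ⟨m, h⟩ := v
  simp only at hu
  subst hu
  cases m with
  | nil => exact ⟨by show List.Pairwise _ []; simp, fun q hq => absurd hq (by
      show q ∉ []
      simp)⟩
  | cons p m =>
    show Wd.Decr N r ρ k ((g * p.1, p.2) :: m, h)
    refine ⟨?_, fun q hq => ?_⟩
    · exact hv.1
    · rcases List.mem_cons.mp hq with rfl | hq2
      · exact hv.2 p (List.mem_cons_self)
      · exact hv.2 q (List.mem_cons_of_mem _ hq2)

/-! ### The proof -/

lemma der_of_one {H : Set FR} (h : Der H 1) (p : FR) : Der H p := by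
  have := Der.comb (H := H) 1 (fun _ => p) (fun _ => 1) (fun _ => 1) (fun _ => h)
  simpa using this

lemma lin_one (N i : ℕ) : Lin N i 1 := by
  intro w hw
  have h1 : (1 : FR) = MonoidAlgebra.single (1 : Wd) (1 : ℤ) := rfl
  rw [h1] at hw
  have h2 := sp_single (W := fun w => w = 1) (1 : Wd) (1 : ℤ) rfl w hw
  subst h2
  exact ⟨by show ([] : List (Mo × Var)).length ≤ 1; simp, fun q hq => absurd hq (by
    show q ∉ []
    simp)⟩

/-- Decomposition of a polynomial. -/
lemma decomp (i : ℕ) (p : FR) : p = ∑ w ∈ p.coeff.support,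
    MonoidAlgebra.single (hd i w) (1 : ℤ) * MonoidAlgebra.single (tl i w) (p.coeff w) := by
  conv_lhs => rw [← MonoidAlgebra.sum_coeff_single p]
  rw [Finsupp.sum]
  refine Finset.sum_congr rfl fun w _ => ?_
  rw [MonoidAlgebra.single_mul_single, hd_mul_tl, one_mul]

lemma const_eq (p : FR) (h : Sp (fun w => w.1 = []) p) : ∃ x : D, p = DtoF x := by
  refine ⟨∑ w ∈ p.coeff.support, MonoidAlgebra.single w.2 (p.coeff w), ?_⟩
  rw [map_sum]
  conv_lhs => rw [← MonoidAlgebra.sum_coeff_single p]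
  rw [Finsupp.sum]
  refine Finset.sum_congr rfl fun w hw => ?_
  rw [DtoF_single]
  have h1 := h w hw
  obtain ⟨l, g⟩ := w
  simp only at h1
  subst h1
  rfl

end DERKM

open DERKM

theorem specDERK (hE : SpecEVL) (hO : SpecOREK) : SpecDERK := by
  classical
  intro N r ρ X H hρ hLin k
  induction k with
  | zero =>
    intro p hp hv
    by_cases hX : ∀ i < r, (X i).Nonempty
    · have h1 : Sp (fun w => w.1 = []) p := by
        intro w hw
        by_contra hne
        obtain ⟨q, hq⟩ := List.exists_mem_of_ne_nil _ hne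
        exact absurd ((hp w hw).2 q hq).2.1 (Nat.not_lt_zero _)
      obtain ⟨x, rfl⟩ := const_eq p h1
      choose! y hy using hX
      have h2 := hv (fun v => (y v.1).getD v.2 0) fun i hi => ⟨y i, hy i hi, fun t => rfl⟩
      rw [hE.2.1] at h2
      rw [h2, map_zero]
      have := Der.comb (H := H) 0 (fun _ => 0) (fun _ => 0) (fun _ => 0) (fun i => i.elim0)
      simpa using this
    · push Not at hX
      obtain ⟨i, hi, hXi⟩ := hX
      refine der_of_one (hLin i hi 1 (lin_one N i) fun x hx => ?_) p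
      rw [hXi] at hx
      exact absurd hx (Set.notMem_empty x)
  | succ k ih =>
    intro p hp hv
    by_cases hex : ∃ i < r, ρ i = k
    swap
    · push Not at hex
      refine ih p (fun w hw => ⟨(hp w hw).1, fun q hq => ?_⟩) hv
      obtain ⟨h1, h2, h3⟩ := (hp w hw).2 q hq
      have := hex q.2.1 h1
      exact ⟨h1, by omega, h3⟩
    obtain ⟨i, hir, hik⟩ := hex
    -- the decomposition
    obtain ⟨n, ⟨e⟩⟩ := Finite.exists_equiv_fin p.coeff.support
    let F : Fin n → FR := fun j => MonoidAlgebra.single (hd i (e.symm j).1) (1 : ℤ)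
    let G : Fin n → FR := fun j => MonoidAlgebra.single (tl i (e.symm j).1)
      (p.coeff (e.symm j).1)
    have hsum : p = ∑ j, F j * G j := by
      conv_lhs => rw [decomp i p]
      rw [← Finset.sum_coe_sort]
      exact (Equiv.sum_comp e.symm (fun w : p.coeff.support =>
        (MonoidAlgebra.single (hd i w.1) (1 : ℤ) * MonoidAlgebra.single (tl i w.1) (p.coeff w.1)
          : FR))).symm
    have hFL : ∀ j, Sp (LinW N i) (F j) := fun j =>
      sp_single _ _ (linW_hd N r ρ (k + 1) i _ (hp _ (e.symm j).2))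
    have hGD : ∀ j, Sp (fun w => w.Decr N r ρ k) (G j) := fun j =>
      sp_single _ _ (decr_tl N r ρ k i hρ hik _ (hp _ (e.symm j).2))
    let YY : Type := {ξ : Var → D // ∀ i' < r, ∃ x ∈ X i', ∀ t, ξ (i', t) = x.getD t 0}
    have hrel : ∀ (x : X i) (y : YY),
        ∑ j, ev toD (fun v => (x : List D).getD v.2 0) (F j) * ev toD y.1 (G j) = 0 := by
      intro x y
      set ξ : Var → D := fun v => if v.1 = i then (x : List D).getD v.2 0 else y.1 v with hξ
      have h1 : ev toD ξ p = 0 := by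
        apply hv
        intro i' hi'
        by_cases h : i' = i
        · subst h
          exact ⟨x, x.2, fun t => by simp [hξ]⟩
        · obtain ⟨z, hz, hzt⟩ := y.2 i' hi'
          exact ⟨z, hz, fun t => by simp [hξ, h, hzt]⟩
      rw [hsum, map_sum] at h1
      refine Eq.trans (Finset.sum_congr rfl fun j _ => ?_) h1
      rw [map_mul]
      congr 1
      · refine hE.2.2.2.1 D toD _ _ (F j) fun w hw q hq => ?_
        have h2 := ((hFL j w hw).2 q hq).1
        simp [hξ, h2]
      · refine hE.2.2.2.1 D toD _ _ (G j) fun w hw q hq => ?_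
        have h2 := ((hGD j w hw).2 q hq).2.1
        have h3 : q.2.1 ≠ i := by
          rintro h4
          rw [h4, hik] at h2
          exact lt_irrefl _ h2
        simp [hξ, h3]
    obtain ⟨B, δ, κ, γ, γ', hδ, hκ, hγ, hF, hG⟩ := hO (X i) YY n
      (fun j x => ev toD (fun v => (x : List D).getD v.2 0) (F j)) (fun j y => ev toD y.1 (G j))
      hrel
    have hB := B.equivFin.symm
    have hC := (Bᶜ).equivFin.symm
    have hore := Der.ore (H := H) B.card (Bᶜ).card (fun b => F (hB b)) (fun b => G (hB b))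
      (fun c => F (hC c)) (fun c => G (hC c)) δ κ (fun b c => DtoF (γ (hB b) (hC c)))
      (fun b c => DtoF (γ' (hB b) (hC c))) hδ hκ ?_ ?_ ?_
    · have h1 : (∑ b, F (hB b) * G (hB b) : FR) = ∑ j ∈ B, F j * G j := by
        rw [← Finset.sum_coe_sort B]
        exact Equiv.sum_comp hB (fun j : B => F j * G j)
      have h2 : (∑ c, F (hC c) * G (hC c) : FR) = ∑ j ∈ Bᶜ, F j * G j := by
        rw [← Finset.sum_coe_sort (Bᶜ)]
        exact Equiv.sum_comp hC (fun j : (Bᶜ : Finset (Fin n)) => F j * G j)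
      rw [h1, h2, Finset.sum_add_sum_compl, ← hsum] at hore
      exact hore
    · intro b c
      rw [← map_mul, ← map_mul, hγ _ (hB b).2 _ (Finset.mem_compl.mp (hC c).2)]
    · intro c
      apply hLin i hir
      · refine sp_sub (sp_mul (hFL _) (sp_DtoF κ) (linW_mul N i)) (sp_sum _ _ fun b _ => ?_)
        exact sp_mul (hFL _) (sp_DtoF _) (linW_mul N i)
      · intro x hx
        have h1 := hF (hC c) (Finset.mem_compl.mp (hC c).2) ⟨x, hx⟩
        rw [map_sub, map_mul, hE.2.1, map_sum]
        simp only [map_mul, hE.2.1]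
        have h2 : ∑ b : Fin B.card, ev toD (fun v => x.getD v.2 0) (F (hB b)) *
            γ' (hB b) (hC c) = ∑ j ∈ B, ev toD (fun v => x.getD v.2 0) (F j) * γ' j (hC c) := by
          rw [← Finset.sum_coe_sort B]
          exact Equiv.sum_comp hB (fun j : B => ev toD (fun v => x.getD v.2 0) (F j) *
            γ' j (hC c))
        rw [h2, ← h1, sub_self]
    · intro b
      apply ih
      · refine sp_add (sp_mul (sp_DtoF δ) (hGD _) (decr_mul N r ρ k)) (sp_sum _ _ fun c _ => ?_)
        exact sp_mul (sp_DtoF _) (hGD _) (decr_mul N r ρ k)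
      · intro ξ hξ
        have h1 := hG (hB b) (hB b).2 ⟨ξ, hξ⟩
        rw [map_add, map_mul, hE.2.1, map_sum]
        simp only [map_mul, hE.2.1]
        have h2 : ∑ c : Fin (Bᶜ).card, γ (hB b) (hC c) * ev toD ξ (G (hC c)) =
            ∑ j ∈ Bᶜ, γ (hB b) j * ev toD ξ (G j) := by
          rw [← Finset.sum_coe_sort (Bᶜ)]
          exact Equiv.sum_comp hC (fun j : (Bᶜ : Finset (Fin n)) =>
            γ (hB b) j * ev toD ξ (G j))
        rw [h2]
        exact h1

end Pool.Agent.Lib.MP_39893a_lc.ORD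
end

section
/-!
# DERS: soundness of derivations
-/
set_option autoImplicit false

namespace Pool.Agent.Lib.MP_39893a_lc.ORD.DERSM

open Finset

/-- The Ore rule in `D`. -/
theorem ore_rule (hN : SpecNZD) (hO : SpecOREC) (m n : ℕ) (Fb Hb : Fin m → D) (Fc Hc : Fin n → D)
    (δ κ : D) (γ γ' : Fin m → Fin n → D) (hδ : δ ≠ 0) (hκ : κ ≠ 0)
    (h1 : ∀ b c, δ * γ' b c = γ b c * κ) (h2 : ∀ c, Fc c * κ - ∑ b, Fb b * γ' b c = 0)
    (h3 : ∀ b, δ * Hb b + ∑ c, γ b c * Hc c = 0) :
    ∑ b, Fb b * Hb b + ∑ c, Fc c * Hc c = 0 := by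
  obtain ⟨⟨ε, hε, F', hF'⟩, -⟩ := hO m Fb δ hδ
  have h4 : ∀ c, ε * Fc c = ∑ b, F' b * γ b c := by
    intro c
    have h5 : (ε * Fc c - ∑ b, F' b * γ b c) * κ = 0 := by
      have h6 : Fc c * κ = ∑ b, Fb b * γ' b c := sub_eq_zero.1 (h2 c)
      rw [sub_mul, mul_assoc, h6, Finset.mul_sum, Finset.sum_mul, ← Finset.sum_sub_distrib]
      refine Finset.sum_eq_zero fun b _ => ?_
      rw [← mul_assoc, hF' b, mul_assoc, h1 b c, mul_assoc, sub_self]
    rcases hN _ _ h5 with h | h
    · exact sub_eq_zero.1 h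
    · exact absurd h hκ
  have h7 : ε * (∑ b, Fb b * Hb b + ∑ c, Fc c * Hc c) = 0 := by
    rw [mul_add, Finset.mul_sum, Finset.mul_sum]
    have e1 : ∑ b, ε * (Fb b * Hb b) = ∑ b, F' b * (δ * Hb b) :=
      Finset.sum_congr rfl fun b _ => by rw [← mul_assoc, hF' b, mul_assoc]
    have e2 : ∑ c, ε * (Fc c * Hc c) = ∑ b, F' b * ∑ c, γ b c * Hc c := by
      have e3 : ∑ c, ε * (Fc c * Hc c) = ∑ c, ∑ b, F' b * (γ b c * Hc c) :=
        Finset.sum_congr rfl fun c _ => by
          rw [← mul_assoc, h4 c, Finset.sum_mul]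
          exact Finset.sum_congr rfl fun b _ => mul_assoc _ _ _
      rw [e3, Finset.sum_comm]
      exact Finset.sum_congr rfl fun b _ => (Finset.mul_sum _ _ _).symm
    rw [e1, e2, ← Finset.sum_add_distrib]
    refine Finset.sum_eq_zero fun b _ => ?_
    rw [← mul_add, h3 b, mul_zero]
  rcases hN _ _ h7 with h | h
  · exact absurd h hε
  · exact h

/-- Soundness of derivations. -/
theorem specDERS (hN : SpecNZD) (hO : SpecOREC) (hE : SpecEVL) : SpecDERS := by
  intro H p hp ξ hξ
  have hc : ∀ x : D, ev toD ξ (DtoF x) = x := fun x => hE.2.1 ξ x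
  induction hp with
  | hyp p hp => exact hξ p hp
  | comb n u p v h ih =>
      rw [map_sum]
      refine Finset.sum_eq_zero fun i _ => ?_
      rw [map_mul, map_mul, ih i, mul_zero, zero_mul]
  | ore m n Fb Hb Fc Hc δ κ γ γ' hδ hκ h1 h2 h3 ih2 ih3 =>
      have k := ore_rule hN hO m n (fun b => ev toD ξ (Fb b)) (fun b => ev toD ξ (Hb b))
        (fun c => ev toD ξ (Fc c)) (fun c => ev toD ξ (Hc c)) δ κ
        (fun b c => ev toD ξ (γ b c)) (fun b c => ev toD ξ (γ' b c)) hδ hκ
        (fun b c => by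
          have := congrArg (ev toD ξ) (h1 b c)
          rwa [map_mul, map_mul, hc, hc] at this)
        (fun c => by
          have := ih2 c
          rw [map_sub, map_mul, hc, map_sum] at this
          simpa only [map_mul] using this)
        (fun b => by
          have := ih3 b
          rw [map_add, map_mul, hc, map_sum] at this
          simpa only [map_mul] using this)
      rw [map_add, map_sum, map_sum]
      simpa only [map_mul] using k

end Pool.Agent.Lib.MP_39893a_lc.ORD.DERSM
end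

section
/-!
# Derivations and lists of lines (MP_39893a_lc, hive ORD, module ENC)
-/
set_option autoImplicit false

namespace Pool.Agent.Lib.MP_39893a_lc.ORD.ENCM

open Finset

/-! ## Values -/

theorem val_sum (hV : SpecVAL) (f : ℕ → CP) (n : ℕ) :
    (cops.sum f n).val = ∑ i ∈ range n, (f i).val := by
  induction n with
  | zero =>
    have := hV.1.nat 0
    rw [Ops.sum, this]
    simp [nops]
  | succ n ih =>
    rw [Ops.sum, hV.1.add, ih, Finset.sum_range_succ]
    rfl

theorem val_add (hV : SpecVAL) (p q : CP) : (cops.add p q).val = p.val + q.val := hV.1.add p q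

theorem val_mul (hV : SpecVAL) (p q : CP) : (cops.mul p q).val = p.val * q.val := hV.1.mul p q

theorem val_nat (hV : SpecVAL) (n : ℕ) : (cops.nat n).val = (n : FR) := hV.1.nat n

theorem val_csub (hV : SpecVAL) (p q : CP) : (csub p q).val = p.val - q.val := by
  unfold csub
  rw [hV.1.add, hV.1.neg]
  show p.val + -q.val = _
  rw [sub_eq_add_neg]

theorem csub_zero (hV : SpecVAL) (p q : CP) : (csub p q).isZero ↔ p.val = q.val := by
  rw [hV.2.1, val_csub hV, sub_eq_zero]

/-- the value of a combination -/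
theorem val_foldr (hV : SpecVAL) (av : List CP) (cb : List (CP × ℕ × CP)) :
    (cb.foldr (fun q s => cops.add (cops.mul (cops.mul q.1 (av.getD q.2.1 (cops.nat 0))) q.2.2) s)
      (cops.nat 0)).val =
      (cb.map fun q => q.1.val * (av.getD q.2.1 (cops.nat 0)).val * q.2.2.val).sum := by
  induction cb with
  | nil => simp [val_nat hV]
  | cons q l ih =>
    rw [List.foldr_cons, val_add hV, val_mul hV, val_mul hV, ih, List.map_cons, List.sum_cons]

/-! ## Correct lists -/

/-- all lines are correct -/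
def Good (hy : List CP) (L : List Line) : Prop :=
  ∀ i < L.length, ∀ l ∈ (L.drop i).head?, l.Ok (hy ++ (L.drop (i + 1)).map Line.p)

theorem good_nil (hy : List CP) : Good hy [] := fun i hi => absurd hi (Nat.not_lt_zero i)

theorem good_cons (hy : List CP) (l : Line) (L : List Line) :
    Good hy (l :: L) ↔ l.Ok (hy ++ L.map Line.p) ∧ Good hy L := by
  constructor
  · intro h
    refine ⟨h 0 (by simp) l (by simp), fun i hi m hm => ?_⟩
    have := h (i + 1) (by simpa using hi) m (by simpa using hm)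
    simpa using this
  · rintro ⟨h1, h2⟩ i hi m hm
    cases i with
    | zero =>
      have : l = m := by simpa using hm
      subst this
      simpa using h1
    | succ i =>
      have := h2 i (by simpa using hi) m (by simpa using hm)
      simpa using this

/-- more available polynomials -/
theorem ok_mono (av bv : List CP) (l : Line) (h : l.Ok av) : l.Ok (av ++ bv) := by
  have hg : ∀ k < av.length, (av ++ bv).getD k (cops.nat 0) = av.getD k (cops.nat 0) := by
    intro k hk
    rw [List.getD_eq_getElem?_getD, List.getD_eq_getElem?_getD, List.getElem?_append_left hk]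
  have hl : av.length ≤ (av ++ bv).length := by simp
  unfold Line.Ok at h ⊢
  by_cases hk : l.kind = 0
  · rw [if_pos hk] at h ⊢
    obtain ⟨h1, h2⟩ := h
    refine ⟨fun q hq => (h1 q hq).trans_le hl, ?_⟩
    have h3 : l.cb.foldr (fun q s => cops.add (cops.mul (cops.mul q.1
        ((av ++ bv).getD q.2.1 (cops.nat 0))) q.2.2) s) (cops.nat 0) =
        l.cb.foldr (fun q s => cops.add (cops.mul (cops.mul q.1
        (av.getD q.2.1 (cops.nat 0))) q.2.2) s) (cops.nat 0) := by
      clear h2
      revert h1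
      generalize l.cb = cb
      intro h1
      induction cb with
      | nil => rfl
      | cons q m ih =>
        rw [List.foldr_cons, List.foldr_cons, ih fun q' hq' => h1 q' (List.mem_cons_of_mem _ hq'),
          hg _ (h1 q List.mem_cons_self)]
    rw [h3]
    exact h2
  · rw [if_neg hk] at h ⊢
    obtain ⟨h1, h2, h3, h4, h5, h6, h7, h8⟩ := h
    refine ⟨h1, h2, h3, h4, h5, fun c hc => ?_, fun b hb => ?_, h8⟩
    · obtain ⟨h9, h10⟩ := h6 c hc
      refine ⟨h9.trans_le hl, ?_⟩
      rw [hg _ h9]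
      exact h10
    · obtain ⟨h9, h10⟩ := h7 b hb
      refine ⟨h9.trans_le hl, ?_⟩
      rw [hg _ h9]
      exact h10

theorem good_append (hy : List CP) (M L : List Line) (hM : Good hy M) (hL : Good hy L) :
    Good hy (M ++ L) := by
  induction M with
  | nil => exact hL
  | cons l M ih =>
    rw [good_cons] at hM
    rw [List.cons_append, good_cons]
    refine ⟨?_, ih hM.2⟩
    rw [List.map_append, ← List.append_assoc]
    exact ok_mono _ _ l hM.1

/-! ## Soundness -/

theorem der_congr {H : Set FR} {p q : FR} (h : Der H p) (e : p = q) : Der H q := e ▸ h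

theorem der_zero (H : Set FR) : Der H 0 := by
  have := Der.comb (H := H) 0 (fun _ => 0) (fun _ => 0) (fun _ => 0) (fun i => i.elim0)
  simpa using this

theorem der_step {H : Set FR} {a b : FR} (u v : FR) (ha : Der H a) (hb : Der H b) :
    Der H (u * a * v + b) := by
  have := Der.comb (H := H) 2 ![u, 1] ![a, b] ![v, 1] (by
    intro i
    fin_cases i
    · exact ha
    · exact hb)
  refine der_congr this ?_
  rw [Fin.sum_univ_two]
  simp

theorem getD_mem (av : List CP) (k : ℕ) (hk : k < av.length) : av.getD k (cops.nat 0) ∈ av := by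
  rw [List.getD_eq_getElem _ _ hk]
  exact List.getElem_mem hk

theorem ok_der (hV : SpecVAL) {H : Set FR} (av : List CP) (hav : ∀ q ∈ av, Der H q.val) (l : Line)
    (h : l.Ok av) : Der H l.p.val := by
  unfold Line.Ok at h
  by_cases hk : l.kind = 0
  · rw [if_pos hk] at h
    obtain ⟨h1, h2⟩ := h
    rw [csub_zero hV, val_foldr hV] at h2
    rw [h2]
    clear h2
    revert h1
    generalize l.cb = cb
    intro h1
    induction cb with
    | nil => exact der_congr (der_zero H) (by simp)
    | cons q m ih =>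
      rw [List.map_cons, List.sum_cons]
      exact der_step _ _ (hav _ (getD_mem _ _ (h1 q List.mem_cons_self)))
        (ih fun q' hq' => h1 q' (List.mem_cons_of_mem _ hq'))
  · rw [if_neg hk] at h
    obtain ⟨h1, h2, h3, h4, h5, h6, h7, h8⟩ := h
    rw [csub_zero hV, val_add hV, val_sum hV, val_sum hV] at h8
    obtain ⟨δ, hδ⟩ := hV.2.2.2.2.2.2.1 _ h1
    obtain ⟨κ, hκ⟩ := hV.2.2.2.2.2.2.1 _ h3
    have hδ0 : δ ≠ 0 := by
      rintro rfl
      rw [hV.2.1, hδ, map_zero] at h2
      exact h2 rfl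
    have hκ0 : κ ≠ 0 := by
      rintro rfl
      rw [hV.2.1, hκ, map_zero] at h4
      exact h4 rfl
    have key := Der.ore (H := H) l.m l.n (fun b => (l.Fb b).val) (fun b => (l.Hb b).val)
      (fun c => (l.Fc c).val) (fun c => (l.Hc c).val) δ κ (fun b c => (l.γ b c).val)
      (fun b c => (l.γ' b c).val) hδ0 hκ0 ?_ ?_ ?_
    · refine der_congr key ?_
      rw [h8, Finset.sum_range, Finset.sum_range]
      simp only [val_mul hV]
    · intro b c
      have := h5 b b.2 c c.2
      rw [csub_zero hV, val_mul hV, val_mul hV, hδ, hκ] at this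
      exact this
    · intro c
      obtain ⟨h9, h10⟩ := h6 c c.2
      refine der_congr (hav _ (getD_mem _ _ h9)) ?_
      rw [csub_zero hV, val_csub hV, val_mul hV, val_sum hV, hκ, Finset.sum_range] at h10
      rw [← h10]
      simp only [val_mul hV]
    · intro b
      obtain ⟨h9, h10⟩ := h7 b b.2
      refine der_congr (hav _ (getD_mem _ _ h9)) ?_
      rw [csub_zero hV, val_add hV, val_mul hV, val_sum hV, hδ, Finset.sum_range] at h10
      rw [← h10]
      simp only [val_mul hV]

theorem good_der (hV : SpecVAL) (hy : List CP) (L : List Line) (h : Good hy L) :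
    ∀ l ∈ L, Der {f | ∃ h ∈ hy, f = h.val} l.p.val := by
  induction L with
  | nil => simp
  | cons l L ih =>
    rw [good_cons] at h
    have h1 := ih h.2
    have h2 : ∀ q ∈ hy ++ L.map Line.p, Der {f | ∃ h ∈ hy, f = h.val} q.val := by
      intro q hq
      rcases List.mem_append.1 hq with hq | hq
      · exact Der.hyp _ ⟨q, hq, rfl⟩
      · obtain ⟨m, hm, rfl⟩ := List.mem_map.1 hq
        exact h1 m hm
    intro m hm
    rcases List.mem_cons.1 hm with rfl | hm
    · exact ok_der hV _ h2 _ h.1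
    · exact h1 m hm

/-! ## Completeness -/

/-- the polynomial `f` is available -/
def Has (av : List CP) (f : FR) (k : ℕ) : Prop :=
  k < av.length ∧ (av.getD k (cops.nat 0)).val = f

theorem has_append (av bv : List CP) (f : FR) (k : ℕ) (h : Has av f k) : Has (av ++ bv) f k := by
  refine ⟨h.1.trans_le (by simp), ?_⟩
  rw [List.getD_eq_getElem?_getD, List.getElem?_append_left h.1, ← List.getD_eq_getElem?_getD]
  exact h.2

/-- `f` has a proof -/
def Pv (hy : List CP) (f : FR) : Prop := ∀ p : CP, p.val = f → ∃ L, Prf hy p L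

theorem combine (hV : SpecVAL) (hy : List CP) (fs : List FR) (h : ∀ f ∈ fs, Pv hy f) :
    ∃ M, Good hy M ∧ ∀ f ∈ fs, ∃ k, Has (hy ++ M.map Line.p) f k := by
  induction fs with
  | nil => exact ⟨[], good_nil hy, by simp⟩
  | cons f fs ih =>
    obtain ⟨M, hM, hM'⟩ := ih fun g hg => h g (List.mem_cons_of_mem _ hg)
    obtain ⟨p, hp⟩ := hV.2.2.1 f
    obtain ⟨L, hL0, hL, hL1⟩ := h f List.mem_cons_self p hp
    refine ⟨M ++ L, good_append hy M L hM hL, ?_⟩
    intro g hg
    rcases List.mem_cons.1 hg with rfl | hg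
    · cases L with
      | nil => exact absurd hL0 (by simp)
      | cons l L =>
        refine ⟨(hy ++ M.map Line.p).length, ?_, ?_⟩
        · rw [List.map_append, List.map_cons]
          simp only [List.length_append, List.length_cons, List.length_map]
          omega
        · have h2 := hL1 l (by simp)
          rw [csub_zero hV] at h2
          rw [List.map_append, ← List.append_assoc, List.getD_eq_getElem?_getD,
            List.getElem?_append_right (le_refl _)]
          simp only [Nat.sub_self, List.map_cons, List.getElem?_cons_zero, Option.getD_some]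
          rw [← h2, hp]
    · obtain ⟨k, hk⟩ := hM' g hg
      refine ⟨k, ?_⟩
      rw [List.map_append, ← List.append_assoc]
      exact has_append _ _ _ _ hk

/-- adding a line -/
theorem finish (hV : SpecVAL) (hy : List CP) (M : List Line) (hM : Good hy M) (l : Line)
    (hl : l.Ok (hy ++ M.map Line.p)) : Prf hy l.p (l :: M) := by
  refine ⟨by simp, (good_cons hy l M).2 ⟨hl, hM⟩, ?_⟩
  intro m hm
  have : l = m := by simpa using hm
  subst this
  rw [csub_zero hV]

/-- extension of a family by zero -/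
def ext {n : ℕ} (F : Fin n → CP) (i : ℕ) : CP := if h : i < n then F ⟨i, h⟩ else cops.nat 0

theorem ext_fin {n : ℕ} (F : Fin n → CP) (i : Fin n) : ext F i = F i := by
  unfold ext
  rw [dif_pos i.2]

/-- extension of a family by zero -/
def ext2 {m n : ℕ} (F : Fin m → Fin n → CP) (i j : ℕ) : CP :=
  if h : i < m ∧ j < n then F ⟨i, h.1⟩ ⟨j, h.2⟩ else cops.nat 0

theorem ext2_fin {m n : ℕ} (F : Fin m → Fin n → CP) (i : Fin m) (j : Fin n) :
    ext2 F i j = F i j := by
  unfold ext2
  rw [dif_pos ⟨i.2, j.2⟩]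

/-- extension of a family by zero -/
def extN {n : ℕ} (F : Fin n → ℕ) (i : ℕ) : ℕ := if h : i < n then F ⟨i, h⟩ else 0

theorem extN_fin {n : ℕ} (F : Fin n → ℕ) (i : Fin n) : extN F i = F i := by
  unfold extN
  rw [dif_pos i.2]

theorem getD_range {α : Type} (F : ℕ → α) (n i : ℕ) (d : α) (h : i < n) :
    ((List.range n).map F).getD i d = F i := by
  rw [List.getD_eq_getElem _ _ (by simpa using h)]
  simp

/-- the line of the Ore rule -/
def oreLine (p : CP) {m n : ℕ} (Fb Hb : Fin m → CP) (Fc Hc : Fin n → CP) (δ κ : CP)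
    (γ γ' : Fin m → Fin n → CP) (rc : Fin n → ℕ) (rb : Fin m → ℕ) : Line :=
  (p, 1, [], ((List.range m).map (ext Fb), (List.range m).map (ext Hb),
    (List.range n).map (ext Fc), (List.range n).map (ext Hc)), (δ, κ),
    ((List.range (m * n)).map fun k => ext2 γ (k / n) (k % n),
      (List.range (m * n)).map fun k => ext2 γ' (k / n) (k % n)),
    ((List.range n).map (extN rc), (List.range m).map (extN rb)))

section ore

variable (p : CP) {m n : ℕ} (Fb Hb : Fin m → CP) (Fc Hc : Fin n → CP) (δ κ : CP)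
    (γ γ' : Fin m → Fin n → CP) (rc : Fin n → ℕ) (rb : Fin m → ℕ)

theorem ol_p : (oreLine p Fb Hb Fc Hc δ κ γ γ' rc rb).p = p := rfl
theorem ol_kind : (oreLine p Fb Hb Fc Hc δ κ γ γ' rc rb).kind = 1 := rfl
theorem ol_δ : (oreLine p Fb Hb Fc Hc δ κ γ γ' rc rb).δ = δ := rfl
theorem ol_κ : (oreLine p Fb Hb Fc Hc δ κ γ γ' rc rb).κ = κ := rfl
theorem ol_m : (oreLine p Fb Hb Fc Hc δ κ γ γ' rc rb).m = m := by
  show ((List.range m).map (ext Fb)).length = m
  simp
theorem ol_n : (oreLine p Fb Hb Fc Hc δ κ γ γ' rc rb).n = n := by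
  show ((List.range n).map (ext Fc)).length = n
  simp
theorem ol_Fb (b : Fin m) : (oreLine p Fb Hb Fc Hc δ κ γ γ' rc rb).Fb b = Fb b := by
  show ((List.range m).map (ext Fb)).getD b _ = _
  rw [getD_range _ _ _ _ b.2, ext_fin]
theorem ol_Hb (b : Fin m) : (oreLine p Fb Hb Fc Hc δ κ γ γ' rc rb).Hb b = Hb b := by
  show ((List.range m).map (ext Hb)).getD b _ = _
  rw [getD_range _ _ _ _ b.2, ext_fin]
theorem ol_Fc (c : Fin n) : (oreLine p Fb Hb Fc Hc δ κ γ γ' rc rb).Fc c = Fc c := by
  show ((List.range n).map (ext Fc)).getD c _ = _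
  rw [getD_range _ _ _ _ c.2, ext_fin]
theorem ol_Hc (c : Fin n) : (oreLine p Fb Hb Fc Hc δ κ γ γ' rc rb).Hc c = Hc c := by
  show ((List.range n).map (ext Hc)).getD c _ = _
  rw [getD_range _ _ _ _ c.2, ext_fin]
theorem ol_rc (c : Fin n) : (oreLine p Fb Hb Fc Hc δ κ γ γ' rc rb).rc c = rc c := by
  show ((List.range n).map (extN rc)).getD c _ = _
  rw [getD_range _ _ _ _ c.2, extN_fin]
theorem ol_rb (b : Fin m) : (oreLine p Fb Hb Fc Hc δ κ γ γ' rc rb).rb b = rb b := by
  show ((List.range m).map (extN rb)).getD b _ = _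
  rw [getD_range _ _ _ _ b.2, extN_fin]

theorem rowmajor (G : Fin m → Fin n → CP) (b : Fin m) (c : Fin n) :
    ((List.range (m * n)).map fun k => ext2 G (k / n) (k % n)).getD (b * n + c) (cops.nat 0) =
      G b c := by
  have h1 : (b : ℕ) * n + c < m * n := by
    have hb := b.2
    have hc := c.2
    calc (b : ℕ) * n + c < b * n + n := by omega
      _ = (b + 1) * n := by ring
      _ ≤ m * n := Nat.mul_le_mul_right n hb
  rw [getD_range _ _ _ _ h1]
  have h2 : ((b : ℕ) * n + c) / n = b := by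
    rw [mul_comm, Nat.mul_add_div (by have := c.2; omega), Nat.div_eq_of_lt c.2, add_zero]
  have h3 : ((b : ℕ) * n + c) % n = c := by
    rw [mul_comm, Nat.mul_add_mod, Nat.mod_eq_of_lt c.2]
  rw [h2, h3, ext2_fin]

theorem ol_γ (b : Fin m) (c : Fin n) :
    (oreLine p Fb Hb Fc Hc δ κ γ γ' rc rb).γ b c = γ b c := by
  unfold Line.γ
  rw [ol_n]
  exact rowmajor γ b c

theorem ol_γ' (b : Fin m) (c : Fin n) :
    (oreLine p Fb Hb Fc Hc δ κ γ γ' rc rb).γ' b c = γ' b c := by
  unfold Line.γ'
  rw [ol_n]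
  exact rowmajor γ' b c

end ore

theorem pv_of_der (hV : SpecVAL) (hy : List CP) (f : FR)
    (h : Der {f | ∃ h ∈ hy, f = h.val} f) : Pv hy f := by
  induction h with
  | hyp f hf =>
    obtain ⟨q, hq, rfl⟩ := hf
    intro p hp
    obtain ⟨k, hk, hk'⟩ := List.mem_iff_getElem.1 hq
    let l : Line := (p, 0, [(cops.nat 1, k, cops.nat 1)], ([], [], [], []), (cops.nat 0, cops.nat 0),
      ([], []), ([], []))
    refine ⟨[l], finish hV hy [] (good_nil hy) l ?_⟩
    unfold Line.Ok
    rw [if_pos (show l.kind = 0 from rfl)]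
    refine ⟨?_, ?_⟩
    · intro r hr
      have : r = (cops.nat 1, k, cops.nat 1) := by simpa [l, Line.cb] using hr
      subst this
      simpa using hk
    · rw [csub_zero hV, val_foldr hV]
      show p.val = (List.map _ [(cops.nat 1, k, cops.nat 1)]).sum
      simp only [List.map_nil, List.append_nil, List.map_cons, List.sum_cons, List.sum_nil, add_zero]
      rw [val_nat hV, List.getD_eq_getElem _ _ hk, hk', hp]
      simp
  | comb n u P v hP ih =>
    intro p hp
    obtain ⟨M, hM, hM'⟩ := combine hV hy (List.ofFn P) (by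
      intro f hf
      obtain ⟨i, rfl⟩ := (List.mem_ofFn' P f).1 hf
      exact ih i)
    have h1 : ∀ i : Fin n, ∃ k, Has (hy ++ M.map Line.p) (P i) k := fun i =>
      hM' _ ((List.mem_ofFn' P _).2 ⟨i, rfl⟩)
    choose r hr using h1
    choose cu hcu using fun i => hV.2.2.1 (u i)
    choose cv hcv using fun i => hV.2.2.1 (v i)
    let l : Line := (p, 0, List.ofFn fun i => (cu i, r i, cv i), ([], [], [], []),
      (cops.nat 0, cops.nat 0), ([], []), ([], []))
    refine ⟨l :: M, finish hV hy M hM l ?_⟩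
    unfold Line.Ok
    rw [if_pos (show l.kind = 0 from rfl)]
    have hcb : l.cb = List.ofFn fun i => (cu i, r i, cv i) := rfl
    rw [hcb]
    refine ⟨?_, ?_⟩
    · intro q hq
      obtain ⟨i, rfl⟩ := (List.mem_ofFn' _ _).1 hq
      exact (hr i).1
    · rw [csub_zero hV, val_foldr hV]
      show p.val = _
      rw [hp, List.map_ofFn, List.sum_ofFn]
      refine Finset.sum_congr rfl fun i _ => ?_
      simp only [Function.comp]
      rw [hcu, hcv, (hr i).2]
  | ore m n Fb Hb Fc Hc δ κ γ γ' hδ hκ hγ h1 h2 ih1 ih2 =>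
    intro p hp
    obtain ⟨M, hM, hM'⟩ := combine hV hy
      (List.ofFn (fun c => Fc c * DtoF κ - ∑ b, Fb b * γ' b c) ++
        List.ofFn (fun b => DtoF δ * Hb b + ∑ c, γ b c * Hc c)) (by
      intro f hf
      rcases List.mem_append.1 hf with hf | hf
      · obtain ⟨i, rfl⟩ := (List.mem_ofFn' _ f).1 hf
        exact ih1 i
      · obtain ⟨i, rfl⟩ := (List.mem_ofFn' _ f).1 hf
        exact ih2 i)
    have g1 : ∀ c : Fin n, ∃ k, Has (hy ++ M.map Line.p) (Fc c * DtoF κ - ∑ b, Fb b * γ' b c) k :=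
      fun c => hM' _ (List.mem_append_left _ ((List.mem_ofFn' _ _).2 ⟨c, rfl⟩))
    have g2 : ∀ b : Fin m, ∃ k, Has (hy ++ M.map Line.p) (DtoF δ * Hb b + ∑ c, γ b c * Hc c) k :=
      fun b => hM' _ (List.mem_append_right _ ((List.mem_ofFn' _ _).2 ⟨b, rfl⟩))
    choose rc hrc using g1
    choose rb hrb using g2
    choose cFb hFb using fun i => hV.2.2.1 (Fb i)
    choose cHb hHb using fun i => hV.2.2.1 (Hb i)
    choose cFc hFc using fun i => hV.2.2.1 (Fc i)
    choose cHc hHc using fun i => hV.2.2.1 (Hc i)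
    choose cγ hcγ using fun i j => hV.2.2.1 (γ i j)
    choose cγ' hcγ' using fun i j => hV.2.2.1 (γ' i j)
    obtain ⟨cδ, hcδ, hvδ⟩ := hV.2.2.2.2.2.1 δ
    obtain ⟨cκ, hcκ, hvκ⟩ := hV.2.2.2.2.2.1 κ
    have hinj := hV.2.2.2.2.2.2.2
    have hl := ol_p p cFb cHb cFc cHc cδ cκ cγ cγ' rc rb
    refine ⟨oreLine p cFb cHb cFc cHc cδ cκ cγ cγ' rc rb :: M, ?_⟩
    have := finish hV hy M hM (oreLine p cFb cHb cFc cHc cδ cκ cγ cγ' rc rb) ?_
    · rwa [hl] at this
    unfold Line.Ok
    rw [if_neg (by rw [ol_kind]; decide), ol_δ, ol_κ, ol_m, ol_n, ol_p]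
    refine ⟨hcδ, ?_, hcκ, ?_, ?_, ?_, ?_, ?_⟩
    · rw [hV.2.1, hvδ]
      intro h
      exact hδ (hinj (by rw [h, map_zero]))
    · rw [hV.2.1, hvκ]
      intro h
      exact hκ (hinj (by rw [h, map_zero]))
    · intro b hb c hc
      have e1 := ol_γ p cFb cHb cFc cHc cδ cκ cγ cγ' rc rb ⟨b, hb⟩ ⟨c, hc⟩
      have e2 := ol_γ' p cFb cHb cFc cHc cδ cκ cγ cγ' rc rb ⟨b, hb⟩ ⟨c, hc⟩
      simp only at e1 e2
      rw [e1, e2, csub_zero hV, val_mul hV, val_mul hV, hvδ, hvκ, hcγ, hcγ']
      exact hγ _ _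
    · intro c hc
      have e1 := ol_rc p cFb cHb cFc cHc cδ cκ cγ cγ' rc rb ⟨c, hc⟩
      have e2 := ol_Fc p cFb cHb cFc cHc cδ cκ cγ cγ' rc rb ⟨c, hc⟩
      simp only at e1 e2
      rw [e1, e2]
      refine ⟨(hrc ⟨c, hc⟩).1, ?_⟩
      rw [csub_zero hV, val_csub hV, (hrc ⟨c, hc⟩).2, val_mul hV, val_sum hV, hvκ, hFc,
        Finset.sum_range]
      congr 1
      refine Finset.sum_congr rfl fun b _ => ?_
      have e3 := ol_Fb p cFb cHb cFc cHc cδ cκ cγ cγ' rc rb b
      have e4 := ol_γ' p cFb cHb cFc cHc cδ cκ cγ cγ' rc rb b ⟨c, hc⟩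
      simp only at e3 e4
      rw [e3, e4, val_mul hV, hFb, hcγ']
    · intro b hb
      have e1 := ol_rb p cFb cHb cFc cHc cδ cκ cγ cγ' rc rb ⟨b, hb⟩
      have e2 := ol_Hb p cFb cHb cFc cHc cδ cκ cγ cγ' rc rb ⟨b, hb⟩
      simp only at e1 e2
      rw [e1, e2]
      refine ⟨(hrb ⟨b, hb⟩).1, ?_⟩
      rw [csub_zero hV, val_add hV, (hrb ⟨b, hb⟩).2, val_mul hV, val_sum hV, hvδ, hHb,
        Finset.sum_range]
      congr 1
      refine Finset.sum_congr rfl fun c _ => ?_
      have e3 := ol_Hc p cFb cHb cFc cHc cδ cκ cγ cγ' rc rb c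
      have e4 := ol_γ p cFb cHb cFc cHc cδ cκ cγ cγ' rc rb ⟨b, hb⟩ c
      simp only at e3 e4
      rw [e3, e4, val_mul hV, hHc, hcγ]
    · rw [csub_zero hV, val_add hV, val_sum hV, val_sum hV, hp, Finset.sum_range, Finset.sum_range]
      congr 1
      · refine Finset.sum_congr rfl fun b _ => ?_
        have e3 := ol_Fb p cFb cHb cFc cHc cδ cκ cγ cγ' rc rb b
        have e4 := ol_Hb p cFb cHb cFc cHc cδ cκ cγ cγ' rc rb b
        rw [e3, e4, val_mul hV, hFb, hHb]
      · refine Finset.sum_congr rfl fun c _ => ?_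
        have e3 := ol_Fc p cFb cHb cFc cHc cδ cκ cγ cγ' rc rb c
        have e4 := ol_Hc p cFb cHb cFc cHc cδ cκ cγ cγ' rc rb c
        rw [e3, e4, val_mul hV, hFc, hHc]

theorem specENC (hV : SpecVAL) : SpecENC := by
  refine ⟨fun hy p L hL => ?_, fun hy p h => pv_of_der hV hy p.val h p rfl⟩
  obtain ⟨h0, h1, h2⟩ := hL
  cases L with
  | nil => exact absurd h0 (by simp)
  | cons l L =>
    have h3 := h2 l (by simp)
    rw [csub_zero hV] at h3
    rw [h3]
    exact good_der hV hy (l :: L) h1 l List.mem_cons_self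

end Pool.Agent.Lib.MP_39893a_lc.ORD.ENCM
end

section
/-!
# Evaluation of formal polynomials (MP_39893a_lc, hive ORD, module EVL)
-/
set_option autoImplicit false

namespace Pool.Agent.Lib.MP_39893a_lc.ORD.EVLM

open Pool.Agent.Lib.MP_39893a_lc.ORD

/-- A word. -/
def mkW (l : List (Mo × Var)) (g : Mo) : Wd := (l, g)

/-- The word with one variable. -/
def vw (v : Var) : Wd := mkW [(1, v)] 1

variable {R : Type} [Ring R] (φ : Mo →* R) (ξ : Var → R)

theorem evW_apply (l : List (Mo × Var)) (g : Mo) :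
    evW φ ξ (mkW l g) = (l.map fun p => φ p.1 * ξ p.2).prod * φ g := rfl

theorem evW_cw (g : Mo) : evW φ ξ (cw g) = φ g := by
  have h : cw g = mkW [] g := rfl
  rw [h, evW_apply]
  simp

theorem evW_vw (v : Var) : evW φ ξ (vw v) = ξ v := by
  unfold vw
  rw [evW_apply]
  simp

theorem ev_of (w : Wd) : ev φ ξ (MonoidAlgebra.of ℤ Wd w) = evW φ ξ w := by
  unfold ev
  exact MonoidAlgebra.lift_of _ _

theorem ev_toF (g : Mo) : ev φ ξ (toF g) = φ g := by
  have h : toF g = MonoidAlgebra.of ℤ Wd (cw g) := rfl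
  rw [h, ev_of, evW_cw]

theorem ev_xv (v : Var) : ev φ ξ (xv v) = ξ v := by
  have h : xv v = MonoidAlgebra.of ℤ Wd (vw v) := rfl
  rw [h, ev_of, evW_vw]

theorem DtoF_of (g : Mo) : DtoF (MonoidAlgebra.of ℤ Mo g) = toF g := by
  unfold DtoF
  exact MonoidAlgebra.lift_of _ _

theorem ev_DtoF (ξ : Var → D) (x : D) : ev toD ξ (DtoF x) = x := by
  have h : ((ev toD ξ).comp DtoF) = RingHom.id D := by
    refine MonoidAlgebra.ringHom_ext (fun r => ?_) (fun g => ?_)
    · have e : (MonoidAlgebra.single (1 : Mo) r : D) = (r : D) := by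
        rw [MonoidAlgebra.intCast_def]
        simp
      rw [e, map_intCast, map_intCast]
    · have e : (MonoidAlgebra.single g (1 : ℤ) : D) = MonoidAlgebra.of ℤ Mo g := rfl
      rw [e, RingHom.comp_apply, DtoF_of, ev_toF]
      rfl
  exact RingHom.congr_fun h x

theorem cons_split (g : Mo) (v : Var) (l : List (Mo × Var)) (h : Mo) :
    mkW ((g, v) :: l) h = cw g * vw v * mkW l h := by
  cases l with
  | nil =>
    show ((g, v) :: [], h) = Wd.mul (Wd.mul ([], g) ([(1, v)], 1)) ([], h)
    simp [Wd.mul]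
  | cons p l =>
    show ((g, v) :: p :: l, h) = Wd.mul (Wd.mul ([], g) ([(1, v)], 1)) (p :: l, h)
    simp [Wd.mul]

theorem evW_toF (l : List (Mo × Var)) (h : Mo) :
    evW toF xv (mkW l h) = MonoidAlgebra.of ℤ Wd (mkW l h) := by
  induction l with
  | nil =>
    rw [evW_apply]
    simp only [List.map_nil, List.prod_nil, one_mul]
    rfl
  | cons p l ih =>
    obtain ⟨g, v⟩ := p
    rw [cons_split, map_mul, map_mul, map_mul, map_mul, ih, evW_cw, evW_vw]
    rfl

theorem ev_toF_xv (p : FR) : ev toF xv p = p := by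
  have h : ev toF xv = RingHom.id FR := by
    refine MonoidAlgebra.ringHom_ext (fun r => ?_) (fun w => ?_)
    · have e : (MonoidAlgebra.single (1 : Wd) r : FR) = (r : FR) := by
        rw [MonoidAlgebra.intCast_def]
        simp
      rw [e, map_intCast, map_intCast]
    · have e : (MonoidAlgebra.single w (1 : ℤ) : FR) = MonoidAlgebra.of ℤ Wd (mkW w.1 w.2) := rfl
      rw [e, ev_of, evW_toF]
      rfl
  rw [h]
  rfl

theorem ev_apply (p : FR) : ev φ ξ p = p.coeff.sum fun w b => b • evW φ ξ w := by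
  unfold ev
  exact MonoidAlgebra.lift_apply _ _

theorem ev_congr (ξ ξ' : Var → R) (p : FR)
    (h : ∀ w ∈ p.coeff.support, ∀ q ∈ w.1, ξ q.2 = ξ' q.2) : ev φ ξ p = ev φ ξ' p := by
  rw [ev_apply, ev_apply]
  refine Finsupp.sum_congr fun w hw => ?_
  have e : evW φ ξ w = evW φ ξ' w := by
    have e1 : w = mkW w.1 w.2 := rfl
    rw [e1, evW_apply, evW_apply]
    congr 2
    refine List.map_congr_left fun q hq => ?_
    rw [h w hw q hq]
  rw [e]

end Pool.Agent.Lib.MP_39893a_lc.ORD.EVLM

namespace Pool.Agent.Lib.MP_39893a_lc.ORD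

theorem specEVL : SpecEVL := by
  refine ⟨fun R _ φ ξ => ⟨EVLM.ev_toF φ ξ, EVLM.ev_xv φ ξ, EVLM.ev_of φ ξ⟩, EVLM.ev_DtoF,
    EVLM.ev_toF_xv, fun R _ φ ξ ξ' p h => EVLM.ev_congr φ ξ ξ' p h, fun R _ φ ξ => ?_⟩
  refine ⟨fun n => ?_, fun a b => map_add _ _ _, fun a b => map_mul _ _ _, fun a => map_neg _ _⟩
  show ev φ ξ ((n : ℕ) : FR) = ((n : ℕ) : R)
  exact map_natCast _ _

end Pool.Agent.Lib.MP_39893a_lc.ORD
end

section
/-!
# Skew Hilbert basis theorem (MP_39893a_lc, hive ORD)
-/
set_option autoImplicit false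

namespace Pool.Agent.Lib.MP_39893a_lc.ORD.HILBM

open Finset

variable {S : Type} [Ring S] (R : Subring S) (u : S)

theorem pow_r (h : ∀ r ∈ R, ∃ r' ∈ R, r * u = u * r') (n : ℕ) :
    ∀ r : R, ∃ r' : R, (r : S) * u ^ n = u ^ n * r' := by
  induction n with
  | zero => intro r; exact ⟨r, by simp⟩
  | succ n ih =>
    intro r
    obtain ⟨r1, h1⟩ := ih r
    obtain ⟨r2, h2, h3⟩ := h r1 r1.2
    refine ⟨⟨r2, h2⟩, ?_⟩
    rw [pow_succ, ← mul_assoc, h1, mul_assoc, h3, mul_assoc]

theorem pow_l (h : ∀ r ∈ R, ∃ r' ∈ R, u * r = r' * u) (n : ℕ) :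
    ∀ r : R, ∃ r' : R, u ^ n * (r : S) = r' * u ^ n := by
  induction n with
  | zero => intro r; exact ⟨r, by simp⟩
  | succ n ih =>
    intro r
    obtain ⟨r2, h2, h3⟩ := h r r.2
    obtain ⟨r1, h1⟩ := ih ⟨r2, h2⟩
    refine ⟨r1, ?_⟩
    rw [pow_succ, mul_assoc, h3, ← mul_assoc, h1, mul_assoc]

/-- The leading coefficients of the elements of degree `n`. -/
def lead (h1 : ∀ r ∈ R, ∃ r' ∈ R, r * u = u * r') (h2 : ∀ r ∈ R, ∃ r' ∈ R, u * r = r' * u)
    (L : Submodule S S) (n : ℕ) : Submodule R R where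
  carrier := {r | ∃ c : ℕ → R, u ^ n * (r : S) + ∑ i ∈ range n, u ^ i * (c i : S) ∈ L}
  add_mem' := by
    rintro a b ⟨c, hc⟩ ⟨d, hd⟩
    refine ⟨fun i => c i + d i, ?_⟩
    have h := L.add_mem hc hd
    have e : u ^ n * ((a + b : R) : S) + ∑ i ∈ range n, u ^ i * ((c i + d i : R) : S)
        = (u ^ n * (a : S) + ∑ i ∈ range n, u ^ i * (c i : S))
          + (u ^ n * (b : S) + ∑ i ∈ range n, u ^ i * (d i : S)) := by
      simp only [Subring.coe_add, mul_add, sum_add_distrib]
      abel
    rw [e]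
    exact h
  zero_mem' := ⟨fun _ => 0, by simp⟩
  smul_mem' := by
    rintro s r ⟨c, hc⟩
    obtain ⟨s', hs'⟩ := pow_l R u h2 n s
    choose t ht using fun i => pow_r R u h1 i s'
    refine ⟨fun i => t i * c i, ?_⟩
    have h := L.smul_mem (s' : S) hc
    have e : u ^ n * ((s • r : R) : S) + ∑ i ∈ range n, u ^ i * ((t i * c i : R) : S)
        = (s' : S) • (u ^ n * (r : S) + ∑ i ∈ range n, u ^ i * (c i : S)) := by
      rw [smul_eq_mul, smul_eq_mul, mul_add, mul_sum, Subring.coe_mul, ← mul_assoc, hs', mul_assoc]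
      congr 1
      refine sum_congr rfl fun i _ => ?_
      rw [Subring.coe_mul, ← mul_assoc, ← ht i, mul_assoc]
    rw [e]
    exact h

theorem mem_lead (h1 : ∀ r ∈ R, ∃ r' ∈ R, r * u = u * r')
    (h2 : ∀ r ∈ R, ∃ r' ∈ R, u * r = r' * u) (L : Submodule S S) (n : ℕ) (r : R) :
    r ∈ lead R u h1 h2 L n ↔
      ∃ c : ℕ → R, u ^ n * (r : S) + ∑ i ∈ range n, u ^ i * (c i : S) ∈ L := Iff.rfl

theorem lead_mono (h1 : ∀ r ∈ R, ∃ r' ∈ R, r * u = u * r')
    (h2 : ∀ r ∈ R, ∃ r' ∈ R, u * r = r' * u) {L L' : Submodule S S} (h : L ≤ L') (n : ℕ) :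
    lead R u h1 h2 L n ≤ lead R u h1 h2 L' n := by
  rintro r ⟨c, hc⟩
  exact ⟨c, h hc⟩

theorem lead_succ (h1 : ∀ r ∈ R, ∃ r' ∈ R, r * u = u * r')
    (h2 : ∀ r ∈ R, ∃ r' ∈ R, u * r = r' * u) (L : Submodule S S) (n : ℕ) :
    lead R u h1 h2 L n ≤ lead R u h1 h2 L (n + 1) := by
  rintro r ⟨c, hc⟩
  refine ⟨fun i => if i = 0 then 0 else c (i - 1), ?_⟩
  have h := L.smul_mem u hc
  have e : u ^ (n + 1) * (r : S)
      + ∑ i ∈ range (n + 1), u ^ i * ((if i = 0 then 0 else c (i - 1) : R) : S)
      = u • (u ^ n * (r : S) + ∑ i ∈ range n, u ^ i * (c i : S)) := by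
    rw [smul_eq_mul, mul_add, mul_sum, sum_range_succ', pow_succ', mul_assoc]
    simp only [Nat.succ_ne_zero, if_false, Nat.add_sub_cancel, if_true, Subring.coe_zero,
      mul_zero, add_zero]
    congr 1
    refine sum_congr rfl fun i _ => ?_
    rw [pow_succ', mul_assoc]
  rw [e]
  exact h

theorem lead_le (h1 : ∀ r ∈ R, ∃ r' ∈ R, r * u = u * r')
    (h2 : ∀ r ∈ R, ∃ r' ∈ R, u * r = r' * u) (L : Submodule S S) {m n : ℕ} (h : m ≤ n) :
    lead R u h1 h2 L m ≤ lead R u h1 h2 L n :=
  monotone_nat_of_le_succ (lead_succ R u h1 h2 L) h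

theorem eq_of_lead (h1 : ∀ r ∈ R, ∃ r' ∈ R, r * u = u * r')
    (h2 : ∀ r ∈ R, ∃ r' ∈ R, u * r = r' * u) {L L' : Submodule S S} (h : L ≤ L')
    (hl : ∀ n, lead R u h1 h2 L' n ≤ lead R u h1 h2 L n) (n : ℕ) :
    ∀ c : ℕ → R, ∑ i ∈ range n, u ^ i * (c i : S) ∈ L' →
      ∑ i ∈ range n, u ^ i * (c i : S) ∈ L := by
  induction n with
  | zero => intro c _; simp
  | succ n ih =>
    intro c hc
    rw [sum_range_succ, add_comm] at hc ⊢
    obtain ⟨d, hd⟩ := hl n (show c n ∈ lead R u h1 h2 L' n from ⟨c, hc⟩)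
    have hs := L'.sub_mem hc (h hd)
    have e : u ^ n * (c n : S) + ∑ i ∈ range n, u ^ i * (c i : S)
        - (u ^ n * (c n : S) + ∑ i ∈ range n, u ^ i * (d i : S))
        = ∑ i ∈ range n, u ^ i * ((c i - d i : R) : S) := by
      simp only [AddSubgroupClass.coe_sub, mul_sub, sum_sub_distrib]
      abel
    rw [e] at hs
    have h3 := L.add_mem hd (ih _ hs)
    rw [← e] at h3
    convert h3 using 1
    abel

theorem specHILB : SpecHILB := by
  intro S _ R u hR h1 h2 hS
  have hR' := monotone_stabilizes_iff_noetherian.mpr (show IsNoetherian R R from hR)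
  refine monotone_stabilizes_iff_noetherian.mp fun f => ?_
  -- the diagonal
  obtain ⟨K, hK⟩ := hR' ⟨fun k => lead R u h1 h2 (f k) k, fun a b hab =>
    (lead_mono R u h1 h2 (f.monotone hab) a).trans (lead_le R u h1 h2 (f b) hab)⟩
  have hn : ∀ n, ∃ K', ∀ m, K' ≤ m → lead R u h1 h2 (f K') n = lead R u h1 h2 (f m) n :=
    fun n => hR' ⟨fun k => lead R u h1 h2 (f k) n, fun a b hab =>
      lead_mono R u h1 h2 (f.monotone hab) n⟩
  choose g hg using hn
  set K1 := K + ∑ n ∈ range K, g n with hK1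
  refine ⟨K1, fun m hm => le_antisymm (f.monotone hm) ?_⟩
  have hl : ∀ n, lead R u h1 h2 (f m) n ≤ lead R u h1 h2 (f K1) n := by
    intro n
    by_cases hn : n < K
    · have hgn : g n ≤ K1 := by
        have := single_le_sum (f := g) (fun i _ => Nat.zero_le _) (mem_range.mpr hn)
        omega
      rw [← hg n K1 hgn, ← hg n m (hgn.trans hm)]
    · have hKn : K ≤ n := not_lt.mp hn
      have hmn : K ≤ max m n := hKn.trans (le_max_right _ _)
      have e := hK (max m n) hmn
      have e' : lead R u h1 h2 (f K) K = lead R u h1 h2 (f (max m n)) (max m n) := e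
      calc lead R u h1 h2 (f m) n
          ≤ lead R u h1 h2 (f (max m n)) (max m n) :=
            (lead_mono R u h1 h2 (f.monotone (le_max_left _ _)) n).trans
              (lead_le R u h1 h2 _ (le_max_right _ _))
        _ = lead R u h1 h2 (f K) K := e'.symm
        _ ≤ lead R u h1 h2 (f K1) n :=
            (lead_mono R u h1 h2 (f.monotone (by omega)) K).trans (lead_le R u h1 h2 _ hKn)
  intro s hs
  obtain ⟨n, c, hc, rfl⟩ := hS s
  have e : ∑ i : Fin n, u ^ (i : ℕ) * c i
      = ∑ i ∈ range n, u ^ i * (((fun j : ℕ => if h : j < n then (⟨c ⟨j, h⟩, hc _⟩ : R) else 0) i :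
          R) : S) := by
    rw [← Fin.sum_univ_eq_sum_range (fun i : ℕ => u ^ i * (((fun j : ℕ =>
      if h : j < n then (⟨c ⟨j, h⟩, hc _⟩ : R) else 0) i : R) : S)) n]
    refine sum_congr rfl fun i _ => ?_
    simp
  rw [e] at hs ⊢
  exact eq_of_lead R u h1 h2 (f.monotone hm) hl n _ hs

end Pool.Agent.Lib.MP_39893a_lc.ORD.HILBM
end

section
/-!
# INJ: the value of a tree determines the tree (MP_39893a_lc, hive ORD)
-/
set_option autoImplicit false

namespace Pool.Agent.Lib.MP_39893a_lc.ORD.INJM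

open MonoidAlgebra

/-- The monoid ring of the free monoid. -/
abbrev FM : Type := MonoidAlgebra ℤ (FreeMonoid ℕ)

/-- The value of a tree in the monoid ring of the free monoid. -/
noncomputable def wF : Tree → FM
  | .node b r c => ((b + 1 : ℕ) : FM) +
      ∑ i : Fin r, single (FreeMonoid.of (Nat.pair b i)) 1 * wF (c i)

/-- The words. -/
def W : FreeMonoid ℕ →* Mo := FreeMonoid.lift letter

theorem W_apply (l : FreeMonoid ℕ) : W l = (l.toList.map letter).prod := by
  rw [W, FreeMonoid.lift_apply]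

theorem map_wF (t : Tree) : mapDomainRingHom ℤ W (wF t) = wD t := by
  induction t with
  | node b r c ih =>
    rw [wF, wD, map_add, map_natCast, map_sum]
    congr 1
    refine Finset.sum_congr rfl fun i _ => ?_
    rw [map_mul, ih, mapDomainRingHom_apply, mapDomain_single, W, FreeMonoid.lift_eval_of]
    rfl

theorem coeff_one (b r : ℕ) (c : Fin r → Tree) : (wF (.node b r c)).coeff 1 = b + 1 := by
  rw [wF, coeff_add, Finsupp.add_apply, natCast_def, coeff_single, Finsupp.single_eq_same,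
    coeff_sum, Finsupp.finsetSum_apply, Finset.sum_eq_zero]
  · simp
  · intro i _
    apply coeff_single_mul_of_forall_mul_ne
    intro d hd
    have := congrArg FreeMonoid.length hd
    simp at this

theorem coeff_cons (b r : ℕ) (c : Fin r → Tree) (j : ℕ) (w : FreeMonoid ℕ) :
    (wF (.node b r c)).coeff (FreeMonoid.of (Nat.pair b j) * w) =
      if h : j < r then (wF (c ⟨j, h⟩)).coeff w else 0 := by
  classical
  rw [wF, coeff_add, Finsupp.add_apply, natCast_def, coeff_single, Finsupp.single_apply,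
    if_neg, zero_add, coeff_sum, Finsupp.finsetSum_apply]
  · have hne : ∀ i : Fin r, (i : ℕ) ≠ j →
        (single (FreeMonoid.of (Nat.pair b i)) (1 : ℤ) * wF (c i)).coeff
          (FreeMonoid.of (Nat.pair b j) * w) = 0 := by
      intro i hi
      apply coeff_single_mul_of_forall_mul_ne
      intro d hd
      have h1 := congrArg FreeMonoid.toList hd
      rw [FreeMonoid.toList_of_mul, FreeMonoid.toList_of_mul, List.cons.injEq] at h1
      have h2 := (Nat.pair_eq_pair.1 h1.1).2
      exact hi h2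
    split_ifs with h
    · rw [Finset.sum_eq_single (⟨j, h⟩ : Fin r)]
      · rw [coeff_single_mul_mul, one_mul]
      · intro i _ hi
        exact hne i fun he => hi (Fin.ext he)
      · intro hn
        exact absurd (Finset.mem_univ _) hn
    · apply Finset.sum_eq_zero
      intro i _
      exact hne i fun he => h (he ▸ i.2)
  · intro he
    have h0 := congrArg FreeMonoid.length he
    rw [FreeMonoid.length_mul, FreeMonoid.length_of, FreeMonoid.length_one] at h0
    omega

theorem wF_inj (t t' : Tree) (h : wF t = wF t') : t = t' := by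
  induction t generalizing t' with
  | node b r c ih =>
    obtain ⟨b', r', c'⟩ := t'
    have hb : b = b' := by
      have := coeff_one b r c
      rw [h, coeff_one] at this
      omega
    subst hb
    have hc : ∀ (j : ℕ) (w : FreeMonoid ℕ), (if h : j < r then (wF (c ⟨j, h⟩)).coeff w else 0)
        = if h : j < r' then (wF (c' ⟨j, h⟩)).coeff w else 0 := by
      intro j w
      rw [← coeff_cons b r c j w, ← coeff_cons b r' c' j w, h]
    have hpos : ∀ t : Tree, (wF t).coeff 1 ≠ 0 := by
      intro t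
      obtain ⟨a, s, d⟩ := t
      rw [coeff_one]
      omega
    have hr : r = r' := by
      have h1 : ∀ j, j < r → j < r' := by
        intro j hj
        by_contra hj'
        have := hc j 1
        rw [dif_pos hj, dif_neg hj'] at this
        exact hpos _ this
      have h2 : ∀ j, j < r' → j < r := by
        intro j hj
        by_contra hj'
        have := hc j 1
        rw [dif_neg hj', dif_pos hj] at this
        exact hpos _ this.symm
      rcases Nat.lt_trichotomy r r' with h3 | h3 | h3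
      · exact absurd (h2 r h3) (lt_irrefl r)
      · exact h3
      · exact absurd (h1 r' h3) (lt_irrefl r')
    subst hr
    have hcc : c = c' := by
      funext i
      apply ih
      ext w
      have := hc i w
      rw [dif_pos i.2, dif_pos i.2] at this
      exact this
    rw [hcc]

theorem specINJ (h : SpecLET) : SpecINJ := by
  intro t t' ht
  have hW : Function.Injective W := by
    intro l l' hl
    rw [W_apply, W_apply] at hl
    exact FreeMonoid.toList.injective (h _ _ hl)
  apply wF_inj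
  apply mapDomain_injective hW
  have h1 := map_wF t
  have h2 := map_wF t'
  rw [mapDomainRingHom_apply] at h1 h2
  rw [h1, h2, ht]

end Pool.Agent.Lib.MP_39893a_lc.ORD.INJM
end
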