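import Pool.Agent.Lib.MP_39893a_lc.ORD.Spec

/-!
# LET: the letters generate a free monoid (MP_39893a_lc, hive ORD)
-/

set_option autoImplicit false

namespace Pool.Agent.Lib.MP_39893a_lc.ORD.LETM

/-- The slope. -/
noncomputable def th : ℝ := (-1 - Real.sqrt 5) / 2

/-- The small eigenvalue. -/
noncomputable def mu : ℝ := (3 - Real.sqrt 5) / 2

/-- The linear form. -/
noncomputable def ph (v : ℤ × ℤ) : ℝ := (v.1 : ℝ) + th * (v.2 : ℝ)

theorem h1 : 2 + th = mu := by
  unfold th mu
  ring

theorem h2 : 1 + th = mu * th := by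
  have h := Real.mul_self_sqrt (show (0 : ℝ) ≤ 5 by norm_num)
  unfold th mu
  nlinarith

theorem mu_pos : 0 < mu := by
  have h : Real.sqrt 5 < 3 := by
    rw [Real.sqrt_lt' (by norm_num)]
    norm_num
  unfold mu
  linarith

theorem mu_lt : mu < 1 / 2 := by
  have h : 2 < Real.sqrt 5 := by
    rw [Real.lt_sqrt (by norm_num)]
    norm_num
  unfold mu
  linarith

theorem ph_twist (n : ℕ) (v : ℤ × ℤ) : ph (twist n v) = mu ^ n * ph v := by
  induction n with
  | zero => simp [twist]
  | succ n ih =>
    rw [twist, pow_succ', mul_assoc, ← ih]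
    simp only [ph]
    push_cast
    linear_combination ((twist n v).1 : ℝ) * h1 + ((twist n v).2 : ℝ) * h2

theorem ph_add (v w : ℤ × ℤ) : ph (v.1 + w.1, v.2 + w.2) = ph v + ph w := by
  simp only [ph]
  push_cast
  ring

/-- The value of the product. -/
noncomputable def S (l : List ℕ) : ℝ :=
  ph ((l.map letter).prod.1, (l.map letter).prod.2.1)

theorem S_nil : S [] = 0 := by
  have h : (([] : List ℕ).map letter).prod = ((0, 0, 0) : Mo) := rfl
  rw [S, h]
  simp [ph]

theorem S_cons (j : ℕ) (l : List ℕ) : S (j :: l) = mu ^ j * (1 + mu * S l) := by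
  have h : ((j :: l).map letter).prod = Mo.mul (letter j) (l.map letter).prod := by
    rw [List.map_cons, List.prod_cons]
    rfl
  have e : S (j :: l) = ph ((twist j (1, 0)).1 + (twist (j + 1)
      ((l.map letter).prod.1, (l.map letter).prod.2.1)).1, (twist j (1, 0)).2 + (twist (j + 1)
      ((l.map letter).prod.1, (l.map letter).prod.2.1)).2) := by
    rw [S, h]
    rfl
  rw [e, ph_add, ph_twist, ph_twist, ← S]
  have e1 : ph ((1 : ℤ), (0 : ℤ)) = 1 := by simp [ph]
  rw [e1, pow_succ]
  ring

theorem S_bd (l : List ℕ) : 0 ≤ S l ∧ S l < 2 := by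
  induction l with
  | nil => rw [S_nil]; norm_num
  | cons j l ih =>
    have hp := mu_pos
    have hl := mu_lt
    have h3 : 0 < mu ^ j := pow_pos hp j
    have h4 : mu ^ j ≤ 1 := pow_le_one₀ hp.le (by linarith)
    have h5 : 0 ≤ mu * S l := mul_nonneg hp.le ih.1
    have h6 : mu * S l < 1 := by nlinarith [ih.1, ih.2]
    rw [S_cons]
    constructor
    · positivity
    · nlinarith

theorem S_lt (j j' : ℕ) (l l' : List ℕ) (h : j < j') : S (j' :: l') < S (j :: l) := by
  have hp := mu_pos
  have hl := mu_lt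
  rw [S_cons, S_cons]
  have b := S_bd l
  have b' := S_bd l'
  have h3 : 0 < mu ^ j := pow_pos hp j
  have h5 : 0 ≤ mu * S l := mul_nonneg hp.le b.1
  have h6 : mu * S l' < 1 := by nlinarith [b'.1, b'.2]
  have h7 : 0 ≤ mu * S l' := mul_nonneg hp.le b'.1
  have h8 : mu ^ j' ≤ mu ^ (j + 1) := pow_le_pow_of_le_one hp.le (by linarith) h
  have h9 : mu ^ (j + 1) = mu ^ j * mu := pow_succ _ _
  have h10 : mu ^ j' * (1 + mu * S l') ≤ mu ^ (j + 1) * (1 + mu * S l') :=
    mul_le_mul_of_nonneg_right h8 (by linarith)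
  have h11 : mu ^ (j + 1) * (1 + mu * S l') < mu ^ j * 1 := by
    rw [h9, mul_assoc]
    apply mul_lt_mul_of_pos_left _ h3
    nlinarith
  have h12 : mu ^ j * 1 ≤ mu ^ j * (1 + mu * S l) :=
    mul_le_mul_of_nonneg_left (by linarith) h3.le
  linarith

theorem S_pos (j : ℕ) (l : List ℕ) : 0 < S (j :: l) := by
  have h3 : 0 < mu ^ j := pow_pos mu_pos j
  have h5 : 0 ≤ mu * S l := mul_nonneg mu_pos.le (S_bd l).1
  rw [S_cons]
  positivity

theorem S_inj (l l' : List ℕ) (h : S l = S l') : l = l' := by
  induction l generalizing l' with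
  | nil =>
    cases l' with
    | nil => rfl
    | cons j l' =>
      have := S_pos j l'
      rw [← h, S_nil] at this
      exact absurd this (lt_irrefl _)
  | cons j l ih =>
    cases l' with
    | nil =>
      have := S_pos j l
      rw [h, S_nil] at this
      exact absurd this (lt_irrefl _)
    | cons j' l' =>
      rcases lt_trichotomy j j' with hj | hj | hj
      · exact absurd h (S_lt j j' l l' hj).ne'
      · subst hj
        rw [S_cons, S_cons] at h
        have h1 := mul_left_cancel₀ (pow_pos mu_pos j).ne' h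
        have h2 : mu * S l = mu * S l' := by linarith
        rw [ih l' (mul_left_cancel₀ mu_pos.ne' h2)]
      · exact absurd h (S_lt j' j l' l hj).ne

theorem specLET : SpecLET := by
  intro l l' h
  apply S_inj
  rw [S, S, h]

end Pool.Agent.Lib.MP_39893a_lc.ORD.LETM
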