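import Pool.Agent.Lib.MP_39893a_lc.AGL.Defs

/-!
# One-visit attribute grammars: definitions (MP_39893a_lc, hive ORD)
-/

set_option autoImplicit false

namespace Pool.Agent.Lib.MP_39893a_lc.ORD

open AGL

variable {A B : List ℕ}

/-! ## Codes of attribute grammars -/

/-- Postfix code of a right-hand side. -/
def codeT {p q : ℕ} : ATm p q → List (ℕ × ℕ × ℕ × ℕ)
  | .syn a i => [(2, a, i, 0)]
  | .inh b => [(0, b, 0, 0)]
  | .out f r c => (List.ofFn fun i => codeT (c i)).flatten ++ [(1, f, r, 0)]

/-- Codes of attribute grammars: `(p, q, a₀)`, the table of the rules of the synthesized attributes,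
the table of the rules of the inherited attributes of the children, the rules at the root. -/
abbrev CodeAG : Type :=
  (ℕ × ℕ × ℕ) × List (List (List (ℕ × ℕ × ℕ × ℕ))) × List (List (List (List (ℕ × ℕ × ℕ × ℕ)))) ×
    List (List (ℕ × ℕ × ℕ × ℕ))

/-- The code of an attribute grammar. -/
def codeAG (G : AG A B) : CodeAG :=
  ((G.p, G.q, (G.a0 : ℕ)),
    (List.range A.length).map fun σ => List.ofFn fun a => codeT (G.syn σ a),
    (List.range A.length).map fun σ => (List.range (A.getD σ 0)).map fun i =>
      List.ofFn fun b => codeT (G.inh σ i b),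
    List.ofFn fun b => codeT (G.root b))

/-! ## One-visit grammars -/

/-- Synthesized attributes are those of subtrees whose rank `ρ i` is less than `k`. -/
def SynBelow {p q : ℕ} (ρ : ℕ → ℕ) (k : ℕ) : ATm p q → Prop
  | .syn _ i => ρ i < k
  | .inh _ => True
  | .out _ _ c => ∀ i, SynBelow ρ k (c i)

/-- No synthesized attribute occurs. -/
def NoSyn {p q : ℕ} : ATm p q → Prop
  | .syn _ _ => False
  | .inh _ => True
  | .out _ _ c => ∀ i, NoSyn (c i)

/-- At a node with the symbol `σ` the inherited attributes of the `i`-th child depend only on the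
inherited attributes of the node and on the synthesized attributes of children that are smaller
in the order given by `ρ`. -/
def VisitAt (G : AG A B) (σ : ℕ) (ρ : ℕ → ℕ) : Prop :=
  ∀ (r i : ℕ) (b : Fin G.q), A[σ]? = some r → i < r → SynBelow ρ (ρ i) (G.inh σ i b)

/-- The inherited attributes at the root do not depend on synthesized attributes. -/
def ConstRoot (G : AG A B) : Prop := ∀ b : Fin G.q, NoSyn (G.root b)

/-- Two one-visit grammars with the same visiting order of the children for each symbol. -/
def CoVisit (G₁ G₂ : AG A B) : Prop :=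
  ConstRoot G₁ ∧ ConstRoot G₂ ∧
    ∀ σ < A.length, ∃ ρ : ℕ → ℕ, Function.Injective ρ ∧ VisitAt G₁ σ ρ ∧ VisitAt G₂ σ ρ

/-- L-attributed grammars: the inherited attributes of the `i`-th child depend only on the inherited
attributes of the node and the synthesized attributes of the children to the left; the inherited
attributes at the root are constants. -/
def LAttributed (G : AG A B) : Prop :=
  ConstRoot G ∧ ∀ σ < A.length, VisitAt G σ id

end Pool.Agent.Lib.MP_39893a_lc.ORD
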