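import Pool.Agent.Lib.MP_39893a_lc.ORD.Spec
import Pool.Agent.Lib.MP_39893a_lc.ORD.Visit

/-!
# One-visit attribute grammars: definitions and module statements (MP_39893a_lc, hive ORD)
-/

set_option autoImplicit false

namespace Pool.Agent.Lib.MP_39893a_lc.ORD

open AGL

variable {A B : List ℕ}

/-! ## The transducer of a grammar -/

/-- Substitution: `f i b` for the inherited attribute `b` of the `i`-th child (argument of the calls),
`par b` for the inherited attribute `b` of the node. -/
def sb {p q : ℕ} (f : ℕ → Fin q → Rhs) (par : Fin q → Rhs) : ATm p q → Rhs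
  | .syn a i => .call (1 + a) i q fun b => f i b
  | .inh b => par b
  | .out g r c => .out g r fun i => sb f par (c i)

/-- The inherited attributes of the children, unrolled `n` times. -/
def inhR (G : AG A B) (σ : ℕ) (par : Fin G.q → Rhs) : ℕ → ℕ → Fin G.q → Rhs
  | 0 => fun _ _ => .call 0 0 0 Fin.elim0
  | n + 1 => fun i b => sb (inhR G σ par n) par (G.inh σ i b)

/-- The right-hand side of the synthesized attribute `a`. -/
def synR (G : AG A B) (σ : ℕ) (par : Fin G.q → Rhs) (a : Fin G.p) : Rhs :=
  sb (inhR G σ par (A.getD σ 0)) par (G.syn σ a)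

/-- The values of the inherited attributes at the root. -/
def rootR (G : AG A B) (b : Fin G.q) : Rhs :=
  sb (fun _ _ => .call 0 0 0 Fin.elim0) (fun _ => .call 0 0 0 Fin.elim0) (G.root b)

/-- The rules: the state `0` computes the designated attribute at the root, the state `1 + a` the
attribute `a`. -/
def ruleR (G : AG A B) (q σ : ℕ) : Option Rhs :=
  if q = 0 then some (synR G σ (rootR G) G.a0)
  else if h : q - 1 < G.p then some (synR G σ (fun b => .param b) ⟨q - 1, h⟩)
  else none

/-! ## The same on codes -/

/-- Substitution on codes. -/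
def sbC (q : ℕ) (f : ℕ → ℕ → List Tok) (par : ℕ → List Tok) (w : List Tok) : List Tok :=
  w.flatMap fun t =>
    if t.1 = 2 then ((List.range q).flatMap fun b => f t.2.2.1 b) ++ [(2, 1 + t.2.1, t.2.2.1, q)]
    else if t.1 = 0 then par t.2.1 else [t]

/-- The unrolled codes, as a table `[i][b]`. -/
def inhC (q : ℕ) (tab : List (List (List Tok))) (par : List (List Tok)) :
    ℕ → List (List (List Tok))
  | 0 => tab.map fun row => row.map fun _ => [(2, 0, 0, 0)]
  | n + 1 => tab.map fun row => row.map fun w =>
      sbC q (fun i b => ((inhC q tab par n).getD i []).getD b [(2, 0, 0, 0)])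
        (fun b => par.getD b []) w

/-- The code of the transducer of a grammar. -/
def trC (x : List ℕ × CodeAG) : Code :=
  (0 :: List.replicate x.2.1.1 x.2.1.2.1,
    (List.range (1 + x.2.1.1)).map fun q => (List.range x.1.length).map fun σ =>
      let par : List (List Tok) :=
        if q = 0 then x.2.2.2.2.map fun w =>
          sbC x.2.1.2.1 (fun _ _ => [(2, 0, 0, 0)]) (fun _ => [(2, 0, 0, 0)]) w
        else (List.range x.2.1.2.1).map fun b => [(0, b, 0, 0)]
      some (sbC x.2.1.2.1
        (fun i b => ((inhC x.2.1.2.1 (x.2.2.2.1.getD σ []) par (x.1.getD σ 0)).getD i []).getD b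
          [(2, 0, 0, 0)])
        (fun b => par.getD b [])
        ((x.2.2.1.getD σ []).getD (if q = 0 then x.2.1.2.2 else q - 1) [])))

/-! ## Statements -/

/-- AGW. Well-formedness: `ruleR` is well formed for the parameter numbers `0 :: replicate p q`
if the inherited attributes at the root are constants (structural inductions; the default
`call 0 0 0` is well formed if the node has a child, and it is used only in inherited
attributes of children; in `rootR` it is not reached). -/
def SpecAGW : Prop :=
  ∀ (A B : List ℕ) (G : AG A B), ConstRoot G →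
    ∀ (q m a r : ℕ) (ζ : Rhs), (0 :: List.replicate G.p G.q)[q]? = some m → A[a]? = some r →
      ruleR G q a = some ζ → ζ.WF B (0 :: List.replicate G.p G.q) m r

/-- The transducer of a grammar. -/
def trG (hW : SpecAGW) (G : AG A B) (hG : ConstRoot G) : DMTT A B where
  params := 0 :: List.replicate G.p G.q
  rule := ruleR G
  init := rfl
  wf := hW A B G hG

/-- AGO. If the grammar is one-visit at `a` with the order `ρ`, the rules of its transducer are
ordered: `inhR G a par n i b` is ordered and `Below ρ (ρ i)` if `n` is larger than the number of the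
children `j < r` with `ρ j < ρ i`. -/
def SpecAGO : Prop :=
  ∀ (hW : SpecAGW) (A B : List ℕ) (G : AG A B) (hG : ConstRoot G) (a : ℕ) (ρ : ℕ → ℕ),
    a < A.length → Function.Injective ρ → VisitAt G a ρ → (trG hW G hG).OrderedAt a ρ

/-- AGE. The transducer computes the attributes. For an input tree `s` and a node `u` with subtree
`v`, let `β b` be the value of the inherited attribute `b` at `u` (`Ev s u (.inh b)`); then
`run v (1 + a) β = some t` iff `Ev s u (.syn a)` at the parent, i.e. iff `t` is the value of the rule of
`a` at `u`. Induction on `v`; inside: for the children in the order `ρ`, the value of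
`inhR .. n i b` is the value of the inherited attribute `b` of the child `i` if `n` is large enough
(as in AGO); all values exist. -/
def SpecAGE : Prop :=
  ∀ (hW : SpecAGW) (A B : List ℕ) (G : AG A B) (hG : ConstRoot G),
    (∀ σ < A.length, ∃ ρ : ℕ → ℕ, Function.Injective ρ ∧ VisitAt G σ ρ) →
    ∀ s, Ranked A s → ∀ t, (trG hW G hG).tau s = some t ↔ G.Val s t

/-- AGC. The code of the transducer. `(sb f par t).code = sbC q (codes of f) (codes of par)
(codeT t)`. -/
def SpecAGC : Prop :=
  ∀ (hW : SpecAGW) (A B : List ℕ) (G : AG A B) (hG : ConstRoot G),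
    (trG hW G hG).code = trC (A, codeAG G)

/-- AGP. -/
def SpecAGP : Prop := Primrec trC

/-- MAINA. From MAIN, AGW, AGO, AGE, AGC, AGP. -/
def SpecMAINA : Prop :=
  ∃ F : List ℕ × List ℕ × CodeAG × CodeAG →. Bool, Partrec F ∧
    ∀ (A B : List ℕ) (G₁ G₂ : AG A B), CoVisit G₁ G₂ →
      (true ∈ F (A, B, codeAG G₁, codeAG G₂) ↔
        ∀ s, Ranked A s → ∀ t, G₁.Val s t ↔ G₂.Val s t) ∧
      (false ∈ F (A, B, codeAG G₁, codeAG G₂) ↔
        ¬ ∀ s, Ranked A s → ∀ t, G₁.Val s t ↔ G₂.Val s t)

end Pool.Agent.Lib.MP_39893a_lc.ORD
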