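import Pool.Agent.Lib.MP_39893a_lc.ORD.Spec
import Pool.Agent.Lib.MP_39893a_lc.ORD.Spec2
import Mathlib.Algebra.MonoidAlgebra.NoZeroDivisors
import Mathlib.NumberTheory.Real.GoldenRatio

section
/-!
# Polynomials with at most one variable are given by linear forms (hive ORD, module LINF)
-/
set_option autoImplicit false

namespace Pool.Agent.Lib.MP_39893a_lc.ORD.LINFM

open Finset

theorem apLF_eq {R : Type} [Ring R] (φ : Mo →* R) (y : List R) (T : LF) :
    apLF (nops R) φ y T = (T.map fun q => tmLF (nops R) φ y q).sum := by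
  induction T with
  | nil => simp [apLF, nops]
  | cons q T ih =>
    rw [List.map_cons, List.sum_cons, ← ih]
    rfl

/-- `T` is a linear form with the values of `q`. -/
def Rep (N i : ℕ) (q : FR) (T : LF) : Prop :=
  ∀ (R : Type) [Ring R] (φ : Mo →* R) (y : List R) (ξ : Var → R), y.length = N →
    (∀ t < N, ¬ isBit t → ξ (i, t) = y.getD t 0) → apLF (nops R) φ y T = ev φ ξ q

theorem rep_zero (N i : ℕ) : Rep N i 0 [] := by
  intro R _ φ y ξ _ _
  rw [apLF_eq, map_zero]
  rfl

theorem rep_add {N i : ℕ} {p q : FR} {S T : LF} (hp : Rep N i p S) (hq : Rep N i q T) :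
    Rep N i (p + q) (S ++ T) := by
  intro R _ φ y ξ hy hξ
  rw [map_add, ← hp R φ y ξ hy hξ, ← hq R φ y ξ hy hξ, apLF_eq, apLF_eq, apLF_eq, List.map_append,
    List.sum_append]

theorem exists_word (hE : SpecEVL) {N i : ℕ} (w : Wd) (h1 : w.1.length ≤ 1)
    (h2 : ∀ q ∈ w.1, q.2.1 = i ∧ q.2.2 < N ∧ ¬ isBit q.2.2) :
    (∃ T, Rep N i (MonoidAlgebra.of ℤ Wd w) T) ∧ ∃ T, Rep N i (-MonoidAlgebra.of ℤ Wd w) T := by
  have hev : ∀ (R : Type) [Ring R] (φ : Mo →* R) (ξ : Var → R),
      ev φ ξ (MonoidAlgebra.of ℤ Wd w) = (w.1.map fun p => φ p.1 * ξ p.2).prod * φ w.2 :=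
    fun R _ φ ξ => (hE.1 R φ ξ).2.2 w
  rcases hl : w.1 with _ | ⟨p, l⟩
  · refine ⟨⟨[(0, w.2, 0, 1)], ?_⟩, ⟨[(1, w.2, 0, 1)], ?_⟩⟩
    · intro R _ φ y ξ hy hξ
      rw [apLF_eq, hev, hl]
      simp [tmLF, nops]
    · intro R _ φ y ξ hy hξ
      rw [apLF_eq, map_neg, hev, hl]
      simp [tmLF, nops]
  · have hn : l = [] := by
      rw [hl, List.length_cons] at h1
      exact List.length_eq_zero_iff.1 (by omega)
    subst hn
    obtain ⟨hi, ht, hb⟩ := h2 p (by rw [hl]; simp)
    have hv : ∀ (R : Type) (ξ : Var → R), ξ p.2 = ξ (i, p.2.2) := fun R ξ => by rw [← hi]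
    refine ⟨⟨[(0, p.1, p.2.2 + 1, w.2)], ?_⟩, ⟨[(1, p.1, p.2.2 + 1, w.2)], ?_⟩⟩
    · intro R _ φ y ξ hy hξ
      have hx : ξ p.2 = y.getD p.2.2 0 := (hv R ξ).trans (hξ _ ht hb)
      rw [apLF_eq, hev, hl]
      simp [tmLF, nops, hx]
    · intro R _ φ y ξ hy hξ
      have hx : ξ p.2 = y.getD p.2.2 0 := (hv R ξ).trans (hξ _ ht hb)
      rw [apLF_eq, map_neg, hev, hl]
      simp [tmLF, nops, hx]

theorem exists_smul {N i : ℕ} {q : FR} (h1 : ∃ T, Rep N i q T) (h2 : ∃ T, Rep N i (-q) T) (c : ℤ) :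
    ∃ T, Rep N i (c • q) T := by
  obtain ⟨T, hT⟩ := h1
  obtain ⟨T', hT'⟩ := h2
  induction c using Int.induction_on with
  | zero => exact ⟨[], by rw [zero_smul]; exact rep_zero N i⟩
  | succ n ih =>
    obtain ⟨S, hS⟩ := ih
    exact ⟨S ++ T, by rw [add_smul, one_smul]; exact rep_add hS hT⟩
  | pred n ih =>
    obtain ⟨S, hS⟩ := ih
    exact ⟨S ++ T', by rw [sub_smul, one_smul, sub_eq_add_neg]; exact rep_add hS hT'⟩

theorem eq_sum (p : FR) :
    p = ∑ w ∈ p.coeff.support, p.coeff w • MonoidAlgebra.of ℤ Wd w := by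
  apply MonoidAlgebra.coeff_injective
  rw [MonoidAlgebra.coeff_sum]
  conv_lhs => rw [← Finsupp.sum_single p.coeff]
  unfold Finsupp.sum
  refine Finset.sum_congr rfl fun w _ => ?_
  rw [MonoidAlgebra.coeff_smul, MonoidAlgebra.of_apply, MonoidAlgebra.coeff_single,
    Finsupp.smul_single, smul_eq_mul, mul_one]

theorem specLINF (hE : SpecEVL) : SpecLINF := by
  intro N i p hp
  have h : ∀ s : Finset Wd, s ⊆ p.coeff.support →
      ∃ T, Rep N i (∑ w ∈ s, p.coeff w • MonoidAlgebra.of ℤ Wd w) T := by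
    classical
    intro s
    induction s using Finset.induction_on with
    | empty => exact fun _ => ⟨[], by rw [Finset.sum_empty]; exact rep_zero N i⟩
    | insert a s ha ih =>
      intro hs
      obtain ⟨S, hS⟩ := ih ((Finset.subset_insert a s).trans hs)
      obtain ⟨h1, h2⟩ := hp a (hs (Finset.mem_insert_self a s))
      obtain ⟨T, hT⟩ := exists_smul (exists_word hE a h1 h2).1 (exists_word hE a h1 h2).2
        (p.coeff a)
      exact ⟨T ++ S, by rw [Finset.sum_insert ha]; exact rep_add hT hS⟩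
  obtain ⟨T, hT⟩ := h _ (Finset.Subset.refl _)
  rw [← eq_sum p] at hT
  exact ⟨T, hT⟩

end Pool.Agent.Lib.MP_39893a_lc.ORD.LINFM
end

section
/-!
# MAINA: the decision procedure for one-visit attribute grammars (MP_39893a_lc, hive ORD)
-/
set_option autoImplicit false

namespace Pool.Agent.Lib.MP_39893a_lc.ORD.MAINAM

open Pool.Agent.Lib.MP_39893a_lc Pool.Agent.Lib.MP_39893a_lc.ORD
open Pool.Agent.Lib.MP_39893a_lc.AGL

theorem specMAINA (hMAIN : SpecMAIN) (hAGW : SpecAGW) (hAGO : SpecAGO) (hAGE : SpecAGE)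
    (hAGC : SpecAGC) (hAGP : SpecAGP) : SpecMAINA := by
  obtain ⟨F, hF, hF'⟩ := hMAIN
  have hA : Primrec fun x : List ℕ × List ℕ × CodeAG × CodeAG => x.1 := Primrec.fst
  have hB : Primrec fun x : List ℕ × List ℕ × CodeAG × CodeAG => x.2.1 :=
    Primrec.fst.comp Primrec.snd
  have h1 : Primrec fun x : List ℕ × List ℕ × CodeAG × CodeAG => x.2.2.1 :=
    Primrec.fst.comp (Primrec.snd.comp Primrec.snd)
  have h2 : Primrec fun x : List ℕ × List ℕ × CodeAG × CodeAG => x.2.2.2 :=
    Primrec.snd.comp (Primrec.snd.comp Primrec.snd)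
  have hg : Primrec fun x : List ℕ × List ℕ × CodeAG × CodeAG =>
      (x.1, x.2.1, trC (x.1, x.2.2.1), trC (x.1, x.2.2.2)) :=
    Primrec.pair hA (Primrec.pair hB (Primrec.pair (hAGP.comp (Primrec.pair hA h1))
      (hAGP.comp (Primrec.pair hA h2))))
  refine ⟨fun x => F (x.1, x.2.1, trC (x.1, x.2.2.1), trC (x.1, x.2.2.2)),
    hF.comp hg.to_comp, fun A B G₁ G₂ hco => ?_⟩
  obtain ⟨hc1, hc2, hv⟩ := hco
  have hv1 : ∀ σ < A.length, ∃ ρ : ℕ → ℕ, Function.Injective ρ ∧ VisitAt G₁ σ ρ := by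
    intro σ hσ
    obtain ⟨ρ, hρ, h, _⟩ := hv σ hσ
    exact ⟨ρ, hρ, h⟩
  have hv2 : ∀ σ < A.length, ∃ ρ : ℕ → ℕ, Function.Injective ρ ∧ VisitAt G₂ σ ρ := by
    intro σ hσ
    obtain ⟨ρ, hρ, _, h⟩ := hv σ hσ
    exact ⟨ρ, hρ, h⟩
  have hord : CoOrdered (trG hAGW G₁ hc1) (trG hAGW G₂ hc2) := by
    intro a ha
    obtain ⟨ρ, hρ, h, h'⟩ := hv a ha
    exact ⟨ρ, hρ, hAGO hAGW A B G₁ hc1 a ρ ha hρ h, hAGO hAGW A B G₂ hc2 a ρ ha hρ h'⟩
  have e1 := hAGE hAGW A B G₁ hc1 hv1
  have e2 := hAGE hAGW A B G₂ hc2 hv2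
  have hiff : (∀ s, Ranked A s → (trG hAGW G₁ hc1).tau s = (trG hAGW G₂ hc2).tau s) ↔
      ∀ s, Ranked A s → ∀ t, G₁.Val s t ↔ G₂.Val s t := by
    constructor
    · intro h s hs t
      rw [← e1 s hs t, ← e2 s hs t, h s hs]
    · intro h s hs
      refine Option.ext fun t => ?_
      have := h s hs t
      rw [← e1 s hs t, ← e2 s hs t] at this
      exact this
  obtain ⟨ht, hf, hdom⟩ := hF' A B (trG hAGW G₁ hc1) (trG hAGW G₂ hc2)
  rw [hAGC hAGW A B G₁ hc1, hAGC hAGW A B G₂ hc2] at ht hf hdom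
  constructor
  · rw [← hiff]
    constructor
    · exact ht
    · intro h
      obtain ⟨b, hb⟩ := Part.dom_iff_mem.1 (hdom hord)
      cases b with
      | true => exact hb
      | false => exact absurd h (hf.1 hb)
  · rw [← hiff]
    exact hf

end Pool.Agent.Lib.MP_39893a_lc.ORD.MAINAM
end

section
/-!
# Module NOEF (MP_39893a_lc, hive ORD)

The two-sided linear forms are elements of a noetherian module over the monoid algebra of
`Mo × Moᵐᵒᵖ`; those which vanish on a set of vectors are finitely generated.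
-/
set_option autoImplicit false

namespace Pool.Agent.Lib.MP_39893a_lc.ORD.NOEFM

open Finset MulOpposite

/-- The ring which acts on the linear forms. -/
abbrev E : Type := MonoidAlgebra ℤ (Mo × Moᵐᵒᵖ)

/-- The additive map with `(g, h) ↦ g r h`. -/
noncomputable def sand {R : Type} [Ring R] (φ : Mo →* R) (r : R) : E →+ R :=
  MonoidAlgebra.liftNC (Int.castAddHom R) (fun m : Mo × Moᵐᵒᵖ => φ m.1 * r * φ m.2.unop)

theorem sand_single {R : Type} [Ring R] (φ : Mo →* R) (r : R) (g h : Mo) (n : ℤ) :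
    sand φ r (MonoidAlgebra.single (g, op h) n) = (n : R) * (φ g * r * φ h) := by
  rw [sand, MonoidAlgebra.liftNC_single]
  rfl

theorem sand_mul {R : Type} [Ring R] (φ : Mo →* R) (r : R) (u v : Mo) (e : E) :
    sand φ r (MonoidAlgebra.single (u, op v) 1 * e) = φ u * sand φ r e * φ v := by
  induction e using MonoidAlgebra.induction_linear with
  | zero => simp
  | add x y hx hy => rw [mul_add, map_add, hx, hy, map_add, mul_add, add_mul]
  | single m n =>
    obtain ⟨g, h⟩ := m
    have e1 : (MonoidAlgebra.single (u, op v) (1 : ℤ) : E) * MonoidAlgebra.single (g, h) n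
        = MonoidAlgebra.single (u * g, op (h.unop * v)) n := by
      rw [MonoidAlgebra.single_mul_single, one_mul]
      rfl
    have e2 : (MonoidAlgebra.single (g, h) n : E) = MonoidAlgebra.single (g, op h.unop) n := rfl
    rw [e1, e2, sand_single, sand_single, map_mul, map_mul]
    have hc : (n : R) * φ u = φ u * n := (Int.cast_commute n (φ u)).eq
    rw [show (n : R) * (φ u * φ g * r * (φ h.unop * φ v))
      = (n : R) * φ u * (φ g * r * φ h.unop * φ v) by simp only [mul_assoc], hc]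
    simp only [mul_assoc]

/-- The entries of the extended vector. -/
def xx {R : Type} [Ring R] (y : List R) (t : ℕ) : R := if t = 0 then 1 else y.getD (t - 1) 0

/-- The value of a linear form. -/
noncomputable def EV {R : Type} [Ring R] (φ : Mo →* R) (y : List R) (N : ℕ) :
    (Fin (N + 1) → E) →+ R where
  toFun a := ∑ t : Fin (N + 1), sand φ (xx y t) (a t)
  map_zero' := by simp
  map_add' a b := by simp [Finset.sum_add_distrib]

theorem EV_apply {R : Type} [Ring R] (φ : Mo →* R) (y : List R) (N : ℕ)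
    (a : Fin (N + 1) → E) : EV φ y N a = ∑ t : Fin (N + 1), sand φ (xx y t) (a t) := rfl

theorem EV_smul {R : Type} [Ring R] (φ : Mo →* R) (y : List R) (N : ℕ) (u v : Mo)
    (a : Fin (N + 1) → E) :
    EV φ y N ((MonoidAlgebra.single (u, op v) 1 : E) • a) = φ u * EV φ y N a * φ v := by
  rw [EV_apply, EV_apply, Finset.mul_sum, Finset.sum_mul]
  refine Finset.sum_congr rfl fun t _ => ?_
  rw [Pi.smul_apply, smul_eq_mul, sand_mul]

theorem EV_pi {R : Type} [Ring R] (φ : Mo →* R) (y : List R) (N : ℕ) (t : Fin (N + 1)) (e : E) :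
    EV φ y N (Pi.single t e) = sand φ (xx y t) e := by
  rw [EV_apply, Finset.sum_eq_single t]
  · rw [Pi.single_eq_same]
  · intro s _ hs
    rw [Pi.single_eq_of_ne hs, map_zero]
  · intro h
    exact absurd (Finset.mem_univ t) h

/-- The element of the module given by a term. -/
noncomputable def tmM (N : ℕ) (q : ℕ × Mo × ℕ × Mo) : Fin (N + 1) → E :=
  if h : q.2.2.1 < N + 1 then
    Pi.single ⟨q.2.2.1, h⟩ (MonoidAlgebra.single (q.2.1, op q.2.2.2) (if q.1 = 0 then 1 else -1))
  else 0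

/-- The element of the module given by a linear form. -/
noncomputable def toM (N : ℕ) (T : LF) : Fin (N + 1) → E := (T.map (tmM N)).sum

theorem tmM_val {R : Type} [Ring R] (φ : Mo →* R) (y : List R) (N : ℕ) (hy : y.length = N)
    (q : ℕ × Mo × ℕ × Mo) : tmLF (nops R) φ y q = EV φ y N (tmM N q) := by
  obtain ⟨s, g, t, h⟩ := q
  have hx : (if t = 0 then (nops R).nat 1 else y.getD (t - 1) ((nops R).nat 0)) = xx y t := by
    by_cases ht : t = 0
    · rw [if_pos ht, xx, if_pos ht]; exact Nat.cast_one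
    · rw [if_neg ht, xx, if_neg ht]
      have : (nops R).nat 0 = (0 : R) := Nat.cast_zero
      rw [this]
  have hv : tmLF (nops R) φ y (s, g, t, h)
      = if s = 0 then φ g * xx y t * φ h else -(φ g * xx y t * φ h) := by
    simp only [tmLF]
    rw [hx]
    rfl
  rw [hv, tmM]
  by_cases ht : t < N + 1
  · rw [dif_pos ht, EV_pi, sand_single]
    by_cases hs : s = 0
    · simp [hs]
    · simp [hs]
  · rw [dif_neg ht, map_zero]
    have : xx y t = 0 := by
      rw [xx, if_neg (by omega)]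
      rw [List.getD_eq_default]
      omega
    rw [this]
    simp

theorem toM_val {R : Type} [Ring R] (φ : Mo →* R) (y : List R) (N : ℕ) (hy : y.length = N)
    (T : LF) : apLF (nops R) φ y T = EV φ y N (toM N T) := by
  induction T with
  | nil =>
    rw [toM, List.map_nil, List.sum_nil, map_zero]
    exact Nat.cast_zero
  | cons q T ih =>
    have e1 : apLF (nops R) φ y (q :: T) = tmLF (nops R) φ y q + apLF (nops R) φ y T := rfl
    have e2 : toM N (q :: T) = tmM N q + toM N T := by simp [toM]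
    rw [e1, e2, map_add, ih, tmM_val φ y N hy]

theorem toM_append (N : ℕ) (T T' : LF) : toM N (T ++ T') = toM N T + toM N T' := by
  simp [toM]

theorem exists_single (N : ℕ) (t : Fin (N + 1)) (g h : Mo) (n : ℤ) :
    ∃ T : LF, toM N T = Pi.single t (MonoidAlgebra.single (g, op h) n) := by
  have hpos : ∀ k : ℕ, ∃ T : LF,
      toM N T = Pi.single t (MonoidAlgebra.single (g, op h) (k : ℤ)) := by
    intro k
    induction k with
    | zero => exact ⟨[], by simp [toM]⟩
    | succ k ih =>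
      obtain ⟨T, hT⟩ := ih
      refine ⟨(0, g, t.1, h) :: T, ?_⟩
      have e2 : toM N ((0, g, t.1, h) :: T) = tmM N (0, g, t.1, h) + toM N T := by simp [toM]
      rw [e2, hT, tmM, dif_pos t.2, if_pos rfl, ← Pi.single_add, ← MonoidAlgebra.single_add,
        show (1 : ℤ) + (k : ℤ) = ((k + 1 : ℕ) : ℤ) by push_cast; ring]
  have hneg : ∀ k : ℕ, ∃ T : LF,
      toM N T = Pi.single t (MonoidAlgebra.single (g, op h) (-(k : ℤ))) := by
    intro k
    induction k with
    | zero => exact ⟨[], by simp [toM]⟩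
    | succ k ih =>
      obtain ⟨T, hT⟩ := ih
      refine ⟨(1, g, t.1, h) :: T, ?_⟩
      have e2 : toM N ((1, g, t.1, h) :: T) = tmM N (1, g, t.1, h) + toM N T := by simp [toM]
      rw [e2, hT, tmM, dif_pos t.2, if_neg one_ne_zero, ← Pi.single_add,
        ← MonoidAlgebra.single_add,
        show (-1 : ℤ) + -(k : ℤ) = -((k + 1 : ℕ) : ℤ) by push_cast; ring]
  rcases Int.eq_nat_or_neg n with ⟨k, hk | hk⟩
  · rw [hk]; exact hpos k
  · rw [hk]; exact hneg k

theorem toM_surj (N : ℕ) (a : Fin (N + 1) → E) : ∃ T : LF, toM N T = a := by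
  have h1 : ∀ (t : Fin (N + 1)) (e : E), ∃ T : LF, toM N T = Pi.single t e := by
    intro t e
    induction e using MonoidAlgebra.induction_linear with
    | zero => exact ⟨[], by simp [toM]⟩
    | add x y hx hy =>
      obtain ⟨T, hT⟩ := hx
      obtain ⟨T', hT'⟩ := hy
      exact ⟨T ++ T', by rw [toM_append, hT, hT', Pi.single_add]⟩
    | single m n => exact exists_single N t m.1 m.2.unop n
  have h2 : ∀ s : Finset (Fin (N + 1)), ∃ T : LF, toM N T = ∑ t ∈ s, Pi.single t (a t) := by
    intro s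
    classical
    induction s using Finset.induction_on with
    | empty => exact ⟨[], by simp [toM]⟩
    | insert t s hts ih =>
      obtain ⟨T, hT⟩ := ih
      obtain ⟨T', hT'⟩ := h1 t (a t)
      exact ⟨T' ++ T, by rw [toM_append, hT, hT', Finset.sum_insert hts]⟩
  obtain ⟨T, hT⟩ := h2 Finset.univ
  refine ⟨T, ?_⟩
  rw [hT, Finset.univ_sum_single]

/-- The value of a combination. -/
noncomputable def combM (N : ℕ) (l : List (ℕ × Mo × LF × Mo)) : Fin (N + 1) → E :=
  (l.map fun q => (MonoidAlgebra.single (q.2.1, op q.2.2.2) (if q.1 = 0 then 1 else -1) : E) •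
    toM N q.2.2.1).sum

theorem EV_smul' {R : Type} [Ring R] (φ : Mo →* R) (y : List R) (N : ℕ) (s : ℕ) (u v : Mo)
    (a : Fin (N + 1) → E) :
    EV φ y N ((MonoidAlgebra.single (u, op v) (if s = 0 then 1 else -1) : E) • a)
      = (if s = 0 then (1 : R) else -1) * (φ u * EV φ y N a * φ v) := by
  by_cases hs : s = 0
  · rw [if_pos hs, if_pos hs, EV_smul, one_mul]
  · rw [if_neg hs, if_neg hs]
    have : (MonoidAlgebra.single (u, op v) (-1 : ℤ) : E)
        = -MonoidAlgebra.single (u, op v) (1 : ℤ) := by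
      rw [MonoidAlgebra.single_neg]
    rw [this, neg_smul, map_neg, EV_smul, neg_one_mul]

theorem EV_comb {R : Type} [Ring R] (φ : Mo →* R) (y : List R) (N : ℕ) (hy : y.length = N)
    (l : List (ℕ × Mo × LF × Mo)) :
    EV φ y N (combM N l) = (l.map fun q =>
              (if q.1 = 0 then (1 : R) else -1) *
                (φ q.2.1 * apLF (nops R) φ y q.2.2.1 * φ q.2.2.2)).sum := by
  induction l with
  | nil => simp [combM]
  | cons q l ih =>
    have e1 : combM N (q :: l)
        = (MonoidAlgebra.single (q.2.1, op q.2.2.2) (if q.1 = 0 then 1 else -1) : E) •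
          toM N q.2.2.1 + combM N l := by simp [combM]
    rw [e1, map_add, ih, EV_smul', List.map_cons, List.sum_cons, toM_val φ y N hy]

/-- The elements given by combinations of the forms `Ts`. -/
def Good (N : ℕ) (Ts : List LF) (a : Fin (N + 1) → E) : Prop :=
  ∃ l : List (ℕ × Mo × LF × Mo), (∀ q ∈ l, q.2.2.1 ∈ Ts) ∧ combM N l = a

theorem Good.zero (N : ℕ) (Ts : List LF) : Good N Ts 0 := ⟨[], by simp, by simp [combM]⟩

theorem Good.add {N : ℕ} {Ts : List LF} {a b : Fin (N + 1) → E} (ha : Good N Ts a)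
    (hb : Good N Ts b) : Good N Ts (a + b) := by
  obtain ⟨l, h1, h2⟩ := ha
  obtain ⟨m, h3, h4⟩ := hb
  refine ⟨l ++ m, ?_, ?_⟩
  · intro q hq
    rcases List.mem_append.1 hq with h | h
    · exact h1 q h
    · exact h3 q h
  · rw [← h2, ← h4]; simp [combM]

theorem Good.one {N : ℕ} {Ts : List LF} {T : LF} (hT : T ∈ Ts) : Good N Ts (toM N T) := by
  refine ⟨[(0, 1, T, 1)], ?_, ?_⟩
  · intro q hq
    rw [List.mem_singleton.1 hq]
    exact hT
  · have e : (MonoidAlgebra.single ((1 : Mo), op (1 : Mo)) (1 : ℤ) : E) = 1 := rfl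
    have e2 : combM N [(0, 1, T, 1)]
        = (MonoidAlgebra.single ((1 : Mo), op (1 : Mo)) (1 : ℤ) : E) • toM N T := by
      simp only [combM, List.map_cons, List.map_nil, List.sum_cons, List.sum_nil, add_zero,
        if_pos]
    rw [e2, e, one_smul]

theorem Good.smul1 {N : ℕ} {Ts : List LF} {a : Fin (N + 1) → E} (ha : Good N Ts a) (s : ℕ)
    (u v : Mo) :
    Good N Ts ((MonoidAlgebra.single (u, op v) (if s = 0 then 1 else -1) : E) • a) := by
  obtain ⟨l, h1, h2⟩ := ha
  refine ⟨l.map fun q => ((if s = 0 then (if q.1 = 0 then 0 else 1) else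
    (if q.1 = 0 then 1 else 0)), u * q.2.1, q.2.2.1, q.2.2.2 * v), ?_, ?_⟩
  · intro q hq
    obtain ⟨q', hq', rfl⟩ := List.mem_map.1 hq
    exact h1 q' hq'
  · rw [← h2]
    clear h1 h2
    induction l with
    | nil => simp [combM]
    | cons q l ih =>
      have e1 : ∀ (p : ℕ × Mo × LF × Mo) (m : List (ℕ × Mo × LF × Mo)), combM N (p :: m)
        = (MonoidAlgebra.single (p.2.1, op p.2.2.2) (if p.1 = 0 then 1 else -1) : E) •
          toM N p.2.2.1 + combM N m := by intro p m; simp [combM]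
      rw [List.map_cons, e1, ih, e1, smul_add, smul_smul, MonoidAlgebra.single_mul_single]
      congr 2
      have e3 : ((u, op v) * (q.2.1, op q.2.2.2) : Mo × Moᵐᵒᵖ) = (u * q.2.1, op (q.2.2.2 * v)) :=
        rfl
      rw [e3]
      by_cases hs : s = 0 <;> by_cases hq : q.1 = 0 <;> simp [hs, hq]

theorem Good.smul {N : ℕ} {Ts : List LF} {a : Fin (N + 1) → E} (ha : Good N Ts a) (e : E) :
    Good N Ts (e • a) := by
  induction e using MonoidAlgebra.induction_linear with
  | zero => rw [zero_smul]; exact Good.zero N Ts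
  | add x y hx hy => rw [add_smul]; exact hx.add hy
  | single m n =>
    obtain ⟨g, h⟩ := m
    have hpos : ∀ k : ℕ, Good N Ts ((MonoidAlgebra.single (g, h) (k : ℤ) : E) • a) := by
      intro k
      induction k with
      | zero => simpa using Good.zero N Ts
      | succ k ih =>
        have := ih.add (ha.smul1 0 g h.unop)
        rw [← add_smul, if_pos rfl] at this
        rw [Nat.cast_succ, MonoidAlgebra.single_add]
        exact this
    have hneg : ∀ k : ℕ, Good N Ts ((MonoidAlgebra.single (g, h) (-(k : ℤ)) : E) • a) := by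
      intro k
      induction k with
      | zero => simpa using Good.zero N Ts
      | succ k ih =>
        have := ih.add (ha.smul1 1 g h.unop)
        rw [← add_smul, if_neg one_ne_zero] at this
        rw [Nat.cast_succ, neg_add, MonoidAlgebra.single_add]
        exact this
    rcases Int.eq_nat_or_neg n with ⟨k, hk | hk⟩
    · rw [hk]; exact hpos k
    · rw [hk]; exact hneg k

/-- The submodule of the forms that vanish on `X`. -/
noncomputable def van (N : ℕ) (X : Set (List D)) : Submodule E (Fin (N + 1) → E) where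
  carrier := {a | ∀ x ∈ X, EV toD x N a = 0}
  zero_mem' := by intro x _; rw [map_zero]
  add_mem' := by
    intro a b ha hb x hx
    rw [map_add, ha x hx, hb x hx, add_zero]
  smul_mem' := by
    intro e a ha x hx
    have ha' := ha x hx
    induction e using MonoidAlgebra.induction_linear with
    | zero => rw [zero_smul, map_zero]
    | add y z hy hz => rw [add_smul, map_add, hy, hz, add_zero]
    | single m n =>
      obtain ⟨g, h⟩ := m
      have : (MonoidAlgebra.single (g, h) n : E) • a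
          = n • ((MonoidAlgebra.single (g, op h.unop) 1 : E) • a) := by
        rw [← smul_assoc]
        congr 1
        rw [MonoidAlgebra.smul_single]
        simp
      rw [this, map_zsmul, EV_smul, ha', mul_zero, zero_mul, smul_zero]

theorem mem_van {N : ℕ} {X : Set (List D)} {a : Fin (N + 1) → E} :
    a ∈ van N X ↔ ∀ x ∈ X, EV toD x N a = 0 := Iff.rfl

theorem specNOEF (hnor : SpecNOR) : SpecNOEF := by
  intro N X hX
  have : IsNoetherianRing E := hnor.2.2
  obtain ⟨S, hS⟩ := (IsNoetherian.noetherian (van N X) : (van N X).FG)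
  choose f hf using toM_surj N
  refine ⟨S.toList.map f, ?_, ?_⟩
  · intro T hT x hx
    obtain ⟨a, ha, rfl⟩ := List.mem_map.1 hT
    rw [toM_val toD x N (hX x hx), hf]
    have : a ∈ van N X := by
      rw [← hS]
      exact Submodule.subset_span (Finset.mem_toList.1 ha)
    exact mem_van.1 this x hx
  · intro T hT
    have h1 : toM N T ∈ Submodule.span E (S : Set (Fin (N + 1) → E)) := by
      rw [hS]
      refine mem_van.2 fun x hx => ?_
      rw [← toM_val toD x N (hX x hx)]
      exact hT x hx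
    have h2 : Good N (S.toList.map f) (toM N T) := by
      generalize toM N T = a0 at h1
      induction h1 using Submodule.span_induction with
      | mem a ha =>
        rw [← hf a]
        exact Good.one (List.mem_map.2 ⟨a, Finset.mem_toList.2 ha, rfl⟩)
      | zero => exact Good.zero _ _
      | add a b _ _ ha hb => exact ha.add hb
      | smul e a _ ha => exact ha.smul e
    obtain ⟨l, hl, hl2⟩ := h2
    refine ⟨l, hl, ?_⟩
    intro R _ φ y hy
    rw [toM_val φ y N hy, ← hl2, EV_comb φ y N hy]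

end Pool.Agent.Lib.MP_39893a_lc.ORD.NOEFM
end

section
/-!
# NOR: noetherian monoid rings (MP_39893a_lc, hive ORD)
-/
set_option autoImplicit false

namespace Pool.Agent.Lib.MP_39893a_lc.ORD.NORM

open MonoidAlgebra

/-- `M` is obtained from the image of `ι` by adjoining the normalizing element `t`. -/
structure Adj {N M : Type} [Monoid N] [Monoid M] (ι : N →* M) (t : M) : Prop where
  left : ∀ c, ∃ c', ι c * t = t * ι c'
  right : ∀ c, ∃ c', t * ι c = ι c' * t
  gen : ∀ m : M, ∃ (n : ℕ) (c : N), m = t ^ n * ι c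

theorem step (h : SpecHILB) {N M : Type} [Monoid N] [Monoid M] {ι : N →* M} {t : M}
    (ha : Adj ι t) (hN : IsNoetherianRing (MonoidAlgebra ℤ N)) :
    IsNoetherianRing (MonoidAlgebra ℤ M) := by
  classical
  set f : MonoidAlgebra ℤ N →+* MonoidAlgebra ℤ M := mapDomainRingHom ℤ ι with hf
  have hfs : ∀ (c : N) (r : ℤ), f (single c r) = single (ι c) r := by
    intro c r
    rw [hf, mapDomainRingHom_apply, mapDomain_single]
  have hus : ∀ n : ℕ, (single t 1 : MonoidAlgebra ℤ M) ^ n = single (t ^ n) 1 := by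
    intro n
    rw [single_pow, one_pow]
  refine h (MonoidAlgebra ℤ M) f.range (single t 1) inferInstance ?_ ?_ ?_
  · rintro _ ⟨x, rfl⟩
    induction x using MonoidAlgebra.induction_linear with
    | zero => exact ⟨0, zero_mem _, by simp⟩
    | add x y hx hy =>
      obtain ⟨a, ha, hxa⟩ := hx
      obtain ⟨b, hb, hyb⟩ := hy
      exact ⟨a + b, add_mem ha hb, by rw [map_add, add_mul, mul_add, hxa, hyb]⟩
    | single c r =>
      obtain ⟨c', hc'⟩ := ha.left c
      refine ⟨f (single c' r), ⟨_, rfl⟩, ?_⟩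
      rw [hfs, hfs, single_mul_single, single_mul_single, hc', one_mul, mul_one]
  · rintro _ ⟨x, rfl⟩
    induction x using MonoidAlgebra.induction_linear with
    | zero => exact ⟨0, zero_mem _, by simp⟩
    | add x y hx hy =>
      obtain ⟨a, ha, hxa⟩ := hx
      obtain ⟨b, hb, hyb⟩ := hy
      exact ⟨a + b, add_mem ha hb, by rw [map_add, add_mul, mul_add, hxa, hyb]⟩
    | single c r =>
      obtain ⟨c', hc'⟩ := ha.right c
      refine ⟨f (single c' r), ⟨_, rfl⟩, ?_⟩
      rw [hfs, hfs, single_mul_single, single_mul_single, hc', one_mul, mul_one]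
  · have key : ∀ s : MonoidAlgebra ℤ M, ∃ (n : ℕ) (c : ℕ → MonoidAlgebra ℤ M),
        (∀ i, c i ∈ f.range) ∧ (∀ i, n ≤ i → c i = 0) ∧
        s = ∑ i ∈ Finset.range n, (single t 1) ^ i * c i := by
      intro s
      induction s using MonoidAlgebra.induction_linear with
      | zero => exact ⟨0, fun _ => 0, fun _ => zero_mem _, fun _ _ => rfl, by simp⟩
      | add x y hx hy =>
        obtain ⟨n, c, hc, hc0, hx⟩ := hx
        obtain ⟨m, d, hd, hd0, hy⟩ := hy
        refine ⟨max n m, fun i => c i + d i, fun i => add_mem (hc i) (hd i), ?_, ?_⟩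
        · intro i hi
          show c i + d i = 0
          rw [hc0 i (le_trans (le_max_left _ _) hi), hd0 i (le_trans (le_max_right _ _) hi),
            add_zero]
        · have e1 : ∑ i ∈ Finset.range n, (single t 1 : MonoidAlgebra ℤ M) ^ i * c i
              = ∑ i ∈ Finset.range (max n m), (single t 1) ^ i * c i := by
            apply Finset.sum_subset (Finset.range_mono (le_max_left _ _))
            intro i _ hi
            rw [hc0 i (by simpa using hi), mul_zero]
          have e2 : ∑ i ∈ Finset.range m, (single t 1 : MonoidAlgebra ℤ M) ^ i * d i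
              = ∑ i ∈ Finset.range (max n m), (single t 1) ^ i * d i := by
            apply Finset.sum_subset (Finset.range_mono (le_max_right _ _))
            intro i _ hi
            rw [hd0 i (by simpa using hi), mul_zero]
          rw [hx, hy, e1, e2, ← Finset.sum_add_distrib]
          exact Finset.sum_congr rfl fun i _ => (mul_add _ _ _).symm
      | single m r =>
        obtain ⟨n, c, hm⟩ := ha.gen m
        refine ⟨n + 1, fun i => if i = n then f (single c r) else 0, ?_, ?_, ?_⟩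
        · intro i
          show (if i = n then f (single c r) else 0) ∈ f.range
          split_ifs
          · exact ⟨_, rfl⟩
          · exact zero_mem _
        · intro i hi
          exact if_neg (by omega)
        · rw [Finset.sum_eq_single n]
          · show single m r = (single t 1) ^ n * (if n = n then f (single c r) else 0)
            rw [if_pos rfl, hfs, hus, single_mul_single, one_mul, hm]
          · intro i _ hi
            show (single t 1 : MonoidAlgebra ℤ M) ^ i * (if i = n then f (single c r) else 0) = 0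
            rw [if_neg hi, mul_zero]
          · intro hn
            exact absurd (Finset.mem_range.2 (Nat.lt_succ_self n)) hn
    intro s
    obtain ⟨n, c, hc, -, hs⟩ := key s
    exact ⟨n, fun i => c i, fun i => hc i, by rw [hs, Finset.sum_range]⟩

theorem Adj.prod_right {N M K : Type} [Monoid N] [Monoid M] [Monoid K] {ι : N →* M} {t : M}
    (ha : Adj ι t) : Adj (MonoidHom.prodMap (MonoidHom.id K) ι) ((1, t) : K × M) where
  left := by
    rintro ⟨k, c⟩
    obtain ⟨c', hc'⟩ := ha.left c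
    exact ⟨(k, c'), Prod.ext (by simp) hc'⟩
  right := by
    rintro ⟨k, c⟩
    obtain ⟨c', hc'⟩ := ha.right c
    exact ⟨(k, c'), Prod.ext (by simp) hc'⟩
  gen := by
    rintro ⟨k, m⟩
    obtain ⟨n, c, hm⟩ := ha.gen m
    exact ⟨n, (k, c), Prod.ext (by simp) (by simpa using hm)⟩

theorem Adj.prod_left {N M K : Type} [Monoid N] [Monoid M] [Monoid K] {ι : N →* M} {t : M}
    (ha : Adj ι t) : Adj (MonoidHom.prodMap ι (MonoidHom.id K)) ((t, 1) : M × K) where
  left := by
    rintro ⟨c, k⟩
    obtain ⟨c', hc'⟩ := ha.left c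
    exact ⟨(c', k), Prod.ext hc' (by simp)⟩
  right := by
    rintro ⟨c, k⟩
    obtain ⟨c', hc'⟩ := ha.right c
    exact ⟨(c', k), Prod.ext hc' (by simp)⟩
  gen := by
    rintro ⟨m, k⟩
    obtain ⟨n, c, hm⟩ := ha.gen m
    exact ⟨n, (c, k), Prod.ext (by simpa using hm) (by simp)⟩

/-- The lattice. -/
abbrev La : Type := Multiplicative (ℤ × ℤ)

theorem mo_mul (x y : Mo) : x * y =
    (x.1 + (twist x.2.2 (y.1, y.2.1)).1, x.2.1 + (twist x.2.2 (y.1, y.2.1)).2, x.2.2 + y.2.2) :=
  rfl

theorem mo_one : (1 : Mo) = (0, 0, 0) := rfl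

/-- The inclusion of the lattice. -/
def inc : La →* Mo where
  toFun v := (v.toAdd.1, v.toAdd.2, 0)
  map_one' := rfl
  map_mul' v w := by
    rw [mo_mul]
    rfl

/-- The inclusion of the lattice in the opposite monoid. -/
def incop : La →* Moᵐᵒᵖ where
  toFun v := MulOpposite.op (inc v)
  map_one' := rfl
  map_mul' v w := by
    rw [mul_comm v w, map_mul]
    rfl

/-- The generator. -/
def tt : Mo := (0, 0, 1)

theorem tt_pow (n : ℕ) : tt ^ n = (0, 0, n) := by
  induction n with
  | zero => rfl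
  | succ n ih =>
    rw [pow_succ, ih, mo_mul]
    show (0 + (twist n (0, 0)).1, 0 + (twist n (0, 0)).2, n + 1) = _
    rw [twist_zero]
    rfl

/-- The inverse of the matrix. -/
def inv1 (v : ℤ × ℤ) : ℤ × ℤ := (v.1 - v.2, 2 * v.2 - v.1)

theorem twist_one_inv (v : ℤ × ℤ) : twist 1 (inv1 v) = v := by
  show (2 * (v.1 - v.2) + (2 * v.2 - v.1), (v.1 - v.2) + (2 * v.2 - v.1)) = v
  ext <;> simp <;> ring

theorem twist_surj (n : ℕ) (v : ℤ × ℤ) : ∃ w, twist n w = v := by
  induction n generalizing v with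
  | zero => exact ⟨v, rfl⟩
  | succ n ih =>
    obtain ⟨w, hw⟩ := ih (inv1 v)
    refine ⟨w, ?_⟩
    have := twist_twist 1 n w
    rw [hw, twist_one_inv, Nat.add_comm 1 n] at this
    exact this.symm

theorem inc_mul_tt (v : ℤ × ℤ) : inc (Multiplicative.ofAdd v) * tt = (v.1, v.2, 1) := by
  rw [mo_mul]
  show (v.1 + (0 : ℤ), v.2 + (0 : ℤ), 0 + 1) = _
  rw [add_zero, add_zero]

theorem tt_mul_inc (n : ℕ) (v : ℤ × ℤ) :
    tt ^ n * inc (Multiplicative.ofAdd v) = ((twist n v).1, (twist n v).2, n) := by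
  rw [tt_pow, mo_mul]
  show ((0 : ℤ) + (twist n v).1, (0 : ℤ) + (twist n v).2, n + 0) = _
  rw [zero_add, zero_add, add_zero]

theorem adjMo : Adj inc tt where
  left c := by
    obtain ⟨w, hw⟩ := twist_surj 1 (Multiplicative.toAdd c)
    refine ⟨Multiplicative.ofAdd w, ?_⟩
    have h1 := inc_mul_tt (Multiplicative.toAdd c)
    have h2 := tt_mul_inc 1 w
    rw [pow_one, hw] at h2
    rw [h2]
    exact h1
  right c := by
    refine ⟨Multiplicative.ofAdd (twist 1 (Multiplicative.toAdd c)), ?_⟩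
    have h2 := tt_mul_inc 1 (Multiplicative.toAdd c)
    rw [pow_one] at h2
    rw [inc_mul_tt]
    exact h2
  gen m := by
    obtain ⟨a, b, n⟩ := m
    obtain ⟨w, hw⟩ := twist_surj n (a, b)
    refine ⟨n, Multiplicative.ofAdd w, ?_⟩
    rw [tt_mul_inc, hw]

theorem adjMoOp : Adj incop (MulOpposite.op tt) where
  left c := by
    obtain ⟨c', hc'⟩ := adjMo.right c
    exact ⟨c', congrArg MulOpposite.op hc'⟩
  right c := by
    obtain ⟨c', hc'⟩ := adjMo.left c
    exact ⟨c', congrArg MulOpposite.op hc'⟩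
  gen m := by
    induction m using MulOpposite.rec' with
    | _ m =>
      obtain ⟨a, b, n⟩ := m
      refine ⟨n, Multiplicative.ofAdd (a, b), ?_⟩
      rw [← MulOpposite.op_pow]
      show _ = MulOpposite.op (inc (Multiplicative.ofAdd (a, b)) * tt ^ n)
      congr 1
      rw [mo_mul, tt_pow]
      show _ = ((a + (0 : ℤ), b + (0 : ℤ), 0 + n) : ℤ × ℤ × ℕ)
      rw [add_zero, add_zero, zero_add]

theorem base : IsNoetherianRing (MonoidAlgebra ℤ La) := by
  have : Monoid.FG La := by
    rw [Monoid.fg_iff_add_fg, ← AddGroup.fg_iff_addMonoid_fg, ← Module.Finite.iff_addGroup_fg]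
    infer_instance
  exact Algebra.FiniteType.isNoetherianRing ℤ _

theorem base2 : IsNoetherianRing (MonoidAlgebra ℤ (La × La)) := by
  have : Monoid.FG La := by
    rw [Monoid.fg_iff_add_fg, ← AddGroup.fg_iff_addMonoid_fg, ← Module.Finite.iff_addGroup_fg]
    infer_instance
  exact Algebra.FiniteType.isNoetherianRing ℤ _

theorem specNOR (h : SpecHILB) : SpecNOR :=
  ⟨step h adjMo base, step h adjMoOp base,
    step h (adjMoOp.prod_right (K := Mo)) (step h (adjMo.prod_left (K := La)) base2)⟩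

end Pool.Agent.Lib.MP_39893a_lc.ORD.NORM
end

section
/-!
# NZD (MP_39893a_lc, hive ORD): the coefficient ring has no zero divisors

`Mo` is ordered by the second component and then by the linear form `a - ψ b`, an eigenvector of
the transpose of the matrix, with the positive eigenvalue `2 - ψ`.
-/
set_option autoImplicit false

namespace Pool.Agent.Lib.MP_39893a_lc.ORD.NZDM

/-- The linear form. -/
noncomputable def phi (v : ℤ × ℤ) : ℝ := (v.1 : ℝ) - Real.goldenConj * v.2

/-- The eigenvalue. -/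
noncomputable def mu : ℝ := 2 - Real.goldenConj

theorem mu_pos : 0 < mu := by
  have := Real.goldenConj_neg
  unfold mu
  linarith

theorem phi_add (v w : ℤ × ℤ) : phi (v + w) = phi v + phi w := by
  simp only [phi, Prod.fst_add, Prod.snd_add]
  push_cast
  ring

theorem phi_twist (n : ℕ) (v : ℤ × ℤ) : phi (twist n v) = mu ^ n * phi v := by
  induction n with
  | zero => simp [twist]
  | succ n ih =>
    have h : phi (twist (n + 1) v) = mu * phi (twist n v) := by
      have h1 := Real.goldenConj_sq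
      simp only [twist, phi, mu]
      push_cast
      linear_combination (-((twist n v).2 : ℝ)) * h1
    rw [h, ih, pow_succ]
    ring

theorem phi_inj : Function.Injective phi := by
  intro v w h
  have h1 : (v.1 : ℝ) - Real.goldenConj * v.2 = (w.1 : ℝ) - Real.goldenConj * w.2 := h
  by_cases hb : v.2 = w.2
  · rw [hb] at h1
    have h2 : (v.1 : ℝ) = (w.1 : ℝ) := by linarith
    exact Prod.ext (by exact_mod_cast h2) hb
  · exfalso
    have hne : ((v.2 : ℝ) - w.2) ≠ 0 := by
      intro h2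
      exact hb (by exact_mod_cast sub_eq_zero.mp h2)
    apply Real.goldenConj_irrational
    refine ⟨((v.1 - w.1 : ℤ) : ℚ) / ((v.2 - w.2 : ℤ) : ℚ), ?_⟩
    push_cast
    rw [div_eq_iff hne]
    linarith

/-- The order. -/
noncomputable def key (x : Mo) : ℕ ×ₗ ℝ := toLex (x.2.2, phi (x.1, x.2.1))

theorem key_inj : Function.Injective key := by
  intro x y h
  have h1 : (x.2.2, phi (x.1, x.2.1)) = (y.2.2, phi (y.1, y.2.1)) := h
  rw [Prod.mk.injEq] at h1
  have h2 := phi_inj h1.2
  rw [Prod.mk.injEq] at h2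
  exact Prod.ext h2.1 (Prod.ext h2.2 h1.1)

theorem mul_def (x y : Mo) : x * y =
    ((x.1 + (twist x.2.2 (y.1, y.2.1)).1, x.2.1 + (twist x.2.2 (y.1, y.2.1)).2,
      x.2.2 + y.2.2) : ℤ × ℤ × ℕ) := rfl

theorem key_mul (x y : Mo) : key (x * y) =
    toLex (x.2.2 + y.2.2, phi (x.1, x.2.1) + mu ^ x.2.2 * phi (y.1, y.2.1)) := by
  have h : phi ((x * y).1, (x * y).2.1) = phi (x.1, x.2.1) + mu ^ x.2.2 * phi (y.1, y.2.1) := by
    rw [← phi_twist, ← phi_add]
    rfl
  show toLex ((x * y).2.2, phi ((x * y).1, (x * y).2.1)) = _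
  rw [h]
  rfl

theorem right_cancel (x y z : Mo) (h : x * z = y * z) : x = y := by
  have h1 := congrArg (fun w : Mo => w.2.2) h
  have h2 := congrArg (fun w : Mo => w.1) h
  have h3 := congrArg (fun w : Mo => w.2.1) h
  simp only [mul_def] at h1 h2 h3
  have h4 : x.2.2 = y.2.2 := by omega
  rw [h4] at h2 h3
  exact Prod.ext (by omega) (Prod.ext (by omega) h4)

theorem key_lt (x y z : Mo) (h : key y < key z) : key (x * y) < key (x * z) := by
  rw [key_mul, key_mul]
  have h1 : toLex (y.2.2, phi (y.1, y.2.1)) < toLex (z.2.2, phi (z.1, z.2.1)) := h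
  rw [Prod.Lex.toLex_lt_toLex] at h1 ⊢
  rcases h1 with h1 | ⟨h1, h2⟩
  · left
    simp only at h1 ⊢
    omega
  · right
    simp only at h1 h2 ⊢
    refine ⟨by omega, ?_⟩
    have h3 := mul_lt_mul_of_pos_left h2 (pow_pos mu_pos x.2.2)
    linarith

theorem specNZD : SpecNZD := by
  intro a b h
  let _ : LinearOrder Mo := LinearOrder.lift' key key_inj
  have i1 : MulLeftStrictMono Mo := ⟨fun x y z h => key_lt x y z h⟩
  have i2 : IsRightCancelMul Mo := ⟨fun z x y h => right_cancel x y z h⟩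
  have i3 : TwoUniqueProds Mo := TwoUniqueProds.of_covariant_right
  exact mul_eq_zero.mp h

end Pool.Agent.Lib.MP_39893a_lc.ORD.NZDM
end

section
/-!
# The symbolic vector is a sum of decreasing words (MP_39893a_lc, hive ORD, module ORDV)
-/
set_option autoImplicit false

namespace Pool.Agent.Lib.MP_39893a_lc.ORD.ORDVM

open Pool.Agent.Lib.MP_39893a_lc.ORD

/-- The variables of a word. -/
def vars (w : Wd) : List Var := w.1.map Prod.snd

theorem vars_mul (u v : Wd) : vars (u * v) = vars u ++ vars v := by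
  obtain ⟨l, g⟩ := u
  obtain ⟨m, h⟩ := v
  show List.map Prod.snd (Wd.mul (l, g) (m, h)).1 = List.map Prod.snd l ++ List.map Prod.snd m
  cases m with
  | nil => simp [Wd.mul]
  | cons p m => simp [Wd.mul]

theorem decr_iff (N r : ℕ) (ρ : ℕ → ℕ) (k : ℕ) (w : Wd) :
    w.Decr N r ρ k ↔ ((vars w).map fun v => ρ v.1).Pairwise (· > ·) ∧
      ∀ v ∈ vars w, v.1 < r ∧ ρ v.1 < k ∧ v.2 < N ∧ ¬ isBit v.2 := by
  unfold Wd.Decr vars
  rw [List.map_map]
  simp only [List.mem_map, forall_exists_index, and_imp, forall_apply_eq_imp_iff₂]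
  rfl

/-- All words of `p` satisfy `Q`. -/
def All (Q : Wd → Prop) (p : FR) : Prop := ∀ w ∈ p.coeff.support, Q w

theorem All.zero (Q : Wd → Prop) : All Q 0 := by
  intro w hw
  simp at hw

theorem All.add {Q : Wd → Prop} {p q : FR} (hp : All Q p) (hq : All Q q) : All Q (p + q) := by
  intro w hw
  rw [MonoidAlgebra.coeff_add] at hw
  rcases Finset.mem_union.1 (Finsupp.support_add hw) with h | h
  · exact hp w h
  · exact hq w h

theorem All.single {Q : Wd → Prop} (w : Wd) (z : ℤ) (h : Q w) :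
    All Q (MonoidAlgebra.single w z) := by
  intro v hv
  rw [MonoidAlgebra.coeff_single] at hv
  have := Finsupp.support_single_subset hv
  rw [Finset.mem_singleton] at this
  rw [this]
  exact h

theorem All.mono {Q Q' : Wd → Prop} {p : FR} (hp : All Q p) (h : ∀ w, Q w → Q' w) : All Q' p :=
  fun w hw => h w (hp w hw)

theorem All.nat {Q : Wd → Prop} (n : ℕ) (h : Q 1) : All Q (n : FR) := by
  have e : ((n : ℕ) : FR) = MonoidAlgebra.single 1 (n : ℤ) := MonoidAlgebra.natCast_def n
  rw [e]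
  exact All.single _ _ h

theorem All.sum {Q : Wd → Prop} {ι : Type} (s : Finset ι) (f : ι → FR)
    (h : ∀ i ∈ s, All Q (f i)) : All Q (∑ i ∈ s, f i) := by
  classical
  induction s using Finset.induction_on with
  | empty => simpa using All.zero Q
  | insert i s hi ih =>
    rw [Finset.sum_insert hi]
    exact (h i (Finset.mem_insert_self i s)).add
      (ih fun j hj => h j (Finset.mem_insert_of_mem hj))

theorem All.mul {Q₁ Q₂ Q : Wd → Prop} {p q : FR} (hp : All Q₁ p) (hq : All Q₂ q)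
    (h : ∀ u v, Q₁ u → Q₂ v → Q (u * v)) : All Q (p * q) := by
  rw [MonoidAlgebra.mul_def]
  refine All.sum _ _ fun u hu => All.sum _ _ fun v hv => ?_
  exact All.single _ _ (h u v (hp u hu) (hq v hv))

/-- Constant words. -/
def Cst (w : Wd) : Prop := vars w = []

/-- At most one variable, of the child `i`. -/
def One (N i : ℕ) (w : Wd) : Prop := vars w = [] ∨ ∃ t < N, ¬ isBit t ∧ vars w = [(i, t)]

theorem cst_mul_decr {N r : ℕ} {ρ : ℕ → ℕ} {k : ℕ} {u v : Wd} (hu : Cst u)
    (hv : v.Decr N r ρ k) : (u * v).Decr N r ρ k := by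
  rw [decr_iff] at hv ⊢
  rw [vars_mul, show vars u = [] from hu, List.nil_append]
  exact hv

theorem cst_decr {N r : ℕ} {ρ : ℕ → ℕ} {k : ℕ} {u : Wd} (hu : Cst u) : u.Decr N r ρ k := by
  rw [decr_iff, show vars u = [] from hu]
  simp

theorem one_mul_decr {N r : ℕ} {ρ : ℕ → ℕ} {i k : ℕ} {u v : Wd} (hu : One N i u)
    (hi : i < r) (hk : ρ i < k) (hv : v.Decr N r ρ (ρ i)) : (u * v).Decr N r ρ k := by
  rw [decr_iff] at hv ⊢
  rw [vars_mul]
  obtain ⟨h1, h2⟩ := hv
  have h3 : ∀ w ∈ vars v, w.1 < r ∧ ρ w.1 < k ∧ w.2 < N ∧ ¬ isBit w.2 := fun w hw =>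
    ⟨(h2 w hw).1, (h2 w hw).2.1.trans hk, (h2 w hw).2.2⟩
  rcases hu with hu | ⟨t, ht, hb, hu⟩
  · rw [hu, List.nil_append]
    exact ⟨h1, h3⟩
  · rw [hu, List.singleton_append]
    constructor
    · rw [List.map_cons, List.pairwise_cons]
      refine ⟨fun n hn => ?_, h1⟩
      obtain ⟨w, hw, rfl⟩ := List.mem_map.1 hn
      exact (h2 w hw).2.1
    · intro w hw
      rcases List.mem_cons.1 hw with rfl | hw
      · exact ⟨hi, hk, ht, hb⟩
      · exact h3 w hw

theorem one_decr {N r : ℕ} {ρ : ℕ → ℕ} {i k : ℕ} {u : Wd} (hu : One N i u)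
    (hi : i < r) (hk : ρ i < k) : u.Decr N r ρ k := by
  have := one_mul_decr hu hi hk (cst_decr (N := N) (r := r) (ρ := ρ) (k := ρ i) (u := 1) rfl)
  rwa [mul_one] at this

/-! ## Forms -/

/-- The entries `x = 0` of the form satisfy `Q`. -/
def Good (P : ℕ) (Q : Wd → Prop) (L : List FR) : Prop :=
  ∀ j y, j ≤ P → y ≤ 1 → All Q ((nops FR).gF 1 L j 0 y)

theorem all_nat {Q : Wd → Prop} (n : ℕ) (h : Q 1) : All Q ((nops FR).nat n) := All.nat n h

theorem all_nat0 {Q : Wd → Prop} : All Q ((nops FR).nat 0) := by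
  have : (nops FR).nat 0 = 0 := Nat.cast_zero
  rw [this]
  exact All.zero Q

theorem all_sum {Q : Wd → Prop} (f : ℕ → FR) (n : ℕ) (h : ∀ i < n, All Q (f i)) :
    All Q ((nops FR).sum f n) := by
  induction n with
  | zero => exact all_nat0
  | succ n ih => exact (ih fun i hi => h i (by omega)).add (h n (by omega))

theorem good_nil {P : ℕ} {Q : Wd → Prop} : Good P Q [] := by
  intro j y _ _
  have : (nops FR).gF 1 [] j 0 y = (nops FR).nat 0 := rfl
  rw [this]
  exact all_nat0

theorem good_par {P p : ℕ} : Good P Cst (mkF P 1 ((nops FR).parE 1 p)) := by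
  intro j y hj hy
  rw [gF_mkF _ hj (Nat.zero_le _) hy]
  unfold Ops.parE
  rw [if_neg Nat.zero_ne_one]
  split
  · exact all_nat 1 rfl
  · exact all_nat 0 rfl

theorem good_sym {P b n : ℕ} {V : List FR} (hV : ∀ n, All Cst (V.getD n ((nops FR).nat 0))) :
    Good P Cst (mkF P 1 ((nops FR).symE P 1 V b n)) := by
  intro j y hj hy
  rw [gF_mkF _ hj (Nat.zero_le _) hy]
  unfold Ops.symE
  split
  · rw [if_neg Nat.zero_ne_one]
    exact hV _
  · exact all_nat 0 rfl

theorem good_app {P : ℕ} {Q₁ Q₂ Q : Wd → Prop} {S : List FR} {Fs : List (List FR)}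
    (hS : Good P Q₁ S) (hF : ∀ i, Good P Q₂ (Fs.getD i []))
    (h : ∀ u v, Q₁ u → Q₂ v → Q (u * v)) (h' : ∀ u, Q₁ u → Q u) :
    Good P Q (mkF P 1 ((nops FR).appE P 1 S Fs)) := by
  intro j y hj hy
  rw [gF_mkF _ hj (Nat.zero_le _) hy]
  unfold Ops.appE
  rw [if_neg Nat.zero_ne_one]
  refine All.add ?_ ?_
  · split
    · exact (hS 0 0 (Nat.zero_le _) (Nat.zero_le _)).mono h'
    · exact all_nat0
  · refine all_sum _ _ fun i hi => all_sum _ _ fun b hb => ?_
    obtain rfl : b = 0 := by omega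
    refine All.mul (hS (i + 1) 0 (by omega) (Nat.zero_le _)) (hF i j _ hj ?_) h
    split
    · exact Nat.zero_le _
    · exact hy

theorem good_mono {P : ℕ} {Q Q' : Wd → Prop} {L : List FR} (hL : Good P Q L)
    (h : ∀ w, Q w → Q' w) : Good P Q' L := fun j y hj hy => (hL j y hj hy).mono h

theorem good_drop {P N i c : ℕ} {L : List FR}
    (hL : ∀ n, ¬ isBit n → All (One N i) (L.getD n ((nops FR).nat 0))) :
    Good P (One N i) (L.drop (c * fs P 1)) := by
  intro j y hj hy
  unfold Ops.gF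
  rw [List.getD_eq_getElem?_getD, List.getElem?_drop, ← List.getD_eq_getElem?_getD]
  apply hL
  unfold isBit fs
  have e : c * ((P + 1) * (1 + 1) * (1 + 1)) = 4 * (c * (P + 1)) := by ring
  rw [e]
  omega

/-- The machine, run on the code of an ordered right-hand side. -/
theorem rhs_dec {P off N r m : ℕ} {V : List FR} {bl : List (List FR)} {B Q : List ℕ}
    {ρ : ℕ → ℕ} (hV : ∀ n, All Cst (V.getD n ((nops FR).nat 0)))
    (hbl : ∀ i < r, ∀ n, ¬ isBit n → All (One N i) ((bl.getD i []).getD n ((nops FR).nat 0)))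
    (ζ : Rhs) : ζ.WF B Q m r → ζ.Ordered ρ → ∀ k, ζ.Below ρ k →
    ∃ L : List FR, (∀ st, ζ.code.foldl ((nops FR).step P 1 off V bl) st = L :: st) ∧
      Good P (fun w => w.Decr N r ρ k) L := by
  induction ζ with
  | param j =>
    intro _ _ k _
    exact ⟨_, fun st => rfl, good_mono good_par fun w hw => cst_decr hw⟩
  | out b n c ih =>
    rintro ⟨_, hc⟩ ho k hk
    choose L h1 h2 using fun i => ih i (hc i) (ho i) k (hk i)
    refine ⟨mkF P 1 ((nops FR).appE P 1 (mkF P 1 ((nops FR).symE P 1 V b n))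
      (List.ofFn L)), fun st => ?_, ?_⟩
    · rw [Rhs.code, List.foldl_append, foldl_flatten_ofFn _ n _ L h1, List.foldl_cons,
        List.foldl_nil]
      unfold Ops.step
      rw [if_neg (by norm_num), if_pos rfl]
      dsimp only
      rw [take_rev_append, drop_rev_append]
    · refine good_app (good_sym hV) (Q₂ := fun w => w.Decr N r ρ k) (fun i => ?_)
        (fun u v hu hv => cst_mul_decr hu hv) (fun u hu => cst_decr hu)
      rw [ofFn_getD]
      split
      · exact h2 _
      · exact good_nil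
  | call q i n c ih =>
    rintro ⟨_, hi, hc⟩ ho k ⟨hk, _⟩
    choose L h1 h2 using fun l => ih l (hc l) (ho l).2 (ρ i) (ho l).1
    refine ⟨mkF P 1 ((nops FR).appE P 1 ((bl.getD i []).drop ((off + q) * fs P 1))
      (List.ofFn L)), fun st => ?_, ?_⟩
    · rw [Rhs.code, List.foldl_append, foldl_flatten_ofFn _ n _ L h1, List.foldl_cons,
        List.foldl_nil]
      unfold Ops.step
      rw [if_neg (by norm_num), if_neg (by norm_num)]
      dsimp only
      rw [take_rev_append, drop_rev_append]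
    · refine good_app (good_drop (hbl i hi)) (Q₂ := fun w => w.Decr N r ρ (ρ i)) (fun l => ?_)
        (fun u v hu hv => one_mul_decr hu hi hk hv) (fun u hu => one_decr hu hi hk)
      rw [ofFn_getD]
      split
      · exact h2 _
      · exact good_nil

theorem below_of_wf {B Q : List ℕ} {m r K : ℕ} {ρ : ℕ → ℕ} (hK : ∀ i < r, ρ i < K) (ζ : Rhs) :
    ζ.WF B Q m r → ζ.Below ρ K := by
  induction ζ with
  | param j => intro _; trivial
  | out b n c ih => exact fun h i => ih i (h.2 i)
  | call q i n c ih => exact fun h => ⟨hK i h.2.1, fun l => ih l (h.2.2 l)⟩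

theorem rule_dec {A B : List ℕ} (M : DMTT A B) {P off N a q : ℕ} {V : List FR}
    {bl : List (List FR)} {ρ : ℕ → ℕ} (ha : a < A.length) (hq : q < M.params.length)
    (ho : M.OrderedAt a ρ) (hV : ∀ n, All Cst (V.getD n ((nops FR).nat 0)))
    (hbl : ∀ i < A.getD a 0, ∀ n, ¬ isBit n →
      All (One N i) ((bl.getD i []).getD n ((nops FR).nat 0))) :
    ∃ k, Good P (fun w => w.Decr N (A.getD a 0) ρ k)
      ((nops FR).rhsV P 1 off V bl ((M.rule q a).map Rhs.code)) := by
  cases hr : M.rule q a with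
  | none => exact ⟨0, good_nil⟩
  | some ζ =>
    have hm : M.params[q]? = some M.params[q] := List.getElem?_eq_getElem hq
    have har : A[a]? = some (A.getD a 0) := by
      rw [List.getD_eq_getElem?_getD, List.getElem?_eq_getElem ha]
      rfl
    have hwf := M.wf q _ a _ ζ hm har hr
    have hor := ho q _ _ ζ hm har hr
    have hK : ∀ i < A.getD a 0, ρ i < (∑ i ∈ Finset.range (A.getD a 0), ρ i) + 1 := by
      intro i hi
      exact Nat.lt_succ_of_le (Finset.single_le_sum (f := ρ) (fun _ _ => Nat.zero_le _)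
        (Finset.mem_range.2 hi))
    obtain ⟨L, h1, h2⟩ := rhs_dec (P := P) (off := off) (N := N) hV hbl ζ hwf hor _
      (below_of_wf hK ζ hwf)
    refine ⟨(∑ i ∈ Finset.range (A.getD a 0), ρ i) + 1, ?_⟩
    rw [Ops.rhsV, Option.map_some, Option.getD_some, h1 []]
    exact h2

theorem getD_val {l : List CP} (hom : Ops.Hom cops (nops FR) CP.val) (t : ℕ) :
    (l.getD t (cops.nat 0)).val = (l.map CP.val).getD t ((nops FR).nat 0) := by
  rw [map_getD CP.val, hom.nat]

theorem all_VL (h : SpecVAL) (P nB n : ℕ) :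
    All Cst (((VL cops emC P nB).map CP.val).getD n ((nops FR).nat 0)) := by
  obtain ⟨hom, _, _, hg, _⟩ := h
  rw [← getD_val hom]
  by_cases hn : n < (VL cops emC P nB).length
  · have hmem : (VL cops emC P nB).getD n (cops.nat 0) ∈ VL cops emC P nB := by
      rw [List.getD_eq_getElem _ _ hn]
      exact List.getElem_mem hn
    obtain ⟨t, _, ht⟩ := List.mem_map.1 hmem
    rw [← ht]
    split
    · split
      · rw [hom.nat]
        exact all_nat _ rfl
      · rw [hg]
        exact All.single _ _ rfl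
    · rw [hom.nat]
      exact all_nat _ rfl
  · rw [List.getD_eq_default _ _ (not_lt.1 hn), hom.nat]
    exact all_nat0

theorem all_blk (h : SpecVAL) (N i : ℕ) (β : List ℕ) (n : ℕ) (hn : ¬ isBit n) :
    All (One N i) (((blk N i β).map CP.val).getD n ((nops FR).nat 0)) := by
  obtain ⟨hom, _, _, _, hv, _⟩ := h
  rw [← getD_val hom]
  by_cases hN : n < N
  · have e : (blk N i β).getD n (cops.nat 0) = varC (i, n) := by
      unfold blk
      rw [List.getD_eq_getElem?_getD, List.getElem?_map, List.getElem?_range hN]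
      simp only [Option.map_some, Option.getD_some]
      rw [if_neg hn]
    rw [e, hv]
    exact All.single _ _ (Or.inr ⟨n, hN, hn, rfl⟩)
  · have e : (blk N i β).getD n (cops.nat 0) = cops.nat 0 := by
      refine List.getD_eq_default _ _ ?_
      unfold blk
      simpa using hN
    rw [e, hom.nat]
    exact all_nat0

theorem main (h : SpecVAL) {A B : List ℕ} (M₁ M₂ : DMTT A B) (a : ℕ) (ρ : ℕ → ℕ)
    (βs : List (List ℕ)) (ha : a < A.length) (h1 : M₁.OrderedAt a ρ) (h2 : M₂.OrderedAt a ρ)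
    (s : Sys) (hsA : s.A = A) (hsT : s.T = M₁.code.2 ++ M₂.code.2)
    (t : ℕ) (ht : t < NN s) (hb : ¬ isBit t) :
    ∃ k, Dec (NN s) (s.rk a) ρ k (((vS s a βs).getD t (cops.nat 0)).val) := by
  have hom := h.1
  have hfs : 0 < fs s.P 1 := by unfold fs; positivity
  -- the coefficient vector over `FR`
  let V : List FR := (VL cops emC s.P s.nB).map CP.val
  let bl : List (List FR) := ((List.range (s.rk a)).map fun i =>
    blk (NN s) i (βs.getD i [])).map (List.map CP.val)
  have hV : ∀ n, All Cst (V.getD n ((nops FR).nat 0)) := fun n => all_VL h _ _ n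
  have hrk : s.rk a = A.getD a 0 := by rw [Sys.rk, hsA]
  have hbl : ∀ i < A.getD a 0, ∀ n, ¬ isBit n →
      All (One (NN s) i) ((bl.getD i []).getD n ((nops FR).nat 0)) := by
    intro i hi n hn
    have e : bl.getD i [] = (blk (NN s) i (βs.getD i [])).map CP.val := by
      show (List.map (List.map CP.val) _).getD i [] = _
      rw [← getD_map_nil, List.getD_eq_getElem?_getD, List.getElem?_map,
        List.getElem?_range (by rw [hrk]; exact hi)]
      rfl
    rw [e]
    exact all_blk h _ _ _ n hn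
  have hu : t / fs s.P 1 < s.T.length := (Nat.div_lt_iff_lt_mul hfs).2 ht
  have e1 : ((vS s a βs).getD t (cops.nat 0)).val
      = ((nops FR).rhsV s.P 1 (if t / fs s.P 1 < s.n1 then 0 else s.n1) V bl
        ((s.T.getD (t / fs s.P 1) []).getD a none)).getD (t % fs s.P 1) ((nops FR).nat 0) := by
    rw [getD_val hom, vS, hom.vecS]
    unfold Ops.vecS
    have ht' : t < s.T.length * fs s.P 1 := ht
    rw [List.getD_eq_getElem?_getD, List.getElem?_map, List.getElem?_range ht']
    rfl
  -- the rule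
  have key : ∃ k, Good s.P (fun w => w.Decr (NN s) (A.getD a 0) ρ k)
      ((nops FR).rhsV s.P 1 (if t / fs s.P 1 < s.n1 then 0 else s.n1) V bl
        ((s.T.getD (t / fs s.P 1) []).getD a none)) := by
    rw [hsT] at hu ⊢
    rw [List.length_append, code_length, code_length] at hu
    by_cases hq : t / fs s.P 1 < M₁.params.length
    · rw [List.getD_append _ _ _ _ (by rw [code_length]; exact hq), code_getD M₁ hq ha]
      exact rule_dec M₁ ha hq h1 hV hbl
    · rw [List.getD_append_right _ _ _ _ (by rw [code_length]; omega), code_length,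
        code_getD M₂ (by omega) ha]
      exact rule_dec M₂ ha (by omega) h2 hV hbl
  obtain ⟨k, hk⟩ := key
  refine ⟨k, ?_⟩
  rw [e1, hrk]
  have e2 : t % fs s.P 1 = (t % fs s.P 1 / 4 * (1 + 1) + 0) * (1 + 1) + t % fs s.P 1 % 2 := by
    have e3 : fs s.P 1 = 4 * (s.P + 1) := by unfold fs; ring
    have e4 : t % fs s.P 1 % 4 = t % 4 := by
      rw [e3]
      exact Nat.mod_mul_right_mod t 4 (s.P + 1)
    have e5 : ¬ t / 2 % 2 = 1 := hb
    omega
  have e6 : t % fs s.P 1 / 4 ≤ s.P := by
    have e3 : fs s.P 1 = 4 * (s.P + 1) := by unfold fs; ring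
    have := Nat.mod_lt t hfs
    omega
  rw [e2]
  exact hk _ _ e6 (by omega)

end Pool.Agent.Lib.MP_39893a_lc.ORD.ORDVM

namespace Pool.Agent.Lib.MP_39893a_lc.ORD

theorem specORDV (h : SpecVAL) : SpecORDV := by
  intro A B M₁ M₂ a ρ βs ha h1 h2 t ht hb
  exact ORDVM.main h M₁ M₂ a ρ βs ha h1 h2 _ (norm_A M₁ M₂ 0) (norm_T M₁ M₂ 0) t ht hb

end Pool.Agent.Lib.MP_39893a_lc.ORD
end

section
/-!
# OREC (MP_39893a_lc, hive ORD): the coefficient ring is a left and right Ore domain
-/
set_option autoImplicit false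

namespace Pool.Agent.Lib.MP_39893a_lc.ORD.ORECM

open scoped nonZeroDivisors

/-- A left noetherian domain is a left Ore domain. -/
theorem pair {S : Type} [Ring S] [IsDomain S] [IsNoetherianRing S] (a δ : S) (hδ : δ ≠ 0) :
    ∃ ε : S, ε ≠ 0 ∧ ∃ c : S, ε * a = c * δ := by
  have h : Nonempty (OreLocalization.OreSet S⁰) := nonempty_oreSet_of_strongRankCondition
  rw [OreLocalization.nonempty_oreSet_iff_of_noZeroDivisors] at h
  obtain ⟨c, ε, he⟩ := h a ⟨δ, mem_nonZeroDivisors_of_ne_zero hδ⟩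
  exact ⟨ε, nonZeroDivisors.ne_zero ε.2, c, he⟩

/-- Common denominators on the left. -/
theorem family {S : Type} [Ring S] [IsDomain S] [IsNoetherianRing S] (n : ℕ) (F : Fin n → S)
    (δ : S) (hδ : δ ≠ 0) : ∃ ε : S, ε ≠ 0 ∧ ∃ F' : Fin n → S, ∀ i, ε * F i = F' i * δ := by
  induction n with
  | zero => exact ⟨1, one_ne_zero, fun _ => 0, fun i => i.elim0⟩
  | succ n ih =>
    obtain ⟨ε, hε, F', hF'⟩ := ih (fun i => F i.succ)
    obtain ⟨η, hη, c, hc⟩ := pair (ε * F 0) δ hδ
    refine ⟨η * ε, mul_ne_zero hη hε, Fin.cons c (fun i => η * F' i), fun i => ?_⟩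
    refine Fin.cases ?_ (fun j => ?_) i
    · rw [Fin.cons_zero, mul_assoc, hc]
    · rw [Fin.cons_succ, mul_assoc, hF' j, mul_assoc]

/-- The opposite of a monoid algebra over the integers. -/
noncomputable def opE : (MonoidAlgebra ℤ Mo)ᵐᵒᵖ ≃+* MonoidAlgebra ℤ Moᵐᵒᵖ :=
  MonoidAlgebra.opRingEquiv.trans
    (MonoidAlgebra.mapRingEquiv Moᵐᵒᵖ (RingEquiv.toOpposite ℤ).symm)

theorem specOREC (h₁ : SpecNZD) (h₂ : SpecNOR) : SpecOREC := by
  haveI : Nontrivial D := inferInstance
  haveI : NoZeroDivisors D := ⟨fun {a b} h => h₁ a b h⟩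
  haveI : IsDomain D := NoZeroDivisors.to_isDomain D
  haveI : IsNoetherianRing D := h₂.1
  haveI : IsNoetherianRing (MonoidAlgebra ℤ Moᵐᵒᵖ) := h₂.2.1
  haveI : IsNoetherianRing Dᵐᵒᵖ := isNoetherianRing_of_ringEquiv _ opE.symm
  intro n F δ hδ
  refine ⟨family n F δ hδ, ?_⟩
  obtain ⟨ε, hε, F', hF'⟩ := family (S := Dᵐᵒᵖ) n (fun i => MulOpposite.op (F i))
    (MulOpposite.op δ) (by simpa using hδ)
  refine ⟨ε.unop, by simpa using hε, fun i => (F' i).unop, fun i => ?_⟩
  have h := congrArg MulOpposite.unop (hF' i)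
  simpa using h

end Pool.Agent.Lib.MP_39893a_lc.ORD.ORECM
end

section
/-!
# Completeness of the Ore rule for two independent arguments (hive ORD, module OREK)
-/
set_option autoImplicit false

namespace Pool.Agent.Lib.MP_39893a_lc.ORD.OREKM

open Finset

section General

variable {S : Type} [Ring S]

/-- Right independence of the functions `F b`, `b ∈ B`. -/
def RInd {X : Type} {n : ℕ} (F : Fin n → X → S) (B : Finset (Fin n)) : Prop :=
  ∀ d : Fin n → S, (∀ x, ∑ b ∈ B, F b x * d b = 0) → ∀ b ∈ B, d b = 0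

/-- Common right multiples. -/
theorem common_right (hN : ∀ a b : S, a * b = 0 → a = 0 ∨ b = 0) (h1 : (1 : S) ≠ 0)
    (hR : ∀ a δ : S, δ ≠ 0 → ∃ ε : S, ε ≠ 0 ∧ ∃ f : S, a * ε = δ * f)
    {n : ℕ} (k : Fin n → S) (hk : ∀ c, k c ≠ 0) (s : Finset (Fin n)) :
    ∃ κ : S, κ ≠ 0 ∧ ∀ c ∈ s, ∃ ρ : S, κ = k c * ρ := by
  classical
  induction s using Finset.induction_on with
  | empty => exact ⟨1, h1, fun c hc => absurd hc (Finset.notMem_empty c)⟩
  | insert a s ha ih =>
    obtain ⟨κ, hκ, h⟩ := ih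
    obtain ⟨ε, hε, f, hf⟩ := hR κ (k a) (hk a)
    refine ⟨κ * ε, ?_, ?_⟩
    · intro h0
      rcases hN _ _ h0 with h0 | h0
      · exact hκ h0
      · exact hε h0
    · intro c hc
      rcases Finset.mem_insert.1 hc with rfl | hc
      · exact ⟨f, hf⟩
      · obtain ⟨ρ, hρ⟩ := h c hc
        exact ⟨ρ * ε, by rw [hρ, mul_assoc]⟩

theorem main (hN : ∀ a b : S, a * b = 0 → a = 0 ∨ b = 0) (h1 : (1 : S) ≠ 0)
    (hO : ∀ (n : ℕ) (F : Fin n → S) (δ : S), δ ≠ 0 →
      (∃ ε : S, ε ≠ 0 ∧ ∃ F' : Fin n → S, ∀ i, ε * F i = F' i * δ) ∧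
      (∃ ε : S, ε ≠ 0 ∧ ∃ F' : Fin n → S, ∀ i, F i * ε = δ * F' i))
    (X Y : Type) (n : ℕ) (F : Fin n → X → S) (H : Fin n → Y → S)
    (hFH : ∀ x y, ∑ i, F i x * H i y = 0) :
    ∃ (B : Finset (Fin n)) (δ κ : S) (γ γ' : Fin n → Fin n → S), δ ≠ 0 ∧ κ ≠ 0 ∧
      (∀ b ∈ B, ∀ c ∉ B, δ * γ' b c = γ b c * κ) ∧
      (∀ c ∉ B, ∀ x, F c x * κ = ∑ b ∈ B, F b x * γ' b c) ∧
      (∀ b ∈ B, ∀ y, δ * H b y + ∑ c ∈ Bᶜ, γ b c * H c y = 0) := by
  classical
  -- a maximal right independent family
  obtain ⟨B, hB, hmax⟩ := Finset.exists_max_image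
    (Finset.univ.filter fun B : Finset (Fin n) => RInd F B) Finset.card
    ⟨∅, by
      rw [Finset.mem_filter]
      exact ⟨Finset.mem_univ _, fun d _ b hb => absurd hb (Finset.notMem_empty b)⟩⟩
  have hBi : RInd F B := (Finset.mem_filter.1 hB).2
  -- relations
  have hrel : ∀ c : Fin n, ∃ (k : S) (g : Fin n → S), k ≠ 0 ∧
      (c ∉ B → ∀ x, F c x * k = ∑ b ∈ B, F b x * g b) := by
    intro c
    by_cases hc : c ∈ B
    · exact ⟨1, fun _ => 0, h1, fun h => absurd hc h⟩
    have hn : ¬ RInd F (insert c B) := by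
      intro hi
      have := hmax (insert c B) (Finset.mem_filter.2 ⟨Finset.mem_univ _, hi⟩)
      rw [Finset.card_insert_of_notMem hc] at this
      omega
    unfold RInd at hn
    push Not at hn
    obtain ⟨d, hd, b, hb, hdb⟩ := hn
    have hs : ∀ x, F c x * d c + ∑ b ∈ B, F b x * d b = 0 := by
      intro x
      have := hd x
      rwa [Finset.sum_insert hc] at this
    have hdc : d c ≠ 0 := by
      intro h0
      have hz : ∀ b ∈ B, d b = 0 := hBi d fun x => by
        have := hs x
        rwa [h0, mul_zero, zero_add] at this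
      rcases Finset.mem_insert.1 hb with rfl | hb
      · exact hdb h0
      · exact hdb (hz b hb)
    refine ⟨d c, fun b => - d b, hdc, fun _ x => ?_⟩
    have := hs x
    rw [add_eq_zero_iff_eq_neg] at this
    rw [this, ← Finset.sum_neg_distrib]
    exact Finset.sum_congr rfl fun b _ => by rw [mul_neg]
  choose k g hk hg using hrel
  have hR : ∀ a δ : S, δ ≠ 0 → ∃ ε : S, ε ≠ 0 ∧ ∃ f : S, a * ε = δ * f := by
    intro a δ hδ
    obtain ⟨ε, hε, F', hF⟩ := (hO 1 (fun _ => a) δ hδ).2
    exact ⟨ε, hε, F' 0, hF 0⟩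
  obtain ⟨κ, hκ, hρ⟩ := common_right hN h1 hR k hk Finset.univ
  choose ρ hρ using fun c => hρ c (Finset.mem_univ c)
  -- left multiples
  obtain ⟨δ, hδ, G, hG⟩ := (hO (n * n)
    (fun j => g (finProdFinEquiv.symm j).2 (finProdFinEquiv.symm j).1
      * ρ (finProdFinEquiv.symm j).2) κ hκ).1
  have hG' : ∀ b c, δ * (g c b * ρ c) = G (finProdFinEquiv (b, c)) * κ := by
    intro b c
    have := hG (finProdFinEquiv (b, c))
    rwa [Equiv.symm_apply_apply] at this
  have hF2 : ∀ c ∉ B, ∀ x, F c x * κ = ∑ b ∈ B, F b x * (g c b * ρ c) := by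
    intro c hc x
    rw [hρ c, ← mul_assoc, hg c hc x, Finset.sum_mul]
    exact Finset.sum_congr rfl fun b _ => by rw [mul_assoc]
  refine ⟨B, δ, κ, fun b c => G (finProdFinEquiv (b, c)), fun b c => g c b * ρ c, hδ, hκ,
    fun b _ c _ => hG' b c, hF2, ?_⟩
  intro b hb y
  obtain ⟨s, hs, t, ht⟩ := (hO n (fun c => H c y) κ hκ).2
  have hbr : ∀ b ∈ B, H b y * s + ∑ c ∈ Bᶜ, g c b * ρ c * t c = 0 := by
    refine hBi (fun b => H b y * s + ∑ c ∈ Bᶜ, g c b * ρ c * t c) fun x => ?_
    have h0 : (∑ i, F i x * H i y) * s = 0 := by rw [hFH x y, zero_mul]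
    rw [Finset.sum_mul, ← Finset.sum_add_sum_compl B] at h0
    have h3 : ∑ c ∈ Bᶜ, F c x * H c y * s
        = ∑ b ∈ B, ∑ c ∈ Bᶜ, F b x * (g c b * ρ c * t c) := by
      rw [Finset.sum_comm]
      refine Finset.sum_congr rfl fun c hc => ?_
      rw [mul_assoc, ht c, ← mul_assoc, hF2 c (Finset.mem_compl.1 hc) x, Finset.sum_mul]
      exact Finset.sum_congr rfl fun b _ => by simp only [mul_assoc]
    rw [h3, ← Finset.sum_add_distrib] at h0
    rw [← h0]
    refine Finset.sum_congr rfl fun b _ => ?_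
    rw [mul_add, Finset.mul_sum, mul_assoc]
  have h4 : (δ * H b y + ∑ c ∈ Bᶜ, G (finProdFinEquiv (b, c)) * H c y) * s = 0 := by
    rw [add_mul, Finset.sum_mul]
    have h5 : ∑ c ∈ Bᶜ, G (finProdFinEquiv (b, c)) * H c y * s
        = δ * ∑ c ∈ Bᶜ, g c b * ρ c * t c := by
      rw [Finset.mul_sum]
      refine Finset.sum_congr rfl fun c _ => ?_
      rw [mul_assoc, ht c, ← mul_assoc, ← hG' b c]
      simp only [mul_assoc]
    rw [h5, mul_assoc, ← mul_add, hbr b hb, mul_zero]
  exact (hN _ _ h4).resolve_right hs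

end General

theorem specOREK (hN : SpecNZD) (hO : SpecOREC) : SpecOREK := by
  intro X Y n F H h
  exact main hN one_ne_zero hO X Y n F H h

end Pool.Agent.Lib.MP_39893a_lc.ORD.OREKM
end
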