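import Pool.Agent.Lib.MP_39893a_lc.ORD.Spec

/-!
# Addition of integers is primitive recursive (MP_39893a_lc, hive ORD)
-/

set_option autoImplicit false

namespace Pool.Agent.Lib.MP_39893a_lc.ORD.PINTM

open Encodable

theorem enc_of (n : ℕ) : encode (Int.ofNat n) = 2 * n := rfl

theorem enc_neg (n : ℕ) : encode (Int.negSucc n) = 2 * n + 1 := rfl

/-- Addition on codes. -/
def g (a b : ℕ) : ℕ :=
  if a % 2 = 0 then
    (if b % 2 = 0 then a + b
      else if b / 2 < a / 2 then 2 * (a / 2 - b / 2 - 1) else 2 * (b / 2 - a / 2) + 1)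
  else
    (if b % 2 = 0 then (if a / 2 < b / 2 then 2 * (b / 2 - a / 2 - 1) else 2 * (a / 2 - b / 2) + 1)
      else a + b + 1)

theorem g_eq (a b : ℤ) : encode (a + b) = g (encode a) (encode b) := by
  cases a with
  | ofNat m =>
    cases b with
    | ofNat n =>
      rw [enc_of, enc_of, g, if_pos (by omega), if_pos (by omega)]
      show encode (Int.ofNat (m + n)) = _
      rw [enc_of]
      omega
    | negSucc n =>
      rw [enc_of, enc_neg, g, if_pos (by omega), if_neg (by omega)]
      have h1 : (2 * n + 1) / 2 = n := by omega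
      have h2 : 2 * m / 2 = m := by omega
      rw [h1, h2]
      split
      · rename_i h
        have e : Int.ofNat m + Int.negSucc n = Int.ofNat (m - n - 1) := by
          simp only [Int.negSucc_eq, Int.ofNat_eq_natCast]
          omega
        rw [e, enc_of]
      · rename_i h
        have e : Int.ofNat m + Int.negSucc n = Int.negSucc (n - m) := by
          simp only [Int.negSucc_eq, Int.ofNat_eq_natCast]
          omega
        rw [e, enc_neg]
  | negSucc m =>
    cases b with
    | ofNat n =>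
      rw [enc_of, enc_neg, g, if_neg (by omega), if_pos (by omega)]
      have h1 : (2 * m + 1) / 2 = m := by omega
      have h2 : 2 * n / 2 = n := by omega
      rw [h1, h2]
      split
      · rename_i h
        have e : Int.negSucc m + Int.ofNat n = Int.ofNat (n - m - 1) := by
          simp only [Int.negSucc_eq, Int.ofNat_eq_natCast]
          omega
        rw [e, enc_of]
      · rename_i h
        have e : Int.negSucc m + Int.ofNat n = Int.negSucc (m - n) := by
          simp only [Int.negSucc_eq, Int.ofNat_eq_natCast]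
          omega
        rw [e, enc_neg]
    | negSucc n =>
      rw [enc_neg, enc_neg, g, if_neg (by omega), if_neg (by omega)]
      have e : Int.negSucc m + Int.negSucc n = Int.negSucc (m + n + 1) := by
        simp only [Int.negSucc_eq]
        omega
      rw [e, enc_neg]
      omega

theorem primrec_g : Primrec₂ g := by
  have ha : Primrec (fun p : ℕ × ℕ => p.1) := Primrec.fst
  have hb : Primrec (fun p : ℕ × ℕ => p.2) := Primrec.snd
  have c (k : ℕ) : Primrec (fun _ : ℕ × ℕ => k) := Primrec.const k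
  have ha2 : Primrec (fun p : ℕ × ℕ => p.1 / 2) := Primrec.nat_div.comp ha (c 2)
  have hb2 : Primrec (fun p : ℕ × ℕ => p.2 / 2) := Primrec.nat_div.comp hb (c 2)
  have pa : PrimrecPred (fun p : ℕ × ℕ => p.1 % 2 = 0) :=
    Primrec.eq.comp (Primrec.nat_mod.comp ha (c 2)) (c 0)
  have pb : PrimrecPred (fun p : ℕ × ℕ => p.2 % 2 = 0) :=
    Primrec.eq.comp (Primrec.nat_mod.comp hb (c 2)) (c 0)
  have q1 : PrimrecPred (fun p : ℕ × ℕ => p.2 / 2 < p.1 / 2) := Primrec.nat_lt.comp hb2 ha2
  have q2 : PrimrecPred (fun p : ℕ × ℕ => p.1 / 2 < p.2 / 2) := Primrec.nat_lt.comp ha2 hb2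
  have f1 : Primrec (fun p : ℕ × ℕ => 2 * (p.1 / 2 - p.2 / 2 - 1)) :=
    Primrec.nat_double.comp (Primrec.nat_sub.comp (Primrec.nat_sub.comp ha2 hb2) (c 1))
  have f2 : Primrec (fun p : ℕ × ℕ => 2 * (p.2 / 2 - p.1 / 2) + 1) :=
    Primrec.succ.comp (Primrec.nat_double.comp (Primrec.nat_sub.comp hb2 ha2))
  have f3 : Primrec (fun p : ℕ × ℕ => 2 * (p.2 / 2 - p.1 / 2 - 1)) :=
    Primrec.nat_double.comp (Primrec.nat_sub.comp (Primrec.nat_sub.comp hb2 ha2) (c 1))
  have f4 : Primrec (fun p : ℕ × ℕ => 2 * (p.1 / 2 - p.2 / 2) + 1) :=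
    Primrec.succ.comp (Primrec.nat_double.comp (Primrec.nat_sub.comp ha2 hb2))
  have s : Primrec (fun p : ℕ × ℕ => p.1 + p.2) := Primrec.nat_add.comp ha hb
  have s1 : Primrec (fun p : ℕ × ℕ => p.1 + p.2 + 1) := Primrec.succ.comp s
  exact Primrec.ite pa (Primrec.ite pb s (Primrec.ite q1 f1 f2))
    (Primrec.ite pb (Primrec.ite q2 f3 f4) s1)

theorem specPINT : SpecPINT := by
  have h : Primrec₂ (fun a b : ℤ => Denumerable.ofNat ℤ (g (encode a) (encode b))) :=
    (Primrec.ofNat ℤ).comp (primrec_g.comp (Primrec.encode.comp Primrec.fst)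
      (Primrec.encode.comp Primrec.snd))
  refine h.of_eq fun a b => ?_
  rw [← g_eq, Denumerable.ofNat_encode]

end Pool.Agent.Lib.MP_39893a_lc.ORD.PINTM
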