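import Pool.Agent.Lib.MP_39893a_lc.ORD.Spec
import Pool.Agent.Lib.MP_39893a_lc.Final
import Pool.Agent.Lib.MP_39893a_lc.Sound

section
/-!
# Primitive recursion of the stack machine over any set of numbers (MP_39893a_lc, ORD, module PVEC)
-/
set_option autoImplicit false

namespace Pool.Agent.Lib.MP_39893a_lc.ORD.PVECM

open Pool.Agent.Lib.MP_39893a_lc.PRIMVECM (pfs sP sd snB sn1 sA sT srk)

/-- The operations are primitive recursive. -/
structure PO {α : Type} [Primcodable α] (o : Ops α) : Prop where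
  nat : Primrec o.nat
  add : Primrec₂ o.add
  mul : Primrec₂ o.mul
  neg : Primrec o.neg

variable {γ : Type*} [Primcodable γ] {α : Type} [Primcodable α] {o : Ops α}

theorem padd (H : PO o) {a b : γ → α} (ha : Primrec a) (hb : Primrec b) :
    Primrec fun g => o.add (a g) (b g) :=
  H.add.comp ha hb

theorem pmul (H : PO o) {a b : γ → α} (ha : Primrec a) (hb : Primrec b) :
    Primrec fun g => o.mul (a g) (b g) :=
  H.mul.comp ha hb

theorem pneg (H : PO o) {a : γ → α} (ha : Primrec a) : Primrec fun g => o.neg (a g) :=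
  H.neg.comp ha

theorem pco (H : PO o) {a : γ → α} (ha : Primrec a) : Primrec fun g => o.co (a g) :=
  padd H (Primrec.const (o.nat 1)) (pneg H ha)

theorem psum (H : PO o) {f : γ → ℕ → α} {n : γ → ℕ} (hf : Primrec fun p : γ × ℕ => f p.1 p.2)
    (hn : Primrec n) : Primrec fun g => o.sum (f g) (n g) := by
  have h : Primrec₂ fun (g : γ) (p : ℕ × α) => o.add p.2 (f g p.1) :=
    padd H (Primrec.snd.comp Primrec.snd)
      (hf.comp (Primrec.fst.pair (Primrec.fst.comp Primrec.snd)))
  refine (Primrec.nat_rec' hn (Primrec.const (o.nat 0)) h).of_eq fun g => ?_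
  generalize n g = k
  induction k with
  | zero => rfl
  | succ k ih => exact congrArg (fun z => o.add z (f g k)) ih

theorem pprod (H : PO o) {f : γ → ℕ → α} {n : γ → ℕ} (hf : Primrec fun p : γ × ℕ => f p.1 p.2)
    (hn : Primrec n) : Primrec fun g => o.prod (f g) (n g) := by
  have h : Primrec₂ fun (g : γ) (p : ℕ × α) => o.mul p.2 (f g p.1) :=
    pmul H (Primrec.snd.comp Primrec.snd)
      (hf.comp (Primrec.fst.pair (Primrec.fst.comp Primrec.snd)))
  refine (Primrec.nat_rec' hn (Primrec.const (o.nat 1)) h).of_eq fun g => ?_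
  generalize n g = k
  induction k with
  | zero => rfl
  | succ k ih => exact congrArg (fun z => o.mul z (f g k)) ih

theorem pgF {d : γ → ℕ} {F : γ → List α} {j x y : γ → ℕ} (hd : Primrec d) (hF : Primrec F)
    (hj : Primrec j) (hx : Primrec x) (hy : Primrec y) :
    Primrec fun g => o.gF (d g) (F g) (j g) (x g) (y g) := by
  have hd1 : Primrec fun g => d g + 1 := Primrec.succ.comp hd
  exact (Primrec.list_getD (o.nat 0)).comp hF
    (Primrec.nat_add.comp
      (Primrec.nat_mul.comp (Primrec.nat_add.comp (Primrec.nat_mul.comp hj hd1) hx) hd1) hy)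

theorem pmkF {P d : γ → ℕ} {f : γ → ℕ → ℕ → ℕ → α} (hP : Primrec P) (hd : Primrec d)
    (hf : Primrec fun p : γ × ℕ × ℕ × ℕ => f p.1 p.2.1 p.2.2.1 p.2.2.2) :
    Primrec fun g => mkF (P g) (d g) (f g) := by
  have hd1 : Primrec fun p : γ × ℕ => d p.1 + 1 := Primrec.succ.comp (hd.comp Primrec.fst)
  have h1 : Primrec fun p : γ × ℕ => p.2 / (d p.1 + 1) := Primrec.nat_div.comp Primrec.snd hd1
  refine Primrec.list_map (Primrec.list_range.comp (pfs hP hd)) ?_
  exact hf.comp (Primrec.fst.pair ((Primrec.nat_div.comp h1 hd1).pair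
    ((Primrec.nat_mod.comp h1 hd1).pair (Primrec.nat_mod.comp Primrec.snd hd1))))

theorem pget {Fs : γ → List (List α)} {i : γ → ℕ} (hF : Primrec Fs) (hi : Primrec i) :
    Primrec fun g => (Fs g).getD (i g) [] :=
  (Primrec.list_getD []).comp hF hi

theorem pappE (H : PO o) {P d : γ → ℕ} {S : γ → List α} {Fs : γ → List (List α)} {j x y : γ → ℕ}
    (hP : Primrec P) (hd : Primrec d) (hS : Primrec S) (hF : Primrec Fs) (hj : Primrec j)
    (hx : Primrec x) (hy : Primrec y) :
    Primrec fun g => o.appE (P g) (d g) (S g) (Fs g) (j g) (x g) (y g) := by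
  have hj0 : PrimrecPred fun g => j g = 0 := Primrec.eq.comp hj (Primrec.const 0)
  have c0 : Primrec fun _ : γ => 0 := Primrec.const 0
  have f1 : Primrec (Prod.fst : γ × ℕ → γ) := Primrec.fst
  have f2 : Primrec (Prod.fst : (γ × ℕ) × ℕ → γ × ℕ) := Primrec.fst
  have s1 : Primrec (Prod.snd : γ × ℕ → ℕ) := Primrec.snd
  have s2 : Primrec (Prod.snd : (γ × ℕ) × ℕ → ℕ) := Primrec.snd
  have z1 : Primrec fun _ : γ × ℕ => 0 := Primrec.const 0
  have g1 : Primrec fun p : γ × ℕ => o.gF (d p.1) (S p.1) (p.2 + 1) (d p.1) 0 :=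
    pgF (hd.comp f1) (hS.comp f1) (Primrec.succ.comp s1) (hd.comp f1) z1
  refine Primrec.ite (Primrec.eq.comp hx hd) (Primrec.ite hj0 ?_ ?_) ?_
  · exact pmul H (pgF hd hS c0 hd c0) (pprod H (pco H (pmul H g1
      (pco H (pgF (hd.comp f1) (pget (hF.comp f1) s1) z1 (hd.comp f1) z1)))) hP)
  · exact pco H (pprod H (pco H (pmul H g1
      (pgF (hd.comp f1) (pget (hF.comp f1) s1) (hj.comp f1) (hd.comp f1) z1))) hP)
  · refine padd H (Primrec.ite hj0 (pgF hd hS c0 hx c0) (Primrec.const (o.nat 0)))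
      (psum H ?_ hP)
    refine psum H (pmul H ?_ ?_) (hd.comp f1)
    · exact pgF (hd.comp (f1.comp f2)) (hS.comp (f1.comp f2)) (Primrec.succ.comp (s1.comp f2))
        (hx.comp (f1.comp f2)) s2
    · refine pgF (hd.comp (f1.comp f2)) (pget (hF.comp (f1.comp f2)) (s1.comp f2))
        (hj.comp (f1.comp f2)) s2 ?_
      exact Primrec.ite (hj0.comp (f1.comp f2)) (Primrec.const 0) (hy.comp (f1.comp f2))

theorem pparE {d q : γ → ℕ} {j x y : γ → ℕ} (hd : Primrec d) (hq : Primrec q) (hj : Primrec j)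
    (hx : Primrec x) (hy : Primrec y) :
    Primrec fun g => o.parE (d g) (q g) (j g) (x g) (y g) := by
  have hj0 : PrimrecPred fun g => j g = 0 := Primrec.eq.comp hj (Primrec.const 0)
  have hjq : PrimrecPred fun g => j g = q g + 1 := Primrec.eq.comp hj (Primrec.succ.comp hq)
  refine Primrec.ite (Primrec.eq.comp hx hd)
    (Primrec.ite (hj0.or hjq) (Primrec.const (o.nat 1)) (Primrec.const (o.nat 0))) ?_
  exact Primrec.ite (hjq.and (Primrec.eq.comp hx hy)) (Primrec.const (o.nat 1))
    (Primrec.const (o.nat 0))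

theorem psymE {P d : γ → ℕ} {V : γ → List α} {b r j x y : γ → ℕ} (hP : Primrec P)
    (hd : Primrec d) (hV : Primrec V) (hb : Primrec b) (hr : Primrec r) (hj : Primrec j)
    (hx : Primrec x) (hy : Primrec y) :
    Primrec fun g => o.symE (P g) (d g) (V g) (b g) (r g) (j g) (x g) (y g) := by
  have hd1 : Primrec fun g => d g + 1 := Primrec.succ.comp hd
  refine Primrec.ite (Primrec.nat_le.comp hj hr)
    (Primrec.ite (Primrec.eq.comp hx hd) (Primrec.const (o.nat 1)) ?_)
    (Primrec.const (o.nat 0))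
  exact (Primrec.list_getD (o.nat 0)).comp hV (Primrec.nat_add.comp
    (Primrec.nat_mul.comp hb (pfs hP hd)) (Primrec.nat_add.comp
      (Primrec.nat_mul.comp (Primrec.nat_add.comp (Primrec.nat_mul.comp hj hd1) hx) hd1) hy))

theorem pstepE (H : PO o) {P d off : γ → ℕ} {V : γ → List α} {bl st : γ → List (List α)}
    {tk : γ → Tok}
    (hP : Primrec P) (hd : Primrec d) (ho : Primrec off) (hV : Primrec V) (hbl : Primrec bl)
    (hst : Primrec st) (htk : Primrec tk) :
    Primrec fun g => o.step (P g) (d g) (off g) (V g) (bl g) (st g) (tk g) := by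
  have t1 : Primrec fun g => (tk g).1 := Primrec.fst.comp htk
  have t2 : Primrec fun g => (tk g).2.1 := Primrec.fst.comp (Primrec.snd.comp htk)
  have t3 : Primrec fun g => (tk g).2.2.1 :=
    Primrec.fst.comp (Primrec.snd.comp (Primrec.snd.comp htk))
  have t4 : Primrec fun g => (tk g).2.2.2 :=
    Primrec.snd.comp (Primrec.snd.comp (Primrec.snd.comp htk))
  have F : Primrec (Prod.fst : γ × ℕ × ℕ × ℕ → γ) := Primrec.fst
  have J : Primrec fun p : γ × ℕ × ℕ × ℕ => p.2.1 := Primrec.fst.comp Primrec.snd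
  have X : Primrec fun p : γ × ℕ × ℕ × ℕ => p.2.2.1 :=
    Primrec.fst.comp (Primrec.snd.comp Primrec.snd)
  have Y : Primrec fun p : γ × ℕ × ℕ × ℕ => p.2.2.2 :=
    Primrec.snd.comp (Primrec.snd.comp Primrec.snd)
  have hc0 : PrimrecPred fun g => (tk g).1 = 0 := Primrec.eq.comp t1 (Primrec.const 0)
  have hc1 : PrimrecPred fun g => (tk g).1 = 1 := Primrec.eq.comp t1 (Primrec.const 1)
  have tr3 : Primrec fun g => ((st g).take (tk g).2.2.1).reverse :=
    Primrec.list_reverse.comp (Primrec.list_take.comp t3 hst)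
  have tr4 : Primrec fun g => ((st g).take (tk g).2.2.2).reverse :=
    Primrec.list_reverse.comp (Primrec.list_take.comp t4 hst)
  refine Primrec.ite hc0 ?_ (Primrec.ite hc1 ?_ ?_)
  · exact Primrec.list_cons.comp (pmkF hP hd (pparE (o := o) (hd.comp F) (t2.comp F) J X Y)) hst
  · refine Primrec.list_cons.comp (pmkF hP hd (pappE H (hP.comp F) (hd.comp F) ?_ (tr3.comp F)
      J X Y)) (Primrec.list_drop.comp t3 hst)
    have hS : Primrec fun g => mkF (P g) (d g)
        (o.symE (P g) (d g) (V g) (tk g).2.1 (tk g).2.2.1) :=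
      pmkF hP hd (psymE (hP.comp F) (hd.comp F) (hV.comp F) (t2.comp F) (t3.comp F) J X Y)
    exact hS.comp F
  · refine Primrec.list_cons.comp (pmkF hP hd (pappE H (hP.comp F) (hd.comp F) ?_ (tr4.comp F)
      J X Y)) (Primrec.list_drop.comp t4 hst)
    have hS : Primrec fun g =>
        ((bl g).getD (tk g).2.2.1 []).drop ((off g + (tk g).2.1) * fs (P g) (d g)) :=
      Primrec.list_drop.comp (Primrec.nat_mul.comp (Primrec.nat_add.comp ho t2) (pfs hP hd))
        (pget hbl t3)
    exact hS.comp F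

theorem pheadD {L : γ → List (List α)} (hL : Primrec L) : Primrec fun g => (L g).headD [] := by
  have h : Primrec fun g => ((L g).head?).getD [] :=
    Primrec.option_getD.comp (Primrec.list_head?.comp hL) (Primrec.const [])
  refine h.of_eq fun g => ?_
  cases L g <;> rfl

theorem prhsV (H : PO o) {P d off : γ → ℕ} {V : γ → List α} {bl : γ → List (List α)}
    {rhs : γ → Option (List Tok)} (hP : Primrec P) (hd : Primrec d) (ho : Primrec off)
    (hV : Primrec V) (hbl : Primrec bl) (hr : Primrec rhs) :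
    Primrec fun g => o.rhsV (P g) (d g) (off g) (V g) (bl g) (rhs g) := by
  have F : Primrec (Prod.fst : γ × (List (List α) × Tok) → γ) := Primrec.fst
  have hstep : Primrec₂ fun (g : γ) (p : List (List α) × Tok) =>
      o.step (P g) (d g) (off g) (V g) (bl g) p.1 p.2 :=
    pstepE H (hP.comp F) (hd.comp F) (ho.comp F) (hV.comp F) (hbl.comp F)
      (Primrec.fst.comp Primrec.snd) (Primrec.snd.comp Primrec.snd)
  exact pheadD (Primrec.list_foldl (Primrec.option_getD.comp hr (Primrec.const []))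
    (Primrec.const []) hstep)

theorem pvecS (H : PO o) {P d n1 : γ → ℕ} {T : γ → List (List (Option (List Tok)))} {a : γ → ℕ}
    {V : γ → List α} {bl : γ → List (List α)} (hP : Primrec P) (hd : Primrec d)
    (hn : Primrec n1) (hT : Primrec T) (ha : Primrec a) (hV : Primrec V) (hbl : Primrec bl) :
    Primrec fun g => o.vecS (P g) (d g) (n1 g) (T g) (a g) (V g) (bl g) := by
  have F : Primrec (Prod.fst : γ × ℕ → γ) := Primrec.fst
  have S : Primrec (Prod.snd : γ × ℕ → ℕ) := Primrec.snd
  have hfs := pfs hP hd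
  have hq : Primrec fun p : γ × ℕ => p.2 / fs (P p.1) (d p.1) :=
    Primrec.nat_div.comp S (hfs.comp F)
  have hrow : Primrec fun p : γ × ℕ => (T p.1).getD (p.2 / fs (P p.1) (d p.1)) [] :=
    (Primrec.list_getD []).comp (hT.comp F) hq
  have hrhs : Primrec fun p : γ × ℕ =>
      ((T p.1).getD (p.2 / fs (P p.1) (d p.1)) []).getD (a p.1) none :=
    (Primrec.list_getD none).comp hrow (ha.comp F)
  have hoff : Primrec fun p : γ × ℕ => if p.2 / fs (P p.1) (d p.1) < n1 p.1 then 0 else n1 p.1 :=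
    Primrec.ite (Primrec.nat_lt.comp hq (hn.comp F)) (Primrec.const 0) (hn.comp F)
  refine Primrec.list_map
    (Primrec.list_range.comp (Primrec.nat_mul.comp (Primrec.list_length.comp hT) hfs)) ?_
  exact (Primrec.list_getD (o.nat 0)).comp
    (prhsV H (hP.comp F) (hd.comp F) hoff (hV.comp F) (hbl.comp F) hrhs)
    (Primrec.nat_mod.comp S (hfs.comp F))

theorem pnbres (H : PO o) {P d : γ → ℕ} {X : γ → List α} (hP : Primrec P) (hd : Primrec d)
    (hX : Primrec X) : Primrec fun g => o.nbres (P g) (d g) (X g) := by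
  have F : Primrec (Prod.fst : γ × ℕ → γ) := Primrec.fst
  have S : Primrec (Prod.snd : γ × ℕ → ℕ) := Primrec.snd
  have c0 : Primrec fun _ : γ => 0 := Primrec.const 0
  exact pmul H (pgF hd hX c0 hd c0) (pprod H (pco H (pgF (hd.comp F) (hX.comp F)
    (Primrec.succ.comp S) (hd.comp F) (Primrec.const 0))) hP)

theorem ptarget (H : PO o) {P d n1 : γ → ℕ} {X : γ → List α} {e : γ → ℕ} (hP : Primrec P)
    (hd : Primrec d) (hn : Primrec n1) (hX : Primrec X) (he : Primrec e) :
    Primrec fun g => o.target (P g) (d g) (n1 g) (X g) (e g) := by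
  have c0 : Primrec fun _ : γ => 0 := Primrec.const 0
  have hX' : Primrec fun g => (X g).drop (n1 g * fs (P g) (d g)) :=
    Primrec.list_drop.comp (Primrec.nat_mul.comp hn (pfs hP hd)) hX
  exact Primrec.ite (Primrec.eq.comp he hd)
    (padd H (pnbres H hP hd hX) (pneg H (pnbres H hP hd hX')))
    (pmul H (pnbres H hP hd hX) (padd H (pgF hd hX c0 he c0) (pneg H (pgF hd hX' c0 he c0))))

theorem specPVEC : SpecPVEC := by
  intro α _ o h1 h2 h3 h4
  have H : PO o := ⟨h1, h2, h3, h4⟩
  constructor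
  · have F : Primrec (fun p : Sys × ℕ × List α × List (List α) => p.1) := Primrec.fst
    exact pvecS H (sP F) (Primrec.const 1) (sn1 F) (sT F) (Primrec.fst.comp Primrec.snd)
      (Primrec.fst.comp (Primrec.snd.comp Primrec.snd))
      (Primrec.snd.comp (Primrec.snd.comp Primrec.snd))
  · have F : Primrec (fun p : Sys × List α × ℕ => p.1) := Primrec.fst
    exact ptarget H (sP F) (Primrec.const 1) (sn1 F) (Primrec.fst.comp Primrec.snd)
      (Primrec.snd.comp Primrec.snd)

end Pool.Agent.Lib.MP_39893a_lc.ORD.PVECM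
end

section
/-!
# Primitive recursion of the check of certificates (MP_39893a_lc, ORD, module PCHK)
-/
set_option autoImplicit false

namespace Pool.Agent.Lib.MP_39893a_lc.ORD.PCHKM

open Pool.Agent.Lib.MP_39893a_lc.PRIMVECM (pfs sP sd snB sn1 sA sT srk)
open Pool.Agent.Lib.MP_39893a_lc.PRIMCHKM (pforall pdig ppow)
open PVECM

variable {γ : Type} [Primcodable γ]

set_option maxHeartbeats 400000

/-- The operations on coded polynomials are primitive recursive. -/
theorem po (h : SpecPOPS) : PO cops := ⟨h.1, h.2.1, h.2.2.1, h.2.2.2.1⟩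

theorem pzero (h : SpecPOPS) {p : γ → CP} (hp : Primrec p) :
    PrimrecPred fun g => (p g).isZero :=
  h.2.2.2.2.1.comp hp

theorem pcsub (h : SpecPOPS) {p q : γ → CP} (hp : Primrec p) (hq : Primrec q) :
    Primrec fun g => csub (p g) (q g) :=
  (po h).add.comp hp ((po h).neg.comp hq)

theorem pprf (h : SpecPPRF) {H : γ → List CP} {p : γ → CP} {L : γ → List Line}
    (hH : Primrec H) (hp : Primrec p) (hL : Primrec L) :
    PrimrecPred fun g => Prf (H g) (p g) (L g) := by
  have h2 := h.1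
  have h3 := h2.comp (hH.pair (hp.pair hL))
  exact h3

theorem papLF (h : SpecPPRF) {x : γ → List CP} {T : γ → LF} (hx : Primrec x) (hT : Primrec T) :
    Primrec fun g => apLF cops emC (x g) (T g) := by
  have h2 := h.2.1
  have h3 := h2.comp (hx.pair hT)
  exact h3

theorem pblk (h : SpecPPRF) {N i : γ → ℕ} {b : γ → List ℕ} (hN : Primrec N) (hi : Primrec i)
    (hb : Primrec b) : Primrec fun g => blk (N g) (i g) (b g) := by
  have h2 := h.2.2.1
  have h3 := h2.comp (hN.pair (hi.pair hb))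
  exact h3

theorem pVL (h : SpecPPRF) {P n : γ → ℕ} (hP : Primrec P) (hn : Primrec n) :
    Primrec fun g => VL cops emC (P g) (n g) := by
  have h2 := h.2.2.2
  have h3 := h2.comp (hP.pair hn)
  exact h3

variable {s : γ → Sys} {c : γ → CertD}

theorem sNN (hs : Primrec s) : Primrec fun g => NN (s g) :=
  Primrec.nat_mul.comp (Primrec.list_length.comp (sT hs)) (pfs (sP hs) (Primrec.const 1))

theorem cK (hc : Primrec c) : Primrec fun g => (c g).K :=
  Primrec.list_length.comp (Primrec.fst.comp hc)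

theorem cbits {k : γ → ℕ} (hc : Primrec c) (hk : Primrec k) :
    Primrec fun g => (c g).bits (k g) :=
  Primrec.fst.comp ((Primrec.list_getD ([], [])).comp (Primrec.fst.comp hc) hk)

theorem cforms {k : γ → ℕ} (hc : Primrec c) (hk : Primrec k) :
    Primrec fun g => (c g).forms (k g) :=
  Primrec.snd.comp ((Primrec.list_getD ([], [])).comp (Primrec.fst.comp hc) hk)

theorem ctgt {a z : γ → ℕ} (hc : Primrec c) (ha : Primrec a) (hz : Primrec z) :
    Primrec fun g => (c g).tgt (a g) (z g) :=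
  (Primrec.list_getD 0).comp (Primrec.fst.comp (Primrec.snd.comp hc))
    (Primrec₂.natPair.comp ha hz)

theorem cprf {a z l : γ → ℕ} (hc : Primrec c) (ha : Primrec a) (hz : Primrec z)
    (hl : Primrec l) : Primrec fun g => (c g).prf (a g) (z g) (l g) :=
  (Primrec.list_getD []).comp (Primrec.fst.comp (Primrec.snd.comp (Primrec.snd.comp hc)))
    (Primrec₂.natPair.comp ha (Primrec₂.natPair.comp hz hl))

theorem cfin {k : γ → ℕ} (hc : Primrec c) (hk : Primrec k) :
    Primrec fun g => (c g).fin (k g) :=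
  (Primrec.list_getD []).comp (Primrec.snd.comp (Primrec.snd.comp (Primrec.snd.comp hc))) hk

theorem phyp1 (h : SpecPPRF) {N i : γ → ℕ} {b : γ → List ℕ} {T : γ → List LF}
    (hN : Primrec N) (hi : Primrec i) (hb : Primrec b) (hT : Primrec T) :
    Primrec fun g => hyp1 (N g) (i g) (b g) (T g) := by
  refine Primrec.list_map hT ?_
  exact papLF h ((pblk h hN hi hb).comp Primrec.fst) Primrec.snd

theorem phyps (h : SpecPPRF) {a z : γ → ℕ} (hs : Primrec s) (hc : Primrec c) (ha : Primrec a)
    (hz : Primrec z) : Primrec fun g => hyps (s g) (c g) (a g) (z g) := by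
  have F : Primrec (Prod.fst : γ × ℕ → γ) := Primrec.fst
  have S : Primrec (Prod.snd : γ × ℕ → ℕ) := Primrec.snd
  have hd : Primrec fun p : γ × ℕ => dig (c p.1).K (z p.1) p.2 :=
    pdig ((cK hc).comp F) (hz.comp F) S
  refine Primrec.list_flatMap (Primrec.list_range.comp (srk hs ha)) ?_
  exact phyp1 h ((sNN hs).comp F) S (cbits (hc.comp F) hd) (cforms (hc.comp F) hd)

theorem pres (h1 : SpecPOPS) (h : SpecPPRF) {a z : γ → ℕ} (hs : Primrec s) (hc : Primrec c)
    (ha : Primrec a) (hz : Primrec z) : Primrec fun g => res (s g) (c g) (a g) (z g) := by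
  have F : Primrec (Prod.fst : γ × ℕ → γ) := Primrec.fst
  have S : Primrec (Prod.snd : γ × ℕ → ℕ) := Primrec.snd
  have hd : Primrec fun p : γ × ℕ => dig (c p.1).K (z p.1) p.2 :=
    pdig ((cK hc).comp F) (hz.comp F) S
  have hβ : Primrec fun g => (List.range ((s g).rk (a g))).map fun i =>
      (c g).bits (dig (c g).K (z g) i) :=
    Primrec.list_map (Primrec.list_range.comp (srk hs ha)) (cbits (hc.comp F) hd)
  refine pvecS (po h1) (sP hs) (Primrec.const 1) (sn1 hs) (sT hs) ha
    (pVL h (sP hs) (snB hs)) ?_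
  refine Primrec.list_map (Primrec.list_range.comp (srk hs ha)) ?_
  exact pblk h ((sNN hs).comp F) S ((Primrec.list_getD []).comp (hβ.comp F) S)

theorem pimp {Q R : γ → Prop} (hQ : PrimrecPred Q) (hR : PrimrecPred R) :
    PrimrecPred fun g => Q g → R g :=
  (hQ.not.or hR).of_eq fun _ => imp_iff_not_or.symm

theorem pbit {t : γ → ℕ} (ht : Primrec t) : PrimrecPred fun g => isBit (t g) :=
  Primrec.eq.comp (Primrec.nat_mod.comp (Primrec.nat_div.comp ht (Primrec.const 2))
    (Primrec.const 2)) (Primrec.const 1)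

theorem pChk (h1 : SpecPOPS) (h : SpecPPRF) (hs : Primrec s) (hc : Primrec c) :
    PrimrecPred fun g => ChkD (s g) (c g) := by
  have f1 : Primrec (Prod.fst : γ × ℕ → γ) := Primrec.fst
  have f2 : Primrec (Prod.fst : (γ × ℕ) × ℕ → γ × ℕ) := Primrec.fst
  have f3 : Primrec (Prod.fst : ((γ × ℕ) × ℕ) × ℕ → (γ × ℕ) × ℕ) := Primrec.fst
  have s1 : Primrec (Prod.snd : γ × ℕ → ℕ) := Primrec.snd
  have s2 : Primrec (Prod.snd : (γ × ℕ) × ℕ → ℕ) := Primrec.snd
  have s3 : Primrec (Prod.snd : ((γ × ℕ) × ℕ) × ℕ → ℕ) := Primrec.snd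
  have f12 : Primrec fun p : (γ × ℕ) × ℕ => p.1.1 := f1.comp f2
  have s12 : Primrec fun p : (γ × ℕ) × ℕ => p.1.2 := s1.comp f2
  have hs2 : Primrec fun p : (γ × ℕ) × ℕ => s p.1.1 := hs.comp f12
  have hc2 : Primrec fun p : (γ × ℕ) × ℕ => c p.1.1 := hc.comp f12
  have ht2 : Primrec fun p : (γ × ℕ) × ℕ => (c p.1.1).tgt p.1.2 p.2 := ctgt hc2 s12 s2
  have hr2 : Primrec fun p : (γ × ℕ) × ℕ => res (s p.1.1) (c p.1.1) p.1.2 p.2 :=
    pres h1 h hs2 hc2 s12 s2
  refine PrimrecPred.and ?_ ?_
  · refine pforall (pforall ((Primrec.nat_lt.comp ht2 (cK hc2)).and (PrimrecPred.and ?_ ?_)) ?_)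
      (Primrec.list_length.comp (sA hs))
    · refine pforall (pimp (pbit s3) (pzero h1 (pcsub h1 ?_ ?_))) (sNN hs2)
      · exact (Primrec.list_getD (cops.nat 0)).comp (hr2.comp f3) s3
      · exact (po h1).nat.comp ((Primrec.list_getD 0).comp
          ((cbits hc2 ht2).comp f3) s3)
    · refine pforall (pprf h ((phyps h hs2 hc2 s12 s2).comp f3) (papLF h (hr2.comp f3) ?_) ?_)
        (Primrec.list_length.comp (cforms hc2 ht2))
      · exact (Primrec.list_getD []).comp ((cforms hc2 ht2).comp f3) s3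
      · exact cprf (hc2.comp f3) (s12.comp f3) (s2.comp f3) s3
    · exact ppow ((cK hc).comp f1) (srk (hs.comp f1) s1)
  · have hb : Primrec fun p : γ × ℕ => blk (NN (s p.1)) 0 ((c p.1).bits p.2) :=
      pblk h ((sNN hs).comp f1) (Primrec.const 0) (cbits (hc.comp f1) s1)
    have hs1 : Primrec fun p : γ × ℕ => s p.1 := hs.comp f1
    refine pforall (PrimrecPred.and (pzero h1 ?_) (pprf h ?_ ?_ (cfin (hc.comp f1) s1))) (cK hc)
    · exact ptarget (po h1) (sP hs1) (Primrec.const 1) (sn1 hs1) hb (Primrec.const 1)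
    · exact phyp1 h ((sNN hs).comp f1) (Primrec.const 0) (cbits (hc.comp f1) s1)
        (cforms (hc.comp f1) s1)
    · exact ptarget (po h1) (sP hs1) (Primrec.const 1) (sn1 hs1) hb (Primrec.const 0)

theorem specPCHK (h1 : SpecPOPS) (_h2 : SpecPVEC) (h3 : SpecPPRF) : SpecPCHK :=
  pChk h1 h3 Primrec.fst Primrec.snd

end Pool.Agent.Lib.MP_39893a_lc.ORD.PCHKM
end

section
/-!
# The operations of `Mo` are primitive recursive (MP_39893a_lc, hive ORD)
-/
set_option autoImplicit false

namespace Pool.Agent.Lib.MP_39893a_lc.ORD.PMOM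

theorem primrec_twist (hp : SpecPINT) : Primrec₂ (fun (v : ℤ × ℤ) (n : ℕ) => twist n v) := by
  have hg : Primrec₂ (fun (_ : ℤ × ℤ) (p : ℕ × (ℤ × ℤ)) =>
      ((p.2.1 + p.2.1 + p.2.2, p.2.1 + p.2.2) : ℤ × ℤ)) := by
    have h1 : Primrec (fun q : (ℤ × ℤ) × (ℕ × (ℤ × ℤ)) => q.2.2.1) :=
      Primrec.fst.comp (Primrec.snd.comp Primrec.snd)
    have h2 : Primrec (fun q : (ℤ × ℤ) × (ℕ × (ℤ × ℤ)) => q.2.2.2) :=
      Primrec.snd.comp (Primrec.snd.comp Primrec.snd)
    exact Primrec.pair (hp.comp (hp.comp h1 h1) h2) (hp.comp h1 h2)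
  refine (Primrec.nat_rec Primrec.id hg).of_eq fun v n => ?_
  induction n with
  | zero => rfl
  | succ n ih =>
    rw [twist, ← ih, two_mul]

theorem specPMO (hp : SpecPINT) : SpecPMO := by
  have p1 : Primrec (fun x : ℤ × ℤ × ℕ => x.1) := Primrec.fst
  have p2 : Primrec (fun x : ℤ × ℤ × ℕ => x.2.1) := Primrec.fst.comp Primrec.snd
  have p3 : Primrec (fun x : ℤ × ℤ × ℕ => x.2.2) := Primrec.snd.comp Primrec.snd
  have ht := primrec_twist hp
  constructor
  · have f : Primrec (fun q : (ℤ × ℤ × ℕ) × (ℤ × ℤ × ℕ) => twist q.1.2.2 (q.2.1, q.2.2.1)) :=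
      ht.comp (Primrec.pair (p1.comp Primrec.snd) (p2.comp Primrec.snd)) (p3.comp Primrec.fst)
    have h : Primrec (fun q : (ℤ × ℤ × ℕ) × (ℤ × ℤ × ℕ) =>
        ((q.1.1 + (twist q.1.2.2 (q.2.1, q.2.2.1)).1, q.1.2.1 + (twist q.1.2.2 (q.2.1, q.2.2.1)).2,
          q.1.2.2 + q.2.2.2) : ℤ × ℤ × ℕ)) :=
      Primrec.pair (hp.comp (p1.comp Primrec.fst) (Primrec.fst.comp f))
        (Primrec.pair (hp.comp (p2.comp Primrec.fst) (Primrec.snd.comp f))
          (Primrec.nat_add.comp (p3.comp Primrec.fst) (p3.comp Primrec.snd)))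
    exact h
  · have f : Primrec (fun j : ℕ => twist j (1, 0)) :=
      ht.comp (Primrec.const ((1, 0) : ℤ × ℤ)) Primrec.id
    have h : Primrec (fun j : ℕ =>
        (((twist j (1, 0)).1, (twist j (1, 0)).2, j + 1) : ℤ × ℤ × ℕ)) :=
      Primrec.pair (Primrec.fst.comp f) (Primrec.pair (Primrec.snd.comp f) Primrec.succ)
    exact h

end Pool.Agent.Lib.MP_39893a_lc.ORD.PMOM
end

section
/-!
# Module POPS: operations on coded polynomials are primitive recursive (MP_39893a_lc, hive ORD)
-/
set_option autoImplicit false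

namespace Pool.Agent.Lib.MP_39893a_lc.ORD

namespace POPSM

variable {γ δ β : Type} [Primcodable γ] [Primcodable δ] [Primcodable β]

theorem ppair {f : γ → δ} {g : γ → β} (hf : Primrec f) (hg : Primrec g) :
    Primrec fun x => (f x, g x) := Primrec.pair hf hg

theorem pappend {f g : γ → List β} (hf : Primrec f) (hg : Primrec g) :
    Primrec fun x => f x ++ g x := Primrec.list_append.comp hf hg

theorem prepl : Primrec fun n : ℕ => List.replicate n (1 : Wd) :=
  (Primrec.list_map Primrec.list_range ((Primrec.const (1 : Wd)).comp₂ Primrec₂.right)).of_eq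
    fun n => by
      rw [List.map_const', List.length_range]

theorem pmulL (h : SpecPWD) {f g : γ → List Wd} (hf : Primrec f) (hg : Primrec g) :
    Primrec fun x => mulL (f x) (g x) := by
  have h1 : Primrec₂ fun (x : γ) (u : Wd) => (g x).map fun v => u * v := by
    refine Primrec.list_map (f := fun p : γ × Wd => g p.1) (g := fun p v => p.2 * v)
      (hg.comp Primrec.fst) ?_
    exact h.comp (Primrec.snd.comp Primrec.fst) Primrec.snd
  exact Primrec.list_flatMap hf h1

theorem pcount : Primrec₂ fun (w : Wd) (l : List Wd) => l.count w := by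
  have h : PrimrecRel fun (u w : Wd) => u = w := Primrec.eq
  have h1 : Primrec₂ fun (w : Wd) (l : List Wd) => (l.filter fun u => decide (u = w)).length :=
    Primrec.list_length.comp (h.listFilter.comp Primrec.snd Primrec.fst)
  refine h1.of_eq fun w l => ?_
  rw [List.count_eq_length_filter]
  congr 2

theorem pforallList {Q : γ → β → Prop} {l : γ → List β}
    (hQ : PrimrecPred fun p : γ × β => Q p.1 p.2) (hl : Primrec l) :
    PrimrecPred fun x => ∀ w ∈ l x, Q x w := by
  have h : PrimrecRel fun (w : β) (x : γ) => Q x w :=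
    PrimrecPred.comp (p := fun p : γ × β => Q p.1 p.2) (f := fun p : β × γ => (p.2, p.1)) hQ
      (Primrec.snd.pair Primrec.fst)
  exact (h.forall_mem_list.comp hl Primrec.id).of_eq fun x => Iff.rfl

theorem pisZero : PrimrecPred CP.isZero := by
  have h1 : Primrec fun p : CP => p.1 ++ p.2 := pappend Primrec.fst Primrec.snd
  have h2 : PrimrecPred fun q : CP × Wd => q.1.1.count q.2 = q.1.2.count q.2 :=
    Primrec.eq.comp (pcount.comp Primrec.snd (Primrec.fst.comp Primrec.fst))
      (pcount.comp Primrec.snd (Primrec.snd.comp Primrec.fst))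
  exact pforallList (Q := fun (p : CP) (w : Wd) => p.1.count w = p.2.count w) h2 h1

theorem pwfst : Primrec fun w : Wd => (w.1 : List (Mo × Var)) :=
  (Primrec.fst : Primrec (Prod.fst : List (Mo × Var) × Mo → List (Mo × Var)))

theorem pconst : PrimrecPred CP.const := by
  have h1 : Primrec fun p : CP => p.1 ++ p.2 := pappend Primrec.fst Primrec.snd
  have h2 : PrimrecPred fun q : CP × Wd => q.2.1 = [] :=
    Primrec.eq.comp (pwfst.comp Primrec.snd) (Primrec.const [])
  exact pforallList (Q := fun (_ : CP) (w : Wd) => w.1 = []) h2 h1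

theorem pmkWd {f : γ → List (Mo × Var)} {g : γ → Mo} (hf : Primrec f) (hg : Primrec g) :
    Primrec fun x => ((f x, g x) : Wd) :=
  (Primrec.pair hf hg : Primrec fun x => ((f x, g x) : List (Mo × Var) × Mo))

theorem psingle {f : γ → β} (hf : Primrec f) : Primrec fun x => [f x] :=
  Primrec.list_cons.comp hf (Primrec.const [])

theorem pemC : Primrec emC :=
  Primrec.pair (psingle (pmkWd (Primrec.const []) Primrec.id)) (Primrec.const [])

theorem pvarC : Primrec varC :=
  Primrec.pair (psingle (pmkWd (psingle (Primrec.pair (Primrec.const (1 : Mo)) Primrec.id))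
    (Primrec.const (1 : Mo)))) (Primrec.const [])

theorem specPOPS (h : SpecPWD) : SpecPOPS := by
  refine ⟨?_, ?_, ?_, ?_, pisZero, pconst, pemC, pvarC⟩
  · exact Primrec.pair prepl (Primrec.const [])
  · have h1 : Primrec fun p : CP × CP => (p.1.1 ++ p.2.1, p.1.2 ++ p.2.2) :=
      Primrec.pair (pappend (Primrec.fst.comp Primrec.fst) (Primrec.fst.comp Primrec.snd))
        (pappend (Primrec.snd.comp Primrec.fst) (Primrec.snd.comp Primrec.snd))
    exact h1
  · have a1 : Primrec fun p : CP × CP => p.1.1 := Primrec.fst.comp Primrec.fst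
    have a2 : Primrec fun p : CP × CP => p.1.2 := Primrec.snd.comp Primrec.fst
    have b1 : Primrec fun p : CP × CP => p.2.1 := Primrec.fst.comp Primrec.snd
    have b2 : Primrec fun p : CP × CP => p.2.2 := Primrec.snd.comp Primrec.snd
    have h1 : Primrec fun p : CP × CP => (mulL p.1.1 p.2.1 ++ mulL p.1.2 p.2.2,
        mulL p.1.1 p.2.2 ++ mulL p.1.2 p.2.1) :=
      Primrec.pair (pappend (pmulL h a1 b1) (pmulL h a2 b2))
        (pappend (pmulL h a1 b2) (pmulL h a2 b1))
    exact h1
  · have h1 : Primrec fun p : CP => (p.2, p.1) := Primrec.pair Primrec.snd Primrec.fst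
    exact h1

end POPSM

end Pool.Agent.Lib.MP_39893a_lc.ORD
end

section
/-!
# Module PPRF: the test of derivations, linear forms and symbolic vectors are primitive recursive
(MP_39893a_lc, hive ORD)
-/
set_option autoImplicit false

namespace Pool.Agent.Lib.MP_39893a_lc.ORD

namespace PPRFM

variable {γ β : Type} [Primcodable γ] [Primcodable β]

/-! ### Operations -/

theorem cadd (H : SpecPOPS) {f g : γ → CP} (hf : Primrec f) (hg : Primrec g) :
    Primrec fun x => cops.add (f x) (g x) := H.2.1.comp hf hg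

theorem cmul (H : SpecPOPS) {f g : γ → CP} (hf : Primrec f) (hg : Primrec g) :
    Primrec fun x => cops.mul (f x) (g x) := H.2.2.1.comp hf hg

theorem cneg (H : SpecPOPS) {f : γ → CP} (hf : Primrec f) :
    Primrec fun x => cops.neg (f x) := H.2.2.2.1.comp hf

theorem cnat (H : SpecPOPS) {f : γ → ℕ} (hf : Primrec f) :
    Primrec fun x => cops.nat (f x) := H.1.comp hf

theorem ccsub (H : SpecPOPS) {f g : γ → CP} (hf : Primrec f) (hg : Primrec g) :
    Primrec fun x => csub (f x) (g x) := cadd H hf (cneg H hg)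

theorem cisZero (H : SpecPOPS) {f : γ → CP} (hf : Primrec f) :
    PrimrecPred fun x => (f x).isZero := H.2.2.2.2.1.comp hf

theorem cconst (H : SpecPOPS) {f : γ → CP} (hf : Primrec f) :
    PrimrecPred fun x => (f x).const := H.2.2.2.2.2.1.comp hf

theorem cem (H : SpecPOPS) {f : γ → Mo} (hf : Primrec f) : Primrec fun x => emC (f x) :=
  H.2.2.2.2.2.2.1.comp hf

theorem cvar (H : SpecPOPS) {f : γ → Var} (hf : Primrec f) : Primrec fun x => varC (f x) :=
  H.2.2.2.2.2.2.2.comp hf

theorem csum (H : SpecPOPS) {f : γ → ℕ → CP} {n : γ → ℕ}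
    (hf : Primrec fun p : γ × ℕ => f p.1 p.2) (hn : Primrec n) :
    Primrec fun x => cops.sum (f x) (n x) := by
  have h : Primrec₂ fun (g : γ) (p : ℕ × CP) => cops.add p.2 (f g p.1) :=
    cadd H (Primrec.snd.comp Primrec.snd)
      (hf.comp (Primrec.fst.pair (Primrec.fst.comp Primrec.snd)))
  refine (Primrec.nat_rec' hn (Primrec.const (cops.nat 0)) h).of_eq fun g => ?_
  generalize n g = k
  induction k with
  | zero => rfl
  | succ k ih => exact congrArg (fun z => cops.add z (f g k)) ih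

theorem pgetD (d : β) {l : γ → List β} {i : γ → ℕ} (hl : Primrec l) (hi : Primrec i) :
    Primrec fun x => (l x).getD (i x) d := (Primrec.list_getD d).comp hl hi

theorem pforall {Q : γ → ℕ → Prop} {n : γ → ℕ} (hQ : PrimrecPred fun p : γ × ℕ => Q p.1 p.2)
    (hn : Primrec n) : PrimrecPred fun g => ∀ x < n g, Q g x := by
  have h : PrimrecRel fun (x : ℕ) (g : γ) => Q g x :=
    PrimrecPred.comp (p := fun p : γ × ℕ => Q p.1 p.2) (f := fun p : ℕ × γ => (p.2, p.1)) hQ
      (Primrec.snd.pair Primrec.fst)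
  exact (h.forall_mem_list.comp (Primrec.list_range.comp hn) Primrec.id).of_eq fun g => by
    simp only [List.mem_range, id]

theorem pforallList {Q : γ → β → Prop} {l : γ → List β}
    (hQ : PrimrecPred fun p : γ × β => Q p.1 p.2) (hl : Primrec l) :
    PrimrecPred fun x => ∀ w ∈ l x, Q x w := by
  have h : PrimrecRel fun (w : β) (x : γ) => Q x w :=
    PrimrecPred.comp (p := fun p : γ × β => Q p.1 p.2) (f := fun p : β × γ => (p.2, p.1)) hQ
      (Primrec.snd.pair Primrec.fst)
  exact (h.forall_mem_list.comp hl Primrec.id).of_eq fun x => Iff.rfl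

theorem pforallOpt {Q : γ → β → Prop} {o : γ → Option β}
    (hQ : PrimrecPred fun p : γ × β => Q p.1 p.2) (ho : Primrec o) :
    PrimrecPred fun x => ∀ w ∈ o x, Q x w :=
  (pforallList hQ (Primrec.optionToList.comp ho)).of_eq fun x => by
    simp only [Option.mem_toList]
    exact Iff.rfl

theorem pite {c A B : γ → Prop} [DecidablePred c] (hc : PrimrecPred c) (hA : PrimrecPred A)
    (hB : PrimrecPred B) : PrimrecPred fun x => if c x then A x else B x :=
  ((hc.and hA).or (hc.not.and hB)).of_eq fun x => by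
    by_cases h : c x
    · simp [h]
    · simp [h]

/-! ### Lines -/

variable {l : γ → Line}

theorem lp (hl : Primrec l) : Primrec fun x => (l x).p := Primrec.fst.comp hl

theorem l2 (hl : Primrec l) : Primrec fun x => (l x).2 := Primrec.snd.comp hl

theorem lkind (hl : Primrec l) : Primrec fun x => (l x).kind := Primrec.fst.comp (l2 hl)

theorem l3 (hl : Primrec l) : Primrec fun x => (l x).2.2 := Primrec.snd.comp (l2 hl)

theorem lcb (hl : Primrec l) : Primrec fun x => (l x).cb := Primrec.fst.comp (l3 hl)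

theorem l4 (hl : Primrec l) : Primrec fun x => (l x).2.2.2 := Primrec.snd.comp (l3 hl)

theorem l41 (hl : Primrec l) : Primrec fun x => (l x).2.2.2.1 := Primrec.fst.comp (l4 hl)

theorem l411 (hl : Primrec l) : Primrec fun x => (l x).2.2.2.1.1 := Primrec.fst.comp (l41 hl)

theorem l412 (hl : Primrec l) : Primrec fun x => (l x).2.2.2.1.2 := Primrec.snd.comp (l41 hl)

theorem l4121 (hl : Primrec l) : Primrec fun x => (l x).2.2.2.1.2.1 :=
  Primrec.fst.comp (l412 hl)

theorem l4122 (hl : Primrec l) : Primrec fun x => (l x).2.2.2.1.2.2 :=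
  Primrec.snd.comp (l412 hl)

theorem l41221 (hl : Primrec l) : Primrec fun x => (l x).2.2.2.1.2.2.1 :=
  Primrec.fst.comp (l4122 hl)

theorem l41222 (hl : Primrec l) : Primrec fun x => (l x).2.2.2.1.2.2.2 :=
  Primrec.snd.comp (l4122 hl)

theorem l5 (hl : Primrec l) : Primrec fun x => (l x).2.2.2.2 := Primrec.snd.comp (l4 hl)

theorem l51 (hl : Primrec l) : Primrec fun x => (l x).2.2.2.2.1 := Primrec.fst.comp (l5 hl)

theorem lδ (hl : Primrec l) : Primrec fun x => (l x).δ := Primrec.fst.comp (l51 hl)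

theorem lκ (hl : Primrec l) : Primrec fun x => (l x).κ := Primrec.snd.comp (l51 hl)

theorem l6 (hl : Primrec l) : Primrec fun x => (l x).2.2.2.2.2 := Primrec.snd.comp (l5 hl)

theorem l61 (hl : Primrec l) : Primrec fun x => (l x).2.2.2.2.2.1 := Primrec.fst.comp (l6 hl)

theorem l62 (hl : Primrec l) : Primrec fun x => (l x).2.2.2.2.2.2 := Primrec.snd.comp (l6 hl)

theorem lFb (hl : Primrec l) {b : γ → ℕ} (hb : Primrec b) : Primrec fun x => (l x).Fb (b x) :=
  pgetD (cops.nat 0) (l411 hl) hb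

theorem lm (hl : Primrec l) : Primrec fun x => (l x).m := Primrec.list_length.comp (l411 hl)

theorem lHb (hl : Primrec l) {b : γ → ℕ} (hb : Primrec b) : Primrec fun x => (l x).Hb (b x) :=
  pgetD (cops.nat 0) (l4121 hl) hb

theorem lFc (hl : Primrec l) {b : γ → ℕ} (hb : Primrec b) : Primrec fun x => (l x).Fc (b x) :=
  pgetD (cops.nat 0) (l41221 hl) hb

theorem ln (hl : Primrec l) : Primrec fun x => (l x).n := Primrec.list_length.comp (l41221 hl)

theorem lHc (hl : Primrec l) {b : γ → ℕ} (hb : Primrec b) : Primrec fun x => (l x).Hc (b x) :=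
  pgetD (cops.nat 0) (l41222 hl) hb

theorem lγ (hl : Primrec l) {b c : γ → ℕ} (hb : Primrec b) (hc : Primrec c) :
    Primrec fun x => (l x).γ (b x) (c x) :=
  pgetD (cops.nat 0) (Primrec.fst.comp (l61 hl))
    (Primrec.nat_add.comp (Primrec.nat_mul.comp hb (ln hl)) hc)

theorem lγ' (hl : Primrec l) {b c : γ → ℕ} (hb : Primrec b) (hc : Primrec c) :
    Primrec fun x => (l x).γ' (b x) (c x) :=
  pgetD (cops.nat 0) (Primrec.snd.comp (l61 hl))
    (Primrec.nat_add.comp (Primrec.nat_mul.comp hb (ln hl)) hc)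

theorem lrc (hl : Primrec l) {b : γ → ℕ} (hb : Primrec b) : Primrec fun x => (l x).rc (b x) :=
  pgetD 0 (Primrec.fst.comp (l62 hl)) hb

theorem lrb (hl : Primrec l) {b : γ → ℕ} (hb : Primrec b) : Primrec fun x => (l x).rb (b x) :=
  pgetD 0 (Primrec.snd.comp (l62 hl)) hb

/-! ### Correctness of a line -/

section

variable (H : SpecPOPS) {av : γ → List CP} (hav : Primrec av) (hl : Primrec l)

include H hav hl

theorem pcomb : Primrec fun x => (l x).cb.foldr (fun q s =>
    cops.add (cops.mul (cops.mul q.1 ((av x).getD q.2.1 (cops.nat 0))) q.2.2) s)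
      (cops.nat 0) := by
  have q : Primrec fun p : γ × (CP × ℕ × CP) × CP => p.2.1 := Primrec.fst.comp Primrec.snd
  have q1 : Primrec fun p : γ × (CP × ℕ × CP) × CP => p.2.1.1 := Primrec.fst.comp q
  have q2 : Primrec fun p : γ × (CP × ℕ × CP) × CP => p.2.1.2 := Primrec.snd.comp q
  have q21 : Primrec fun p : γ × (CP × ℕ × CP) × CP => p.2.1.2.1 := Primrec.fst.comp q2
  have q22 : Primrec fun p : γ × (CP × ℕ × CP) × CP => p.2.1.2.2 := Primrec.snd.comp q2
  have hs : Primrec fun p : γ × (CP × ℕ × CP) × CP => p.2.2 := Primrec.snd.comp Primrec.snd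
  have ha : Primrec fun p : γ × (CP × ℕ × CP) × CP => av p.1 := hav.comp Primrec.fst
  have h : Primrec₂ fun (x : γ) (p : (CP × ℕ × CP) × CP) =>
      cops.add (cops.mul (cops.mul p.1.1 ((av x).getD p.1.2.1 (cops.nat 0))) p.1.2.2) p.2 :=
    cadd H (cmul H (cmul H q1 (pgetD (cops.nat 0) ha q21)) q22) hs
  exact Primrec.list_foldr (lcb hl) (Primrec.const (cops.nat 0)) h

omit H in
theorem pcbRef : PrimrecPred fun x => ∀ q ∈ (l x).cb, q.2.1 < (av x).length := by
  have h : PrimrecPred fun p : γ × (CP × ℕ × CP) => p.2.2.1 < (av p.1).length :=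
    Primrec.nat_lt.comp (Primrec.fst.comp (Primrec.snd.comp Primrec.snd))
      (Primrec.list_length.comp (hav.comp Primrec.fst))
  exact pforallList (Q := fun x (q : CP × ℕ × CP) => q.2.1 < (av x).length) h (lcb hl)

omit hav in
theorem porec : PrimrecPred fun x => ∀ b < (l x).m, ∀ c < (l x).n,
    (csub (cops.mul (l x).δ ((l x).γ' b c)) (cops.mul ((l x).γ b c) (l x).κ)).isZero := by
  have hl1 : Primrec fun p : (γ × ℕ) × ℕ => l p.1.1 := hl.comp (Primrec.fst.comp Primrec.fst)
  have hb1 : Primrec fun p : (γ × ℕ) × ℕ => p.1.2 := Primrec.snd.comp Primrec.fst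
  have h : PrimrecPred fun p : (γ × ℕ) × ℕ => (csub (cops.mul (l p.1.1).δ
      ((l p.1.1).γ' p.1.2 p.2)) (cops.mul ((l p.1.1).γ p.1.2 p.2) (l p.1.1).κ)).isZero :=
    cisZero H (ccsub H (cmul H (lδ hl1) (lγ' hl1 hb1 Primrec.snd))
      (cmul H (lγ hl1 hb1 Primrec.snd) (lκ hl1)))
  have h2 : PrimrecPred fun p : γ × ℕ => ∀ c < (l p.1).n, (csub (cops.mul (l p.1).δ
      ((l p.1).γ' p.2 c)) (cops.mul ((l p.1).γ p.2 c) (l p.1).κ)).isZero :=
    pforall (Q := fun (p : γ × ℕ) (c : ℕ) => (csub (cops.mul (l p.1).δ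
      ((l p.1).γ' p.2 c)) (cops.mul ((l p.1).γ p.2 c) (l p.1).κ)).isZero) h
      (ln (hl.comp Primrec.fst))
  exact pforall (Q := fun x b => ∀ c < (l x).n, (csub (cops.mul (l x).δ
      ((l x).γ' b c)) (cops.mul ((l x).γ b c) (l x).κ)).isZero) h2 (lm hl)

theorem pcc : PrimrecPred fun x => ∀ c < (l x).n, (l x).rc c < (av x).length ∧
    (csub (csub (cops.mul ((l x).Fc c) (l x).κ)
      (cops.sum (fun b => cops.mul ((l x).Fb b) ((l x).γ' b c)) (l x).m))
        ((av x).getD ((l x).rc c) (cops.nat 0))).isZero := by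
  have hl1 : Primrec fun p : γ × ℕ => l p.1 := hl.comp Primrec.fst
  have ha1 : Primrec fun p : γ × ℕ => av p.1 := hav.comp Primrec.fst
  have hl2 : Primrec fun p : (γ × ℕ) × ℕ => l p.1.1 := hl.comp (Primrec.fst.comp Primrec.fst)
  have hc2 : Primrec fun p : (γ × ℕ) × ℕ => p.1.2 := Primrec.snd.comp Primrec.fst
  have hs : Primrec fun p : γ × ℕ => cops.sum
      (fun b => cops.mul ((l p.1).Fb b) ((l p.1).γ' b p.2)) (l p.1).m :=
    csum (f := fun (p : γ × ℕ) b => cops.mul ((l p.1).Fb b) ((l p.1).γ' b p.2)) H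
      (cmul H (lFb hl2 Primrec.snd) (lγ' hl2 Primrec.snd hc2)) (lm hl1)
  have h : PrimrecPred fun p : γ × ℕ => (l p.1).rc p.2 < (av p.1).length ∧
      (csub (csub (cops.mul ((l p.1).Fc p.2) (l p.1).κ)
      (cops.sum (fun b => cops.mul ((l p.1).Fb b) ((l p.1).γ' b p.2)) (l p.1).m))
        ((av p.1).getD ((l p.1).rc p.2) (cops.nat 0))).isZero :=
    (Primrec.nat_lt.comp (lrc hl1 Primrec.snd) (Primrec.list_length.comp ha1)).and
      (cisZero H (ccsub H (ccsub H (cmul H (lFc hl1 Primrec.snd) (lκ hl1)) hs)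
        (pgetD (cops.nat 0) ha1 (lrc hl1 Primrec.snd))))
  exact pforall (Q := fun x c => (l x).rc c < (av x).length ∧
      (csub (csub (cops.mul ((l x).Fc c) (l x).κ)
      (cops.sum (fun b => cops.mul ((l x).Fb b) ((l x).γ' b c)) (l x).m))
        ((av x).getD ((l x).rc c) (cops.nat 0))).isZero) h (ln hl)

theorem pbb : PrimrecPred fun x => ∀ b < (l x).m, (l x).rb b < (av x).length ∧
    (csub (cops.add (cops.mul (l x).δ ((l x).Hb b))
      (cops.sum (fun c => cops.mul ((l x).γ b c) ((l x).Hc c)) (l x).n))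
        ((av x).getD ((l x).rb b) (cops.nat 0))).isZero := by
  have hl1 : Primrec fun p : γ × ℕ => l p.1 := hl.comp Primrec.fst
  have ha1 : Primrec fun p : γ × ℕ => av p.1 := hav.comp Primrec.fst
  have hl2 : Primrec fun p : (γ × ℕ) × ℕ => l p.1.1 := hl.comp (Primrec.fst.comp Primrec.fst)
  have hb2 : Primrec fun p : (γ × ℕ) × ℕ => p.1.2 := Primrec.snd.comp Primrec.fst
  have hs : Primrec fun p : γ × ℕ => cops.sum
      (fun c => cops.mul ((l p.1).γ p.2 c) ((l p.1).Hc c)) (l p.1).n :=
    csum (f := fun (p : γ × ℕ) c => cops.mul ((l p.1).γ p.2 c) ((l p.1).Hc c)) H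
      (cmul H (lγ hl2 hb2 Primrec.snd) (lHc hl2 Primrec.snd)) (ln hl1)
  have h : PrimrecPred fun p : γ × ℕ => (l p.1).rb p.2 < (av p.1).length ∧
      (csub (cops.add (cops.mul (l p.1).δ ((l p.1).Hb p.2))
      (cops.sum (fun c => cops.mul ((l p.1).γ p.2 c) ((l p.1).Hc c)) (l p.1).n))
        ((av p.1).getD ((l p.1).rb p.2) (cops.nat 0))).isZero :=
    (Primrec.nat_lt.comp (lrb hl1 Primrec.snd) (Primrec.list_length.comp ha1)).and
      (cisZero H (ccsub H (cadd H (cmul H (lδ hl1) (lHb hl1 Primrec.snd)) hs)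
        (pgetD (cops.nat 0) ha1 (lrb hl1 Primrec.snd))))
  exact pforall (Q := fun x b => (l x).rb b < (av x).length ∧
      (csub (cops.add (cops.mul (l x).δ ((l x).Hb b))
      (cops.sum (fun c => cops.mul ((l x).γ b c) ((l x).Hc c)) (l x).n))
        ((av x).getD ((l x).rb b) (cops.nat 0))).isZero) h (lm hl)

omit hav in
theorem pfin : PrimrecPred fun x => (csub (l x).p (cops.add
    (cops.sum (fun b => cops.mul ((l x).Fb b) ((l x).Hb b)) (l x).m)
    (cops.sum (fun c => cops.mul ((l x).Fc c) ((l x).Hc c)) (l x).n))).isZero := by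
  have hl1 : Primrec fun p : γ × ℕ => l p.1 := hl.comp Primrec.fst
  have h1 : Primrec fun x => cops.sum (fun b => cops.mul ((l x).Fb b) ((l x).Hb b)) (l x).m :=
    csum (f := fun x b => cops.mul ((l x).Fb b) ((l x).Hb b)) H
      (cmul H (lFb hl1 Primrec.snd) (lHb hl1 Primrec.snd)) (lm hl)
  have h2 : Primrec fun x => cops.sum (fun b => cops.mul ((l x).Fc b) ((l x).Hc b)) (l x).n :=
    csum (f := fun x b => cops.mul ((l x).Fc b) ((l x).Hc b)) H
      (cmul H (lFc hl1 Primrec.snd) (lHc hl1 Primrec.snd)) (ln hl)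
  exact cisZero H (ccsub H (lp hl) (cadd H h1 h2))

theorem pOk : PrimrecPred fun x => (l x).Ok (av x) := by
  have hk : PrimrecPred fun x => (l x).kind = 0 :=
    Primrec.eq.comp (lkind hl) (Primrec.const 0)
  exact pite hk
    ((pcbRef hav hl).and (cisZero H (ccsub H (lp hl) (pcomb H hav hl))))
    ((cconst H (lδ hl)).and ((cisZero H (lδ hl)).not.and ((cconst H (lκ hl)).and
      ((cisZero H (lκ hl)).not.and ((porec H hl).and ((pcc H hav hl).and
        ((pbb H hav hl).and (pfin H hl))))))))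

end

/-! ### Derivations -/

theorem pPrf (H : SpecPOPS) {hy : γ → List CP} {p : γ → CP} {L : γ → List Line}
    (hhy : Primrec hy) (hp : Primrec p) (hL : Primrec L) :
    PrimrecPred fun x => Prf (hy x) (p x) (L x) := by
  have h1 : PrimrecPred fun x => 0 < (L x).length :=
    Primrec.nat_lt.comp (Primrec.const 0) (Primrec.list_length.comp hL)
  have h3 : PrimrecPred fun x => ∀ l ∈ (L x).head?, (csub (p x) l.p).isZero := by
    have h : PrimrecPred fun q : γ × Line => (csub (p q.1) q.2.p).isZero :=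
      cisZero H (ccsub H (hp.comp Primrec.fst) (lp Primrec.snd))
    exact pforallOpt (Q := fun x (l : Line) => (csub (p x) l.p).isZero) h
      (Primrec.list_head?.comp hL)
  have h2 : PrimrecPred fun x => ∀ i < (L x).length, ∀ l ∈ ((L x).drop i).head?,
      l.Ok (hy x ++ ((L x).drop (i + 1)).map Line.p) := by
    have hx1 : Primrec fun q : (γ × ℕ) × Line => q.1.1 := Primrec.fst.comp Primrec.fst
    have hi1 : Primrec fun q : (γ × ℕ) × Line => q.1.2 := Primrec.snd.comp Primrec.fst
    have hd : Primrec fun q : (γ × ℕ) × Line => (L q.1.1).drop (q.1.2 + 1) :=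
      Primrec.list_drop.comp (Primrec.succ.comp hi1) (hL.comp hx1)
    have hm : Primrec fun q : (γ × ℕ) × Line => ((L q.1.1).drop (q.1.2 + 1)).map Line.p :=
      Primrec.list_map hd ((lp Primrec.id).comp₂ Primrec₂.right)
    have hav : Primrec fun q : (γ × ℕ) × Line =>
        hy q.1.1 ++ ((L q.1.1).drop (q.1.2 + 1)).map Line.p :=
      Primrec.list_append.comp (hhy.comp hx1) hm
    have h : PrimrecPred fun q : (γ × ℕ) × Line =>
        q.2.Ok (hy q.1.1 ++ ((L q.1.1).drop (q.1.2 + 1)).map Line.p) :=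
      pOk H hav Primrec.snd
    have hh : Primrec fun q : γ × ℕ => ((L q.1).drop q.2).head? :=
      Primrec.list_head?.comp (Primrec.list_drop.comp Primrec.snd (hL.comp Primrec.fst))
    have h' : PrimrecPred fun q : γ × ℕ => ∀ l ∈ ((L q.1).drop q.2).head?,
        l.Ok (hy q.1 ++ ((L q.1).drop (q.2 + 1)).map Line.p) :=
      pforallOpt (Q := fun (q : γ × ℕ) (l : Line) =>
        l.Ok (hy q.1 ++ ((L q.1).drop (q.2 + 1)).map Line.p)) h hh
    exact pforall (Q := fun x i => ∀ l ∈ ((L x).drop i).head?,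
      l.Ok (hy x ++ ((L x).drop (i + 1)).map Line.p)) h' (Primrec.list_length.comp hL)
  exact h1.and (h2.and h3)

/-! ### Linear forms -/

theorem ptmLF (H : SpecPOPS) {x : γ → List CP} {q : γ → ℕ × Mo × ℕ × Mo}
    (hx : Primrec x) (hq : Primrec q) : Primrec fun g => tmLF cops emC (x g) (q g) := by
  have q1 : Primrec fun g => (q g).1 := Primrec.fst.comp hq
  have q2 : Primrec fun g => (q g).2 := Primrec.snd.comp hq
  have q21 : Primrec fun g => (q g).2.1 := Primrec.fst.comp q2
  have q22 : Primrec fun g => (q g).2.2 := Primrec.snd.comp q2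
  have q221 : Primrec fun g => (q g).2.2.1 := Primrec.fst.comp q22
  have q222 : Primrec fun g => (q g).2.2.2 := Primrec.snd.comp q22
  have hmid : Primrec fun g => if (q g).2.2.1 = 0 then cops.nat 1 else
      (x g).getD ((q g).2.2.1 - 1) (cops.nat 0) :=
    Primrec.ite (Primrec.eq.comp q221 (Primrec.const 0)) (Primrec.const (cops.nat 1))
      (pgetD (cops.nat 0) hx (Primrec.nat_sub.comp q221 (Primrec.const 1)))
  have hpr := cmul H (cmul H (cem H q21) hmid) (cem H q222)
  exact Primrec.ite (Primrec.eq.comp q1 (Primrec.const 0)) hpr (cneg H hpr)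

theorem papLF (H : SpecPOPS) : Primrec (fun p : List CP × LF => apLF cops emC p.1 p.2) := by
  have h : Primrec₂ fun (x : List CP × LF) (p : (ℕ × Mo × ℕ × Mo) × CP) =>
      cops.add (tmLF cops emC x.1 p.1) p.2 :=
    cadd H (ptmLF H (Primrec.fst.comp Primrec.fst) (Primrec.fst.comp Primrec.snd))
      (Primrec.snd.comp Primrec.snd)
  exact Primrec.list_foldr Primrec.snd (Primrec.const (cops.nat 0)) h

/-! ### Symbolic vectors -/

theorem pisBit : PrimrecPred isBit :=
  Primrec.eq.comp (Primrec.nat_mod.comp (Primrec.nat_div.comp Primrec.id (Primrec.const 2))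
    (Primrec.const 2)) (Primrec.const 1)

theorem pblk (H : SpecPOPS) :
    Primrec (fun p : ℕ × ℕ × List ℕ => blk p.1 p.2.1 p.2.2) := by
  have b : Primrec fun q : (ℕ × ℕ × List ℕ) × ℕ => q.1.2.2 :=
    Primrec.snd.comp (Primrec.snd.comp Primrec.fst)
  have i : Primrec fun q : (ℕ × ℕ × List ℕ) × ℕ => q.1.2.1 :=
    Primrec.fst.comp (Primrec.snd.comp Primrec.fst)
  have h : Primrec₂ fun (p : ℕ × ℕ × List ℕ) (t : ℕ) =>
      if isBit t then cops.nat (p.2.2.getD t 0) else varC (p.2.1, t) :=
    Primrec.ite (pisBit.comp Primrec.snd) (cnat H (pgetD 0 b Primrec.snd))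
      (cvar H (Primrec.pair i Primrec.snd))
  exact Primrec.list_map (Primrec.list_range.comp Primrec.fst) h

theorem pfs1 {P : γ → ℕ} (hP : Primrec P) : Primrec fun g => fs (P g) 1 :=
  Primrec.nat_mul.comp (Primrec.nat_mul.comp (Primrec.succ.comp hP) (Primrec.const 2))
    (Primrec.const 2)

theorem pVL (H : SpecPOPS) (HM : SpecPMO) :
    Primrec (fun p : ℕ × ℕ => VL cops emC p.1 p.2) := by
  have f : Primrec fun q : (ℕ × ℕ) × ℕ => fs q.1.1 1 := pfs1 (Primrec.fst.comp Primrec.fst)
  have m : Primrec fun q : (ℕ × ℕ) × ℕ => q.2 % fs q.1.1 1 :=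
    Primrec.nat_mod.comp Primrec.snd f
  have d : Primrec fun q : (ℕ × ℕ) × ℕ => q.2 / fs q.1.1 1 :=
    Primrec.nat_div.comp Primrec.snd f
  have m4 : Primrec fun q : (ℕ × ℕ) × ℕ => q.2 % fs q.1.1 1 % 4 :=
    Primrec.nat_mod.comp m (Primrec.const 4)
  have d4 : Primrec fun q : (ℕ × ℕ) × ℕ => q.2 % fs q.1.1 1 / 4 :=
    Primrec.nat_div.comp m (Primrec.const 4)
  have hl : Primrec fun q : (ℕ × ℕ) × ℕ => emC (letter (Nat.pair (q.2 / fs q.1.1 1)
      (q.2 % fs q.1.1 1 / 4 - 1))) :=
    cem H (HM.2.comp (Primrec₂.natPair.comp d (Primrec.nat_sub.comp d4 (Primrec.const 1))))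
  have h : Primrec₂ fun (p : ℕ × ℕ) (t : ℕ) =>
      if t % fs p.1 1 % 4 = 0 then
        (if t % fs p.1 1 / 4 = 0 then cops.nat (t / fs p.1 1 + 1)
          else emC (letter (Nat.pair (t / fs p.1 1) (t % fs p.1 1 / 4 - 1))))
      else cops.nat 0 :=
    Primrec.ite (Primrec.eq.comp m4 (Primrec.const 0))
      (Primrec.ite (Primrec.eq.comp d4 (Primrec.const 0)) (cnat H (Primrec.succ.comp d)) hl)
      (Primrec.const (cops.nat 0))
  exact Primrec.list_map (Primrec.list_range.comp (Primrec.nat_mul.comp Primrec.snd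
    (pfs1 Primrec.fst))) h

theorem specPPRF (H : SpecPOPS) (HM : SpecPMO) : SpecPPRF :=
  ⟨pPrf H Primrec.fst (Primrec.fst.comp Primrec.snd) (Primrec.snd.comp Primrec.snd),
    papLF H, pblk H, pVL H HM⟩

end PPRFM

end Pool.Agent.Lib.MP_39893a_lc.ORD
end

section
/-!
# Module PSRC: the search for counterexamples is primitive recursive
-/
set_option autoImplicit false

namespace Pool.Agent.Lib.MP_39893a_lc.ORD.PSRCM

open PRIMVECM PRIMCHKM

variable {γ : Type} [Primcodable γ] {s : γ → Sys}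

theorem pvecD (h2 : SpecPVEC) (h1 : SpecPOPS) {a : γ → ℕ} {V : γ → List CP}
    {R : γ → List (List CP)} (hs : Primrec s) (ha : Primrec a) (hV : Primrec V)
    (hR : Primrec R) :
    Primrec fun g => cops.vecS (s g).P 1 (s g).n1 (s g).T (a g) (V g) (R g) := by
  obtain ⟨o1, o2, o3, o4, -⟩ := h1
  have h := ((h2 CP cops o1 o2 o3 o4).1).comp (hs.pair (ha.pair (hV.pair hR)))
  exact h

theorem ptgtD (h2 : SpecPVEC) (h1 : SpecPOPS) {F : γ → List CP} {e : γ → ℕ}
    (hs : Primrec s) (hF : Primrec F) (he : Primrec e) :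
    Primrec fun g => cops.target (s g).P 1 (s g).n1 (F g) (e g) := by
  obtain ⟨o1, o2, o3, o4, -⟩ := h1
  have h := ((h2 CP cops o1 o2 o3 o4).2).comp (hs.pair (hF.pair he))
  exact h

theorem pVL (h3 : SpecPPRF) (hs : Primrec s) :
    Primrec fun g => VL cops emC (s g).P (s g).nB := by
  have h := h3.2.2.2.comp ((sP hs).pair (snB hs))
  exact h

theorem ptk {st : γ → ℕ × List (List CP)} {a : γ → ℕ} (hs : Primrec s) (hst : Primrec st)
    (ha : Primrec a) : Primrec fun g => ((st g).2.take ((s g).rk (a g))).reverse := by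
  have e2 : Primrec fun g => (st g).2 := Primrec.snd.comp hst
  have hr := srk hs ha
  exact Primrec.list_reverse.comp (Primrec.list_take.comp hr e2)

theorem pdr {st : γ → ℕ × List (List CP)} {a : γ → ℕ} (hs : Primrec s) (hst : Primrec st)
    (ha : Primrec a) : Primrec fun g => (st g).2.drop ((s g).rk (a g)) := by
  have e2 : Primrec fun g => (st g).2 := Primrec.snd.comp hst
  have hr := srk hs ha
  exact Primrec.list_drop.comp hr e2

theorem pfl {st : γ → ℕ × List (List CP)} {a : γ → ℕ} (hs : Primrec s) (hst : Primrec st)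
    (ha : Primrec a) : Primrec fun g =>
      (if a g < (s g).A.length ∧ (s g).rk (a g) ≤ (st g).2.length then (st g).1 else 1) := by
  have e2 : Primrec fun g => (st g).2 := Primrec.snd.comp hst
  have hr := srk hs ha
  exact Primrec.ite ((Primrec.nat_lt.comp ha (Primrec.list_length.comp
    (sA hs))).and (Primrec.nat_le.comp hr (Primrec.list_length.comp e2)))
    (Primrec.fst.comp hst) (Primrec.const 1)

theorem psstep (h2 : SpecPVEC) (h1 : SpecPOPS) (h3 : SpecPPRF)
    {st : γ → ℕ × List (List CP)} {a : γ → ℕ} (hs : Primrec s)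
    (hst : Primrec st) (ha : Primrec a) :
    Primrec fun g => sstepD (s g) (st g) (a g) := by
  have q := pvecD h2 h1 hs ha (pVL h3 hs) (ptk hs hst ha)
  exact (pfl hs hst ha).pair (Primrec.list_cons.comp q (pdr hs hst ha))

theorem psrun (h2 : SpecPVEC) (h1 : SpecPOPS) (h3 : SpecPPRF) {w : γ → List ℕ}
    (hs : Primrec s) (hw : Primrec w) : Primrec fun g => srunD (s g) (w g) := by
  have hstep : Primrec₂ fun (g : γ) (p : (ℕ × List (List CP)) × ℕ) =>
      sstepD (s g) p.1 p.2 :=
    psstep h2 h1 h3 (hs.comp Primrec.fst) (Primrec.fst.comp Primrec.snd)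
      (Primrec.snd.comp Primrec.snd)
  exact Primrec.list_foldl hw (Primrec.const (0, [])) hstep

theorem pSrch (h2 : SpecPVEC) (h1 : SpecPOPS) (h3 : SpecPPRF) {k : γ → List ℕ × ℕ}
    (hs : Primrec s) (hk : Primrec k) : PrimrecPred fun g => SrchD (s g) (k g) := by
  have k1 : Primrec fun g => (k g).1 := Primrec.fst.comp hk
  have k2 : Primrec fun g => (k g).2 := Primrec.snd.comp hk
  have hr := psrun h2 h1 h3 hs k1
  have hr2 := Primrec.snd.comp hr
  have h0 : Primrec fun g => (srunD (s g) (k g).1).2.getD 0 [] :=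
    (Primrec.list_getD []).comp hr2 (Primrec.const 0)
  have ht := ptgtD h2 h1 hs h0 k2
  have hz := (h1.2.2.2.2.1).comp ht
  exact (Primrec.nat_lt.comp k2 (Primrec.const 2)).and
    ((Primrec.eq.comp (Primrec.fst.comp hr) (Primrec.const 0)).and
      ((Primrec.nat_lt.comp (Primrec.const 0) (Primrec.list_length.comp hr2)).and hz.not))

end Pool.Agent.Lib.MP_39893a_lc.ORD.PSRCM

namespace Pool.Agent.Lib.MP_39893a_lc.ORD

theorem specPSRC (h1 : SpecPOPS) (h2 : SpecPVEC) (h3 : SpecPPRF) : SpecPSRC :=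
  PSRCM.pSrch h2 h1 h3 Primrec.fst Primrec.snd

end Pool.Agent.Lib.MP_39893a_lc.ORD
end

section
/-!
# The product of words is primitive recursive (MP_39893a_lc, hive ORD)
-/
set_option autoImplicit false

namespace Pool.Agent.Lib.MP_39893a_lc.ORD.PWDM

/-- Words. -/
abbrev W : Type := List (Mo × Var) × Mo

theorem specPWD (hp : SpecPMO) : SpecPWD := by
  have hm : Primrec₂ (fun x y : Mo => x * y) := hp.1
  have u1 : Primrec (fun q : W × W => q.1.1) := Primrec.fst.comp Primrec.fst
  have u2 : Primrec (fun q : W × W => q.1.2) := Primrec.snd.comp Primrec.fst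
  have v1 : Primrec (fun q : W × W => q.2.1) := Primrec.fst.comp Primrec.snd
  have v2 : Primrec (fun q : W × W => q.2.2) := Primrec.snd.comp Primrec.snd
  have hg : Primrec (fun q : W × W => ((q.1.1, q.1.2 * q.2.2) : W)) :=
    Primrec.pair u1 (hm.comp u2 v2)
  have a1 : Primrec (fun r : (W × W) × ((Mo × Var) × List (Mo × Var)) => r.1.1.2 * r.2.1.1) :=
    hm.comp (u2.comp Primrec.fst) (Primrec.fst.comp (Primrec.fst.comp Primrec.snd))
  have a2 : Primrec (fun r : (W × W) × ((Mo × Var) × List (Mo × Var)) =>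
      (((r.1.1.2 * r.2.1.1, r.2.1.2) : Mo × Var) :: r.2.2)) :=
    Primrec.list_cons.comp
      (Primrec.pair a1 (Primrec.snd.comp (Primrec.fst.comp Primrec.snd)))
      (Primrec.snd.comp Primrec.snd)
  have hh : Primrec₂ (fun (q : W × W) (r : (Mo × Var) × List (Mo × Var)) =>
      ((q.1.1 ++ (q.1.2 * r.1.1, r.1.2) :: r.2, q.2.2) : W)) :=
    Primrec.pair (Primrec.list_append.comp (u1.comp Primrec.fst) a2) (v2.comp Primrec.fst)
  have h : Primrec (fun q : W × W => Wd.mul q.1 q.2) := by
    refine (Primrec.list_casesOn v1 hg hh).of_eq fun q => ?_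
    obtain ⟨⟨l, g⟩, ⟨m, k⟩⟩ := q
    cases m with
    | nil => rfl
    | cons p m => rfl
  exact h

end Pool.Agent.Lib.MP_39893a_lc.ORD.PWDM
end

section
/-!
# The machine over a noncommutative ring computes the semantics of transducers
(MP_39893a_lc, hive ORD, module SEM)
-/
set_option autoImplicit false

open Finset

namespace Pool.Agent.Lib.MP_39893a_lc.ORD.SEMM

/-- Value of a tree with undefined leaves. -/
def WN {S : Type} [Ring S] (d : ℕ) (I : Interp S) : BT → ℕ → S
  | .bot, _ => 0
  | .node b r c, x => I.C b x + ∑ i : Fin r, ∑ y ∈ range d, I.A b i x y * WN d I (c i) y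

/-! ## Indicators -/

open Classical in
/-- The indicator of a proposition. -/
noncomputable def ndc (S : Type) [Ring S] (p : Prop) : S := if p then 1 else 0

section ndc

variable {S : Type} [Ring S]

theorem ndc_true {p : Prop} (h : p) : ndc S p = 1 := if_pos h
theorem ndc_false {p : Prop} (h : ¬p) : ndc S p = 0 := if_neg h

theorem one_sub_ndc_mul (p q : Prop) : 1 - ndc S p * (1 - ndc S q) = ndc S (p → q) := by
  by_cases hp : p <;> by_cases hq : q <;> simp [ndc, hp, hq]

theorem one_sub_ndc_mul' (p q : Prop) : 1 - ndc S p * ndc S q = ndc S (¬(p ∧ q)) := by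
  by_cases hp : p <;> by_cases hq : q <;> simp [ndc, hp, hq]

theorem one_sub_ndc (p : Prop) : 1 - ndc S p = ndc S (¬p) := by
  by_cases hp : p <;> simp [ndc, hp]

theorem ndc_mul (p q : Prop) : ndc S p * ndc S q = ndc S (p ∧ q) := by
  by_cases hp : p <;> by_cases hq : q <;> simp [ndc, hp, hq]

end ndc

theorem nops_sum {S : Type} [Ring S] (f : ℕ → S) (n : ℕ) :
    (nops S).sum f n = ∑ i ∈ range n, f i := by
  induction n with
  | zero => simp [Ops.sum, nops]
  | succ n ih => rw [Ops.sum, ih, Finset.sum_range_succ]; rfl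

theorem prod_ndc {S : Type} [Ring S] (f : ℕ → S) (p : ℕ → Prop) (n : ℕ) :
    (∀ i < n, f i = ndc S (p i)) → (nops S).prod f n = ndc S (∀ i < n, p i) := by
  induction n with
  | zero =>
    intro _
    simp [Ops.prod, nops, ndc]
  | succ n ih =>
    intro h
    rw [Ops.prod, ih (fun i hi => h i (by omega)), h n (by omega)]
    refine (ndc_mul _ _).trans ?_
    congr 1
    apply propext
    constructor
    · rintro ⟨h1, h2⟩ i hi
      rcases Nat.lt_succ_iff_lt_or_eq.1 hi with h | rfl
      · exact h1 i h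
      · exact h2
    · intro h
      exact ⟨fun i hi => h i (by omega), h n (by omega)⟩

theorem nops_co {S : Type} [Ring S] (a : S) : (nops S).co a = 1 - a := by
  simp [Ops.co, nops, sub_eq_add_neg]

/-! ## Representation of functions by forms -/

/-- The list `L` represents the function `g` of `P` parameters. -/
def RepL {S : Type} [Ring S] (P d : ℕ) (I : Interp S) (L : List S)
    (g : (ℕ → BT) → BT) : Prop :=
  (∀ ρ : ℕ → BT, ∀ x < d, WN d I (g ρ) x = (nops S).gF d L 0 x 0 +
    ∑ j ∈ range P, ∑ y ∈ range d, (nops S).gF d L (j + 1) x y * WN d I (ρ j) y) ∧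
  ∃ (p : Prop) (occ : ℕ → Prop), (nops S).gF d L 0 d 0 = ndc S p ∧
    (∀ j < P, (nops S).gF d L (j + 1) d 0 = ndc S (occ j)) ∧
    ∀ ρ : ℕ → BT, (g ρ).good ↔ p ∧ ∀ j < P, occ j → (ρ j).good

section rep

variable {S : Type} [Ring S] {P d : ℕ} {I : Interp S}

theorem gF_nil (j x y : ℕ) : (nops S).gF d [] j x y = 0 := by
  simp [Ops.gF, nops]

theorem rep_bot : RepL P d I [] (fun _ => BT.bot) := by
  refine ⟨fun ρ x _ => ?_, False, fun _ => False, ?_, fun j _ => ?_, fun ρ => ?_⟩
  · simp [WN, gF_nil]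
  · rw [gF_nil, ndc_false not_false]
  · rw [gF_nil, ndc_false not_false]
  · simp [BT.good]

theorem rep_congr {L L' : List S} {g : (ℕ → BT) → BT}
    (h : ∀ j x y, j ≤ P → x ≤ d → y ≤ d → (nops S).gF d L j x y = (nops S).gF d L' j x y)
    (hL : RepL P d I L g) : RepL P d I L' g := by
  obtain ⟨h1, p, occ, h2, h3, h4⟩ := hL
  refine ⟨fun ρ x hx => ?_, p, occ, ?_, fun j hj => ?_, h4⟩
  · rw [h1 ρ x hx, h 0 x 0 (Nat.zero_le _) hx.le (Nat.zero_le _)]
    congr 1
    refine Finset.sum_congr rfl fun j hj => Finset.sum_congr rfl fun y hy => ?_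
    rw [h (j + 1) x y (Finset.mem_range.1 hj) hx.le (Finset.mem_range.1 hy).le]
  · rw [← h 0 d 0 (Nat.zero_le _) le_rfl (Nat.zero_le _), h2]
  · rw [← h (j + 1) d 0 hj le_rfl (Nat.zero_le _), h3 j hj]

theorem rep_param {p : ℕ} (hp : p < P) :
    RepL P d I (mkF P d ((nops S).parE d p)) (fun ρ => ρ p) := by
  refine ⟨fun ρ x hx => ?_, True, fun j => j = p, ?_, fun j hj => ?_, fun ρ => ?_⟩
  · rw [gF_mkF _ (Nat.zero_le _) hx.le (Nat.zero_le _)]
    have e1 : (nops S).parE d p 0 x 0 = 0 := by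
      simp [Ops.parE, nops, hx.ne]
    rw [e1, zero_add, Finset.sum_eq_single p, Finset.sum_eq_single x]
    · rw [gF_mkF _ hp hx.le hx.le]
      simp [Ops.parE, nops, hx.ne]
    · intro y hy hyx
      rw [gF_mkF _ hp hx.le (Finset.mem_range.1 hy).le]
      simp [Ops.parE, nops, hx.ne, Ne.symm hyx]
    · intro h
      exact absurd (Finset.mem_range.2 hx) h
    · intro j hj hjp
      refine Finset.sum_eq_zero fun y hy => ?_
      rw [gF_mkF _ (Finset.mem_range.1 hj) hx.le (Finset.mem_range.1 hy).le]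
      simp [Ops.parE, nops, hx.ne, hjp]
    · intro h
      exact absurd (Finset.mem_range.2 hp) h
  · rw [gF_mkF _ (Nat.zero_le _) le_rfl (Nat.zero_le _), ndc_true trivial]
    simp [Ops.parE, nops]
  · rw [gF_mkF _ hj le_rfl (Nat.zero_le _)]
    by_cases h : j = p
    · simp [Ops.parE, nops, ndc, h]
    · simp [Ops.parE, nops, ndc, h]
  · constructor
    · intro h
      exact ⟨trivial, fun j _ hj => hj ▸ h⟩
    · rintro ⟨_, h⟩
      exact h p hp rfl

/-- Composition. -/
theorem rep_app {L : List S} {Fs : List (List S)} {g : (ℕ → BT) → BT}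
    {u : ℕ → (ℕ → BT) → BT} (hL : RepL P d I L g)
    (hF : ∀ i < P, RepL P d I (Fs.getD i []) (u i)) :
    RepL P d I (mkF P d ((nops S).appE P d L Fs)) (fun ρ => g fun i => u i ρ) := by
  obtain ⟨h1, p, occ, h2, h3, h4⟩ := hL
  choose! k1 q occ' k2 k3 k4 using hF
  refine ⟨fun ρ x hx => ?_, p ∧ ∀ i < P, occ i → q i, fun j => ∃ i < P, occ i ∧ occ' i j, ?_,
    fun j hj => ?_, fun ρ => ?_⟩
  · rw [h1 _ x hx, gF_mkF _ (Nat.zero_le _) hx.le (Nat.zero_le _)]
    have e1 : ∀ j ∈ range P, ∀ y ∈ range d,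
        (nops S).gF d (mkF P d ((nops S).appE P d L Fs)) (j + 1) x y
          = ∑ i ∈ range P, ∑ b ∈ range d, (nops S).gF d L (i + 1) x b *
            (nops S).gF d (Fs.getD i []) (j + 1) b y := by
      intro j hj y hy
      rw [gF_mkF _ (Finset.mem_range.1 hj) hx.le (Finset.mem_range.1 hy).le]
      unfold Ops.appE
      rw [if_neg hx.ne, if_neg (Nat.succ_ne_zero j)]
      simp only [nops_sum]
      simp [nops]
    have e0 : (nops S).appE P d L Fs 0 x 0 = (nops S).gF d L 0 x 0 +
        ∑ i ∈ range P, ∑ b ∈ range d, (nops S).gF d L (i + 1) x b *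
            (nops S).gF d (Fs.getD i []) 0 b 0 := by
      unfold Ops.appE
      rw [if_neg hx.ne]
      simp only [nops_sum, if_true]
      rfl
    rw [e0, add_assoc]
    congr 1
    have e2 : ∑ j ∈ range P, ∑ y ∈ range d,
        (nops S).gF d (mkF P d ((nops S).appE P d L Fs)) (j + 1) x y * WN d I (ρ j) y
        = ∑ j ∈ range P, ∑ y ∈ range d, ∑ i ∈ range P, ∑ b ∈ range d,
          (nops S).gF d L (i + 1) x b *
            ((nops S).gF d (Fs.getD i []) (j + 1) b y * WN d I (ρ j) y) := by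
      refine Finset.sum_congr rfl fun j hj => Finset.sum_congr rfl fun y hy => ?_
      rw [e1 j hj y hy, Finset.sum_mul]
      refine Finset.sum_congr rfl fun i _ => ?_
      rw [Finset.sum_mul]
      refine Finset.sum_congr rfl fun b _ => ?_
      rw [mul_assoc]
    rw [e2]
    have e3 : ∀ i ∈ range P, ∀ b ∈ range d, WN d I (u i ρ) b
        = (nops S).gF d (Fs.getD i []) 0 b 0 + ∑ j ∈ range P, ∑ y ∈ range d,
          (nops S).gF d (Fs.getD i []) (j + 1) b y * WN d I (ρ j) y := by
      intro i hi b hb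
      exact k1 i (Finset.mem_range.1 hi) ρ b (Finset.mem_range.1 hb)
    have e4 : ∑ i ∈ range P, ∑ b ∈ range d, (nops S).gF d L (i + 1) x b * WN d I (u i ρ) b
        = ∑ i ∈ range P, ∑ b ∈ range d, ((nops S).gF d L (i + 1) x b *
            (nops S).gF d (Fs.getD i []) 0 b 0 + ∑ j ∈ range P, ∑ y ∈ range d,
          (nops S).gF d L (i + 1) x b *
            ((nops S).gF d (Fs.getD i []) (j + 1) b y * WN d I (ρ j) y)) := by
      refine Finset.sum_congr rfl fun i hi => Finset.sum_congr rfl fun b hb => ?_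
      rw [e3 i hi b hb, mul_add, Finset.mul_sum]
      simp only [Finset.mul_sum]
    rw [e4]
    simp only [Finset.sum_add_distrib]
    congr 1
    calc ∑ i ∈ range P, ∑ b ∈ range d, ∑ j ∈ range P, ∑ y ∈ range d,
          (nops S).gF d L (i + 1) x b *
            ((nops S).gF d (Fs.getD i []) (j + 1) b y * WN d I (ρ j) y)
        = ∑ i ∈ range P, ∑ j ∈ range P, ∑ b ∈ range d, ∑ y ∈ range d,
          (nops S).gF d L (i + 1) x b *
            ((nops S).gF d (Fs.getD i []) (j + 1) b y * WN d I (ρ j) y) := by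
          refine Finset.sum_congr rfl fun i _ => Finset.sum_comm
      _ = ∑ j ∈ range P, ∑ i ∈ range P, ∑ b ∈ range d, ∑ y ∈ range d,
          (nops S).gF d L (i + 1) x b *
            ((nops S).gF d (Fs.getD i []) (j + 1) b y * WN d I (ρ j) y) := Finset.sum_comm
      _ = ∑ j ∈ range P, ∑ i ∈ range P, ∑ y ∈ range d, ∑ b ∈ range d,
          (nops S).gF d L (i + 1) x b *
            ((nops S).gF d (Fs.getD i []) (j + 1) b y * WN d I (ρ j) y) := by
          refine Finset.sum_congr rfl fun j _ => Finset.sum_congr rfl fun i _ =>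
            Finset.sum_comm
      _ = _ := by
          refine Finset.sum_congr rfl fun j _ => Finset.sum_comm
  · rw [gF_mkF _ (Nat.zero_le _) le_rfl (Nat.zero_le _)]
    unfold Ops.appE
    rw [if_pos rfl, if_pos rfl]
    have : ∀ i < P, (nops S).co ((nops S).mul ((nops S).gF d L (i + 1) d 0)
        ((nops S).co ((nops S).gF d (Fs.getD i []) 0 d 0))) = ndc S (occ i → q i) := by
      intro i hi
      rw [nops_co, nops_co, h3 i hi, k2 i hi]
      exact one_sub_ndc_mul _ _
    rw [prod_ndc _ _ _ this, h2]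
    exact ndc_mul _ _
  · rw [gF_mkF _ hj le_rfl (Nat.zero_le _)]
    unfold Ops.appE
    rw [if_pos rfl, if_neg (Nat.succ_ne_zero j), nops_co]
    have : ∀ i < P, (nops S).co ((nops S).mul ((nops S).gF d L (i + 1) d 0)
        ((nops S).gF d (Fs.getD i []) (j + 1) d 0)) = ndc S (¬(occ i ∧ occ' i j)) := by
      intro i hi
      rw [nops_co, h3 i hi, k3 i hi j hj]
      exact one_sub_ndc_mul' _ _
    rw [prod_ndc _ _ _ this, one_sub_ndc]
    congr 1
    apply propext
    push Not
    rfl
  · rw [h4]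
    constructor
    · rintro ⟨hp, h⟩
      refine ⟨⟨hp, fun i hi ho => ?_⟩, ?_⟩
      · exact ((k4 i hi ρ).1 (h i hi ho)).1
      · rintro j hj ⟨i, hi, ho, ho'⟩
        exact ((k4 i hi ρ).1 (h i hi ho)).2 j hj ho'
    · rintro ⟨⟨hp, h⟩, h'⟩
      refine ⟨hp, fun i hi ho => (k4 i hi ρ).2 ⟨h i hi ho, fun j hj ho' => ?_⟩⟩
      exact h' j hj ⟨i, hi, ho, ho'⟩

/-- The interpretation read off a list of coefficients. -/
def interpN (P d : ℕ) (V : List S) : Interp S :=
  ⟨fun b x => V.getD (b * fs P d + (x * (d + 1))) 0,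
    fun b i x y => V.getD (b * fs P d + (((i + 1) * (d + 1) + x) * (d + 1) + y)) 0⟩

/-- Output symbols. -/
theorem rep_sym {V : List S} {b r : ℕ} (hr : r ≤ P) :
    RepL P d (interpN P d V) (mkF P d ((nops S).symE P d V b r))
      (fun ρ => BT.node b r fun i : Fin r => ρ i) := by
  refine ⟨fun ρ x hx => ?_, True, fun j => j < r, ?_, fun j hj => ?_, fun ρ => ?_⟩
  · rw [gF_mkF _ (Nat.zero_le _) hx.le (Nat.zero_le _), WN]
    have e0 : (nops S).symE P d V b r 0 x 0 = (interpN P d V).C b x := by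
      unfold Ops.symE interpN
      rw [if_pos (Nat.zero_le _), if_neg hx.ne]
      simp [nops]
    rw [e0]
    congr 1
    rw [← Finset.sum_subset (Finset.range_subset_range.2 hr)]
    · rw [Finset.sum_range]
      refine Finset.sum_congr rfl fun i _ => Finset.sum_congr rfl fun y hy => ?_
      rw [gF_mkF _ (by omega) hx.le (Finset.mem_range.1 hy).le]
      unfold Ops.symE interpN
      rw [if_pos (by omega), if_neg hx.ne]
      simp [nops]
    · intro j hj hjr
      refine Finset.sum_eq_zero fun y hy => ?_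
      rw [gF_mkF _ (Finset.mem_range.1 hj) hx.le (Finset.mem_range.1 hy).le]
      unfold Ops.symE
      have : r ≤ j := by simpa using hjr
      rw [if_neg (by omega)]
      simp [nops]
  · rw [gF_mkF _ (Nat.zero_le _) le_rfl (Nat.zero_le _), ndc_true trivial]
    simp [Ops.symE, nops]
  · rw [gF_mkF _ hj le_rfl (Nat.zero_le _)]
    by_cases h : j < r
    · simp [Ops.symE, nops, ndc, h]
    · simp [Ops.symE, nops, ndc, h]
  · constructor
    · intro h
      exact ⟨trivial, fun j _ hj => h ⟨j, hj⟩⟩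
    · rintro ⟨_, h⟩ i
      exact h i (lt_of_lt_of_le i.2 hr) i.2

end rep

variable {S : Type} [Ring S]

/-- The machine, run on the code of a right-hand side, computes a form representing it. -/
theorem rhs_rep {P d off : ℕ} {V : List S} {bl : List (List S)} {B Q : List ℕ} {m r : ℕ}
    (f : ℕ → ℕ → (ℕ → BT) → BT) (hm : m ≤ P) (hB : ∀ b n : ℕ, B[b]? = some n → n ≤ P)
    (hf : ∀ i q n : ℕ, i < r → Q[q]? = some n →
      RepL P d (interpN P d V) ((bl.getD i []).drop ((off + q) * fs P d)) (f i q))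
    (ζ : Rhs) : ζ.WF B Q m r →
    ∃ L : List S, (∀ st, ζ.code.foldl ((nops S).step P d off V bl) st = L :: st) ∧
      RepL P d (interpN P d V) L (fun ρ => ζ.evalB ρ f) := by
  induction ζ with
  | param j =>
    intro h
    exact ⟨_, fun st => rfl, rep_param (lt_of_lt_of_le h hm)⟩
  | out b n c ih =>
    rintro ⟨hb, hc⟩
    choose L h1 h2 using fun i => ih i (hc i)
    refine ⟨mkF P d ((nops S).appE P d (mkF P d ((nops S).symE P d V b n))
      (List.ofFn L)), fun st => ?_, ?_⟩
    · rw [Rhs.code, List.foldl_append, foldl_flatten_ofFn _ n _ L h1, List.foldl_cons,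
        List.foldl_nil]
      unfold Ops.step
      rw [if_neg (by norm_num), if_pos rfl]
      dsimp only
      rw [take_rev_append, drop_rev_append]
    · have hn := hB b n hb
      have := rep_app (Fs := List.ofFn L)
        (u := fun i ρ => if h : i < n then (c ⟨i, h⟩).evalB ρ f else BT.bot)
        (rep_sym (V := V) (b := b) (r := n) (P := P) (d := d) hn) (by
          intro i _
          rw [ofFn_getD]
          by_cases h : i < n
          · simp only [h, dif_pos]
            exact h2 ⟨i, h⟩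
          · simp only [h, dif_neg, not_false_eq_true]
            exact rep_bot)
      convert this using 2 with ρ
      rw [Rhs.evalB]
      congr 1
      funext i
      show _ = if h : (i : ℕ) < n then (c ⟨i, h⟩).evalB ρ f else BT.bot
      rw [dif_pos i.2]
  | call q i n c ih =>
    rintro ⟨hq, hi, hc⟩
    choose L h1 h2 using fun l => ih l (hc l)
    refine ⟨mkF P d ((nops S).appE P d ((bl.getD i []).drop ((off + q) * fs P d))
      (List.ofFn L)), fun st => ?_, ?_⟩
    · rw [Rhs.code, List.foldl_append, foldl_flatten_ofFn _ n _ L h1, List.foldl_cons,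
        List.foldl_nil]
      unfold Ops.step
      rw [if_neg (by norm_num), if_neg (by norm_num)]
      dsimp only
      rw [take_rev_append, drop_rev_append]
    · have := rep_app (Fs := List.ofFn L)
        (u := fun l ρ => if h : l < n then (c ⟨l, h⟩).evalB ρ f else BT.bot)
        (hf i q n hi hq) (by
          intro l _
          rw [ofFn_getD]
          by_cases h : l < n
          · simp only [h, dif_pos]
            exact h2 ⟨l, h⟩
          · simp only [h, dif_neg, not_false_eq_true]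
            exact rep_bot)
      exact this

/-- Entries of the coefficient vector. -/
theorem gF_vecS {P d n1 : ℕ} {T : List (List (Option (List Tok)))} {a : ℕ} {V : List S}
    {bl : List (List S)} {u : ℕ} (hu : u < T.length) {j x y : ℕ} (hj : j ≤ P) (hx : x ≤ d)
    (hy : y ≤ d) :
    (nops S).gF d (((nops S).vecS P d n1 T a V bl).drop (u * fs P d)) j x y
      = (nops S).gF d ((nops S).rhsV P d (if u < n1 then 0 else n1) V bl
          ((T.getD u []).getD a none)) j x y := by
  have hlt : (j * (d + 1) + x) * (d + 1) + y < fs P d := by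
    unfold fs
    nlinarith [Nat.mul_le_mul_right (d + 1) hj, Nat.mul_le_mul_right (d + 1)
      (Nat.mul_le_mul_right (d + 1) hj), Nat.mul_le_mul_right (d + 1) hx]
  have hfs : 0 < fs P d := by unfold fs; positivity
  have hlt2 : u * fs P d + ((j * (d + 1) + x) * (d + 1) + y) < T.length * fs P d := by
    nlinarith [Nat.mul_le_mul_right (fs P d) (Nat.succ_le_of_lt hu)]
  unfold Ops.gF
  rw [List.getD_eq_getElem?_getD, List.getElem?_drop, Ops.vecS, List.getElem?_map,
    List.getElem?_range hlt2, Option.map_some, Option.getD_some]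
  have h1 : (u * fs P d + ((j * (d + 1) + x) * (d + 1) + y)) / fs P d = u := by
    rw [Nat.add_div_of_dvd_right (Dvd.intro_left _ rfl), Nat.mul_div_cancel _ hfs,
      Nat.div_eq_of_lt hlt, Nat.add_zero]
  have h2 : (u * fs P d + ((j * (d + 1) + x) * (d + 1) + y)) % fs P d
      = (j * (d + 1) + x) * (d + 1) + y := by
    rw [Nat.add_comm, Nat.add_mul_mod_self_right, Nat.mod_eq_of_lt hlt]
  rw [h1, h2]

/-- The coefficient vector represents the functions of the states. -/
theorem vec_rep {A B : List ℕ} (M : DMTT A B) {P d n1 o0 : ℕ}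
    {T : List (List (Option (List Tok)))} {V : List S}
    (hP : ∀ m ∈ M.params, m ≤ P) (hB : ∀ n ∈ B, n ≤ P)
    (hT : ∀ q < M.params.length, ∀ a < A.length,
      (T.getD (o0 + q) []).getD a none = (M.rule q a).map Rhs.code)
    (ho : ∀ q < M.params.length, (if o0 + q < n1 then 0 else n1) = o0)
    (hl : ∀ q < M.params.length, o0 + q < T.length)
    (s : Tree) : Ranked A s → ∀ q < M.params.length,
      RepL P d (interpN P d V)
        (((nops S).vecT P d n1 T V s).drop ((o0 + q) * fs P d)) (M.runB s q) := by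
  induction s with
  | node a r c ih =>
    rintro ⟨ha, hc⟩ q hq
    obtain ⟨hal, har⟩ := List.getElem?_eq_some_iff.1 ha
    rw [Ops.vecT]
    refine rep_congr (L := (nops S).rhsV P d o0 V
      (List.ofFn fun i => (nops S).vecT P d n1 T V (c i)) ((M.rule q a).map Rhs.code))
      (fun j x y hj hx hy => ?_) ?_
    · rw [gF_vecS (hl q hq) hj hx hy, hT q hq a hal, ho q hq]
    · cases hrule : M.rule q a with
      | none =>
        have : M.runB (.node a r c) q = fun _ => BT.bot := by
          funext ρ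
          rw [DMTT.runB, hrule]
        rw [this]
        exact rep_bot
      | some ζ =>
        have e1 : M.runB (.node a r c) q = fun ρ => ζ.evalB ρ fun i q' ρ' =>
            if h : i < r then M.runB (c ⟨i, h⟩) q' ρ' else .bot := by
          funext ρ
          rw [DMTT.runB, hrule]
        rw [e1]
        have hm : M.params[q]? = some M.params[q] := List.getElem?_eq_getElem hq
        obtain ⟨L, h1, h2⟩ := rhs_rep (S := S) (P := P) (d := d) (off := o0) (V := V)
          (bl := List.ofFn fun i => (nops S).vecT P d n1 T V (c i)) (B := B)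
          (Q := M.params) (m := M.params[q]) (r := r)
          (fun i q' ρ' => if h : i < r then M.runB (c ⟨i, h⟩) q' ρ' else .bot)
          (hP _ (List.getElem_mem hq))
          (fun b n hb => hB n (List.mem_of_getElem? hb))
          (by
            intro i q' n hi hq'
            obtain ⟨hql, _⟩ := List.getElem?_eq_some_iff.1 hq'
            rw [ofFn_getD, dif_pos hi]
            have := ih ⟨i, hi⟩ (hc ⟨i, hi⟩) q' hql
            convert this using 2 with ρ'
            rw [dif_pos hi]) ζ (M.wf q _ a r ζ hm ha hrule)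
        rw [Ops.rhsV, Option.map_some, Option.getD_some, h1 []]
        exact h2

/-! ## The value of a form without parameters -/

section form

variable {S : Type} [Ring S] {P d : ℕ} {I : Interp S}

theorem nbres_rep {L : List S} {g : (ℕ → BT) → BT} (h : RepL P d I L g) :
    (nops S).nbres P d L = ndc S (g fun _ => BT.bot).good := by
  obtain ⟨_, p, occ, h2, h3, h4⟩ := h
  rw [Ops.nbres, h2]
  have : ∀ j < P, (nops S).co ((nops S).gF d L (j + 1) d 0) = ndc S (¬occ j) := by
    intro j hj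
    rw [nops_co, h3 j hj, one_sub_ndc]
  rw [prod_ndc _ _ _ this]
  refine (ndc_mul _ _).trans ?_
  congr 1
  apply propext
  rw [h4]
  simp [BT.good]

theorem coef_rep {L : List S} {g : (ℕ → BT) → BT} (h : RepL P d I L g) {x : ℕ} (hx : x < d) :
    (nops S).gF d L 0 x 0 = WN d I (g fun _ => BT.bot) x := by
  rw [h.1 _ x hx]
  simp [WN]

end form

/-! ## The system of two transducers -/

section sys

variable {A B : List ℕ} (M₁ M₂ : DMTT A B) (k : ℕ)

variable {S : Type} [Ring S]

theorem rep1 (V : List S) (t : Tree) (ht : Ranked A t) :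
    RepL (norm (inp M₁ M₂ k)).P (k + 1) (interpN (norm (inp M₁ M₂ k)).P (k + 1) V)
      ((nops S).vecT (norm (inp M₁ M₂ k)).P (k + 1) (norm (inp M₁ M₂ k)).n1
        (norm (inp M₁ M₂ k)).T V t) (M₁.runB t 0) := by
  have h0 : 0 < M₁.params.length := by
    obtain ⟨h, _⟩ := List.getElem?_eq_some_iff.1 M₁.init
    exact h
  have := vec_rep M₁ (P := (norm (inp M₁ M₂ k)).P) (d := k + 1) (n1 := (norm (inp M₁ M₂ k)).n1)
    (o0 := 0) (T := (norm (inp M₁ M₂ k)).T) (V := V)
    (fun m hm => by rw [norm_P]; have := le_lsum hm; omega)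
    (fun m hm => by rw [norm_P]; have := le_lsum hm; omega)
    (fun q hq a ha => by
      rw [norm_T, Nat.zero_add, List.getD_append _ _ _ _ (by rw [code_length]; exact hq),
        code_getD M₁ hq ha])
    (fun q hq => by rw [norm_n1, Nat.zero_add, if_pos hq])
    (fun q hq => by
      rw [norm_T, List.length_append, code_length]
      omega) t ht 0 h0
  simpa using this

theorem rep2 (V : List S) (t : Tree) (ht : Ranked A t) :
    RepL (norm (inp M₁ M₂ k)).P (k + 1) (interpN (norm (inp M₁ M₂ k)).P (k + 1) V)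
      (((nops S).vecT (norm (inp M₁ M₂ k)).P (k + 1) (norm (inp M₁ M₂ k)).n1
        (norm (inp M₁ M₂ k)).T V t).drop
          ((norm (inp M₁ M₂ k)).n1 * fs (norm (inp M₁ M₂ k)).P (k + 1))) (M₂.runB t 0) := by
  have h0 : 0 < M₂.params.length := by
    obtain ⟨h, _⟩ := List.getElem?_eq_some_iff.1 M₂.init
    exact h
  have := vec_rep M₂ (P := (norm (inp M₁ M₂ k)).P) (d := k + 1) (n1 := (norm (inp M₁ M₂ k)).n1)
    (o0 := (norm (inp M₁ M₂ k)).n1) (T := (norm (inp M₁ M₂ k)).T) (V := V)
    (fun m hm => by rw [norm_P]; have := le_lsum hm; omega)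
    (fun m hm => by rw [norm_P]; have := le_lsum hm; omega)
    (fun q hq a ha => by
      rw [norm_T, norm_n1, List.getD_append_right _ _ _ _ (by rw [code_length]; omega),
        code_length, Nat.add_sub_cancel_left, code_getD M₂ hq ha])
    (fun q hq => by rw [if_neg (by omega)])
    (fun q hq => by
      rw [norm_T, norm_n1, List.length_append, code_length, code_length]
      omega) t ht 0 h0
  simpa using this

/-- Values of the targets. -/
theorem target_dom (V : List S) (t : Tree) (ht : Ranked A t) :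
    (nops S).target (norm (inp M₁ M₂ k)).P (k + 1) (norm (inp M₁ M₂ k)).n1
      ((nops S).vecT (norm (inp M₁ M₂ k)).P (k + 1) (norm (inp M₁ M₂ k)).n1
        (norm (inp M₁ M₂ k)).T V t) (k + 1)
      = ndc S (M₁.tau t).isSome - ndc S (M₂.tau t).isSome := by
  unfold Ops.target
  rw [if_pos rfl, nbres_rep (rep1 M₁ M₂ k V t ht), nbres_rep (rep2 M₁ M₂ k V t ht)]
  rw [BT.good_iff, BT.good_iff, DMTT.strip_tau, DMTT.strip_tau, sub_eq_add_neg]
  rfl

theorem target_val (V : List S) (t : Tree) (ht : Ranked A t) {e : ℕ} (he : e < k + 1) :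
    (nops S).target (norm (inp M₁ M₂ k)).P (k + 1) (norm (inp M₁ M₂ k)).n1
      ((nops S).vecT (norm (inp M₁ M₂ k)).P (k + 1) (norm (inp M₁ M₂ k)).n1
        (norm (inp M₁ M₂ k)).T V t) e
      = ndc S (M₁.tau t).isSome *
        (WN (k + 1) (interpN (norm (inp M₁ M₂ k)).P (k + 1) V) (M₁.runB t 0 fun _ => .bot) e -
         WN (k + 1) (interpN (norm (inp M₁ M₂ k)).P (k + 1) V) (M₂.runB t 0 fun _ => .bot) e) := by
  unfold Ops.target
  rw [if_neg he.ne, nbres_rep (rep1 M₁ M₂ k V t ht), coef_rep (rep1 M₁ M₂ k V t ht) he,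
    coef_rep (rep2 M₁ M₂ k V t ht) he, BT.good_iff, DMTT.strip_tau, sub_eq_add_neg]
  rfl

end sys

/-! ## The interpretation in `D` -/

theorem VL_C {P nB b : ℕ} (hb : b < nB) :
    (interpN P 1 (VL (nops D) toD P nB)).C b 0 = ((b + 1 : ℕ) : D) := by
  have hfs : 0 < fs P 1 := by unfold fs; positivity
  have hlt : b * fs P 1 + 0 < nB * fs P 1 := by
    nlinarith [Nat.mul_le_mul_right (fs P 1) (Nat.succ_le_of_lt hb)]
  show (VL (nops D) toD P nB).getD (b * fs P 1 + 0 * (1 + 1)) 0 = _
  rw [Nat.zero_mul, VL, List.getD_eq_getElem?_getD, List.getElem?_map, List.getElem?_range hlt,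
    Option.map_some, Option.getD_some]
  have h1 : (b * fs P 1 + 0) / fs P 1 = b := by
    rw [Nat.add_zero, Nat.mul_div_cancel _ hfs]
  have h2 : (b * fs P 1 + 0) % fs P 1 = 0 := by
    rw [Nat.add_zero, Nat.mul_mod_left]
  rw [h1, h2]
  rfl

theorem VL_A {P nB b i : ℕ} (hb : b < nB) (hi : i < P) :
    (interpN P 1 (VL (nops D) toD P nB)).A b i 0 0 = toD (letter (Nat.pair b i)) := by
  have hfs : 0 < fs P 1 := by unfold fs; positivity
  have hlt0 : 4 * (i + 1) < fs P 1 := by unfold fs; omega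
  have hlt : b * fs P 1 + 4 * (i + 1) < nB * fs P 1 := by
    nlinarith [Nat.mul_le_mul_right (fs P 1) (Nat.succ_le_of_lt hb)]
  have e : b * fs P 1 + (((i + 1) * (1 + 1) + 0) * (1 + 1) + 0) = b * fs P 1 + 4 * (i + 1) := by
    omega
  show (VL (nops D) toD P nB).getD (b * fs P 1 + (((i + 1) * (1 + 1) + 0) * (1 + 1) + 0)) 0 = _
  rw [e, VL, List.getD_eq_getElem?_getD, List.getElem?_map, List.getElem?_range hlt,
    Option.map_some, Option.getD_some]
  have h1 : (b * fs P 1 + 4 * (i + 1)) / fs P 1 = b := by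
    rw [Nat.add_div_of_dvd_right (Dvd.intro_left _ rfl), Nat.mul_div_cancel _ hfs,
      Nat.div_eq_of_lt hlt0, Nat.add_zero]
  have h2 : (b * fs P 1 + 4 * (i + 1)) % fs P 1 = 4 * (i + 1) := by
    rw [Nat.add_comm, Nat.add_mul_mod_self_right, Nat.mod_eq_of_lt hlt0]
  rw [h1, h2]
  have h3 : 4 * (i + 1) % 4 = 0 := by omega
  have h4 : 4 * (i + 1) / 4 = i + 1 := by omega
  rw [if_pos h3, h4, if_neg (Nat.succ_ne_zero i), Nat.add_sub_cancel]

theorem WN_strip {P : ℕ} {B : List ℕ} (hB : ∀ n ∈ B, n ≤ P) (t : BT) :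
    ∀ u, t.strip = some u → Ranked B u →
      WN 1 (interpN P 1 (VL (nops D) toD P B.length)) t 0 = wD u := by
  induction t with
  | bot => intro u hu; simp [BT.strip] at hu
  | node b r c ih =>
    intro u hu hR
    rw [BT.strip] at hu
    split at hu
    · next h =>
      have hu' := (Option.some.inj hu).symm
      subst hu'
      obtain ⟨hb, hc⟩ := hR
      obtain ⟨hbl, hbr⟩ := List.getElem?_eq_some_iff.1 hb
      have hr : r ≤ P := hB r (hbr ▸ List.getElem_mem hbl)
      rw [WN, wD, VL_C hbl]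
      congr 1
      refine Finset.sum_congr rfl fun i _ => ?_
      rw [Finset.sum_range_one, VL_A hbl (lt_of_lt_of_le i.2 hr),
        ih i _ (Option.some_get (h i)).symm (hc i)]
    · cases hu

end Pool.Agent.Lib.MP_39893a_lc.ORD.SEMM

namespace Pool.Agent.Lib.MP_39893a_lc.ORD

open SEMM

theorem specSEM (hI : SpecINJ) : SpecSEM := by
  intro A B M₁ M₂
  have hB : ∀ n ∈ B, n ≤ (norm (inp M₁ M₂ 0)).P := fun n hn => by
    rw [norm_P]
    have := le_lsum hn
    omega
  constructor
  · intro h t ht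
    have h1 := (SEMM.target_dom M₁ M₂ 0
      (VL (nops D) toD (norm (inp M₁ M₂ 0)).P (norm (inp M₁ M₂ 0)).nB) t ht).symm.trans
      (h t ht 1 (by omega))
    have h0 := (SEMM.target_val M₁ M₂ 0
      (VL (nops D) toD (norm (inp M₁ M₂ 0)).P (norm (inp M₁ M₂ 0)).nB) t ht
      (by omega : 0 < 0 + 1)).symm.trans (h t ht 0 (by omega))
    cases e1 : M₁.tau t with
    | none =>
      cases e2 : M₂.tau t with
      | none => rfl
      | some u₂ =>
        exfalso
        rw [e1, e2] at h1
        simp [ndc] at h1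
    | some u₁ =>
      cases e2 : M₂.tau t with
      | none =>
        exfalso
        rw [e1, e2] at h1
        simp [ndc] at h1
      | some u₂ =>
        rw [ndc_true (by rw [e1]; rfl), one_mul] at h0
        have w1 := WN_strip hB _ u₁ (by rw [DMTT.strip_tau, e1]) (M₁.tau_ranked ht e1)
        have w2 := WN_strip hB _ u₂ (by rw [DMTT.strip_tau, e2]) (M₂.tau_ranked ht e2)
        rw [hI u₁ u₂ (w1.symm.trans ((sub_eq_zero.1 h0).trans w2))]
  · intro h t ht e he
    rw [norm_A] at ht
    rw [vD]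
    rcases Nat.lt_succ_iff_lt_or_eq.1 he with he | rfl
    · obtain rfl : e = 0 := by omega
      refine (SEMM.target_val M₁ M₂ 0 _ t ht (by omega : 0 < 0 + 1)).trans ?_
      cases h1 : M₁.tau t with
      | none =>
        rw [ndc_false (by simp), zero_mul]
      | some u =>
        have h2 : M₂.tau t = some u := by rw [← h t ht, h1]
        have w1 := WN_strip hB _ u (by rw [DMTT.strip_tau, h1]) (M₁.tau_ranked ht h1)
        have w2 := WN_strip hB _ u (by rw [DMTT.strip_tau, h2]) (M₁.tau_ranked ht h1)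
        have w3 := sub_eq_zero.2 (w1.trans w2.symm)
        rw [← mul_zero (ndc D (some u : Option Tree).isSome)]
        exact congrArg _ w3
    · refine (SEMM.target_dom M₁ M₂ 0 _ t ht).trans ?_
      rw [h t ht, sub_self]

end Pool.Agent.Lib.MP_39893a_lc.ORD
end
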