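import Pool.Agent.Lib.MP_39893a_lc.ORD.Defs
import Pool.Agent.Lib.MP_39893a_lc.AGL.Defs

/-!
# Module statements (MP_39893a_lc, hive ORD)

Paper proof: /team-store/MP_39893a_ORD_h53.md. The module XXX.lean (in this directory) proves
`theorem specXXX (h..) : SpecXXX`, with the other Specs it uses as hypotheses, in the namespace
`Pool.Agent.Lib.MP_39893a_lc.ORD.XXXM`.
-/

set_option autoImplicit false

namespace Pool.Agent.Lib.MP_39893a_lc.ORD

open Finset

instance : Primcodable Mo := inferInstanceAs (Primcodable (ℤ × ℤ × ℕ))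
instance : Primcodable Wd := inferInstanceAs (Primcodable (List (Mo × Var) × Mo))
instance primcodableCP : Primcodable CP := inferInstance
instance primcodableLF : Primcodable LF := inferInstance
instance primcodableLine : Primcodable Line := inferInstance
instance primcodableCertD : Primcodable CertD := inferInstance

/-! ## Algebra of the coefficient ring -/

/-- NZD. `Mo` is an ordered monoid: `φ(a, b) = a + θ b`, `θ = -(1+√5)/2`, satisfies
`φ(A v) = μ φ(v)`, `μ = (3-√5)/2 > 0`, and is injective on `ℤ²`; order: first `n`, then `φ`.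
So `Mo` has unique products (`TwoUniqueProds.of_covariant_right`, or directly: in two nonempty
finite sets the product of the maxima is unique, since `x ≤ x'`, `y ≤ y'` implies
`x y ≤ x' y'` with equality only if `x = x'`, `y = y'`), and
`MonoidAlgebra` has no zero divisors. -/
def SpecNZD : Prop := ∀ a b : D, a * b = 0 → a = 0 ∨ b = 0

/-- HILB. Skew Hilbert basis theorem. `L` a left ideal of `S`; `L_n` = set of `r ∈ R` such that
`u^n r + ∑_{i<n} u^i r_i ∈ L` for some `r_i`; it is a left ideal of `R` (`r u^n = u^n r'` and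
`u^n r' = r'' u^n`: every `r'` in `R` is obtained), and `L_n ⊆ L_(n+1)` (multiply by `u` on the
left). Generators of `L_0, ..., L_N = L_(N+1) = ...` (with representatives in `L`) generate `L`,
by induction on the degree `n` of a representation `∑_{i≤n} u^i r_i`. (`IsNoetherianRing` is about
left ideals.) -/
def SpecHILB : Prop :=
  ∀ (S : Type) [Ring S] (R : Subring S) (u : S), IsNoetherianRing R →
    (∀ r ∈ R, ∃ r' ∈ R, r * u = u * r') → (∀ r ∈ R, ∃ r' ∈ R, u * r = r' * u) →
    (∀ s : S, ∃ (n : ℕ) (c : Fin n → S), (∀ i, c i ∈ R) ∧ s = ∑ i : Fin n, u ^ (i : ℕ) * c i) →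
    IsNoetherianRing S

/-- NOR. From HILB. `R₀` = span of the elements `(v, 0)` (of `Mo`, `Moᵐᵒᵖ`, resp. the pairs of such
elements), a commutative ring, image of `MonoidAlgebra ℤ (Multiplicative (Fin k → ℤ))`
(`k = 2` or `4`), so a finitely generated commutative ring and noetherian. Adjoin `u = (0, 0, 1)`,
resp. `((0, 0, 1), 1)` and `(1, (0, 0, 1))`. `A` is invertible over `ℤ`:
`A⁻¹ = [[1, -1], [-1, 2]]`. -/
def SpecNOR : Prop :=
  IsNoetherianRing D ∧ IsNoetherianRing (MonoidAlgebra ℤ Moᵐᵒᵖ) ∧
    IsNoetherianRing (MonoidAlgebra ℤ (Mo × Moᵐᵒᵖ))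

/-- OREC. From NZD and NOR: a noetherian domain is an Ore domain (if `S a ∩ S b = 0`, `a, b ≠ 0`,
the sum of the left ideals `S a b^n` is direct); common multiples of finite families by induction.
The right version by the anti-isomorphism of `MonoidAlgebra ℤ Mo` and
`MonoidAlgebra ℤ Moᵐᵒᵖ`. -/
def SpecOREC : Prop :=
  ∀ (n : ℕ) (F : Fin n → D) (δ : D), δ ≠ 0 →
    (∃ ε : D, ε ≠ 0 ∧ ∃ F' : Fin n → D, ∀ i, ε * F i = F' i * δ) ∧
    (∃ ε : D, ε ≠ 0 ∧ ∃ F' : Fin n → D, ∀ i, F i * ε = δ * F' i)

/-- LET. The letters generate a free monoid. `φ` as in NZD: `φ(letter word) = ∑ ε_i μ^(i-1)` for the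
word `ε` in `0 = (0, 0, 1)`, `1 = (1, 0, 1)`, `letter j = 0^j 1`; the first digit in which two words
of the same length differ dominates since `μ / (1 - μ) < 1`. -/
def SpecLET : Prop :=
  ∀ l l' : List ℕ, (l.map letter).prod = (l'.map letter).prod → l = l'

/-- The value of a tree in `D`. -/
noncomputable def wD : Tree → D
  | .node b r c => ((b + 1 : ℕ) : D) + ∑ i : Fin r, toD (letter (Nat.pair b i)) * wD (c i)

/-- INJ. From LET. `wD t` is the sum over the nodes of (product of the letters on the path) times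
(label + 1); the coefficient of `1` gives the label, the coefficients of the elements
`letter (pair b i) * g` give `wD (c i)` (different `i`: different first letters; use freeness), and
the number of children: `wD (c i) ≠ 0`. -/
def SpecINJ : Prop := ∀ t t' : Tree, wD t = wD t' → t = t'

/-! ## Semantics -/

/-- SEM. From INJ. Adaptation of Sem.lean, Run.lean, Link.lean (helper32) to `nops S`, `S` a
noncommutative ring, dimension `d = 1` (products of matrices and substitution keep the order
outer factor left; the products of bits are products of `0` and `1`). -/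
def SpecSEM : Prop :=
  ∀ (A B : List ℕ) (M₁ M₂ : DMTT A B),
    RawD (norm (inp M₁ M₂ 0)) ↔ ∀ t, Ranked A t → M₁.tau t = M₂.tau t

/-- BITZ. The bits of the result depend only on the bits of the arguments, in the same way over
every ring, and stay in `{0, 1}`. Induction on the run of the machine; relation between stacks:
same length, and for corresponding forms all entries at bit positions are equal (as integers);
second part: all entries at bit positions are `0` or `1`. (In dimension 1 the entries with `x = 1`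
are the bits, and `appE`, `parE`, `symE` at `x = 1` use only such entries.) -/
def SpecBITZ : Prop :=
  (∀ (R : Type) [Ring R] (P n1 a : ℕ) (T : List (List (Option (List Tok)))) (V : List R)
    (bl : List (List R)) (bz : List (List ℤ)),
    (∀ i t, isBit t → (bl.getD i []).getD t 0 = (((bz.getD i []).getD t 0 : ℤ) : R)) →
    bl.length = bz.length → ∀ t, isBit t →
      ((nops R).vecS P 1 n1 T a V bl).getD t 0
        = ((((nops ℤ).vecS P 1 n1 T a [] bz).getD t 0 : ℤ) : R)) ∧
  (∀ (P n1 a : ℕ) (T : List (List (Option (List Tok)))) (bz : List (List ℤ)),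
    (∀ i t, isBit t → (bz.getD i []).getD t 0 = 0 ∨ (bz.getD i []).getD t 0 = 1) →
    ∀ t, isBit t → ((nops ℤ).vecS P 1 n1 T a [] bz).getD t 0 = 0 ∨
      ((nops ℤ).vecS P 1 n1 T a [] bz).getD t 0 = 1)

/-- ORDV. From VAL. The entries of the symbolic vector are formal sums of decreasing words, if the
rules for the symbol `a` are ordered. Structural induction on the right-hand side (run of the
machine on the code: `foldl_flatten_ofFn` of Run.lean), with the statement: if all calls in `ζ` are
`Below ρ k`, then the entries `x = 0` of the form of `ζ` are in `Dec N r ρ k`; for a call on the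
child `i`: (at most one variable of the child `i`) times an element of `Dec N r ρ (ρ i)`. -/
def SpecORDV : Prop :=
  ∀ (A B : List ℕ) (M₁ M₂ : DMTT A B) (a : ℕ) (ρ : ℕ → ℕ) (βs : List (List ℕ)),
    a < A.length → M₁.OrderedAt a ρ → M₂.OrderedAt a ρ →
    ∀ t < NN (norm (inp M₁ M₂ 0)), ¬ isBit t →
      ∃ k, Dec (NN (norm (inp M₁ M₂ 0))) ((norm (inp M₁ M₂ 0)).rk a) ρ k
        (((vS (norm (inp M₁ M₂ 0)) a βs).getD t (cops.nat 0)).val)

/-! ## Formal polynomials -/

/-- VAL. Coded polynomials. -/
def SpecVAL : Prop :=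
  Ops.Hom cops (nops FR) CP.val ∧ (∀ p : CP, p.isZero ↔ p.val = 0) ∧
  (∀ f : FR, ∃ p : CP, p.val = f) ∧ (∀ g, (emC g).val = toF g) ∧ (∀ v, (varC v).val = xv v) ∧
  (∀ x : D, ∃ p : CP, p.const ∧ p.val = DtoF x) ∧
  (∀ p : CP, p.const → ∃ x : D, p.val = DtoF x) ∧ Function.Injective DtoF

/-- EVL. Evaluation of formal polynomials. -/
def SpecEVL : Prop :=
  (∀ (R : Type) [Ring R] (φ : Mo →* R) (ξ : Var → R),
    (∀ g, ev φ ξ (toF g) = φ g) ∧ (∀ v, ev φ ξ (xv v) = ξ v) ∧
    (∀ w : Wd, ev φ ξ (MonoidAlgebra.of ℤ Wd w) = evW φ ξ w)) ∧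
  (∀ (ξ : Var → D) (x : D), ev toD ξ (DtoF x) = x) ∧
  (∀ p : FR, ev toF xv p = p) ∧
  -- the value depends only on the variables that occur
  (∀ (R : Type) [Ring R] (φ : Mo →* R) (ξ ξ' : Var → R) (p : FR),
    (∀ w ∈ p.coeff.support, ∀ q ∈ w.1, ξ q.2 = ξ' q.2) → ev φ ξ p = ev φ ξ' p) ∧
  -- homomorphisms
  (∀ (R : Type) [Ring R] (φ : Mo →* R) (ξ : Var → R), Ops.Hom (nops FR) (nops R) (ev φ ξ))

/-- BLK. From VAL, EVL. Evaluation of the symbolic vectors: if `ξ (i, t)` is the entry `t` of `x i`
and the bits of `x i` are `βs i`, the symbolic vector evaluates to `x i`, and the symbolic result to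
the coefficient vector over `D` (`Ops.Hom.vecS`). -/
def SpecBLK : Prop :=
  (∀ (N i : ℕ) (β : List ℕ) (x : List D) (ξ : Var → D), x.length = N →
    (∀ t < N, isBit t → x.getD t 0 = ((β.getD t 0 : ℕ) : D)) →
    (∀ t < N, ¬ isBit t → ξ (i, t) = x.getD t 0) →
    ((blk N i β).map fun p => ev toD ξ p.val) = x) ∧
  (∀ (s : Sys) (a : ℕ) (βs : List (List ℕ)) (xs : List (List D)) (ξ : Var → D),
    xs.length = s.rk a → (∀ i < s.rk a, (xs.getD i []).length = NN s) →
    (∀ i < s.rk a, ∀ t < NN s, isBit t →
      (xs.getD i []).getD t 0 = (((βs.getD i []).getD t 0 : ℕ) : D)) →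
    (∀ i < s.rk a, ∀ t < NN s, ¬ isBit t → ξ (i, t) = (xs.getD i []).getD t 0) →
    ((vS s a βs).map fun p => ev toD ξ p.val)
      = (nops D).vecS s.P 1 s.n1 s.T a (VL (nops D) toD s.P s.nB) xs)

/-- DERS. From NZD, OREC, EVL. Soundness of derivations. Ore rule in `D`: take `ε ≠ 0`, `F' b` with
`ε F_b = F'_b δ`; then `(ε F_c - ∑ F'_b γ_bc) κ = 0`, so `ε F_c = ∑ F'_b γ_bc` and
`ε (∑ F_b H_b + ∑ F_c H_c) = ∑ F'_b (δ H_b + ∑ γ_bc H_c) = 0`. -/
def SpecDERS : Prop :=
  ∀ (H : Set FR) (p : FR), Der H p → ∀ ξ : Var → D, (∀ h ∈ H, ev toD ξ h = 0) → ev toD ξ p = 0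

/-- OREK. From NZD, OREC. Completeness for two independent arguments. `B` maximal such that
`∑_(b ∈ B) F_b(x) d_b = 0` for all `x` only for `d = 0`. For `c ∉ B` there is a relation
`F_c κ_c = ∑ F_b γ'_bc`, `κ_c ≠ 0`; common `κ` (right multiples); `δ γ'_bc = γ_bc κ` (left
multiples, one `δ` for all); for `y`: `s ≠ 0` with `H_c(y) s = κ t_c`;
`∑_b F_b(x) (H_b(y) s + ∑_c γ'_bc t_c) = 0` for all `x`, so the brackets vanish; multiply by `δ`:
`(δ H_b(y) + ∑_c γ_bc H_c(y)) s = 0`. -/
def SpecOREK : Prop :=
  ∀ (X Y : Type) (n : ℕ) (F : Fin n → X → D) (H : Fin n → Y → D),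
    (∀ x y, ∑ i, F i x * H i y = 0) →
    ∃ (B : Finset (Fin n)) (δ κ : D) (γ γ' : Fin n → Fin n → D), δ ≠ 0 ∧ κ ≠ 0 ∧
      (∀ b ∈ B, ∀ c ∉ B, δ * γ' b c = γ b c * κ) ∧
      (∀ c ∉ B, ∀ x, F c x * κ = ∑ b ∈ B, F b x * γ' b c) ∧
      (∀ b ∈ B, ∀ y, δ * H b y + ∑ c ∈ Bᶜ, γ b c * H c y = 0)

/-- DERK. From EVL, OREK. Completeness of derivations for decreasing words, by induction on `k`.
`k = 0`: only constant words, `p` is in the image of `DtoF`, so `0`. Step: let `i < r`, `ρ i = k` be
the child of rank `k` (if there is none, nothing to do; if `X i` is empty, `1` is derivable). Every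
word of `p` is `F · H` with `F = g x_(i,t)` (or `F = 1`) and `H` in the smaller variables; apply OREK
with the set `X i` and the set of the `ξ` for the other children (and `F`, `H` indexed by the
words, coefficients in `H`); `F_c κ - ∑ F_b γ'_bc` is in `Lin N i` and vanishes on `X i`;
`δ H_b + ∑ γ_bc H_c` is in `Dec N r ρ k`, derivable by induction; Ore rule. -/
def SpecDERK : Prop :=
  ∀ (N r : ℕ) (ρ : ℕ → ℕ) (X : ℕ → Set (List D)) (H : Set FR), Function.Injective ρ →
    (∀ i < r, ∀ p, Lin N i p → (∀ x ∈ X i, ev toD (fun v => x.getD v.2 0) p = 0) → Der H p) →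
    ∀ (k : ℕ) (p : FR), Dec N r ρ k p →
      (∀ ξ : Var → D, (∀ i < r, ∃ x ∈ X i, ∀ t, ξ (i, t) = x.getD t 0) → ev toD ξ p = 0) →
      Der H p

/-- NOEF. From NOR. The linear forms `Fin (N + 1) → MonoidAlgebra ℤ (Mo × Moᵐᵒᵖ)` are a noetherian
module (left multiplication by `(u, op v)`: `T ↦ u T v`), those vanishing on `X` are a submodule,
hence finitely generated. Positions `≥ N` of an `LF` have the value `0` on vectors of length `N`;
write everything with signs and monomials. -/
def SpecNOEF : Prop :=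
  ∀ (N : ℕ) (X : Set (List D)), (∀ x ∈ X, x.length = N) →
    ∃ Ts : List LF, (∀ T ∈ Ts, ∀ x ∈ X, apLF (nops D) toD x T = 0) ∧
      ∀ T : LF, (∀ x ∈ X, apLF (nops D) toD x T = 0) →
        ∃ l : List (ℕ × Mo × LF × Mo), (∀ q ∈ l, q.2.2.1 ∈ Ts) ∧
          ∀ (R : Type) [Ring R] (φ : Mo →* R) (y : List R), y.length = N →
            apLF (nops R) φ y T = (l.map fun q =>
              (if q.1 = 0 then (1 : R) else -1) *
                (φ q.2.1 * apLF (nops R) φ y q.2.2.1 * φ q.2.2.2)).sum

/-- LINF. From EVL. Elements of `Lin N i` are given by linear forms. -/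
def SpecLINF : Prop :=
  ∀ (N i : ℕ) (p : FR), Lin N i p →
    ∃ T : LF, ∀ (R : Type) [Ring R] (φ : Mo →* R) (y : List R) (ξ : Var → R), y.length = N →
      (∀ t < N, ¬ isBit t → ξ (i, t) = y.getD t 0) → apLF (nops R) φ y T = ev φ ξ p

/-- LFH. Linear forms commute with homomorphisms of operations; values of the coded linear
forms. -/
def SpecLFH : Prop :=
  ∀ (α β : Type) (o : Ops α) (o' : Ops β) (f : α → β) (em : Mo → α) (em' : Mo → β),
    Ops.Hom o o' f → (∀ g, f (em g) = em' g) →
    ∀ (x : List α) (T : LF), f (apLF o em x T) = apLF o' em' (x.map f) T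

/-! ## Certificates -/

/-- ENC. From VAL. Derivations and lists of lines. Second part: by induction on `Der`; for a rule with
premises `p_1, ..., p_n` append the lists of lines of the premises (the last line is the head; a
list of correct lines stays correct if lines are appended at the end: `av` becomes longer at its
end) and put the new line in front; the premise `p_i` is the head of its list, so its reference is
`hy.length +` (total length of the lists in front of it). -/
def SpecENC : Prop :=
  (∀ (hy : List CP) (p : CP) (L : List Line), Prf hy p L →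
    Der {f | ∃ h ∈ hy, f = h.val} p.val) ∧
  (∀ (hy : List CP) (p : CP), Der {f | ∃ h ∈ hy, f = h.val} p.val → ∃ L, Prf hy p L)

/-- CSND. From ENC, DERS, BLK, LFH, VAL. Soundness of certificates: by induction on the tree `t`
there is a class `κ < K` such that the vector `vD s t` has the bits of `κ` and satisfies its forms
(digits: `z = ∑ κ_i K^i`); then the targets vanish. -/
def SpecCSND : Prop := ∀ (s : Sys) (c : CertD), ChkD s c → RawD s

/-- CCMP. From ENC, DERK, NOEF, LINF, LFH, BLK, VAL, EVL, BITZ, ORDV. Completeness of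
certificates. Classes: the bit vectors `β` (lists of length `N` of `0`, `1`, with `0` at the
positions that are not bits) of the vectors `vD s t`, finitely many; `X_β` = vectors of the trees
with these bits; `Ts` from NOEF for `X_β`. For a symbol `a` and a tuple of classes take trees with
these classes; the class of the result is determined by BITZ. The forms of the result class,
applied to the symbolic result, are in `Dec` (ORDV; the bit entries are integers by BITZ) and vanish
on the product of the `X_(β_i)` (BLK), so they are derivable by DERK from all `Lin` polynomials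
vanishing on the `X_(β_i)`, i.e. (LINF, NOEF) from the hypotheses. The same for the target `0`, a
polynomial in `Lin` (the factor `nbres` is an integer); target `1` is an integer, equal to
its value at a tree of the class, `0`. -/
def SpecCCMP : Prop :=
  ∀ (A B : List ℕ) (M₁ M₂ : DMTT A B), CoOrdered M₁ M₂ → RawD (norm (inp M₁ M₂ 0)) →
    ∃ c : CertD, ChkD (norm (inp M₁ M₂ 0)) c

/-- SRCH. From VAL, EVL. Counterexamples (see Search.lean): the machine on constant coded
polynomials computes `DtoF` of the vector over `D`. -/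
def SpecSRCH : Prop := ∀ s : Sys, ¬ RawD s ↔ ∃ k, SrchD s k

/-! ## Primitive recursion -/

/-- PINT. `(a + b : ℤ)`: toNat of `a`, `-a`, and the difference of natural numbers, with
`Equiv.intEquivNat`. -/
def SpecPINT : Prop := Primrec₂ (fun a b : ℤ => a + b)

/-- PMO. From PINT. -/
def SpecPMO : Prop := Primrec₂ (fun x y : Mo => x * y) ∧ Primrec letter

/-- PWD. From PMO. -/
def SpecPWD : Prop := Primrec₂ (fun u v : Wd => u * v)

/-- POPS. From PWD. -/
def SpecPOPS : Prop :=
  Primrec cops.nat ∧ Primrec₂ cops.add ∧ Primrec₂ cops.mul ∧ Primrec cops.neg ∧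
  PrimrecPred CP.isZero ∧ PrimrecPred CP.const ∧ Primrec emC ∧ Primrec varC

/-- PVEC. The machine is primitive recursive over primitive recursive operations (see PRIMVEC.lean
for `zz`). -/
def SpecPVEC : Prop :=
  ∀ (α : Type) [Primcodable α] (o : Ops α), Primrec o.nat → Primrec₂ o.add → Primrec₂ o.mul →
    Primrec o.neg →
    Primrec (fun p : Sys × ℕ × List α × List (List α) =>
      o.vecS p.1.P 1 p.1.n1 p.1.T p.2.1 p.2.2.1 p.2.2.2) ∧
    Primrec (fun p : Sys × List α × ℕ => o.target p.1.P 1 p.1.n1 p.2.1 p.2.2)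

/-- PPRF. From POPS. Derivations, linear forms, symbolic vectors. -/
def SpecPPRF : Prop :=
  PrimrecPred (fun p : List CP × CP × List Line => Prf p.1 p.2.1 p.2.2) ∧
  Primrec (fun p : List CP × LF => apLF cops emC p.1 p.2) ∧
  Primrec (fun p : ℕ × ℕ × List ℕ => blk p.1 p.2.1 p.2.2) ∧
  Primrec (fun p : ℕ × ℕ => VL cops emC p.1 p.2)

/-- PCHK. From POPS, PVEC, PPRF. -/
def SpecPCHK : Prop := PrimrecPred (fun p : Sys × CertD => ChkD p.1 p.2)

/-- PSRC. From POPS, PVEC, PPRF. -/
def SpecPSRC : Prop := PrimrecPred (fun p : Sys × (List ℕ × ℕ) => SrchD p.1 p.2)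

/-! ## The theorem on transducers -/

/-- MAIN. From SEM, CSND, CCMP, SRCH, PCHK, PSRC (`Partrec.merge`). -/
def SpecMAIN : Prop :=
  ∃ F : List ℕ × List ℕ × Code × Code →. Bool, Partrec F ∧
    ∀ (A B : List ℕ) (M₁ M₂ : DMTT A B),
      (true ∈ F (A, B, M₁.code, M₂.code) → ∀ s, Ranked A s → M₁.tau s = M₂.tau s) ∧
      (false ∈ F (A, B, M₁.code, M₂.code) ↔ ¬ ∀ s, Ranked A s → M₁.tau s = M₂.tau s) ∧
      (CoOrdered M₁ M₂ → (F (A, B, M₁.code, M₂.code)).Dom)

end Pool.Agent.Lib.MP_39893a_lc.ORD
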