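import Pool.Agent.Lib.MP_39893a_lc.ORD.INJ
import Pool.Agent.Lib.MP_39893a_lc.Sound
import Pool.Agent.Lib.MP_39893a_lc.ORD.Spec

section
/-!
# SRCH (MP_39893a_lc, hive ORD): the search for a counterexample
-/
set_option autoImplicit false

namespace Pool.Agent.Lib.MP_39893a_lc.ORD.SRCHM

open SearchM (tcode)

/-- The coded vector of a tree. -/
def vC (s : Sys) (t : Tree) : List CP := cops.vecT s.P 1 s.n1 s.T (VL cops emC s.P s.nB) t

theorem foldl_flatten {L : Type} (f : ℕ × List L → ℕ → ℕ × List L) :
    ∀ (r : ℕ) (code : Fin r → List ℕ) (l : Fin r → L),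
      (∀ i, ∀ st, (code i).foldl f (0, st) = (0, l i :: st)) →
      ∀ st, (List.ofFn code).flatten.foldl f (0, st) = (0, (List.ofFn l).reverse ++ st) := by
  intro r
  induction r with
  | zero => intro code l _ st; simp
  | succ r ih =>
    intro code l h st
    rw [List.ofFn_succ, List.flatten_cons, List.foldl_append, h 0,
      ih (fun i => code i.succ) (fun i => l i.succ) (fun i => h i.succ), List.ofFn_succ,
      List.reverse_cons, List.append_assoc]
    rfl

theorem srun_tcode (s : Sys) (t : Tree) : Ranked s.A t →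
    ∀ st, (tcode t).foldl (sstepD s) (0, st) = (0, vC s t :: st) := by
  induction t with
  | node a r c ih =>
    intro ht st
    obtain ⟨ha, hr, hc⟩ := ranked_rk ht
    rw [tcode, List.foldl_append, foldl_flatten _ r _
      (fun i => vC s (c i)) (fun i => ih i (hc i)), List.foldl_cons,
      List.foldl_nil, sstepD, hr]
    have hlen : ((List.ofFn fun i => vC s (c i)).reverse).length = r := by
      simp
    have h1 : (((List.ofFn fun i => vC s (c i)).reverse ++ st).take r).reverse
        = List.ofFn fun i => vC s (c i) := by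
      rw [List.take_append_of_le_length hlen.ge, List.take_of_length_le hlen.le,
        List.reverse_reverse]
    have h2 : ((List.ofFn fun i => vC s (c i)).reverse ++ st).drop r
        = st := by
      rw [List.drop_append_of_le_length hlen.ge, List.drop_of_length_le hlen.le, List.nil_append]
    dsimp only
    rw [h1, h2, vC, Ops.vecT, if_pos]
    · rfl
    · refine ⟨ha, ?_⟩
      rw [List.length_append, hlen]
      omega

theorem srun_sound (s : Sys) (w : List ℕ) : (srunD s w).1 = 0 →
    ∀ F ∈ (srunD s w).2, ∃ t, Ranked s.A t ∧ vC s t = F := by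
  induction w using List.reverseRecOn with
  | nil =>
    intro _ F hF
    simp [srunD] at hF
  | append_singleton w a ih =>
    intro h F hF
    have e1 : srunD s (w ++ [a]) = sstepD s (srunD s w) a := by
      rw [srunD, List.foldl_append]
      rfl
    rw [e1] at h hF
    rw [sstepD] at h hF
    dsimp only at h hF
    split at h
    · next hcond =>
      have ih' := ih h
      rcases List.mem_cons.1 hF with rfl | hF
      · set L := ((srunD s w).2.take (s.rk a)).reverse with hL
        have hlen : L.length = s.rk a := by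
          rw [hL, List.length_reverse, List.length_take]
          exact min_eq_left hcond.2
        have hmem : ∀ i : Fin (s.rk a), ∃ t, Ranked s.A t ∧
            vC s t = L[(i : ℕ)]'(by rw [hlen]; exact i.2) := by
          intro i
          apply ih'
          have h1 : L[(i : ℕ)]'(by rw [hlen]; exact i.2) ∈ L := List.getElem_mem _
          have h2 : ∀ G ∈ L, G ∈ (srunD s w).2 := fun G hG =>
            List.mem_of_mem_take (List.mem_reverse.1 hG)
          exact h2 _ h1
        choose c hc1 hc2 using hmem
        refine ⟨.node a (s.rk a) c, ⟨?_, hc1⟩, ?_⟩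
        · show s.A[a]? = some (s.A.getD a 0)
          rw [List.getD_eq_getElem?_getD, List.getElem?_eq_getElem hcond.1]
          rfl
        · rw [vC, Ops.vecT]
          congr 1
          apply List.ext_getElem
          · rw [List.length_ofFn, hlen]
          · intro i h1 h2
            rw [List.getElem_ofFn]
            exact hc2 ⟨i, by rw [← hlen]; exact h2⟩
      · exact ih' F (List.mem_of_mem_drop hF)
    · exact absurd h one_ne_zero

theorem DtoF_toD (g : Mo) : DtoF (toD g) = toF g := by
  show (MonoidAlgebra.lift ℤ FR Mo toF) (MonoidAlgebra.of ℤ Mo g) = toF g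
  rw [MonoidAlgebra.lift_of]

theorem specSRCH (hV : SpecVAL) : SpecSRCH := by
  obtain ⟨hv, hz, -, hem, -, -, -, hinj⟩ := hV
  intro s
  have hD : Ops.Hom (nops D) (nops FR) (fun x => DtoF x) := LFHM.ofRing DtoF
  have key : ∀ t, (vC s t).map CP.val = (vD s t).map (fun x => DtoF x) := by
    intro t
    rw [vC, vD, hv.vecT, hD.vecT, LFHM.map_VL hv (em' := fun g => toF g) hem,
      LFHM.map_VL hD (em' := fun g => toF g) (fun g => DtoF_toD g)]
  have key2 : ∀ (t : Tree) (e : ℕ), (cops.target s.P 1 s.n1 (vC s t) e).isZero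
      ↔ (nops D).target s.P 1 s.n1 (vD s t) e = 0 := by
    intro t e
    rw [hz, hv.target, key, ← hD.target]
    constructor
    · intro h
      apply hinj
      rw [h, map_zero]
    · intro h
      rw [h, map_zero]
  constructor
  · intro h
    unfold RawD at h
    push Not at h
    obtain ⟨t, ht, e, he, hne⟩ := h
    refine ⟨(tcode t, e), he, ?_⟩
    have hrun : srunD s (tcode t) = (0, [vC s t]) := srun_tcode s t ht []
    dsimp only
    rw [hrun]
    refine ⟨rfl, by simp, ?_⟩
    rw [List.getD_cons_zero, key2]
    exact hne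
  · rintro ⟨⟨w, e⟩, he, h0, hlen, hne⟩ hraw
    dsimp only at he h0 hlen hne
    apply hne
    have hmem : (srunD s w).2.getD 0 [] ∈ (srunD s w).2 := by
      rw [List.getD_eq_getElem?_getD, List.getElem?_eq_getElem hlen]
      exact List.getElem_mem hlen
    obtain ⟨t, ht, hvt⟩ := srun_sound s w h0 _ hmem
    rw [← hvt, key2]
    exact hraw t ht e he

end Pool.Agent.Lib.MP_39893a_lc.ORD.SRCHM
end

section
/-!
# VAL: coded polynomials (MP_39893a_lc, hive ORD)
-/
set_option autoImplicit false

namespace Pool.Agent.Lib.MP_39893a_lc.ORD.VALM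

/-- The sum of a list of words. -/
noncomputable def sw (l : List Wd) : FR := (l.map fun w => MonoidAlgebra.of ℤ Wd w).sum

theorem val_eq (p : CP) : p.val = sw p.1 - sw p.2 := rfl

theorem sw_nil : sw [] = 0 := by simp [sw]

theorem sw_cons (w : Wd) (l : List Wd) : sw (w :: l) = MonoidAlgebra.of ℤ Wd w + sw l := by
  simp [sw]

theorem sw_append (l m : List Wd) : sw (l ++ m) = sw l + sw m := by
  simp [sw]

theorem sw_map_mul (u : Wd) (m : List Wd) :
    sw (m.map fun v => u * v) = MonoidAlgebra.of ℤ Wd u * sw m := by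
  induction m with
  | nil => simp [sw_nil]
  | cons v m ih => rw [List.map_cons, sw_cons, ih, sw_cons, mul_add, map_mul]

theorem sw_mulL (l m : List Wd) : sw (mulL l m) = sw l * sw m := by
  induction l with
  | nil => simp [mulL, sw_nil]
  | cons u l ih =>
    have h : mulL (u :: l) m = (m.map fun v => u * v) ++ mulL l m := by simp [mulL]
    rw [h, sw_append, ih, sw_map_mul, sw_cons, add_mul]

theorem sw_replicate (w : Wd) (n : ℕ) :
    sw (List.replicate n w) = (n : ℤ) • MonoidAlgebra.of ℤ Wd w := by
  induction n with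
  | zero => simp [sw_nil]
  | succ n ih => rw [List.replicate_succ, sw_cons, ih]; push_cast; rw [add_smul, one_smul, add_comm]

theorem hom : Ops.Hom cops (nops FR) CP.val where
  nat n := by
    show CP.val (List.replicate n 1, []) = ((n : ℕ) : FR)
    rw [val_eq]
    simp only [sw_nil, sub_zero, sw_replicate, map_one]
    simp
  add p q := by
    show CP.val (p.1 ++ q.1, p.2 ++ q.2) = p.val + q.val
    simp only [val_eq, sw_append]
    abel
  mul p q := by
    show CP.val (mulL p.1 q.1 ++ mulL p.2 q.2, mulL p.1 q.2 ++ mulL p.2 q.1) = p.val * q.val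
    simp only [val_eq, sw_append, sw_mulL, sub_mul, mul_sub]
    abel
  neg p := by
    show CP.val (p.2, p.1) = - p.val
    simp only [val_eq]
    abel

theorem coeff_sw (l : List Wd) (w : Wd) : (sw l).coeff w = (l.count w : ℤ) := by
  induction l with
  | nil => simp [sw_nil]
  | cons u l ih =>
    rw [sw_cons, MonoidAlgebra.coeff_add, Finsupp.add_apply, ih, List.count_cons,
      MonoidAlgebra.of_apply, MonoidAlgebra.coeff_single, Finsupp.single_apply]
    by_cases h : u = w
    · subst h
      simp
      ring
    · have h' : (u == w) = false := by simpa using h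
      simp [h, h']

theorem coeff_val (p : CP) (w : Wd) :
    p.val.coeff w = (p.1.count w : ℤ) - (p.2.count w : ℤ) := by
  rw [val_eq, MonoidAlgebra.coeff_sub, Finsupp.sub_apply, coeff_sw, coeff_sw]

theorem isZero_iff (p : CP) : p.isZero ↔ p.val = 0 := by
  constructor
  · intro h
    apply MonoidAlgebra.coeff_injective
    ext w
    rw [coeff_val]
    by_cases hw : w ∈ p.1 ++ p.2
    · rw [h w hw]
      simp
    · rw [List.mem_append, not_or] at hw
      rw [List.count_eq_zero_of_not_mem hw.1, List.count_eq_zero_of_not_mem hw.2]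
      simp
  · intro h w _
    have h1 := coeff_val p w
    rw [h] at h1
    have h2 : ((0 : FR).coeff w) = 0 := by simp
    rw [h2] at h1
    omega

/-- A multiple of a word. -/
def sgl (w : Wd) (n : ℤ) : CP := (List.replicate n.toNat w, List.replicate (-n).toNat w)

theorem val_sgl (w : Wd) (n : ℤ) : (sgl w n).val = n • MonoidAlgebra.of ℤ Wd w := by
  rw [val_eq]
  show sw (List.replicate n.toNat w) - sw (List.replicate (-n).toNat w) = _
  rw [sw_replicate, sw_replicate, ← sub_smul]
  congr 1
  omega

theorem val_add (p q : CP) : CP.val (p.1 ++ q.1, p.2 ++ q.2) = p.val + q.val := hom.add p q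

theorem single_eq {M : Type} [Monoid M] (g : M) (n : ℤ) :
    (MonoidAlgebra.single g n : MonoidAlgebra ℤ M) = n • MonoidAlgebra.of ℤ M g := by
  rw [MonoidAlgebra.of_apply, MonoidAlgebra.smul_single]
  simp

theorem surj (f : FR) : ∃ p : CP, p.val = f := by
  induction f using MonoidAlgebra.induction_linear with
  | zero => exact ⟨([], []), by rw [val_eq]; simp [sw_nil]⟩
  | add f g hf hg =>
    obtain ⟨p, rfl⟩ := hf
    obtain ⟨q, rfl⟩ := hg
    exact ⟨_, val_add p q⟩
  | single w n => exact ⟨sgl w n, by rw [val_sgl, single_eq]⟩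

theorem DtoF_of (g : Mo) : DtoF (MonoidAlgebra.of ℤ Mo g) = toF g := by
  show (MonoidAlgebra.lift ℤ FR Mo toF : D →ₐ[ℤ] FR) _ = _
  exact MonoidAlgebra.lift_of _ _

theorem toF_eq (g : Mo) : toF g = MonoidAlgebra.of ℤ Wd (cw g) := rfl

theorem surjC (x : D) : ∃ p : CP, p.const ∧ p.val = DtoF x := by
  induction x using MonoidAlgebra.induction_linear with
  | zero => exact ⟨([], []), by intro w hw; simp at hw, by rw [val_eq, map_zero]; simp [sw_nil]⟩
  | add f g hf hg =>
    obtain ⟨p, hp, hpv⟩ := hf
    obtain ⟨q, hq, hqv⟩ := hg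
    refine ⟨(p.1 ++ q.1, p.2 ++ q.2), ?_, by rw [val_add, hpv, hqv, map_add]⟩
    intro w hw
    simp only [List.mem_append] at hw
    rcases hw with (h | h) | (h | h)
    · exact hp w (List.mem_append.2 (Or.inl h))
    · exact hq w (List.mem_append.2 (Or.inl h))
    · exact hp w (List.mem_append.2 (Or.inr h))
    · exact hq w (List.mem_append.2 (Or.inr h))
  | single g n =>
    refine ⟨sgl (cw g) n, ?_, by rw [val_sgl, single_eq, map_zsmul, DtoF_of, toF_eq]⟩
    intro w hw
    rcases List.mem_append.1 hw with h | h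
    · rw [List.eq_of_mem_replicate h]
      rfl
    · rw [List.eq_of_mem_replicate h]
      rfl

theorem const_sw (l : List Wd) (h : ∀ w ∈ l, w.1 = []) : ∃ x : D, sw l = DtoF x := by
  induction l with
  | nil => exact ⟨0, by rw [sw_nil, map_zero]⟩
  | cons w l ih =>
    obtain ⟨x, hx⟩ := ih fun v hv => h v (List.mem_cons_of_mem _ hv)
    refine ⟨MonoidAlgebra.of ℤ Mo w.2 + x, ?_⟩
    rw [sw_cons, hx, map_add, DtoF_of, toF_eq]
    have hw : w = cw w.2 := Prod.ext (h w List.mem_cons_self) rfl
    rw [← hw]

theorem constC (p : CP) (h : p.const) : ∃ x : D, p.val = DtoF x := by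
  obtain ⟨x, hx⟩ := const_sw p.1 fun w hw => h w (List.mem_append.2 (Or.inl hw))
  obtain ⟨y, hy⟩ := const_sw p.2 fun w hw => h w (List.mem_append.2 (Or.inr hw))
  exact ⟨x - y, by rw [val_eq, hx, hy, map_sub]⟩

theorem inj : Function.Injective DtoF := by
  have h : ((MonoidAlgebra.lift ℤ D Wd (evW toD fun _ => 0) : FR →ₐ[ℤ] D).comp
      (MonoidAlgebra.lift ℤ FR Mo toF : D →ₐ[ℤ] FR)) = AlgHom.id ℤ D := by
    refine MonoidAlgebra.algHom_ext (fun g => ?_) (Subsingleton.elim _ _)
    have h1 : (MonoidAlgebra.single g (1 : ℤ) : D) = MonoidAlgebra.of ℤ Mo g := rfl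
    rw [h1, AlgHom.comp_apply, MonoidAlgebra.lift_of, toF_eq, MonoidAlgebra.lift_of]
    show (List.map _ ([] : List (Mo × Var))).prod * toD g = _
    simp [toD]
  intro x y hxy
  have hx := congrArg (fun f => f x) h
  have hy := congrArg (fun f => f y) h
  simp only [AlgHom.comp_apply, AlgHom.id_apply] at hx hy
  rw [← hx, ← hy]
  exact congrArg _ hxy

theorem val_one (w : Wd) : CP.val ([w], []) = MonoidAlgebra.of ℤ Wd w := by
  rw [val_eq]
  show sw [w] - sw [] = _
  rw [sw_cons, sw_nil, add_zero, sub_zero]

theorem specVAL : SpecVAL := by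
  refine ⟨hom, isZero_iff, surj, fun g => ?_, fun v => ?_, surjC, constC, inj⟩
  · exact val_one (cw g)
  · exact val_one ([(1, v)], 1)

end Pool.Agent.Lib.MP_39893a_lc.ORD.VALM
end
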