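import Pool.Agent.Lib.MP_39893a_lc.ORD.Spec
import Pool.Agent.Lib.MP_39893a_lc.Final
import Pool.Agent.Lib.MP_39893a_lc.ORD.AGW
import Pool.Agent.Lib.MP_39893a_lc.ORD.INJ
import Pool.Agent.Lib.MP_39893a_lc.ORD.LET
import Pool.Agent.Lib.MP_39893a_lc.ORD.OREK
import Pool.Agent.Lib.MP_39893a_lc.ORD.SEM
import Pool.Agent.Lib.MP_39893a_lc.ORD.PINT
import Pool.Agent.Lib.MP_39893a_lc.ORD.VAL

section
/-!
# MAIN: the decision procedure (MP_39893a_lc, hive ORD)
-/
set_option autoImplicit false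

namespace Pool.Agent.Lib.MP_39893a_lc.ORD.MAINM

open Pool.Agent.Lib.MP_39893a_lc Pool.Agent.Lib.MP_39893a_lc.ORD

/-- Two disjoint recursively enumerable predicates give a partial computable function. -/
theorem exists_partrec {α : Type} [Primcodable α] {p q : α → Prop} (hp : REPred p)
    (hq : REPred q) (hpq : ∀ a, p a → q a → False) :
    ∃ F : α →. Bool, Partrec F ∧ ∀ a, (true ∈ F a ↔ p a) ∧ (false ∈ F a ↔ q a) := by
  have h1 : Partrec fun a => (Part.assert (p a) fun _ => Part.some ()).map fun _ => true :=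
    Partrec.map hp (Computable.const true).to₂
  have h2 : Partrec fun a => (Part.assert (q a) fun _ => Part.some ()).map fun _ => false :=
    Partrec.map hq (Computable.const false).to₂
  obtain ⟨k, hk, hk'⟩ := Partrec.merge h1 h2 (by
    intro a x hx y hy
    obtain ⟨_, h, _⟩ := (Part.mem_map_iff _).1 hx
    obtain ⟨_, h', _⟩ := (Part.mem_map_iff _).1 hy
    exact (hpq a (Part.mem_assert_iff.1 h).1 (Part.mem_assert_iff.1 h').1).elim)
  refine ⟨k, hk, fun a => ⟨?_, ?_⟩⟩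
  · rw [hk']
    constructor
    · rintro (h | h)
      · obtain ⟨_, h, _⟩ := (Part.mem_map_iff _).1 h
        exact (Part.mem_assert_iff.1 h).1
      · obtain ⟨_, _, h⟩ := (Part.mem_map_iff _).1 h
        exact absurd h (by decide)
    · intro h
      exact Or.inl ((Part.mem_map_iff _).2 ⟨(), Part.mem_assert_iff.2 ⟨h, Part.mem_some _⟩, rfl⟩)
  · rw [hk']
    constructor
    · rintro (h | h)
      · obtain ⟨_, _, h⟩ := (Part.mem_map_iff _).1 h
        exact absurd h (by decide)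
      · obtain ⟨_, h, _⟩ := (Part.mem_map_iff _).1 h
        exact (Part.mem_assert_iff.1 h).1
    · intro h
      exact Or.inr ((Part.mem_map_iff _).2 ⟨(), Part.mem_assert_iff.2 ⟨h, Part.mem_some _⟩, rfl⟩)

theorem primrec_sys : Primrec fun x : List ℕ × List ℕ × Code × Code => norm (0, x) :=
  primrec_norm.comp (Primrec.pair (Primrec.const 0) Primrec.id)

theorem specMAIN (hSEM : SpecSEM) (hCSND : SpecCSND) (hCCMP : SpecCCMP) (hSRCH : SpecSRCH)
    (hPCHK : SpecPCHK) (hPSRC : SpecPSRC) : SpecMAIN := by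
  have h1 : REPred fun x : List ℕ × List ℕ × Code × Code => ∃ c : CertD, ChkD (norm (0, x)) c :=
    re_exists (p := fun (x : List ℕ × List ℕ × Code × Code) (c : CertD) => ChkD (norm (0, x)) c)
      (hPCHK.comp (Primrec.pair (primrec_sys.comp Primrec.fst) Primrec.snd))
  have h2 : REPred fun x : List ℕ × List ℕ × Code × Code =>
      ∃ k : List ℕ × ℕ, SrchD (norm (0, x)) k :=
    re_exists (p := fun (x : List ℕ × List ℕ × Code × Code) (k : List ℕ × ℕ) =>
      SrchD (norm (0, x)) k)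
      (hPSRC.comp (Primrec.pair (primrec_sys.comp Primrec.fst) Primrec.snd))
  obtain ⟨F, hF, hF'⟩ := exists_partrec h1 h2 (by
    rintro x ⟨c, hc⟩ hk
    exact (hSRCH _).2 hk (hCSND _ c hc))
  refine ⟨F, hF, fun A B M₁ M₂ => ?_⟩
  obtain ⟨ht, hf⟩ := hF' (A, B, M₁.code, M₂.code)
  have hs : ¬ RawD (norm (inp M₁ M₂ 0)) ↔ ∃ k, SrchD (norm (inp M₁ M₂ 0)) k := hSRCH _
  refine ⟨fun h => ?_, ?_, fun hco => ?_⟩
  · obtain ⟨c, hc⟩ := ht.1 h
    exact (hSEM A B M₁ M₂).1 (hCSND _ c hc)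
  · rw [hf, ← hSEM A B M₁ M₂]
    exact hs.symm
  · by_cases h : RawD (norm (inp M₁ M₂ 0))
    · exact Part.dom_iff_mem.2 ⟨true, ht.2 (hCCMP A B M₁ M₂ hco h)⟩
    · exact Part.dom_iff_mem.2 ⟨false, hf.2 (hs.1 h)⟩

end Pool.Agent.Lib.MP_39893a_lc.ORD.MAINM
end

section
/-!
# Assembly (MP_39893a_lc, hive ORD)
-/
set_option autoImplicit false

namespace Pool.Agent.Lib.MP_39893a_lc.ORD

theorem gNZD : SpecNZD := NZDM.specNZD
theorem gNOR : SpecNOR := NORM.specNOR HILBM.specHILB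
theorem gOREC : SpecOREC := ORECM.specOREC gNZD gNOR
theorem gOREK : SpecOREK := OREKM.specOREK gNZD gOREC
theorem gVAL : SpecVAL := VALM.specVAL
theorem gEVL : SpecEVL := specEVL
theorem gBLK : SpecBLK := BLKM.specBLK gVAL gEVL
theorem gENC : SpecENC := ENCM.specENC gVAL
theorem gDERS : SpecDERS := DERSM.specDERS gNZD gOREC gEVL
theorem gDERK : SpecDERK := specDERK gEVL gOREK
theorem gLFH : SpecLFH := LFHM.specLFH
theorem gCSND : SpecCSND := CSNDM.specCSND gVAL gENC gDERS gBLK gLFH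
theorem gCCMP : SpecCCMP :=
  CCMPM.specCCMP gENC gDERK (NOEFM.specNOEF gNOR) (LINFM.specLINF gEVL) gLFH gBLK gVAL gEVL
    BITZM.specBITZ (specORDV gVAL)
theorem gSEM : SpecSEM := specSEM (INJM.specINJ LETM.specLET)
theorem gPMO : SpecPMO := PMOM.specPMO PINTM.specPINT
theorem gPOPS : SpecPOPS := POPSM.specPOPS (PWDM.specPWD gPMO)
theorem gPPRF : SpecPPRF := PPRFM.specPPRF gPOPS gPMO
theorem gPCHK : SpecPCHK := PCHKM.specPCHK gPOPS PVECM.specPVEC gPPRF

theorem gMAIN : SpecMAIN :=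
  MAINM.specMAIN gSEM gCSND gCCMP (SRCHM.specSRCH gVAL) gPCHK
    (specPSRC gPOPS PVECM.specPVEC gPPRF)

theorem gMAINA : SpecMAINA :=
  MAINAM.specMAINA gMAIN specAGW specAGO AGEM.specAGE specAGC AGPM.specAGP

end Pool.Agent.Lib.MP_39893a_lc.ORD
end
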